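import Pool.Agent.H22.QK.QBias

/-!
# QCount: counting by characters of the target (about 100 lines)

PROOF of `count_coset`. For `y : Y` put `E^⊥ = E.dualAnnihilator` (a subspace of `Dual Y` with
`|E^⊥| = |Y| / |E|`). Then `iv (y ∈ E) = (|E|/|Y|) ∑_{l ∈ E^⊥} sgn (l y)` (if `y ∈ E` all terms
are `1`; if not, some `l ∈ E^⊥` has `l y = 1` and the sum vanishes by translation). Average over
`x` with `y = Θ x + s`; the term `l = 0` gives `|E|/|Y|`, each of the other `|E^⊥| - 1` terms is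
at most `δ |E|/|Y|` in absolute value (`sgn (l (Θ x + s)) = sgn (l (Θ x)) sgn (l s)`).

PROOF of `count_point`: `count_coset` with `E = ⊥`, `s = -y`, `|⊥| = 1`.

PROOF of `count_piece`: `count_coset` for `Θ x = g x`, `bias` with `z = 0`.

(`count_coset` and `count_point` need `0 ≤ δ`: for `E = ⊤` there is no `l`.)
-/

set_option autoImplicit false

open Finset Function Module
open scoped BigOperators
open Pool.Agent.H77.KM

namespace Pool.Agent.H22.QK

section

variable {V : Type} [AddCommGroup V] [Module (ZMod 2) V] [Fintype V]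
variable {Y : Type} [AddCommGroup Y] [Module (ZMod 2) Y] [Fintype Y]
variable {g : V → Y} {b : V →ₗ[ZMod 2] V →ₗ[ZMod 2] Y}

theorem count_coset {X : Type} [Fintype X] [Nonempty X] (Θ : X → Y) (E : Submodule (ZMod 2) Y)
    (s : Y) {δ : ℝ} (h0 : 0 ≤ δ) (hδ : ∀ l : Dual (ZMod 2) Y, l ≠ 0 → (∀ e ∈ E, l e = 0) →
      |𝔼 x, sgn (l (Θ x))| ≤ δ) :
    |𝔼 x, iv (Θ x + s ∈ E) - (Fintype.card E : ℝ) / Fintype.card Y| ≤ δ := by
  classical
  have hfinQ : Finite (Y ⧸ E) := Finite.of_surjective E.mkQ (Submodule.mkQ_surjective E)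
  let : Fintype (Y ⧸ E) := Fintype.ofFinite _
  -- cardinalities
  have hcard : (Fintype.card Y : ℝ) = Fintype.card (Y ⧸ E) * Fintype.card E := by
    have h1 := AddSubgroup.card_eq_card_quotient_mul_card_addSubgroup (α := Y) E.toAddSubgroup
    have h2 : Nat.card (Y ⧸ E.toAddSubgroup) = Fintype.card (Y ⧸ E) := by
      rw [← Nat.card_eq_fintype_card]
      rfl
    have h3 : Nat.card E.toAddSubgroup = Fintype.card E := by
      rw [← Nat.card_eq_fintype_card]
      rfl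
    rw [h2, h3, Nat.card_eq_fintype_card] at h1
    rw [h1]
    push_cast
    ring
  have hQ : (0 : ℝ) < Fintype.card (Y ⧸ E) := by
    exact_mod_cast Fintype.card_pos
  have hE : (0 : ℝ) < Fintype.card E := by
    exact_mod_cast Fintype.card_pos
  have hratio : (Fintype.card E : ℝ) / Fintype.card Y = 1 / Fintype.card (Y ⧸ E) := by
    rw [hcard]
    field_simp
  -- the indicator
  have hiv : ∀ x, iv (Θ x + s ∈ E) =
      (1 / (Fintype.card (Y ⧸ E) : ℝ)) * ∑ m : Dual (ZMod 2) (Y ⧸ E), chi m (E.mkQ (Θ x + s)) := by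
    intro x
    by_cases hx : Θ x + s ∈ E
    · have h1 : E.mkQ (Θ x + s) = 0 := by
        rw [Submodule.mkQ_apply]
        exact (Submodule.Quotient.mk_eq_zero E).2 hx
      rw [iv_pos hx, h1, sum_chi_zero]
      field_simp
    · have h1 : E.mkQ (Θ x + s) ≠ 0 := by
        rw [Submodule.mkQ_apply]
        intro h
        exact hx ((Submodule.Quotient.mk_eq_zero E).1 h)
      rw [iv_neg hx, sum_chi_eq_zero h1, mul_zero]
  -- the average
  have havg : 𝔼 x, iv (Θ x + s ∈ E) = (1 / (Fintype.card (Y ⧸ E) : ℝ)) *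
      ∑ m : Dual (ZMod 2) (Y ⧸ E), 𝔼 x, chi m (E.mkQ (Θ x + s)) := by
    rw [Finset.expect_congr rfl (fun x _ => hiv x), ← Finset.mul_expect, Finset.expect_sum_comm]
  have hzero : 𝔼 x : X, chi (0 : Dual (ZMod 2) (Y ⧸ E)) (E.mkQ (Θ x + s)) = 1 := by
    simp only [chi_zero_left]
    exact Finset.expect_const Finset.univ_nonempty _
  have hother : ∀ m ∈ (Finset.univ.erase (0 : Dual (ZMod 2) (Y ⧸ E))),
      |𝔼 x, chi m (E.mkQ (Θ x + s))| ≤ δ := by
    intro m hm
    have hm0 : m ≠ 0 := (Finset.mem_erase.1 hm).1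
    have hl0 : m ∘ₗ E.mkQ ≠ 0 := by
      intro h
      apply hm0
      apply LinearMap.ext
      intro z
      obtain ⟨y, rfl⟩ := Submodule.mkQ_surjective E z
      have := LinearMap.congr_fun h y
      simpa using this
    have hlE : ∀ e ∈ E, (m ∘ₗ E.mkQ) e = 0 := by
      intro e he
      have h1 : E.mkQ e = 0 := by
        rw [Submodule.mkQ_apply]
        exact (Submodule.Quotient.mk_eq_zero E).2 he
      rw [LinearMap.comp_apply, h1, map_zero]
    have h2 := hδ _ hl0 hlE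
    have h3 : 𝔼 x, chi m (E.mkQ (Θ x + s)) =
        (𝔼 x, sgn ((m ∘ₗ E.mkQ) (Θ x))) * sgn (m (E.mkQ s)) := by
      rw [Finset.expect_mul]
      refine Finset.expect_congr rfl fun x _ => ?_
      rw [map_add, chi_add]
      rfl
    rw [h3, abs_mul, abs_sgn, mul_one]
    exact h2
  have hsplit : ∑ m : Dual (ZMod 2) (Y ⧸ E), 𝔼 x, chi m (E.mkQ (Θ x + s)) =
      (∑ m ∈ (Finset.univ.erase (0 : Dual (ZMod 2) (Y ⧸ E))), 𝔼 x, chi m (E.mkQ (Θ x + s))) + 1 := by
    rw [← Finset.sum_erase_add _ _ (Finset.mem_univ (0 : Dual (ZMod 2) (Y ⧸ E))), hzero]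
  rw [havg, hratio, hsplit, mul_add, mul_one, add_sub_cancel_right, abs_mul,
    abs_of_pos (by positivity : (0 : ℝ) < 1 / (Fintype.card (Y ⧸ E) : ℝ))]
  have hsum : |∑ m ∈ (Finset.univ.erase (0 : Dual (ZMod 2) (Y ⧸ E))),
      𝔼 x, chi m (E.mkQ (Θ x + s))| ≤ Fintype.card (Y ⧸ E) * δ := by
    refine (Finset.abs_sum_le_sum_abs _ _).trans ?_
    refine (Finset.sum_le_card_nsmul _ _ _ hother).trans ?_
    rw [nsmul_eq_mul]
    refine mul_le_mul_of_nonneg_right ?_ h0
    have h1 : (Finset.univ.erase (0 : Dual (ZMod 2) (Y ⧸ E))).card ≤ Fintype.card (Y ⧸ E) := by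
      refine (Finset.card_le_univ _).trans ?_
      rw [card_dual]
    exact_mod_cast h1
  calc 1 / (Fintype.card (Y ⧸ E) : ℝ) * |∑ m ∈ (Finset.univ.erase (0 : Dual (ZMod 2) (Y ⧸ E))),
        𝔼 x, chi m (E.mkQ (Θ x + s))|
      ≤ 1 / (Fintype.card (Y ⧸ E) : ℝ) * (Fintype.card (Y ⧸ E) * δ) :=
        mul_le_mul_of_nonneg_left hsum (by positivity)
    _ = δ := by field_simp

theorem count_point {X : Type} [Fintype X] [Nonempty X] (Θ : X → Y) (y : Y) {δ : ℝ}
    (h0 : 0 ≤ δ) (hδ : ∀ l : Dual (ZMod 2) Y, l ≠ 0 → |𝔼 x, sgn (l (Θ x))| ≤ δ) :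
    |𝔼 x, iv (Θ x = y) - 1 / Fintype.card Y| ≤ δ := by
  classical
  have h1 := count_coset Θ (⊥ : Submodule (ZMod 2) Y) (-y) h0 (fun l hl _ => hδ l hl)
  have h2 : Fintype.card (⊥ : Submodule (ZMod 2) Y) = 1 := by
    rw [Fintype.card_eq_one_iff_nonempty_unique]
    exact ⟨inferInstance⟩
  have h3 : ∀ x, iv (Θ x + -y ∈ (⊥ : Submodule (ZMod 2) Y)) = iv (Θ x = y) := by
    intro x
    apply iv_congr
    rw [Submodule.mem_bot, add_neg_eq_zero]
  rw [Finset.expect_congr rfl (fun x _ => h3 x), h2, Nat.cast_one] at h1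
  exact h1

theorem count_piece (hg : IsQM g b) {s : ℕ} (hs : Reg b s) (E : Submodule (ZMod 2) Y) (y : Y) :
    |𝔼 x, iv (g x + y ∈ E) - (Fintype.card E : ℝ) / Fintype.card Y| ≤ (1 / 2) ^ s := by
  refine count_coset g E y (by positivity) fun l hl _ => ?_
  have h1 := bias hg l 0 (hs l hl)
  simpa using h1

theorem count_zero (hg : IsQM g b) {s : ℕ} (hs : Reg b s) :
    |𝔼 x, iv (g x = 0) - 1 / Fintype.card Y| ≤ (1 / 2) ^ s := by
  refine count_point g 0 (by positivity) fun l hl => ?_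
  have h1 := bias hg l 0 (hs l hl)
  simpa using h1

end

end Pool.Agent.H22.QK
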