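import Pool.Agent.H22.QK.QBase

/-!
# QBias: the bias of a quadratic form of high rank (about 70 lines)

PROOF of `bias`. Let `q x = l (g x) + z x`. Then
`(𝔼_x sgn (q x))^2 = 𝔼_x 𝔼_h sgn (q x + q (x+h)) = 𝔼_h sgn (q h + l (g 0)) 𝔼_x sgn (l (b x h))`
(`q (x+h) + q x = l (g h) + l (g 0) + z h + l (b x h)`). The inner average is `𝔼 chi (bl b l h)`
(symmetry of `b`), equal to `1` or `0` according to `h ∈ ker (bl b l)`. So the square is at most
`|ker| / |V| ≤ (1/2)^(2s)` (`Module.card_eq_pow_finrank`).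

PROOF of `ker_count`: the set `{x : bl b l x = z}` is empty or a coset of the kernel.

PROOF of `nondeg_count`: union bound over the nonzero `m ∈ Dual Y` (there are fewer than
`|Y|` of them, `card_dual`) of `ker_count` for `z = - m ∘ h`.
-/

set_option autoImplicit false

open Finset Function Module
open scoped BigOperators
open Pool.Agent.H77.KM

namespace Pool.Agent.H22.QK

section

variable {V : Type} [AddCommGroup V] [Module (ZMod 2) V] [Fintype V]
variable {Y : Type} [AddCommGroup Y] [Module (ZMod 2) Y] [Fintype Y]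
variable {g : V → Y} {b : V →ₗ[ZMod 2] V →ₗ[ZMod 2] Y}

private theorem ker_count_aux (l : Dual (ZMod 2) Y) (z : Dual (ZMod 2) V) {s : ℕ}
    (hs : finrank (ZMod 2) (LinearMap.ker (bl b l)) + 2 * s ≤ finrank (ZMod 2) V) :
    𝔼 x, iv (bl b l x = z) ≤ (1 / 2) ^ (2 * s) := by
  classical
  by_cases hex : ∃ x0, bl b l x0 = z
  · obtain ⟨x0, hx0⟩ := hex
    have h1 : 𝔼 x, iv (bl b l x = z) = 𝔼 x, iv (x ∈ LinearMap.ker (bl b l)) := by
      rw [← expect_add_left (fun x => iv (bl b l x = z)) x0]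
      refine Finset.expect_congr rfl (fun x _ => iv_congr ?_)
      rw [map_add, hx0, LinearMap.mem_ker]
      exact add_eq_left
    have h2 : ∑ x : V, iv (x ∈ LinearMap.ker (bl b l))
        = (Fintype.card (LinearMap.ker (bl b l)) : ℝ) := by
      have h3 : ∀ x : V, iv (x ∈ LinearMap.ker (bl b l))
          = if x ∈ LinearMap.ker (bl b l) then (1 : ℝ) else 0 := by
        intro x
        by_cases hx : x ∈ LinearMap.ker (bl b l)
        · rw [iv_pos hx, if_pos hx]
        · rw [iv_neg hx, if_neg hx]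
      simp only [h3]
      rw [Finset.sum_boole]
      norm_cast
      rw [Fintype.card_subtype]
    have h4 : (Fintype.card (LinearMap.ker (bl b l)) : ℝ)
        = 2 ^ finrank (ZMod 2) (LinearMap.ker (bl b l)) := by
      have h5 := Module.card_eq_pow_finrank (K := ZMod 2) (V := LinearMap.ker (bl b l))
      rw [ZMod.card] at h5
      exact_mod_cast h5
    have h6 : (Fintype.card V : ℝ) = 2 ^ finrank (ZMod 2) V := by
      have h5 := Module.card_eq_pow_finrank (K := ZMod 2) (V := V)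
      rw [ZMod.card] at h5
      exact_mod_cast h5
    rw [h1, Finset.expect_eq_sum_div_card, h2, h4, Finset.card_univ, h6]
    rw [div_le_iff₀ (by positivity)]
    have h7 : (1 / 2 : ℝ) ^ (2 * s) * 2 ^ finrank (ZMod 2) V
        = 2 ^ (finrank (ZMod 2) V - 2 * s) := by
      have h8 : finrank (ZMod 2) V = (finrank (ZMod 2) V - 2 * s) + 2 * s := by omega
      have h9 : (2 : ℝ) ^ finrank (ZMod 2) V
          = 2 ^ (finrank (ZMod 2) V - 2 * s) * 2 ^ (2 * s) := by
        rw [← pow_add, ← h8]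
      rw [h9, mul_comm, mul_assoc, ← mul_pow]
      norm_num
    rw [h7]
    exact pow_le_pow_right₀ (by norm_num) (by omega)
  · have h1 : 𝔼 x, iv (bl b l x = z) = 0 := by
      refine Finset.expect_eq_zero (fun x _ => ?_)
      exact iv_neg (fun hx => hex ⟨x, hx⟩)
    rw [h1]
    positivity

omit [Fintype V] in
private theorem qm_symm (hg : IsQM g b) (x y : V) : b x y = b y x := by
  have h1 := hg x y
  have h2 := hg y x
  rw [add_comm y x, add_comm (g y) (g x)] at h2
  rw [h1] at h2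
  exact add_left_cancel h2

private theorem z2_self {M : Type} [AddCommGroup M] [Module (ZMod 2) M] (x : M) : x + x = 0 :=
  ZModModule.add_self x

omit [AddCommGroup V] [Module (ZMod 2) V] in
private theorem exp_le_of {f f' : V → ℝ} (h : ∀ x, f x ≤ f' x) : 𝔼 x, f x ≤ 𝔼 x, f' x :=
  Finset.expect_le_expect (fun x _ => h x)

theorem bias (hg : IsQM g b) (l : Dual (ZMod 2) Y) (z : Dual (ZMod 2) V) {s : ℕ}
    (hs : finrank (ZMod 2) (LinearMap.ker (bl b l)) + 2 * s ≤ finrank (ZMod 2) V) :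
    |𝔼 x, sgn (l (g x) + z x)| ≤ (1 / 2) ^ s := by
  have h1 : (𝔼 x, sgn (l (g x) + z x)) * (𝔼 x, sgn (l (g x) + z x))
      = 𝔼 h, sgn (l (g h) + z h + l (g 0)) * 𝔼 x, chi (bl b l h) x := by
    have h2 : (𝔼 x, sgn (l (g x) + z x)) * (𝔼 x, sgn (l (g x) + z x))
        = 𝔼 x, 𝔼 h, sgn (l (g x) + z x) * sgn (l (g (x + h)) + z (x + h)) := by
      rw [Finset.expect_mul]
      refine Finset.expect_congr rfl (fun x _ => ?_)
      rw [← Finset.mul_expect]
      congr 1
      exact (expect_add_left (fun y => sgn (l (g y) + z y)) x).symm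
    rw [h2, Finset.expect_comm]
    refine Finset.expect_congr rfl (fun h _ => ?_)
    rw [Finset.mul_expect]
    refine Finset.expect_congr rfl (fun x _ => ?_)
    rw [chi, ← sgn_add, ← sgn_add]
    congr 1
    rw [hg x h, bl_apply, qm_symm hg h x]
    simp only [map_add]
    have e1 : l (g x) + l (g x) = 0 := z2_self _
    have e2 : z x + z x = 0 := z2_self _
    linear_combination e1 + e2
  have h3 : (𝔼 x, sgn (l (g x) + z x)) ^ 2 ≤ (1 / 2) ^ (2 * s) := by
    rw [pow_two, h1]
    refine le_trans (exp_le_of (f' := fun h => iv (bl b l h = 0)) (fun h => ?_))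
      (ker_count_aux l 0 hs)
    by_cases hh : bl b l h = 0
    · rw [iv_pos hh, hh]
      simp only [chi_zero_left]
      rw [Finset.expect_const Finset.univ_nonempty, mul_one]
      rcases sgn_cases (l (g h) + z h + l (g 0)) with h5 | h5 <;> rw [h5]
      norm_num
    · rw [iv_neg hh, expect_chi_eq_zero hh, mul_zero]
  rw [mul_comm 2 s, pow_mul] at h3
  exact abs_le_of_sq_le_sq h3 (by positivity)

theorem ker_count (l : Dual (ZMod 2) Y) (z : Dual (ZMod 2) V) {s : ℕ}
    (hs : finrank (ZMod 2) (LinearMap.ker (bl b l)) + 2 * s ≤ finrank (ZMod 2) V) :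
    𝔼 x, iv (bl b l x = z) ≤ (1 / 2) ^ (2 * s) :=
  ker_count_aux l z hs

theorem nondeg_count {s : ℕ} (hs : Reg b s) (h : V →ₗ[ZMod 2] Y) :
    𝔼 x, iv (∃ m : Dual (ZMod 2) Y, m ≠ 0 ∧ ∀ y, m (b x y + h y) = 0)
      ≤ (Fintype.card Y : ℝ) * (1 / 2) ^ (2 * s) := by
  classical
  have h1 : ∀ x : V, iv (∃ m : Dual (ZMod 2) Y, m ≠ 0 ∧ ∀ y, m (b x y + h y) = 0)
      ≤ ∑ m : Dual (ZMod 2) Y, iv (m ≠ 0 ∧ ∀ y, m (b x y + h y) = 0) := by
    intro x
    by_cases hx : ∃ m : Dual (ZMod 2) Y, m ≠ 0 ∧ ∀ y, m (b x y + h y) = 0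
    · rw [iv_pos hx]
      obtain ⟨m, hm⟩ := hx
      have h2 := Finset.single_le_sum
        (f := fun m : Dual (ZMod 2) Y => iv (m ≠ 0 ∧ ∀ y, m (b x y + h y) = 0))
        (fun m _ => iv_nonneg _) (Finset.mem_univ m)
      rw [iv_pos hm] at h2
      exact h2
    · rw [iv_neg hx]
      exact Finset.sum_nonneg (fun m _ => iv_nonneg _)
  refine le_trans (exp_le_of h1) ?_
  rw [Finset.expect_sum_comm]
  have h2 : ∀ m : Dual (ZMod 2) Y,
      𝔼 x, iv (m ≠ 0 ∧ ∀ y, m (b x y + h y) = 0) ≤ (1 / 2) ^ (2 * s) := by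
    intro m
    by_cases hm : m = 0
    · have h3 : 𝔼 x : V, iv (m ≠ 0 ∧ ∀ y, m (b x y + h y) = 0) = 0 :=
        Finset.expect_eq_zero (fun x _ => iv_neg (fun hx => hx.1 hm))
      rw [h3]
      positivity
    · refine le_trans (exp_le_of (f' := fun x => iv (bl b m x = -(m.comp h))) (fun x => ?_))
        (ker_count_aux m (-(m.comp h)) (hs m hm))
      refine iv_mono (fun hx => ?_)
      refine LinearMap.ext (fun y => ?_)
      have h4 := hx.2 y
      rw [map_add] at h4
      rw [bl_apply, LinearMap.neg_apply, LinearMap.comp_apply]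
      exact eq_neg_of_add_eq_zero_left h4
  refine le_trans (Finset.sum_le_sum (fun m _ => h2 m)) ?_
  rw [Finset.sum_const, Finset.card_univ, card_dual, nsmul_eq_mul]

end

end Pool.Agent.H22.QK
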