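import Pool.Agent.H22.QK.FrVal

/-!
# FrDist: distinct characters stay distinct on a random frame (about 100 lines)

PROOF of `ind_bias`: `iv (g y = 0) = |Y|^-1 ∑_{l ∈ Dual Y} sgn (l (g y))`; for `l = 0` the average
`𝔼 chi θ = 0`, for `l ≠ 0` use `bias`; there are `|Y|` terms.

PROOF of `FR_distinct`. `iv (∀ u, θ (lc u x) = 0) = 𝔼_u chi θ (lc u x)` (`u ↦ θ (lc u x)` is
linear). The term `u = 0` gives `(1/2)^m FR 1 ≤ 2 (1/2)^m`; for `u ≠ 0`, `FR_one_dir` with
`F y z = chi θ z` gives at most `τ + |Y|^2 𝔼_y 𝔼_z iv (g y = 0) iv (g (y+z) = 0) chi θ z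
= τ + |Y|^2 (hat (iv (g · = 0)) θ)^2 ≤ τ + |Y|^2 (1/2)^(2s) ≤ 2 τ` (substitute `z → y + z`,
`ind_bias`; `|Y| (1/2)^s ≤ τ ≤ 1`).
-/

set_option autoImplicit false

open Finset Function Module
open scoped BigOperators
open Pool.Agent.H77.KM

namespace Pool.Agent.H22.QK

section

variable {V : Type} [AddCommGroup V] [Module (ZMod 2) V] [Fintype V]
variable {Y : Type} [AddCommGroup Y] [Module (ZMod 2) Y] [Fintype Y]
variable {g : V → Y} {b : V →ₗ[ZMod 2] V →ₗ[ZMod 2] Y} {m : ℕ}

theorem ind_bias (hg : IsQM g b) {s : ℕ} (hs : Reg b s) (θ : Dual (ZMod 2) V) (hθ : θ ≠ 0) :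
    |hat (fun y => iv (g y = 0)) θ| ≤ (1 / 2) ^ s := by
  have hN : (0 : ℝ) < Fintype.card Y := by exact_mod_cast Fintype.card_pos
  have e1 : ∀ y : V, (Fintype.card Y : ℝ) * iv (g y = 0) =
      ∑ l : Dual (ZMod 2) Y, chi l (g y) := by
    intro y
    by_cases h : g y = 0
    · rw [iv_pos h, h, sum_chi_zero, mul_one]
    · rw [iv_neg h, sum_chi_eq_zero h, mul_zero]
  have e2 : (Fintype.card Y : ℝ) * hat (fun y => iv (g y = 0)) θ =
      ∑ l : Dual (ZMod 2) Y, 𝔼 y, sgn (l (g y) + θ y) := by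
    unfold hat
    rw [Finset.mul_expect, ← Finset.expect_sum_comm]
    refine Finset.expect_congr rfl fun y _ => ?_
    rw [← mul_assoc, e1 y, Finset.sum_mul]
    refine Finset.sum_congr rfl fun l _ => ?_
    rw [sgn_add]
    rfl
  have e3 : ∀ l : Dual (ZMod 2) Y, |𝔼 y, sgn (l (g y) + θ y)| ≤ (1 / 2) ^ s := by
    intro l
    by_cases hl : l = 0
    · subst hl
      have : 𝔼 y, sgn ((0 : Dual (ZMod 2) Y) (g y) + θ y) = 𝔼 y, chi θ y := by
        refine Finset.expect_congr rfl fun y _ => ?_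
        simp [chi]
      rw [this, expect_chi_eq_zero hθ, abs_zero]
      positivity
    · exact bias hg l θ (hs l hl)
  have e4 : (Fintype.card Y : ℝ) * |hat (fun y => iv (g y = 0)) θ| ≤
      Fintype.card Y * (1 / 2) ^ s := by
    rw [← abs_of_pos hN, ← abs_mul, abs_of_pos hN, e2]
    refine le_trans (Finset.abs_sum_le_sum_abs _ _) ?_
    refine le_trans (Finset.sum_le_sum fun l _ => e3 l) ?_
    rw [Finset.sum_const, Finset.card_univ, card_dual, nsmul_eq_mul]
  exact le_of_mul_le_mul_left e4 hN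

theorem FR_distinct (hg : IsQM g b) {s : ℕ} (hs : Reg b s) (hτ : tauF Y m s ≤ 1)
    (θ : Dual (ZMod 2) V) (hθ : θ ≠ 0) :
    FR g m (fun _ x => iv (∀ u : Fin m → ZMod 2, θ (lc u x) = 0))
      ≤ 2 * (1 / 2) ^ m + 3 * tauF Y m s := by
  classical
  have hN1 : (1 : ℝ) ≤ Fintype.card Y := by exact_mod_cast Fintype.card_pos
  have hN : (0 : ℝ) < Fintype.card Y := by linarith
  have hτ0 : 0 ≤ tauF Y m s := by unfold tauF; positivity
  -- `|Y| (1/2)^s ≤ τ / 2`
  have hY : (Fintype.card Y : ℝ) * (1 / 2) ^ s ≤ tauF Y m s / 2 := by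
    unfold tauF
    have h1 : (Fintype.card Y : ℝ) ≤ (Fintype.card Y : ℝ) ^ mexp m := by
      have h2 : 1 ≤ mexp m := by
        cases m with
        | zero => exact le_refl _
        | succ n => simp only [mexp]; omega
      calc (Fintype.card Y : ℝ) = (Fintype.card Y : ℝ) ^ 1 := (pow_one _).symm
        _ ≤ _ := pow_le_pow_right₀ hN1 h2
    have h3 : (1 : ℝ) ≤ (m : ℝ) + 1 := by
      have : (0 : ℝ) ≤ m := Nat.cast_nonneg m
      linarith
    have h4 : (0 : ℝ) < (1 / 2) ^ s := by positivity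
    calc (Fintype.card Y : ℝ) * (1 / 2) ^ s ≤ (Fintype.card Y : ℝ) ^ mexp m * (1 / 2) ^ s :=
          mul_le_mul_of_nonneg_right h1 h4.le
      _ ≤ (Fintype.card Y : ℝ) ^ mexp m * (m + 1) * (1 / 2) ^ s := by
          refine mul_le_mul_of_nonneg_right ?_ h4.le
          exact le_mul_of_one_le_right (by positivity) h3
      _ = _ := by ring
  -- the indicator is an average of characters
  have e1 : ∀ x : Fin m → V, iv (∀ u : Fin m → ZMod 2, θ (lc u x) = 0) =
      𝔼 u : Fin m → ZMod 2, chi θ (lc u x) := by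
    intro x
    set ψ : Dual (ZMod 2) (Fin m → ZMod 2) :=
      { toFun := fun u => θ (lc u x)
        map_add' := fun u v => by rw [lc_add, map_add]
        map_smul' := fun c u => by
          have : lc (c • u) x = c • lc u x := by
            simp only [lc, Pi.smul_apply, smul_eq_mul, mul_smul, Finset.smul_sum]
          rw [this, map_smul]; rfl } with hψ
    have h1 : 𝔼 u : Fin m → ZMod 2, chi θ (lc u x) = 𝔼 u, chi ψ u := rfl
    rw [h1]
    by_cases h : ∀ u : Fin m → ZMod 2, θ (lc u x) = 0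
    · rw [iv_pos h]
      have h2 : ψ = 0 := LinearMap.ext h
      rw [h2]
      simp only [chi_zero_left]
      exact (Finset.expect_const Finset.univ_nonempty _).symm
    · rw [iv_neg h]
      have h2 : ψ ≠ 0 := by
        intro h3
        apply h
        intro u
        exact LinearMap.congr_fun h3 u
      exact (expect_chi_eq_zero h2).symm
  have e2 : FR g m (fun _ x => iv (∀ u : Fin m → ZMod 2, θ (lc u x) = 0)) =
      𝔼 u : Fin m → ZMod 2, FR g m (fun _ x => chi θ (lc u x)) := by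
    rw [← FR_expect]
    simp only [e1]
  -- the term `u = 0`
  have h0 : FR g m (fun _ _ => (1 : ℝ)) ≤ 1 + 3 / 2 * tauF Y m s := by
    have a1 := FR_zero_dir (m := m) hg hs hτ (fun _ => (1 : ℝ)) (fun _ => by norm_num)
    have a2 := count_zero hg hs
    have a3 := (abs_le.mp a1).2
    have a4 := (abs_le.mp a2).2
    simp only [mul_one] at a3
    have a5 : (Fintype.card Y : ℝ) * 𝔼 x, iv (g x = 0) ≤ 1 + tauF Y m s / 2 := by
      have a6 : (Fintype.card Y : ℝ) * 𝔼 x, iv (g x = 0) ≤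
          Fintype.card Y * (1 / Fintype.card Y + (1 / 2) ^ s) :=
        mul_le_mul_of_nonneg_left (by linarith) hN.le
      have a7 : (Fintype.card Y : ℝ) * (1 / Fintype.card Y + (1 / 2) ^ s) =
          1 + Fintype.card Y * (1 / 2) ^ s := by
        field_simp
      linarith
    linarith
  -- the other terms
  have h1 : ∀ u : Fin m → ZMod 2, u ≠ 0 →
      FR g m (fun _ x => chi θ (lc u x)) ≤ 2 * tauF Y m s := by
    intro u hu
    have a1 := FR_one_dir hg hs hτ hu (fun _ z => chi θ z) (fun _ z => (abs_chi θ z).le)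
    have a2 : 𝔼 y, 𝔼 z, iv (g y = 0) * iv (g (y + z) = 0) * chi θ z =
        hat (fun y => iv (g y = 0)) θ ^ 2 := by
      unfold hat
      rw [sq, Finset.expect_mul]
      refine Finset.expect_congr rfl fun y _ => ?_
      rw [Finset.mul_expect,
        ← expect_add_left (fun z => iv (g y = 0) * chi θ y * (iv (g z = 0) * chi θ z)) y]
      refine Finset.expect_congr rfl fun z _ => ?_
      rw [chi_add]
      have := chi_sq θ y
      linear_combination (- iv (g y = 0) * iv (g (y + z) = 0) * chi θ z) * this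
    rw [a2] at a1
    have a3 := (abs_le.mp a1).2
    have a4 := ind_bias hg hs θ hθ
    have a5 : (Fintype.card Y : ℝ) ^ 2 * hat (fun y => iv (g y = 0)) θ ^ 2 ≤ tauF Y m s := by
      have b1 : (Fintype.card Y : ℝ) * |hat (fun y => iv (g y = 0)) θ| ≤ tauF Y m s / 2 :=
        le_trans (mul_le_mul_of_nonneg_left a4 hN.le) hY
      have b2 : 0 ≤ (Fintype.card Y : ℝ) * |hat (fun y => iv (g y = 0)) θ| := by positivity
      have b3 : (Fintype.card Y : ℝ) ^ 2 * hat (fun y => iv (g y = 0)) θ ^ 2 =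
          ((Fintype.card Y : ℝ) * |hat (fun y => iv (g y = 0)) θ|) ^ 2 := by
        rw [mul_pow, sq_abs]
      rw [b3]
      nlinarith
    linarith
  rw [e2, Finset.expect_eq_sum_div_card, Finset.card_univ]
  have hcard : (Fintype.card (Fin m → ZMod 2) : ℝ) = 2 ^ m := by
    rw [Fintype.card_fun, ZMod.card, Fintype.card_fin]
    push_cast
    rfl
  rw [hcard, div_le_iff₀ (by positivity), ← Finset.add_sum_erase _ _ (Finset.mem_univ 0)]
  have h2 : FR g m (fun _ x => chi θ (lc 0 x)) = FR g m (fun _ _ => (1 : ℝ)) := by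
    simp only [lc_zero, chi_zero]
  rw [h2]
  have h3 : ∑ u ∈ (Finset.univ : Finset (Fin m → ZMod 2)).erase 0,
      FR g m (fun _ x => chi θ (lc u x)) ≤ (2 ^ m - 1) * (2 * tauF Y m s) := by
    refine le_trans (Finset.sum_le_sum fun u hu => h1 u (Finset.ne_of_mem_erase hu)) ?_
    rw [Finset.sum_const, Finset.card_erase_of_mem (Finset.mem_univ _), Finset.card_univ,
      nsmul_eq_mul, Nat.cast_sub Fintype.card_pos, hcard]
    simp
  have h4 : (1 / 2 : ℝ) ^ m * 2 ^ m = 1 := by
    rw [← mul_pow]; norm_num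
  have h5 : (1 : ℝ) ≤ 2 ^ m := one_le_pow₀ (by norm_num)
  have h6 : (2 * (1 / 2 : ℝ) ^ m + 3 * tauF Y m s) * 2 ^ m = 2 + 3 * tauF Y m s * 2 ^ m := by
    rw [add_mul, mul_assoc, h4]; ring
  rw [h6]
  nlinarith

end

end Pool.Agent.H22.QK
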