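import Pool.Agent.H22.QK.PerFrame

/-!
# TauS: the error term is small, size of the large spectrum (about 110 lines)

Notation: `r = iiR k`, `m = iiM k R`, `δ = (1/2)^m`, `τ = tauF Y m s`,
`η = (1/2)^(r+k+8)`, `ηg = (1/2)^(iiT k R)`, `ε = |Y| 𝔼 E ∈ [(1/2)^k, 2]`.

PROOF of `tau_small`: `|Y| = 2^R`, `mexp m ≤ (m+1)^2`, `m + 1 ≤ 2^m`, `s ≥ iiReg k R`:
`τ ≤ 2^(R (m+1)^2) * 2^(m+1) * 2^-(R (m+1)^2 + 3 m + 2) = (1/2)^(2m+1)`. In particular
`τ ≤ 1` and `40 τ ≤ δ` (`m ≥ 60`).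
-/

set_option autoImplicit false

open Finset Function Module
open scoped BigOperators
open Pool.Agent.H77.KM

namespace Pool.Agent.H22.QK

section

variable {V : Type} [AddCommGroup V] [Module (ZMod 2) V] [Fintype V]
variable {Y : Type} [AddCommGroup Y] [Module (ZMod 2) Y] [Fintype Y]
variable {g : V → Y} {b : V →ₗ[ZMod 2] V →ₗ[ZMod 2] Y}

private theorem ts_card (Y : Type) [AddCommGroup Y] [Module (ZMod 2) Y] [Fintype Y] :
    (Fintype.card Y : ℝ) = 2 ^ finrank (ZMod 2) Y := by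
  rw [Module.card_eq_pow_finrank (K := ZMod 2) (V := Y), ZMod.card]
  push_cast
  rfl

private theorem ts_parseval (E : V → ℝ) : ∑ ξ, hat E ξ ^ 2 = 𝔼 x, E x ^ 2 := by
  have h1 : ∀ x, E x ^ 2 = ∑ ξ, E x * (hat E ξ * chi ξ x) := by
    intro x
    rw [← Finset.mul_sum, inversion E x, sq]
  simp only [h1]
  rw [Finset.expect_sum_comm]
  refine Finset.sum_congr rfl fun ξ _ => ?_
  have h2 : ∀ x, E x * (hat E ξ * chi ξ x) = hat E ξ * (E x * chi ξ x) := fun x => by ring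
  simp only [h2]
  rw [← Finset.mul_expect, sq]
  rfl

theorem tau_small {k s : ℕ} (hs : iiReg k (finrank (ZMod 2) Y) ≤ s) :
    tauF Y (iiM k (finrank (ZMod 2) Y)) s
      ≤ (1 / 2) ^ (2 * iiM k (finrank (ZMod 2) Y) + 1) := by
  have hcard := ts_card Y
  set R := finrank (ZMod 2) Y with hR
  set m := iiM k R with hm
  unfold tauF
  rw [hcard, ← pow_mul]
  have h1 : R * mexp m ≤ R * (m + 1) ^ 2 := Nat.mul_le_mul_left _ (mexp_le m)
  have h2 : ((2 : ℝ) * (m + 1)) ≤ 2 ^ (m + 1) := by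
    have h3 : m + 1 ≤ 2 ^ m := Nat.lt_two_pow_self
    have h4 : ((m : ℝ) + 1) ≤ 2 ^ m := by exact_mod_cast h3
    rw [pow_succ]; linarith
  have h3 : (1 / 2 : ℝ) ^ s ≤ (1 / 2) ^ (R * (m + 1) ^ 2 + 3 * m + 2) :=
    pow_le_pow_of_le_one (by norm_num) (by norm_num) hs
  have h4 : (2 : ℝ) ^ (R * mexp m) ≤ 2 ^ (R * (m + 1) ^ 2) :=
    pow_le_pow_right₀ (by norm_num) h1
  calc (2 : ℝ) ^ (R * mexp m) * (2 * (m + 1)) * (1 / 2) ^ s
      ≤ 2 ^ (R * (m + 1) ^ 2) * 2 ^ (m + 1) * (1 / 2) ^ (R * (m + 1) ^ 2 + 3 * m + 2) := by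
        gcongr
    _ = (2 ^ (R * (m + 1) ^ 2) * (1 / 2) ^ (R * (m + 1) ^ 2)) *
        (2 ^ (m + 1) * (1 / 2) ^ (m + 1)) * (1 / 2) ^ (2 * m + 1) := by
        rw [show R * (m + 1) ^ 2 + 3 * m + 2 = R * (m + 1) ^ 2 + (m + 1) + (2 * m + 1) by ring,
          pow_add, pow_add]
        ring
    _ = (1 / 2) ^ (2 * m + 1) := by
        rw [← mul_pow, ← mul_pow]
        norm_num

/-- The finite set of large characters. -/
noncomputable def bigS (Y : Type) [Fintype Y] (E : V → ℝ) (t : ℕ) :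
    Finset (Dual (ZMod 2) V) := by
  classical exact Finset.univ.filter (fun ξ => (1 / 2 : ℝ) ^ t ≤ Fintype.card Y * |hat E ξ|)

/-- The good frames. -/
def GoodFr (E C : V → ℝ) (k : ℕ) (ε : ℝ) (S : Finset (Dual (ZMod 2) V)) {m : ℕ}
    (y : V) (x : Fin m → V) : Prop :=
  999 / 1000 * ε ≤ 𝔼 u : Fin m → ZMod 2, E (y + lc u x) ∧
  (1 / 2 : ℝ) ^ (k + 3) < 𝔼 u : Fin m → ZMod 2, C (lc u x) ∧
  ¬ ∃ φ : Dual (ZMod 2) (Fin m → ZMod 2),
    (1 / 2 : ℝ) ^ (iiR k + k + 8) ≤ |hat (fun u => E (y + lc u x)) φ| ∧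
      ∀ ξ ∈ S, ∃ u, φ u ≠ ξ (lc u x)

theorem bigS_card (hg : IsQM g b) {k s : ℕ} (hs : Reg b s)
    (hk : iiReg k (finrank (ZMod 2) Y) ≤ s)
    (E : V → ℝ) (hE : ∀ x, E x = 0 ∨ E x = 1) (hEg : ∀ x, E x ≠ 0 → g x = 0) :
    (bigS Y E (iiT k (finrank (ZMod 2) Y))).card ≤ 2 ^ iiS k (finrank (ZMod 2) Y) := by
  have hcard := ts_card Y
  set R := finrank (ZMod 2) Y with hR
  have hY : (0 : ℝ) < Fintype.card Y := by rw [hcard]; positivity
  set T := iiT k R with hT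
  have hRs : R ≤ s := by
    refine le_trans ?_ hk
    unfold iiReg
    have : R * 1 ≤ R * (iiM k R + 1) ^ 2 := Nat.mul_le_mul_left _ (Nat.one_le_pow _ _ (by omega))
    omega
  have hps : (1 / 2 : ℝ) ^ s ≤ 1 / Fintype.card Y := by
    rw [hcard]
    calc (1 / 2 : ℝ) ^ s ≤ (1 / 2) ^ R := pow_le_pow_of_le_one (by norm_num) (by norm_num) hRs
      _ = 1 / 2 ^ R := by rw [div_pow, one_pow]
  have hE2 : ∑ ξ, hat E ξ ^ 2 ≤ 2 / Fintype.card Y := by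
    rw [ts_parseval]
    have h1 : 𝔼 x, E x ^ 2 ≤ 𝔼 x, iv (g x = 0) := by
      refine Finset.expect_le_expect fun x _ => ?_
      rcases hE x with h | h
      · rw [h]; simpa using iv_nonneg _
      · rw [iv_pos (hEg x (by rw [h]; norm_num)), h]; norm_num
    have h2 := (abs_le.mp (count_zero hg hs)).2
    have h3 : (2 : ℝ) / Fintype.card Y = 1 / Fintype.card Y + 1 / Fintype.card Y := by ring
    rw [h3]
    linarith
  have hlow : ∀ ξ ∈ bigS Y E T, ((1 / 2 : ℝ) ^ T / Fintype.card Y) ^ 2 ≤ hat E ξ ^ 2 := by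
    intro ξ hξ
    have h1 : (1 / 2 : ℝ) ^ T ≤ Fintype.card Y * |hat E ξ| := by
      unfold bigS at hξ
      exact (Finset.mem_filter.mp hξ).2
    rw [← sq_abs (hat E ξ)]
    refine pow_le_pow_left₀ (by positivity) ?_ 2
    rw [div_le_iff₀ hY, mul_comm]
    exact h1
  have h1 : ((bigS Y E T).card : ℝ) * ((1 / 2 : ℝ) ^ T / Fintype.card Y) ^ 2 ≤
      2 / Fintype.card Y := by
    calc ((bigS Y E T).card : ℝ) * ((1 / 2 : ℝ) ^ T / Fintype.card Y) ^ 2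
        = ∑ _ξ ∈ bigS Y E T, ((1 / 2 : ℝ) ^ T / Fintype.card Y) ^ 2 := by
          rw [Finset.sum_const, nsmul_eq_mul]
      _ ≤ ∑ ξ ∈ bigS Y E T, hat E ξ ^ 2 := Finset.sum_le_sum hlow
      _ ≤ ∑ ξ, hat E ξ ^ 2 := Finset.sum_le_sum_of_subset_of_nonneg (Finset.subset_univ _)
          fun _ _ _ => sq_nonneg _
      _ ≤ 2 / Fintype.card Y := hE2
  have h2 : ((bigS Y E T).card : ℝ) ≤ 2 ^ (iiS k R) := by
    have h3 : ((bigS Y E T).card : ℝ) * ((1 / 2 : ℝ) ^ T / Fintype.card Y) ^ 2 *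
        (Fintype.card Y * 2 ^ T) ^ 2 ≤ 2 / Fintype.card Y * (Fintype.card Y * 2 ^ T) ^ 2 :=
      mul_le_mul_of_nonneg_right h1 (by positivity)
    have h4 : ((1 / 2 : ℝ) ^ T / Fintype.card Y) ^ 2 * (Fintype.card Y * 2 ^ T) ^ 2 = 1 := by
      rw [← mul_pow]
      have h5 : (1 / 2 : ℝ) ^ T / Fintype.card Y * (Fintype.card Y * 2 ^ T) = 1 := by
        rw [div_mul_eq_mul_div, div_eq_iff hY.ne']
        have h6 : (1 / 2 : ℝ) ^ T * 2 ^ T = 1 := by rw [← mul_pow]; norm_num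
        calc (1 / 2 : ℝ) ^ T * (Fintype.card Y * 2 ^ T)
            = (1 / 2 : ℝ) ^ T * 2 ^ T * Fintype.card Y := by ring
          _ = 1 * Fintype.card Y := by rw [h6]
      rw [h5, one_pow]
    rw [mul_assoc, h4, mul_one] at h3
    refine h3.trans (le_of_eq ?_)
    rw [hcard]
    have h7 : (2 : ℝ) / 2 ^ R * (2 ^ R * 2 ^ T) ^ 2 = 2 ^ (1 + R + 2 * T) := by
      rw [div_mul_eq_mul_div, div_eq_iff (by positivity)]
      rw [pow_add, pow_add, pow_one, pow_mul', mul_pow]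
      ring
    rw [h7]
    congr 1
    rw [hT]
    unfold iiT iiS
    ring
  exact_mod_cast h2

end

end Pool.Agent.H22.QK
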