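import Pool.Agent.H22.QK.Defs

/-!
# AltSub: a subspace on which the linear parts are alternating (about 90 lines)

PROOF of `alt_sub`. On `P = ⨅ i, ker (T i + (T i).flip)` (codimension at most `r' n`) we have
`T i v w = T i w v` for `v ∈ P` and every `w`, so `v ↦ T i v v` is additive on `P`
(`T (v+w) (v+w) = T v v + T w w + T v w + T w v`), i.e. a linear form on `P`; `V1` is the
intersection of the kernels of these `r'` forms: codimension at most `r' n + r'`.
-/

set_option autoImplicit false

open Finset Function Module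
open scoped BigOperators
open Pool.Agent.H77.KM

namespace Pool.Agent.H22.QK

section

variable {V : Type} [AddCommGroup V] [Module (ZMod 2) V] [Fintype V]

lemma altSub_inf {U : Type} [AddCommGroup U] [Module (ZMod 2) U] [Fintype U] (n : ℕ) :
    ∀ (r : ℕ) (P : Fin r → Submodule (ZMod 2) U),
      (∀ i, finrank (ZMod 2) U ≤ finrank (ZMod 2) (P i) + n) →
      finrank (ZMod 2) U ≤ finrank (ZMod 2) (⨅ i, P i : Submodule (ZMod 2) U) + r * n := by
  intro r
  induction r with
  | zero =>
    intro P _
    have h : (⨅ i, P i : Submodule (ZMod 2) U) = ⊤ := iInf_of_empty P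
    rw [h, finrank_top]
    omega
  | succ r ih =>
    intro P hP
    have h1 : (⨅ i, P i : Submodule (ZMod 2) U) = P 0 ⊓ ⨅ i : Fin r, P i.succ := by
      apply le_antisymm
      · exact le_inf (iInf_le P 0) (le_iInf fun i => iInf_le P i.succ)
      · refine le_iInf fun i => ?_
        refine Fin.cases ?_ (fun j => ?_) i
        · exact inf_le_left
        · exact inf_le_right.trans (iInf_le (fun j : Fin r => P j.succ) j)
    have h2 := ih (fun i => P i.succ) (fun i => hP i.succ)
    have h3 := hP 0
    have h4 := Submodule.finrank_sup_add_finrank_inf_eq (P 0) (⨅ i : Fin r, P i.succ)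
    have h5 := Submodule.finrank_le (P 0 ⊔ ⨅ i : Fin r, P i.succ)
    rw [h1, Nat.succ_mul]
    omega

theorem alt_sub {r' n : ℕ} (T : Fin r' → V →ₗ[ZMod 2] V →ₗ[ZMod 2] ZMod 2)
    (hT : ∀ i, finrank (ZMod 2) V
      ≤ finrank (ZMod 2) (LinearMap.ker (T i + (T i).flip)) + n) :
    ∃ V1 : Submodule (ZMod 2) V,
      finrank (ZMod 2) V ≤ finrank (ZMod 2) V1 + r' * (n + 1) ∧
      ∀ i, ∀ v ∈ V1, T i v v = 0 := by
  classical
  set P : Submodule (ZMod 2) V := ⨅ i, LinearMap.ker (T i + (T i).flip) with hPdef
  have hP1 : finrank (ZMod 2) V ≤ finrank (ZMod 2) P + r' * n :=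
    altSub_inf n r' (fun i => LinearMap.ker (T i + (T i).flip)) hT
  have hsymm : ∀ i, ∀ v ∈ P, ∀ w, T i v w = T i w v := by
    intro i v hv w
    have h1 : v ∈ LinearMap.ker (T i + (T i).flip) := (Submodule.mem_iInf _).1 hv i
    have h2 : (T i + (T i).flip) v w = 0 := by
      rw [LinearMap.mem_ker.1 h1]; rfl
    rw [LinearMap.add_apply, LinearMap.add_apply, LinearMap.flip_apply] at h2
    have h3 : T i v w + T i w v + T i w v = T i w v := by rw [h2, zero_add]
    rwa [add_assoc, CharTwo.add_self_eq_zero, add_zero] at h3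
  have hq : ∀ i, ∃ q : P →ₗ[ZMod 2] ZMod 2, ∀ v : P, q v = T i v v := by
    intro i
    let q0 : P →+ ZMod 2 :=
      { toFun := fun v => T i v v
        map_zero' := by simp
        map_add' := by
          intro v w
          have h1 : T i (v : V) (w : V) = T i (w : V) (v : V) := hsymm i v v.2 w
          simp only [Submodule.coe_add, map_add, LinearMap.add_apply]
          rw [h1]
          have h2 : T i (w : V) (v : V) + T i (w : V) (v : V) = 0 := CharTwo.add_self_eq_zero _
          linear_combination h2 }
    exact ⟨q0.toZModLinearMap 2, fun v => rfl⟩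
  choose q hq using hq
  have hker : ∀ i, finrank (ZMod 2) P ≤ finrank (ZMod 2) (LinearMap.ker (q i)) + 1 := by
    intro i
    have h1 := LinearMap.finrank_range_add_finrank_ker (q i)
    have h2 := Submodule.finrank_le (LinearMap.range (q i))
    rw [finrank_self] at h2
    omega
  have hP2 := altSub_inf 1 r' (fun i => LinearMap.ker (q i)) hker
  refine ⟨(⨅ i, LinearMap.ker (q i)).map P.subtype, ?_, ?_⟩
  · rw [Submodule.finrank_map_subtype_eq]
    rw [Nat.mul_add]
    omega
  · intro i v hv
    obtain ⟨w, hw, rfl⟩ := Submodule.mem_map.1 hv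
    have h1 : w ∈ LinearMap.ker (q i) := (Submodule.mem_iInf _).1 hw i
    have h2 := LinearMap.mem_ker.1 h1
    rw [hq] at h2
    exact h2

end

end Pool.Agent.H22.QK
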