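import Pool.Agent.H22.QK.Defs

/-!
# KUnb: unbalancing with a general constant (about 130 lines, copy of the H77 proof)

PROOF. Follow `unbalance` of `Pool/Agent/H77/KM/Unbalance.lean`, with `c = 1/(2N) ≤ 1/2`,
`q = p + 1` (odd, `≥ 11`).
1. `|F|^q ≥ (c/2) (F^p - (c/2)^p)` pointwise (two cases `|F| ≥ c/2` or not), so
   `𝔼 |F|^q ≥ (c/2)(c^p - (c/2)^p) ≥ c^q / 4`.
2. pointwise `|F|^q + F^q ≤ 2 F^q 1[F ≥ 3c/4] + 2 (3c/4)^q`; with `𝔼 F^q ≥ 0`:
   `2 𝔼 F^q 1[F ≥ 3c/4] ≥ c^q/4 - 2 (3/4)^q c^q ≥ c^q / 8` since `2 (3/4)^11 ≤ 1/8`.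
3. Cauchy-Schwarz: with `μ = 𝔼 1[F ≥ 3c/4]`, `K = 𝔼 (1+F)^(2q)`: `(c^q/16)^2 ≤ K μ`.
4. Put `h = 12 N (N+3)`, exponent `2 q h = 24 N (N+3) (p+1)`. If `K ≥ (1+c/2)^(2q)` use
   `𝔼 (1+F)^(2qh) ≥ K^h` (`expect_pow_le`). Otherwise `μ ≥ c^(2q) / (256 (1+c/2)^(2q))` and
   `𝔼 (1+F)^(2qh) ≥ (1+3c/4)^(2qh) μ`. Let `ρ = (1+3c/4)/(1+c/2) = 1 + (c/4)/(1+c/2)
   ≥ 1 + c/6 = 1 + 1/(12 N)`. Then `ρ^h ≥ 2^(N+3) ≥ 8 N = 4/c` (Bernoulli), hence
   `ρ^(2qh) ≥ (4/c)^(2q) = (4/(1+c/2))^(2q) ((1+c/2)/c)^(2q) ≥ 256 ((1+c/2)/c)^(2q)`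
   (`4/(1+c/2) ≥ 2`, `2^22 ≥ 256`), which gives `(1+3c/4)^(2qh) μ ≥ (1+c/2)^(2qh)`.
   And `1 + c/2 = 1 + 1/(4N)`.
-/

set_option autoImplicit false

open Finset Function Module
open scoped BigOperators
open Pool.Agent.H77.KM

namespace Pool.Agent.H22.QK

/-- Numerical input of the unbalancing step with a general constant. -/
lemma num_unb_gen {N q : ℕ} (hN : 1 ≤ N) (hq : 11 ≤ q) {c : ℝ} (hc : c = 1 / (2 * N : ℝ)) :
    256 * (1 + c / 2) ^ (2 * q) * (1 + c / 2) ^ (24 * N * (N + 3) * q)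
      ≤ c ^ (2 * q) * (1 + 3 * c / 4) ^ (24 * N * (N + 3) * q) := by
  have hN0 : (1 : ℝ) ≤ N := by exact_mod_cast hN
  have hNpos : (0 : ℝ) < N := by linarith
  have hcpos : 0 < c := by rw [hc]; positivity
  have hcN : c * N = 1 / 2 := by rw [hc]; field_simp
  have hc2 : c ≤ 1 / 2 := by nlinarith
  -- Bernoulli
  have hb : (2 : ℝ) ≤ (1 + c / 6) ^ (12 * N) := by
    have h1 := one_add_mul_le_pow (a := c / 6) (by linarith) (12 * N)
    push_cast at h1
    nlinarith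
  have hb2 : (1 + c / 2) * (1 + c / 6) ≤ 1 + 3 * c / 4 := by nlinarith
  have hpow2 : (4 : ℝ) ≤ c * (1 + c / 6) ^ (12 * N * (N + 3)) := by
    rw [pow_mul]
    have h1 : (2 : ℝ) ^ (N + 3) ≤ ((1 + c / 6) ^ (12 * N)) ^ (N + 3) :=
      pow_le_pow_left₀ (by norm_num) hb _
    have h2 : (N : ℝ) * 8 ≤ (2 : ℝ) ^ (N + 3) := by
      have h3 : N < 2 ^ N := Nat.lt_two_pow_self
      have h4 : (N : ℝ) ≤ (2 : ℝ) ^ N := by exact_mod_cast h3.le
      rw [pow_add]
      norm_num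
      linarith
    have h5 : c * ((N : ℝ) * 8) ≤ c * ((1 + c / 6) ^ (12 * N)) ^ (N + 3) :=
      mul_le_mul_of_nonneg_left (le_trans h2 h1) hcpos.le
    nlinarith
  have e1 : 24 * N * (N + 3) * q = 12 * N * (N + 3) * (2 * q) := by ring
  rw [e1, pow_mul _ (12 * N * (N + 3)) (2 * q), pow_mul _ (12 * N * (N + 3)) (2 * q),
    mul_assoc, ← mul_pow, ← mul_pow]
  have h6 : ((1 + c / 2) * (1 + c / 6)) ^ (12 * N * (N + 3))
      ≤ (1 + 3 * c / 4) ^ (12 * N * (N + 3)) :=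
    pow_le_pow_left₀ (by positivity) hb2 _
  rw [mul_pow] at h6
  set X : ℝ := (1 + c / 2) ^ (12 * N * (N + 3)) with hX
  set Y : ℝ := (1 + c / 6) ^ (12 * N * (N + 3)) with hY
  set Z : ℝ := (1 + 3 * c / 4) ^ (12 * N * (N + 3)) with hZ
  have hXpos : 0 < X := by positivity
  have h7 : 2 * ((1 + c / 2) * X) ≤ c * Z := by
    have h8 : X * 4 ≤ X * (c * Y) := mul_le_mul_of_nonneg_left hpow2 hXpos.le
    have h9 : c * (X * Y) ≤ c * Z := mul_le_mul_of_nonneg_left h6 hcpos.le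
    nlinarith
  have h10 : (2 * ((1 + c / 2) * X)) ^ (2 * q) ≤ (c * Z) ^ (2 * q) :=
    pow_le_pow_left₀ (by positivity) h7 _
  refine le_trans ?_ h10
  rw [mul_pow 2 ((1 + c / 2) * X)]
  refine mul_le_mul_of_nonneg_right ?_ (by positivity)
  calc (256 : ℝ) = 2 ^ 8 := by norm_num
    _ ≤ 2 ^ (2 * q) := pow_le_pow_right₀ (by norm_num) (by omega)

theorem unbalance_gen {V : Type} [Fintype V] [Nonempty V] (F : V → ℝ) (hG : ∀ x, 0 ≤ 1 + F x)
    {N p : ℕ} (hN : 1 ≤ N) (hp : Even p) (hp10 : 10 ≤ p) (hodd : 0 ≤ 𝔼 x, F x ^ (p + 1))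
    (hbig : (1 / (2 * N : ℝ)) ^ p ≤ 𝔼 x, F x ^ p) :
    (1 + 1 / (4 * N : ℝ)) ^ (24 * N * (N + 3) * (p + 1))
      ≤ 𝔼 x, (1 + F x) ^ (24 * N * (N + 3) * (p + 1)) := by
  classical
  set q := p + 1 with hqdef
  have hqodd : Odd q := hp.add_one
  have hq11 : 11 ≤ q := by omega
  have hne : (Finset.univ : Finset V).Nonempty := Finset.univ_nonempty
  obtain ⟨c, hc⟩ : ∃ c : ℝ, c = 1 / (2 * N : ℝ) := ⟨_, rfl⟩
  have hN0 : (1 : ℝ) ≤ N := by exact_mod_cast hN
  have hNpos : (0 : ℝ) < N := by linarith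
  have hcpos : 0 < c := by rw [hc]; positivity
  have hc4 : (1 + 1 / (4 * N : ℝ)) = 1 + c / 2 := by rw [hc]; field_simp; ring
  rw [← hc] at hbig
  rw [hc4]
  -- step 1
  have step1 : c ^ q / 4 ≤ 𝔼 x, |F x| ^ q := by
    have h1 : ∀ x, (c / 2) * (F x ^ p - (c / 2) ^ p) ≤ |F x| ^ q := by
      intro x
      rcases le_or_gt (c / 2) |F x| with h | h
      · have : |F x| ^ q = |F x| * F x ^ p := by
          rw [hqdef, pow_succ, hp.pow_abs, mul_comm]
        rw [this]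
        have h0 : (0 : ℝ) ≤ F x ^ p := hp.pow_nonneg _
        have h4 : (0 : ℝ) ≤ (c / 2) ^ p := by positivity
        have h5 : (c / 2) * F x ^ p ≤ |F x| * F x ^ p := mul_le_mul_of_nonneg_right h h0
        have h6 : 0 ≤ (c / 2) * (c / 2) ^ p := by positivity
        linarith
      · have h2 : F x ^ p ≤ (c / 2) ^ p := by
          rw [← hp.pow_abs]
          exact pow_le_pow_left₀ (abs_nonneg _) h.le p
        have h3 : (0 : ℝ) ≤ |F x| ^ q := by positivity
        have h6 : (c / 2) * (F x ^ p - (c / 2) ^ p) ≤ 0 :=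
          mul_nonpos_of_nonneg_of_nonpos (by positivity) (by linarith)
        linarith
    have h2 : 𝔼 x, (c / 2) * (F x ^ p - (c / 2) ^ p) ≤ 𝔼 x, |F x| ^ q :=
      Finset.expect_le_expect (fun x _ => h1 x)
    rw [← Finset.mul_expect, Finset.expect_sub_distrib, Finset.expect_const hne] at h2
    have h3 : (c / 2) ^ p ≤ (1 / 2) * c ^ p := by
      have : (c / 2) ^ p = (1 / 2) ^ p * c ^ p := by
        rw [← mul_pow]; congr 1; ring
      rw [this]
      refine mul_le_mul_of_nonneg_right ?_ (by positivity)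
      calc (1 / 2 : ℝ) ^ p ≤ (1 / 2) ^ 1 :=
            pow_le_pow_of_le_one (by norm_num) (by norm_num) (by omega)
        _ = 1 / 2 := by norm_num
    have h4 : c ^ q / 4 = (c / 2) * ((1 / 2) * c ^ p) := by
      rw [hqdef, pow_succ]; ring
    rw [h4]
    refine le_trans (mul_le_mul_of_nonneg_left ?_ (by positivity)) h2
    linarith
  -- step 2
  set ind : V → ℝ := fun x => if 3 * c / 4 ≤ F x then 1 else 0 with hind
  have step2 : c ^ q / 16 ≤ 𝔼 x, F x ^ q * ind x := by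
    have h1 : ∀ x, |F x| ^ q + F x ^ q ≤ 2 * (F x ^ q * ind x) + 2 * (3 * c / 4) ^ q := by
      intro x
      have hpos : (0 : ℝ) ≤ (3 * c / 4) ^ q := by positivity
      rcases le_or_gt (3 * c / 4) (F x) with h | h
      · have h0 : 0 ≤ F x := by linarith
        simp only [hind, h, if_true, abs_of_nonneg h0]
        linarith
      · have hi : ind x = 0 := by simp only [hind]; rw [if_neg (not_le.mpr h)]
        rw [hi]
        rcases le_or_gt 0 (F x) with h0 | h0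
        · rw [abs_of_nonneg h0]
          have := pow_le_pow_left₀ h0 h.le q
          linarith
        · rw [abs_of_neg h0, hqodd.neg_pow]
          linarith
    have h2 : 𝔼 x, (|F x| ^ q + F x ^ q) ≤ 𝔼 x, (2 * (F x ^ q * ind x) + 2 * (3 * c / 4) ^ q) :=
      Finset.expect_le_expect (fun x _ => h1 x)
    rw [Finset.expect_add_distrib, Finset.expect_add_distrib, ← Finset.mul_expect,
      Finset.expect_const hne] at h2
    have h3 : (3 * c / 4) ^ q ≤ (1 / 16) * c ^ q := by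
      have : (3 * c / 4) ^ q = (3 / 4) ^ q * c ^ q := by
        rw [← mul_pow]; congr 1; ring
      rw [this]
      refine mul_le_mul_of_nonneg_right ?_ (by positivity)
      calc (3 / 4 : ℝ) ^ q ≤ (3 / 4) ^ 11 :=
            pow_le_pow_of_le_one (by norm_num) (by norm_num) hq11
        _ ≤ 1 / 16 := by norm_num
    linarith
  -- step 3
  set K : ℝ := 𝔼 x, (1 + F x) ^ (2 * q) with hK
  set μ : ℝ := 𝔼 x, ind x with hμ
  have hind01 : ∀ x, ind x * ind x = ind x := by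
    intro x
    simp only [hind]
    split_ifs <;> norm_num
  have hind0 : ∀ x, 0 ≤ ind x := by
    intro x
    simp only [hind]
    split_ifs <;> norm_num
  have hμ0 : 0 ≤ μ := Finset.expect_nonneg (fun x _ => hind0 x)
  have step3 : c ^ (2 * q) ≤ 256 * (K * μ) := by
    have h1 := Finset.expect_mul_sq_le_sq_mul_sq (Finset.univ : Finset V)
      (fun x => F x ^ q * ind x) (fun x => ind x)
    have h2 : 𝔼 x, F x ^ q * ind x * ind x = 𝔼 x, F x ^ q * ind x :=
      Finset.expect_congr rfl (fun x _ => by rw [mul_assoc, hind01])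
    have h3 : 𝔼 x, ind x ^ 2 = μ := by
      rw [hμ]
      exact Finset.expect_congr rfl (fun x _ => by rw [sq, hind01])
    have h4 : 𝔼 x, (F x ^ q * ind x) ^ 2 ≤ K := by
      rw [hK]
      refine Finset.expect_le_expect (fun x _ => ?_)
      rcases le_or_gt (3 * c / 4) (F x) with h | h
      · have h0 : 0 ≤ F x := by linarith
        simp only [hind, h, if_true, mul_one]
        rw [← pow_mul, mul_comm q 2]
        exact pow_le_pow_left₀ h0 (by linarith) _
      · have hi : ind x = 0 := by simp only [hind]; rw [if_neg (not_le.mpr h)]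
        rw [hi]
        simp only [mul_zero, ne_eq, OfNat.ofNat_ne_zero, not_false_eq_true, zero_pow]
        exact pow_nonneg (hG x) _
    rw [h2, h3] at h1
    have h5 : (c ^ q / 16) ^ 2 ≤ (𝔼 x, F x ^ q * ind x) ^ 2 :=
      pow_le_pow_left₀ (by positivity) step2 2
    have h6 : (c ^ q / 16) ^ 2 = c ^ (2 * q) / 256 := by
      rw [div_pow, ← pow_mul, mul_comm q 2]; norm_num
    rw [h6] at h5
    have h7 : c ^ (2 * q) / 256 ≤ K * μ :=
      calc c ^ (2 * q) / 256 ≤ (𝔼 x, (F x ^ q * ind x) ^ 2) * μ := le_trans h5 h1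
        _ ≤ K * μ := mul_le_mul_of_nonneg_right h4 hμ0
    linarith
  have hKpos : 0 ≤ K := Finset.expect_nonneg (fun x _ => pow_nonneg (hG x) _)
  set h : ℕ := 12 * N * (N + 3) with hh
  have e0 : 24 * N * (N + 3) * q = 2 * q * h := by rw [hh]; ring
  have step4 : K ^ h ≤ 𝔼 x, (1 + F x) ^ (24 * N * (N + 3) * q) := by
    have := expect_pow_le hne (fun x => (1 + F x) ^ (2 * q)) (fun x _ => pow_nonneg (hG x) _) h
    refine le_trans this (le_of_eq ?_)
    refine Finset.expect_congr rfl (fun x _ => ?_)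
    rw [← pow_mul, e0]
  have step5 : (1 + 3 * c / 4) ^ (24 * N * (N + 3) * q) * μ
      ≤ 𝔼 x, (1 + F x) ^ (24 * N * (N + 3) * q) := by
    rw [hμ, Finset.mul_expect]
    refine Finset.expect_le_expect (fun x _ => ?_)
    rcases le_or_gt (3 * c / 4) (F x) with h | h
    · simp only [hind, h, if_true, mul_one]
      exact pow_le_pow_left₀ (by positivity) (by linarith) _
    · have hi : ind x = 0 := by simp only [hind]; rw [if_neg (not_le.mpr h)]
      rw [hi, mul_zero]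
      exact pow_nonneg (hG x) _
  rcases le_or_gt ((1 + c / 2) ^ (2 * q)) K with hc1 | hc1
  · refine le_trans ?_ step4
    have := pow_le_pow_left₀ (by positivity) hc1 h
    refine le_trans (le_of_eq ?_) this
    rw [← pow_mul, e0]
  · refine le_trans ?_ step5
    have hKμ : c ^ (2 * q) ≤ 256 * ((1 + c / 2) ^ (2 * q) * μ) := by
      have := mul_le_mul_of_nonneg_right hc1.le hμ0
      linarith
    have hnum := num_unb_gen hN hq11 hc
    have hA : 0 < 256 * (1 + c / 2) ^ (2 * q) := by positivity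
    have hB : 0 ≤ (1 + 3 * c / 4) ^ (24 * N * (N + 3) * q) := by positivity
    refine le_of_mul_le_mul_left ?_ hA
    calc 256 * (1 + c / 2) ^ (2 * q) * (1 + c / 2) ^ (24 * N * (N + 3) * q)
        ≤ c ^ (2 * q) * (1 + 3 * c / 4) ^ (24 * N * (N + 3) * q) := hnum
      _ ≤ 256 * ((1 + c / 2) ^ (2 * q) * μ) * (1 + 3 * c / 4) ^ (24 * N * (N + 3) * q) :=
          mul_le_mul_of_nonneg_right hKμ hB
      _ = 256 * (1 + c / 2) ^ (2 * q) * ((1 + 3 * c / 4) ^ (24 * N * (N + 3) * q) * μ) := by ring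

end Pool.Agent.H22.QK
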