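import Pool.Agent.H22.QK.KCore
import Pool.Agent.H22.QK.KUnb

/-!
# KLow: a spread set has large self-correlation almost everywhere (about 70 lines)

PROOF. Let `α = 𝔼 a > 0`, `f = a/α - 1`, `F = corr f f = corr a a/α^2 - 1`
(`corr_normalised`). Suppose the measure of `{corr a a < (1-1/N) α^2} = {F < -1/N}` is
`> (1/2)^p`. Then `𝔼 F^p ≥ (1/2)^p (1/N)^p = (1/(2N))^p` (`p` even). Odd moments of `corr f f`
are `≥ 0` (`expect_corr_self_pow_nonneg`), `1 + F ≥ 0`. `unbalance_gen` gives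
`𝔼 (1+F)^m ≥ (1+1/(4N))^m`, `m = 24 N (N+3) (p+1)`, that is
`𝔼 (corr a a)^m ≥ ((1+1/(4N)) α^2)^m`, which contradicts `km_core` with `4 N` in the place of
`N` and `t = α` (`1/(16 (4N)) = 1/(64 N)`; condition
`(8N+1)(4N+7) ≤ 24 N (N+3) (p+1)` since `p ≥ 10`).
-/

set_option autoImplicit false

open Finset Function Module
open scoped BigOperators
open Pool.Agent.H77.KM

namespace Pool.Agent.H22.QK

theorem km_lower {V : Type} [AddCommGroup V] [Module (ZMod 2) V] [Fintype V]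
    (a : V → ℝ) (ha : ∀ x, a x = 0 ∨ a x = 1) {N l p : ℕ} (hN : 1 ≤ N) (hp10 : 10 ≤ p)
    (hp : Even p) (hl : (1 / 2 : ℝ) ^ l ≤ 𝔼 x, a x)
    (hs : Spr a (kmDim (4 * N) l (24 * N * (N + 3) * (p + 1)))
      ((1 + 1 / (64 * N : ℝ)) * 𝔼 x, a x)) :
    𝔼 x, iv (corr a a x < (1 - 1 / (N : ℝ)) * (𝔼 x, a x) ^ 2) ≤ (1 / 2) ^ p := by
  classical
  by_contra hcon
  push Not at hcon
  have hNpos : (0 : ℝ) < (N : ℝ) := by exact_mod_cast hN
  have hαpos : 0 < 𝔼 x, a x := lt_of_lt_of_le (by positivity) hl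
  have ha0 : ∀ x, 0 ≤ a x := fun x => by rcases ha x with h | h <;> rw [h] <;> norm_num
  have hc0 : ∀ x, 0 ≤ corr a a x := fun x =>
    Finset.expect_nonneg (fun y _ => mul_nonneg (ha0 _) (ha0 _))
  set α : ℝ := 𝔼 x, a x with hαd
  set f : V → ℝ := fun y => a y / α - 1 with hf
  set m : ℕ := 24 * N * (N + 3) * (p + 1) with hm
  have hFm : ∀ x, corr f f x = corr a a x / (α * α) - 1 := by
    intro x
    rw [hf, corr_normalised a a hαpos.ne' hαpos.ne']
  have hF : ∀ x, 1 + corr f f x = corr a a x / (α * α) := by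
    intro x
    rw [hFm]
    ring
  have hpt : ∀ x, (1 / (N : ℝ)) ^ p * iv (corr a a x < (1 - 1 / (N : ℝ)) * α ^ 2)
      ≤ corr f f x ^ p := by
    intro x
    by_cases hx : corr a a x < (1 - 1 / (N : ℝ)) * α ^ 2
    · rw [iv_pos hx, mul_one]
      have h1 : corr f f x ≤ -(1 / (N : ℝ)) := by
        rw [hFm]
        have h2 : corr a a x / (α * α) ≤ 1 - 1 / (N : ℝ) := by
          rw [div_le_iff₀ (by positivity)]
          calc corr a a x ≤ (1 - 1 / (N : ℝ)) * α ^ 2 := hx.le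
            _ = (1 - 1 / (N : ℝ)) * (α * α) := by ring
        linarith
      rw [← hp.neg_pow (corr f f x)]
      exact pow_le_pow_left₀ (by positivity) (by linarith) p
    · rw [iv_neg hx, mul_zero]
      exact hp.pow_nonneg _
  have hbig : (1 / (2 * N : ℝ)) ^ p ≤ 𝔼 x, corr f f x ^ p := by
    have h1 : (1 / (N : ℝ)) ^ p * 𝔼 x, iv (corr a a x < (1 - 1 / (N : ℝ)) * α ^ 2)
        ≤ 𝔼 x, corr f f x ^ p := by
      rw [Finset.mul_expect]
      exact Finset.expect_le_expect (fun x _ => hpt x)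
    have h2 : (1 / (2 * N : ℝ)) ^ p = (1 / (N : ℝ)) ^ p * (1 / 2) ^ p := by
      rw [← mul_pow]
      congr 1
      field_simp
    rw [h2]
    exact le_trans (mul_le_mul_of_nonneg_left hcon.le (by positivity)) h1
  have h := unbalance_gen (corr f f)
    (fun x => by rw [hF]; exact div_nonneg (hc0 x) (by positivity)) hN hp hp10
    (expect_corr_self_pow_nonneg f _) hbig
  simp only [hF] at h
  rw [← hm] at h
  have h2 : 𝔼 x, (corr a a x / (α * α)) ^ m = (𝔼 x, corr a a x ^ m) / (α ^ 2) ^ m := by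
    rw [Finset.expect_div]
    refine Finset.expect_congr rfl (fun x _ => ?_)
    rw [div_pow, ← sq]
  rw [h2, le_div_iff₀ (by positivity), ← mul_pow] at h
  have hcast : ((4 * N : ℕ) : ℝ) = 4 * (N : ℝ) := by push_cast; ring
  have hmm : (2 * (4 * N) + 1) * (4 * N + 7) ≤ m := by
    rw [hm]
    have h3 : (2 * (4 * N) + 1) * (4 * N + 7) ≤ (9 * N) * (11 * (N + 3)) := by
      refine Nat.mul_le_mul ?_ ?_ <;> omega
    calc (2 * (4 * N) + 1) * (4 * N + 7) ≤ (9 * N) * (11 * (N + 3)) := h3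
      _ = 24 * N * (N + 3) * 4 + 3 * N * (N + 3) := by ring
      _ ≤ 24 * N * (N + 3) * 4 + 24 * N * (N + 3) * 7 := by nlinarith
      _ = 24 * N * (N + 3) * 11 := by ring
      _ ≤ 24 * N * (N + 3) * (p + 1) := Nat.mul_le_mul_left _ (by omega)
  have hk := km_core a ha (N := 4 * N) (l := l) (m := m) (by omega) hmm hl (by
    rw [hcast]
    have e : (16 : ℝ) * (4 * (N : ℝ)) = 64 * N := by ring
    rw [e]
    exact hs)
  rw [hcast] at hk
  exact absurd h (not_le.2 hk)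

end Pool.Agent.H22.QK
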