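import Pool.Agent.H22.QK.QBias

/-!
# QRes: restriction of regular forms (about 50 lines)

PROOF of `Reg.restrict`. Let `κ = finrank V - finrank W ≤ k` (so `κ ≤ k ≤ s`); `l ≠ 0`. The kernel
`K'` of `bl (pb b f) l` consists of the `w` such that `bl b l (f w)` vanishes on `range f`. The map
`w ↦ bl b l (f w)` from `K'` to the annihilator of `range f` (of dimension `κ`) has kernel of
dimension at most `finrank (ker (bl b l))` (`f` injective). So
`finrank K' ≤ finrank (ker (bl b l)) + κ ≤ finrank V - 2 s + κ = finrank W + 2 κ - 2 s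
≤ finrank W - 2 (s - k)`.
-/

set_option autoImplicit false

open Finset Function Module
open scoped BigOperators
open Pool.Agent.H77.KM

namespace Pool.Agent.H22.QK

section

variable {V : Type} [AddCommGroup V] [Module (ZMod 2) V] [Fintype V]
variable {Y : Type} [AddCommGroup Y] [Module (ZMod 2) Y] [Fintype Y]
variable {g : V → Y} {b : V →ₗ[ZMod 2] V →ₗ[ZMod 2] Y}

theorem Reg.restrict {W : Type} [AddCommGroup W] [Module (ZMod 2) W] [Fintype W] {s k : ℕ}
    (hs : Reg b s) (f : W →ₗ[ZMod 2] V) (hf : Injective f)
    (hW : finrank (ZMod 2) V ≤ finrank (ZMod 2) W + k) (hk : k ≤ s) : Reg (pb b f) (s - k) := by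
  intro l hl
  have h0 := hs l hl
  set A : V →ₗ[ZMod 2] Dual (ZMod 2) V := bl b l with hA
  set K' := LinearMap.ker (bl (pb b f) l) with hK'
  have hKeq : K' = Submodule.comap (A ∘ₗ f) (LinearMap.ker f.dualMap) := by
    ext w
    simp only [hK', hA, LinearMap.mem_ker, Submodule.mem_comap, LinearMap.comp_apply]
    constructor
    · intro h
      ext y
      have := LinearMap.congr_fun h y
      simpa using this
    · intro h
      ext y
      have := LinearMap.congr_fun h y
      simpa using this
  have hN : finrank (ZMod 2) (LinearMap.ker f.dualMap) + finrank (ZMod 2) W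
      = finrank (ZMod 2) V := by
    have h1 := LinearMap.finrank_range_add_finrank_ker f.dualMap
    have h2 : finrank (ZMod 2) (LinearMap.range f.dualMap) = finrank (ZMod 2) W := by
      rw [LinearMap.finrank_range_dualMap_eq_finrank_range, LinearMap.finrank_range_of_inj hf]
    rw [Subspace.dual_finrank_eq] at h1
    omega
  let T : K' →ₗ[ZMod 2] Dual (ZMod 2) V := (A ∘ₗ f) ∘ₗ K'.subtype
  have h1 := LinearMap.finrank_range_add_finrank_ker T
  have h2 : finrank (ZMod 2) (LinearMap.range T) ≤ finrank (ZMod 2) (LinearMap.ker f.dualMap) := by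
    apply Submodule.finrank_mono
    rintro _ ⟨x, rfl⟩
    have hx : (x : W) ∈ Submodule.comap (A ∘ₗ f) (LinearMap.ker f.dualMap) := by
      have h5 := x.2
      have h6 : ∀ w : W, w ∈ K' → w ∈ Submodule.comap (A ∘ₗ f) (LinearMap.ker f.dualMap) :=
        fun w hw => hKeq ▸ hw
      exact h6 _ h5
    exact hx
  have h3 : finrank (ZMod 2) (LinearMap.ker T) ≤ finrank (ZMod 2) (LinearMap.ker A) := by
    let j : LinearMap.ker T →ₗ[ZMod 2] LinearMap.ker A :=
      LinearMap.codRestrict _ (f ∘ₗ K'.subtype ∘ₗ (LinearMap.ker T).subtype) (by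
        intro x
        have := x.2
        rw [LinearMap.mem_ker] at this ⊢
        exact this)
    have hj : Injective j := by
      intro x y hxy
      have h4 : f (x : K') = f (y : K') := congrArg Subtype.val hxy
      exact Subtype.ext (Subtype.ext (hf h4))
    exact LinearMap.finrank_le_finrank_of_injective hj
  omega

theorem Reg.mono {s s' : ℕ} (hs : Reg b s) (h : s' ≤ s) : Reg b s' := by
  intro l hl
  have := hs l hl
  omega

end

end Pool.Agent.H22.QK
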