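import Pool.Agent.H22.QK.StA
import Pool.Agent.H22.QK.KLow
import Pool.Agent.H22.QK.QRes

/-!
# StA2: spreadness on subspaces, self-correlation (about 110 lines)

PROOF of `spr_of_sprV`. For `W ≤ V` of codimension at most `K` and `y`: `SprV` for the inclusion of
`W` (`Y' = Fin 0 → ZMod 2`, `h = 0`): `avg (sf W) B y = 𝔼_{w ∈ W} B (y+w)
≤ (1 + 10^-6) |Y| β 𝔼_w iv (g (y+w) = 0) ≤ (1 + 10^-6) |Y| β (1/|Y| + (1/2)^(s-K))`
(`Reg.restrict`, `count_zero`) `≤ (1 + 10^-6)^2 β ≤ (1 + 1/12800) β`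
(`|Y| (1/2)^(s-K) ≤ (1/2)^20`).

PROOF of `corr_large`. `km_lower` with `N = 200`, `l = n + R`, `p = 2 (n+8)`
(`(1/2)^(n+R) ≤ 𝔼 B` because `|Y| = 2^R`).
-/

set_option autoImplicit false

open Finset Function Module
open scoped BigOperators
open Pool.Agent.H77.KM

namespace Pool.Agent.H22.QK

section

variable {V : Type} [AddCommGroup V] [Module (ZMod 2) V] [Fintype V]
variable {Y : Type} [AddCommGroup Y] [Module (ZMod 2) Y] [Fintype Y]
variable {g : V → Y} {b : V →ₗ[ZMod 2] V →ₗ[ZMod 2] Y}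

theorem spr_of_sprV (hg : IsQM g b) {s K κ r : ℕ} (hs : Reg b s) (hK : K ≤ κ)
    (hKs : K + finrank (ZMod 2) Y + 20 ≤ s) (B : V → ℝ) (hB : ∀ x, B x = 0 ∨ B x = 1)
    (hspr : SprV B g κ r ((1 + 1 / 1000000) * (Fintype.card Y * 𝔼 x, B x))) :
    Spr B K ((1 + 1 / 12800) * 𝔼 x, B x) := by
  intro W hW y
  have hβ : 0 ≤ 𝔼 x, B x := Finset.expect_nonneg fun x _ => by
    rcases hB x with h | h <;> rw [h] <;> norm_num
  have hcard : (Fintype.card Y : ℝ) = 2 ^ finrank (ZMod 2) Y := by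
    have h := Module.card_eq_pow_finrank (K := ZMod 2) (V := Y)
    rw [ZMod.card] at h
    exact_mod_cast h
  have hYpos : (0 : ℝ) < Fintype.card Y := by rw [hcard]; positivity
  have h1 := hspr W (Fin 0 → ZMod 2) W.subtype W.injective_subtype (by omega) (by simp) y
    (fun _ => 0) 0 (fun x z => by simp)
  have h2 : avg (sf W) B y = 𝔼 w : W, B (y + w) := by
    unfold avg
    exact expect_sf_eq W (fun a => B (y + a))
  have h3 : ∀ w : W, B (y + W.subtype w) * iv ((0 : Fin 0 → ZMod 2) = 0) = B (y + w) := by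
    intro w
    rw [iv_pos rfl, mul_one]
    rfl
  have h4 : ∀ w : W, iv (g (y + W.subtype w) = 0) * iv ((0 : Fin 0 → ZMod 2) = 0)
      = iv (g (y + W.subtype w) = 0) := by
    intro w
    rw [iv_pos rfl, mul_one]
  have hreg : Reg (pb b W.subtype) (s - K) :=
    hs.restrict W.subtype W.injective_subtype hW (by omega)
  have h5 := count_zero (hg.pull W.subtype y) hreg
  have h6 : 𝔼 w : W, iv (g (y + W.subtype w) = 0)
      ≤ 1 / Fintype.card Y + (1 / 2) ^ (s - K) := by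
    have := (abs_le.mp h5).2
    linarith
  have h7 : (Fintype.card Y : ℝ) * (1 / 2) ^ (s - K) ≤ (1 / 2) ^ 20 := by
    have h8 : (1 / 2 : ℝ) ^ (s - K) ≤ (1 / 2) ^ (finrank (ZMod 2) Y + 20) :=
      pow_le_pow_of_le_one (by norm_num) (by norm_num) (by omega)
    calc (Fintype.card Y : ℝ) * (1 / 2) ^ (s - K)
        ≤ 2 ^ finrank (ZMod 2) Y * (1 / 2) ^ (finrank (ZMod 2) Y + 20) := by
          rw [hcard]
          exact mul_le_mul_of_nonneg_left h8 (by positivity)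
      _ = (1 / 2) ^ 20 := by
          rw [pow_add, ← mul_assoc, ← mul_pow]
          norm_num
  have h9 : (Fintype.card Y : ℝ) * (𝔼 w : W, iv (g (y + W.subtype w) = 0))
      ≤ 1 + (1 / 2) ^ 20 := by
    calc (Fintype.card Y : ℝ) * (𝔼 w : W, iv (g (y + W.subtype w) = 0))
        ≤ Fintype.card Y * (1 / Fintype.card Y + (1 / 2) ^ (s - K)) :=
          mul_le_mul_of_nonneg_left h6 hYpos.le
      _ = 1 + Fintype.card Y * (1 / 2) ^ (s - K) := by
          rw [mul_add, mul_one_div_cancel hYpos.ne']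
      _ ≤ _ := by linarith
  rw [h2]
  have e1 : 𝔼 w : W, B (y + w) = 𝔼 w : W, B (y + W.subtype w) * iv ((fun _ : W =>
      (0 : Fin 0 → ZMod 2)) w = 0) := Finset.expect_congr rfl fun w _ => (h3 w).symm
  have e2 : 𝔼 w : W, iv (g (y + W.subtype w) = 0) * iv ((fun _ : W =>
      (0 : Fin 0 → ZMod 2)) w = 0) = 𝔼 w : W, iv (g (y + W.subtype w) = 0) :=
    Finset.expect_congr rfl fun w _ => h4 w
  rw [e2] at h1
  rw [e1]
  refine h1.trans ?_
  have h10 : (1 + 1 / 1000000) * ((Fintype.card Y : ℝ) * 𝔼 x, B x) *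
      (𝔼 w : W, iv (g (y + W.subtype w) = 0))
      = ((1 + 1 / 1000000) * 𝔼 x, B x) *
        ((Fintype.card Y : ℝ) * (𝔼 w : W, iv (g (y + W.subtype w) = 0))) := by ring
  rw [h10]
  calc ((1 + 1 / 1000000) * 𝔼 x, B x) *
        ((Fintype.card Y : ℝ) * (𝔼 w : W, iv (g (y + W.subtype w) = 0)))
      ≤ ((1 + 1 / 1000000) * 𝔼 x, B x) * (1 + (1 / 2) ^ 20) :=
        mul_le_mul_of_nonneg_left h9 (by positivity)
    _ = ((1 + 1 / 1000000) * (1 + (1 / 2) ^ 20)) * 𝔼 x, B x := by ring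
    _ ≤ (1 + 1 / 12800) * 𝔼 x, B x := by
        refine mul_le_mul_of_nonneg_right ?_ hβ
        norm_num

theorem corr_large (hg : IsQM g b) {s n κ r : ℕ} (hs : Reg b s)
    (hK : corK n (finrank (ZMod 2) Y) ≤ κ)
    (hKs : corK n (finrank (ZMod 2) Y) + finrank (ZMod 2) Y + 20 ≤ s)
    (B : V → ℝ) (hB : ∀ x, B x = 0 ∨ B x = 1)
    (hβ : (1 / 2 : ℝ) ^ n ≤ Fintype.card Y * 𝔼 x, B x)
    (hspr : SprV B g κ r ((1 + 1 / 1000000) * (Fintype.card Y * 𝔼 x, B x))) :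
    𝔼 x, iv (corr B B x < 199 / 200 * (𝔼 x, B x) ^ 2) ≤ (1 / 2) ^ (2 * (n + 8)) := by
  have h1 := spr_of_sprV hg hs hK hKs B hB hspr
  have hcard : (Fintype.card Y : ℝ) = 2 ^ finrank (ZMod 2) Y := by
    have h := Module.card_eq_pow_finrank (K := ZMod 2) (V := Y)
    rw [ZMod.card] at h
    exact_mod_cast h
  have hl : (1 / 2 : ℝ) ^ (n + finrank (ZMod 2) Y) ≤ 𝔼 x, B x := by
    rw [pow_add]
    calc (1 / 2 : ℝ) ^ n * (1 / 2) ^ finrank (ZMod 2) Y
        ≤ (Fintype.card Y * 𝔼 x, B x) * (1 / 2) ^ finrank (ZMod 2) Y :=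
          mul_le_mul_of_nonneg_right hβ (by positivity)
      _ = (2 ^ finrank (ZMod 2) Y * (1 / 2) ^ finrank (ZMod 2) Y) * 𝔼 x, B x := by
          rw [hcard]; ring
      _ = 𝔼 x, B x := by
          rw [← mul_pow]
          norm_num
  have h2 := km_lower B hB (N := 200) (l := n + finrank (ZMod 2) Y) (p := 2 * (n + 8))
    (by norm_num) (by omega) (even_two_mul _) hl (by
      have h3 : (1 + 1 / (64 * ((200 : ℕ) : ℝ))) = (1 + 1 / 12800 : ℝ) := by norm_num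
      rw [h3]
      exact h1)
  have h4 : (1 - 1 / ((200 : ℕ) : ℝ)) = (199 / 200 : ℝ) := by norm_num
  rw [h4] at h2
  exact h2

end

end Pool.Agent.H22.QK
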