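import Pool.Agent.H22.QK.PBase

/-!
# PropL: Proposition L, sets spread on quadratic pieces (about 190 lines)

PROOF of `propL` by induction on `n = finrank Y`. If `Reg b σ` use `propL_base`. Otherwise
`lowrank2` gives `λ ≠ 0` in `Dual Y` and `W ≤ V` of codimension at most `2σ+1` with
`λ (g_i (v+k)) = λ (g_i v)` for `k ∈ W`; `n ≥ 1`. Choose `y* ∈ Y` with `λ y* = 1`, and `y* ∈ Y0` if
`λ` does not vanish on `Y0`. Put `Y' = ker λ` (dimension `n - 1`), `Y0' = Y0 ∩ ker λ` as a subspace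
of `Y'` (`Y0.comap (ker λ).subtype`).

For `v1, v2 : V` let `c1 = λ (g1 v1)`, `c2 = λ (g2 (v1+v2))` and, for `k ∈ W`,
`g1' k = g1 (v1+k) + c1 y*`, `g2' k = g2 (v1+v2+k) + c2 y*`, both in `ker λ`; they are quadratic
maps `W → Y'` with the same polarisation (the restriction of `b`; `λ (b k k') = 0` on `W`). Let
`a1' k = a1 (v1+k)`, `a2' k = a2 (v1+v2+k)`.

Case A: `y* ∈ Y0`. `e'(k') = e (v2+k') + λ(e (v2+k')) y* ∈ Y0'`,
`u' k' = u (v2+k') iv (λ (e (v2+k')) = c1 + c2)`. For all `k, k' ∈ W`: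
`g1 (v1+k) ∈ Y0 ↔ g1' k ∈ Y0'`; and
`g1 (v1+k) + g2 (v1+v2+k+k') = e (v2+k') ↔ (λ (e (v2+k')) = c1+c2 ∧ g1' k + g2' (k+k') = e' k')`.
Case B: `λ = 0` on `Y0`. If `c1 ≠ 0` or `c2 ≠ 0` there is nothing with `g1 (v1+k) ∈ Y0` and
`g1 (v1+k) + g2 (v1+v2+k+k') = e ∈ Y0`; put `u' = 0`. If `c1 = c2 = 0` put `u' k' = u (v2+k')`,
`e' k' = e (v2+k')` (in `Y0'`). The same equivalences hold.

Spreadness: a piece of `g1'` given by `f : W1 → W`, `w0`, `E' ≤ Y0'`, `s' ∈ Y0'` is a piece of `g1`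
given by `W.subtype ∘ f`, `v1 + w0`, `E = E'.map (ker λ).subtype ≤ Y0`, `s = s' + c1 y*` (in `Y0`
in case A; in case B `c1 = 0`); the codimension grows by at most `2σ+1`. So `SprQ a1' g1' Y0' κ' t`
with `κ' = κ - (2σ+1) ≥ (n-1)(2σ+1) + kmDim`; the same for `a2'`.

By induction the average over `k' ∈ W` of `u' k' (CBf a1' a2' .. - (1+3/N) t^2 CBf 1 1 ..)` is at
most the bound, for all `v1, v2`. Average over `v1, v2 : V`: by `expect_coset` (twice, with the
inclusion `W → V`; `w' = v2 + k'`, `w = v1 + k`, `w + w' = v1 + v2 + k + k'`)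
`𝔼_{w'} u w' (CBf a1 a2 g1 g2 Y0 w' (e w') - ..)` is exactly this average.
-/

set_option autoImplicit false

open Finset Function Module
open scoped BigOperators
open Pool.Agent.H77.KM

namespace Pool.Agent.H22.QK

section

variable {V : Type} [AddCommGroup V] [Module (ZMod 2) V] [Fintype V]
variable {Y : Type} [AddCommGroup Y] [Module (ZMod 2) Y] [Fintype Y]

private theorem pl_comb (a1 a2 : V → ℝ) (g1 g2 : V → Y) (Y0 : Submodule (ZMod 2) Y) (w' : V)
    (e : Y) (C : ℝ) :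
    CBf a1 a2 g1 g2 Y0 w' e - C * CBf (fun _ => 1) (fun _ => 1) g1 g2 Y0 w' e
      = 𝔼 w, (a1 w * a2 (w + w') - C) * iv (g1 w ∈ Y0) * iv (g1 w + g2 (w + w') = e) := by
  unfold CBf
  rw [Finset.mul_expect, ← Finset.expect_sub_distrib]
  refine Finset.expect_congr rfl fun w _ => ?_
  ring

/-- The projection of `g` on a coset of `W` to the kernel of `lam`. -/
private def plg (lam : Dual (ZMod 2) Y) (W : Submodule (ZMod 2) V) (ys : Y) (hys : lam ys = 1)
    (g : V → Y) (hg : ∀ v, ∀ k ∈ W, lam (g (v + k)) = lam (g v)) (v : V) (k : W) :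
    LinearMap.ker lam :=
  ⟨g (v + k) + lam (g v) • ys, by
    rw [LinearMap.mem_ker, map_add, map_smul, hys, hg v k k.2, smul_eq_mul, mul_one]
    exact ZModModule.add_self _⟩

private theorem pl_b_ker {g : V → Y} {b : V →ₗ[ZMod 2] V →ₗ[ZMod 2] Y} (h : IsQM g b)
    (lam : Dual (ZMod 2) Y) (W : Submodule (ZMod 2) V)
    (hg : ∀ v, ∀ k ∈ W, lam (g (v + k)) = lam (g v)) (x y : W) :
    b x y ∈ LinearMap.ker lam := by
  rw [LinearMap.mem_ker]
  have h1 := h (x : V) (y : V)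
  have h2 : lam (g ((x : V) + y)) = lam (g x) := hg x y y.2
  have h3 : lam (g (y : V)) = lam (g 0) := by
    have := hg 0 y y.2
    rwa [zero_add] at this
  rw [h1, map_add, map_add, map_add, h3, add_assoc (lam (g (x : V))), ZModModule.add_self,
    add_zero] at h2
  exact add_eq_left.mp h2

/-- The polarisation restricted to `W`, with values in the kernel of `lam`. -/
private def plb (lam : Dual (ZMod 2) Y) (W : Submodule (ZMod 2) V)
    (b : V →ₗ[ZMod 2] V →ₗ[ZMod 2] Y) (hb : ∀ x y : W, b x y ∈ LinearMap.ker lam) :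
    W →ₗ[ZMod 2] W →ₗ[ZMod 2] LinearMap.ker lam :=
  LinearMap.mk₂ (ZMod 2) (fun x y => ⟨b x y, hb x y⟩)
    (fun x y z => Subtype.ext (by simp)) (fun c x y => Subtype.ext (by simp))
    (fun x y z => Subtype.ext (by simp)) (fun c x y => Subtype.ext (by simp))

private theorem plg_qm {g : V → Y} {b : V →ₗ[ZMod 2] V →ₗ[ZMod 2] Y} (h : IsQM g b)
    (lam : Dual (ZMod 2) Y) (W : Submodule (ZMod 2) V) (ys : Y) (hys : lam ys = 1)
    (hg : ∀ v, ∀ k ∈ W, lam (g (v + k)) = lam (g v))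
    (hb : ∀ x y : W, b x y ∈ LinearMap.ker lam) (v : V) :
    IsQM (plg lam W ys hys g hg v) (plb lam W b hb) := by
  intro x y
  apply Subtype.ext
  have h1 : g (v + ((x : V) + y)) = g (v + x) + g (v + y) + g (v + 0) + b x y :=
    (h.shift v) (x : V) (y : V)
  show g (v + ((x + y : W) : V)) + lam (g v) • ys
    = (g (v + x) + lam (g v) • ys) + (g (v + y) + lam (g v) • ys)
      + (g (v + ((0 : W) : V)) + lam (g v) • ys) + b x y
  rw [Submodule.coe_add, Submodule.coe_zero, h1]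
  have hc := ZModModule.add_self (lam (g v) • ys)
  generalize lam (g v) • ys = c at hc
  have h2 : (g (v + x) + c) + (g (v + y) + c) + (g (v + 0) + c) + b x y
      = (g (v + x) + g (v + y) + g (v + 0) + b x y + c) + (c + c) := by abel
  rw [h2, hc]
  exact (add_zero _).symm

private theorem pl_mem_map (K : Submodule (ZMod 2) Y) (E : Submodule (ZMod 2) K) (x : K) :
    (x : Y) ∈ E.map K.subtype ↔ x ∈ E := by
  constructor
  · rintro ⟨z, hz, hzx⟩
    have : z = x := Subtype.ext hzx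
    rwa [← this]
  · intro h
    exact ⟨x, h, rfl⟩

private theorem pl_spr (lam : Dual (ZMod 2) Y) (W : Submodule (ZMod 2) V) (ys : Y)
    (hys : lam ys = 1) (g : V → Y) (hg : ∀ v, ∀ k ∈ W, lam (g (v + k)) = lam (g v)) (v : V)
    (Y0 : Submodule (ZMod 2) Y) (hc : lam (g v) • ys ∈ Y0) {a : V → ℝ} {κ κ' d : ℕ}
    (hd : finrank (ZMod 2) V ≤ finrank (ZMod 2) W + d) (hκ : κ' + d ≤ κ) {t : ℝ}
    (hS : SprQ a g Y0 κ t) :
    SprQ (fun k : W => a (v + k)) (plg lam W ys hys g hg v)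
      (Y0.comap (LinearMap.ker lam).subtype) κ' t := by
  intro W1 _ _ _ f hf hdim w0 E hE s hs
  have hE' : E.map (LinearMap.ker lam).subtype ≤ Y0 := by
    rintro _ ⟨z, hz, rfl⟩
    exact hE hz
  have hs' : (s : Y) + lam (g v) • ys ∈ Y0 := Y0.add_mem hs hc
  have key := hS W1 (W.subtype ∘ₗ f) (W.injective_subtype.comp hf) (by omega) (v + w0)
    (E.map (LinearMap.ker lam).subtype) hE' ((s : Y) + lam (g v) • ys) hs'
  have hv : ∀ w : W1, v + (w0 : V) + (W.subtype ∘ₗ f) w = v + ((w0 + f w : W) : V) := by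
    intro w
    rw [LinearMap.comp_apply, Submodule.subtype_apply, Submodule.coe_add, add_assoc]
  have hi : ∀ w : W1,
      iv (g (v + (w0 : V) + (W.subtype ∘ₗ f) w) + ((s : Y) + lam (g v) • ys)
        ∈ E.map (LinearMap.ker lam).subtype)
      = iv (plg lam W ys hys g hg v (w0 + f w) + s ∈ E) := by
    intro w
    refine iv_congr ?_
    rw [← pl_mem_map (LinearMap.ker lam) E, hv w]
    have h1 : g (v + ((w0 + f w : W) : V)) + ((s : Y) + lam (g v) • ys)
        = ((plg lam W ys hys g hg v (w0 + f w) + s : LinearMap.ker lam) : Y) := by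
      show g (v + ((w0 + f w : W) : V)) + ((s : Y) + lam (g v) • ys)
        = (g (v + ((w0 + f w : W) : V)) + lam (g v) • ys) + (s : Y)
      abel
    rw [h1]
  have e1 : ∀ w : W1, a (v + (w0 : V) + (W.subtype ∘ₗ f) w)
      * iv (g (v + (w0 : V) + (W.subtype ∘ₗ f) w) + ((s : Y) + lam (g v) • ys)
        ∈ E.map (LinearMap.ker lam).subtype)
      = a (v + ((w0 + f w : W) : V)) * iv (plg lam W ys hys g hg v (w0 + f w) + s ∈ E) := by
    intro w
    rw [hi w, hv w]
  rw [Finset.expect_congr rfl fun w _ => e1 w, Finset.expect_congr rfl fun w _ => hi w] at key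
  exact key

private theorem pl_step (lam : Dual (ZMod 2) Y) (W : Submodule (ZMod 2) V) (ys : Y)
    (hys : lam ys = 1) (g1 g2 : V → Y)
    (hg1 : ∀ v, ∀ k ∈ W, lam (g1 (v + k)) = lam (g1 v))
    (hg2 : ∀ v, ∀ k ∈ W, lam (g2 (v + k)) = lam (g2 v))
    (Y0 : Submodule (ZMod 2) Y) (v1 v2 : V) (hc1 : lam (g1 v1) • ys ∈ Y0)
    (hc3 : ∀ y ∈ Y0, lam y • ys ∈ Y0) (a1 a2 u : V → ℝ) (hu : ∀ x, 0 ≤ u x ∧ u x ≤ 1)
    (e : V → Y0) (C B : ℝ)
    (ih : ∀ (u' : W → ℝ) (_ : ∀ x, 0 ≤ u' x ∧ u' x ≤ 1)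
      (e' : W → Y0.comap (LinearMap.ker lam).subtype),
      𝔼 k', u' k' * (CBf (fun k : W => a1 (v1 + k)) (fun k : W => a2 (v1 + v2 + k))
          (plg lam W ys hys g1 hg1 v1) (plg lam W ys hys g2 hg2 (v1 + v2))
          (Y0.comap (LinearMap.ker lam).subtype) k' (e' k')
        - C * CBf (fun _ => 1) (fun _ => 1)
          (plg lam W ys hys g1 hg1 v1) (plg lam W ys hys g2 hg2 (v1 + v2))
          (Y0.comap (LinearMap.ker lam).subtype) k' (e' k')) ≤ B) :
    𝔼 k' : W, 𝔼 k : W, u (v2 + k') * ((a1 (v1 + k) * a2 (v1 + k + (v2 + k')) - C)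
      * iv (g1 (v1 + k) ∈ Y0) * iv (g1 (v1 + k) + g2 (v1 + k + (v2 + k')) = e (v2 + k'))) ≤ B := by
  have hker : ∀ y : Y, y + lam y • ys ∈ LinearMap.ker lam := by
    intro y
    rw [LinearMap.mem_ker, map_add, map_smul, hys, smul_eq_mul, mul_one]
    exact ZModModule.add_self _
  set e' : W → Y0.comap (LinearMap.ker lam).subtype := fun k' =>
    ⟨⟨(e (v2 + k') : Y) + lam (e (v2 + k') : Y) • ys, hker _⟩,
      Y0.add_mem (e (v2 + k')).2 (hc3 _ (e (v2 + k')).2)⟩ with he'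
  set u' : W → ℝ := fun k' =>
    u (v2 + k') * iv (lam (e (v2 + k') : Y) = lam (g1 v1) + lam (g2 (v1 + v2))) with hu'
  have hu01 : ∀ x, 0 ≤ u' x ∧ u' x ≤ 1 := by
    intro x
    refine ⟨mul_nonneg (hu _).1 (iv_nonneg _), ?_⟩
    exact mul_le_one₀ (hu _).2 (iv_nonneg _) (iv_le_one _)
  refine le_trans (le_of_eq ?_) (ih u' hu01 e')
  refine Finset.expect_congr rfl fun k' _ => ?_
  rw [pl_comb, Finset.mul_expect]
  refine Finset.expect_congr rfl fun k _ => ?_
  have hvec : v1 + (k : V) + (v2 + (k' : V)) = v1 + v2 + ((k + k' : W) : V) := by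
    rw [Submodule.coe_add]
    abel
  have hP : (g1 (v1 + k) ∈ Y0) ↔
      (plg lam W ys hys g1 hg1 v1 k ∈ Y0.comap (LinearMap.ker lam).subtype) := by
    show _ ↔ g1 (v1 + k) + lam (g1 v1) • ys ∈ Y0
    exact (Y0.add_mem_iff_left hc1).symm
  have hQ : (g1 (v1 + k) + g2 (v1 + k + (v2 + k')) = e (v2 + k')) ↔
      (lam (e (v2 + k') : Y) = lam (g1 v1) + lam (g2 (v1 + v2)) ∧
        plg lam W ys hys g1 hg1 v1 k + plg lam W ys hys g2 hg2 (v1 + v2) (k + k') = (e' k' : _)) := by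
    rw [hvec]
    have hlam : lam (g1 (v1 + k) + g2 (v1 + v2 + ((k + k' : W) : V)))
        = lam (g1 v1) + lam (g2 (v1 + v2)) := by
      rw [map_add, hg1 v1 k k.2, hg2 (v1 + v2) _ (k + k').2]
    have hsub : (plg lam W ys hys g1 hg1 v1 k + plg lam W ys hys g2 hg2 (v1 + v2) (k + k')
        = (e' k' : _)) ↔
        (g1 (v1 + k) + lam (g1 v1) • ys + (g2 (v1 + v2 + ((k + k' : W) : V))
          + lam (g2 (v1 + v2)) • ys) = (e (v2 + k') : Y) + lam (e (v2 + k') : Y) • ys) := by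
      constructor
      · intro h
        exact congrArg Subtype.val h
      · intro h
        exact Subtype.ext h
    rw [hsub]
    have hre : g1 (v1 + k) + lam (g1 v1) • ys + (g2 (v1 + v2 + ((k + k' : W) : V))
          + lam (g2 (v1 + v2)) • ys)
        = (g1 (v1 + k) + g2 (v1 + v2 + ((k + k' : W) : V)))
          + (lam (g1 v1) + lam (g2 (v1 + v2))) • ys := by
      rw [add_smul]
      abel
    rw [hre]
    constructor
    · intro h
      have h1 : lam (e (v2 + k') : Y) = lam (g1 v1) + lam (g2 (v1 + v2)) := by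
        rw [← h, hlam]
      exact ⟨h1, by rw [h, h1]⟩
    · rintro ⟨h1, h2⟩
      rw [h1] at h2
      exact add_right_cancel h2
  rw [iv_congr hP, iv_congr hQ, iv_and, hvec, hu']
  ring

end

theorem propL (n : ℕ) : ∀ (V Y : Type) [AddCommGroup V] [Module (ZMod 2) V] [Fintype V]
    [AddCommGroup Y] [Module (ZMod 2) Y] [Fintype Y]
    (g1 g2 : V → Y) (b : V →ₗ[ZMod 2] V →ₗ[ZMod 2] Y) (_ : IsQM g1 b) (_ : IsQM g2 b)
    (a1 a2 : V → ℝ) (_ : ∀ x, a1 x = 0 ∨ a1 x = 1) (_ : ∀ x, a2 x = 0 ∨ a2 x = 1)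
    (Y0 : Submodule (ZMod 2) Y) {N l m p q σ κ : ℕ} (_ : 1 ≤ N)
    (_ : (2 * N + 1) * (N + 7) ≤ m) (_ : (N + 2) * p ≤ m) {t : ℝ}
    (_ : (1 / 2 : ℝ) ^ l ≤ t) (_ : finrank (ZMod 2) Y = n) (_ : n ≤ q)
    (_ : kmDim N (l + q) m + 2 * q + N + p + 6 ≤ σ)
    (_ : n * (2 * σ + 1) + kmDim N (l + q) m ≤ κ)
    (_ : SprQ a1 g1 Y0 κ t) (_ : SprQ a2 g2 Y0 κ t)
    (u : V → ℝ) (_ : ∀ x, 0 ≤ u x ∧ u x ≤ 1) (e : V → Y0),
    𝔼 w', u w' * (CBf a1 a2 g1 g2 Y0 w' (e w')
        - (1 + 3 / (N : ℝ)) * t ^ 2 * CBf (fun _ => 1) (fun _ => 1) g1 g2 Y0 w' (e w'))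
      ≤ 2 * 2 ^ q * (1 / 2) ^ p := by
  induction n with
  | zero =>
    intro V Y _ _ _ _ _ _ g1 g2 b h1 h2 a1 a2 ha1 ha2 Y0 N l m p q σ κ hN hm hmp t ht hn hq hσ hκ
      hS1 hS2 u hu e
    have hreg : Reg b σ := by
      intro lam hlam
      exfalso
      apply hlam
      apply LinearMap.ext
      intro y
      have hsub : Subsingleton Y := Module.finrank_zero_iff.1 hn
      rw [Subsingleton.elim y 0, map_zero, map_zero]
    exact propL_base h1 h2 a1 a2 ha1 ha2 Y0 hN hm hmp ht (by omega) hσ (by omega) hreg hS1 hS2 u hu e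
  | succ n ih =>
    intro V Y _ _ _ _ _ _ g1 g2 b h1 h2 a1 a2 ha1 ha2 Y0 N l m p q σ κ hN hm hmp t ht hn hq hσ hκ
      hS1 hS2 u hu e
    by_cases hreg : Reg b σ
    · have hle : kmDim N (l + q) m ≤ κ := le_trans (Nat.le_add_left _ _) hκ
      exact propL_base h1 h2 a1 a2 ha1 ha2 Y0 hN hm hmp ht (by omega) hσ hle hreg hS1 hS2 u hu e
    obtain ⟨lam, hlam, W, hW, hg1, hg2⟩ := lowrank2 h1 h2 hreg
    set C : ℝ := (1 + 3 / (N : ℝ)) * t ^ 2 with hC
    have hb : ∀ x y : W, b x y ∈ LinearMap.ker lam := pl_b_ker h1 lam W hg1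
    -- the dimension of the kernel
    have hker : finrank (ZMod 2) (LinearMap.ker lam) = n := by
      have h3 := LinearMap.finrank_range_add_finrank_ker lam
      have h4 : finrank (ZMod 2) (LinearMap.range lam) = 1 := by
        rw [LinearMap.range_eq_top.2 (LinearMap.surjective hlam), finrank_top, finrank_self]
      omega
    -- the numbers
    have hκ' : n * (2 * σ + 1) + kmDim N (l + q) m ≤ κ - (2 * σ + 1) := by
      have : (n + 1) * (2 * σ + 1) = n * (2 * σ + 1) + (2 * σ + 1) := by ring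
      omega
    have hκ'' : κ - (2 * σ + 1) + (2 * σ + 1) ≤ κ := by
      have : (n + 1) * (2 * σ + 1) = n * (2 * σ + 1) + (2 * σ + 1) := by ring
      omega
    -- the point `ys`
    have hsurj : ∃ ys : Y, lam ys = 1 := LinearMap.surjective hlam 1
    have hB0 : (0 : ℝ) ≤ 2 * 2 ^ q * (1 / 2) ^ p := by positivity
    -- the inner averages
    have main : ∀ v1 v2 : V,
        𝔼 k' : W, 𝔼 k : W, u (v2 + k') * ((a1 (v1 + k) * a2 (v1 + k + (v2 + k')) - C)
          * iv (g1 (v1 + k) ∈ Y0)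
          * iv (g1 (v1 + k) + g2 (v1 + k + (v2 + k')) = e (v2 + k')))
          ≤ 2 * 2 ^ q * (1 / 2) ^ p := by
      intro v1 v2
      have good : ∀ (ys : Y) (hys : lam ys = 1), lam (g1 v1) • ys ∈ Y0 →
          lam (g2 (v1 + v2)) • ys ∈ Y0 → (∀ y ∈ Y0, lam y • ys ∈ Y0) →
          𝔼 k' : W, 𝔼 k : W, u (v2 + k') * ((a1 (v1 + k) * a2 (v1 + k + (v2 + k')) - C)
          * iv (g1 (v1 + k) ∈ Y0)
          * iv (g1 (v1 + k) + g2 (v1 + k + (v2 + k')) = e (v2 + k')))
          ≤ 2 * 2 ^ q * (1 / 2) ^ p := by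
        intro ys hys hc1 hc2 hc3
        refine pl_step lam W ys hys g1 g2 hg1 hg2 Y0 v1 v2 hc1 hc3 a1 a2 u hu e C _ ?_
        intro u' hu' e'
        exact ih W (LinearMap.ker lam) (plg lam W ys hys g1 hg1 v1)
          (plg lam W ys hys g2 hg2 (v1 + v2)) (plb lam W b hb)
          (plg_qm h1 lam W ys hys hg1 hb v1) (plg_qm h2 lam W ys hys hg2 hb (v1 + v2))
          (fun k : W => a1 (v1 + k)) (fun k : W => a2 (v1 + v2 + k))
          (fun k => ha1 _) (fun k => ha2 _) (Y0.comap (LinearMap.ker lam).subtype)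
          hN hm hmp ht hker (by omega) hσ hκ'
          (pl_spr lam W ys hys g1 hg1 v1 Y0 hc1 hW hκ'' hS1)
          (pl_spr lam W ys hys g2 hg2 (v1 + v2) Y0 hc2 hW hκ'' hS2) u' hu' e'
      by_cases hY : ∀ y ∈ Y0, lam y = 0
      · obtain ⟨ys, hys⟩ := hsurj
        have hc3 : ∀ y ∈ Y0, lam y • ys ∈ Y0 := by
          intro y hy
          rw [hY y hy, zero_smul]
          exact Y0.zero_mem
        by_cases hc1 : lam (g1 v1) = 0
        · by_cases hc2 : lam (g2 (v1 + v2)) = 0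
          · exact good ys hys (by rw [hc1, zero_smul]; exact Y0.zero_mem)
              (by rw [hc2, zero_smul]; exact Y0.zero_mem) hc3
          · -- the last condition is impossible
            have hz : ∀ k' k : W, u (v2 + k') * ((a1 (v1 + k) * a2 (v1 + k + (v2 + k')) - C)
                * iv (g1 (v1 + k) ∈ Y0)
                * iv (g1 (v1 + k) + g2 (v1 + k + (v2 + k')) = e (v2 + k'))) = 0 := by
              intro k' k
              rw [iv_neg (p := g1 (v1 + k) + g2 (v1 + k + (v2 + k')) = e (v2 + k')), mul_zero,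
                mul_zero]
              intro h
              apply hc2
              have h3 := congrArg lam h
              have hvec : v1 + (k : V) + (v2 + (k' : V)) = v1 + v2 + ((k + k' : W) : V) := by
                rw [Submodule.coe_add]
                abel
              rw [map_add, hg1 v1 k k.2, hvec, hg2 (v1 + v2) _ (k + k').2, hc1, zero_add,
                hY _ (e (v2 + k')).2] at h3
              exact h3
            simp only [hz]
            rw [Finset.expect_const_zero, Finset.expect_const_zero]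
            exact hB0
        · -- the first condition is impossible
          have hz : ∀ k' k : W, u (v2 + k') * ((a1 (v1 + k) * a2 (v1 + k + (v2 + k')) - C)
              * iv (g1 (v1 + k) ∈ Y0)
              * iv (g1 (v1 + k) + g2 (v1 + k + (v2 + k')) = e (v2 + k'))) = 0 := by
            intro k' k
            rw [iv_neg (p := g1 (v1 + k) ∈ Y0), mul_zero, zero_mul, mul_zero]
            intro h
            apply hc1
            have h3 := hY _ h
            rwa [hg1 v1 k k.2] at h3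
          simp only [hz]
          rw [Finset.expect_const_zero, Finset.expect_const_zero]
          exact hB0
      · push Not at hY
        obtain ⟨ys, hysY, hys0⟩ := hY
        have h01 : ∀ c : ZMod 2, c ≠ 0 → c = 1 := by decide
        have hys : lam ys = 1 := h01 _ hys0
        exact good ys hys (Y0.smul_mem _ hysY) (Y0.smul_mem _ hysY)
          (fun y _ => Y0.smul_mem _ hysY)
    -- the average over `v1, v2`
    have hL : 𝔼 w', u w' * (CBf a1 a2 g1 g2 Y0 w' (e w')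
        - C * CBf (fun _ => 1) (fun _ => 1) g1 g2 Y0 w' (e w'))
        = 𝔼 v2 : V, 𝔼 v1 : V, 𝔼 k' : W, 𝔼 k : W,
          u (v2 + k') * ((a1 (v1 + k) * a2 (v1 + k + (v2 + k')) - C)
          * iv (g1 (v1 + k) ∈ Y0)
          * iv (g1 (v1 + k) + g2 (v1 + k + (v2 + k')) = e (v2 + k'))) := by
      rw [expect_coset (fun k' : W => (k' : V))]
      refine Finset.expect_congr rfl fun v2 _ => ?_
      rw [Finset.expect_comm]
      refine Finset.expect_congr rfl fun k' _ => ?_
      rw [pl_comb, Finset.mul_expect]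
      exact expect_coset (fun k : W => (k : V)) _
    rw [hL]
    refine Finset.expect_le Finset.univ_nonempty (fun v2 _ => ?_)
    exact Finset.expect_le Finset.univ_nonempty (fun v1 _ => main v1 v2)

end Pool.Agent.H22.QK
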