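import Pool.Agent.H22.QK.QBase

/-!
# QExist: quadratic refinements of alternating forms (about 60 lines)

PROOF. Let `e : Basis (Fin n) (ZMod 2) W` (`finBasis`), `x_i` the coordinates of `x`, and put
`q x = ∑_{i<j} x_i x_j t (e i) (e j)`. Then `q 0 = 0` and
`q (x+y) - q x - q y = ∑_{i<j} (x_i y_j + x_j y_i) t (e i) (e j) = t x y`, because `t` is
alternating, hence symmetric, and `t x y = ∑_{i,j} x_i y_j t (e i) (e j)` with vanishing diagonal
terms.
-/

set_option autoImplicit false

open Finset Function Module
open scoped BigOperators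
open Pool.Agent.H77.KM

namespace Pool.Agent.H22.QK

theorem exists_quad {W : Type} [AddCommGroup W] [Module (ZMod 2) W] [Fintype W]
    (t : W →ₗ[ZMod 2] W →ₗ[ZMod 2] ZMod 2) (ht : ∀ w, t w w = 0) :
    ∃ q : W → ZMod 2, IsQM q t ∧ q 0 = 0 := by
  classical
  have hsym : ∀ x y, t x y = t y x := by
    intro x y
    have h := ht (x + y)
    simp only [map_add, LinearMap.add_apply, ht, zero_add, add_zero] at h
    have h2 : t x y + t x y = 0 := CharTwo.add_self_eq_zero _
    calc t x y = t x y + (t y x + t x y) := by rw [h, add_zero]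
      _ = (t x y + t x y) + t y x := by ring
      _ = t y x := by rw [h2, zero_add]
  let e := finBasis (ZMod 2) W
  let n := finrank (ZMod 2) W
  let c : Fin n → Fin n → ZMod 2 := fun i j => t (e i) (e j)
  have hc0 : ∀ i, c i i = 0 := fun i => ht _
  have hcs : ∀ i j, c i j = c j i := fun i j => hsym _ _
  let q : W → ZMod 2 := fun x =>
    ∑ i, ∑ j, if i < j then e.repr x i * e.repr x j * c i j else 0
  have hq0 : q 0 = 0 := by simp [q]
  have hexp : ∀ x y, t x y = ∑ i, ∑ j, e.repr x i * e.repr y j * c i j := by
    intro x y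
    conv_lhs => rw [← e.sum_repr x, ← e.sum_repr y]
    simp only [map_sum, LinearMap.sum_apply, map_smul, LinearMap.smul_apply, smul_eq_mul]
    rw [Finset.sum_comm]
    refine Finset.sum_congr rfl fun i _ => ?_
    rw [Finset.mul_sum]
    refine Finset.sum_congr rfl fun j _ => ?_
    show _ = _ * _ * t (e j) (e i)
    ring
  refine ⟨q, ?_, hq0⟩
  intro x y
  rw [hq0, add_zero]
  have h1 : q (x + y) = q x + q y +
      ∑ i, ∑ j, (if i < j then (e.repr x i * e.repr y j + e.repr y i * e.repr x j) * c i j
        else 0) := by
    simp only [q, ← Finset.sum_add_distrib]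
    refine Finset.sum_congr rfl fun i _ => Finset.sum_congr rfl fun j _ => ?_
    by_cases hij : i < j
    · simp only [hij, if_true, map_add, Finsupp.add_apply]
      ring
    · simp only [hij, if_false, add_zero]
  rw [h1]
  congr 1
  rw [hexp]
  have h2 : ∀ i j, (if i < j then (e.repr x i * e.repr y j + e.repr y i * e.repr x j) * c i j
      else 0) = (if i < j then e.repr x i * e.repr y j * c i j else 0) +
        (if i < j then e.repr x j * e.repr y i * c j i else 0) := by
    intro i j
    by_cases hij : i < j
    · simp only [hij, if_true]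
      rw [hcs j i]
      ring
    · simp only [hij, if_false, add_zero]
  simp only [h2, Finset.sum_add_distrib]
  have h3 : ∑ i, ∑ j, (if i < j then e.repr x j * e.repr y i * c j i else 0)
      = ∑ i, ∑ j, (if j < i then e.repr x i * e.repr y j * c i j else 0) := by
    rw [Finset.sum_comm]
  rw [h3, ← Finset.sum_add_distrib]
  refine Finset.sum_congr rfl fun i _ => ?_
  rw [← Finset.sum_add_distrib]
  refine Finset.sum_congr rfl fun j _ => ?_
  rcases lt_trichotomy i j with h | h | h
  · simp [h, h.not_gt]
  · subst h
    simp [hc0]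
  · simp [h, h.not_gt]

end Pool.Agent.H22.QK
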