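import Pool.Agent.H22.QK.StB
import Pool.Agent.H22.QK.PropL
import Pool.Agent.H22.QK.QExist

/-!
# CosetB: applying Proposition L on the cosets of `V1` (about 190 lines)

PROOF of `coset_bound`. Restrict everything to `V1`. For `v, w ∈ V1` and `x = x0 + v`,
`(T i x + c i) (y1 + w) = const_i(v) + γ_i w + T i v w` with `γ_i = T i x0 + c i` and
`const_i(v) = T i (x0+v) y1 + c i y1`. By `hV1` and `exists_quad` there are `q_i : V1 → ZMod 2`,
quadratic with polarisation `T i`, `q_i 0 = 0`; so `T i v w = q_i (v+w) + q_i v + q_i w` and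
`(T i x + c i) (y1+w) = e i ↔ q_i w + γ_i w + q_i (w+v) = e i + const_i(v) + q_i v =: e'_i(v)`.
Put `Yt = Y × (Fin r' → ZMod 2)`, `Y0 = ⊥ × ⊤`,
`g1 w = (g (y1+w), q w + γ w)`, `g2 w = (g (y1+x0+w), q w)`: quadratic maps `V1 → Yt` with the same
polarisation `bpair (b|V1) (T|V1)` (`IsQM.pull`, `IsQM.addAffine`, `IsQM.pair`).
`a1 w = B (y1+w)`, `a2 w = B (y1+x0+w)`, `u v = iv (x0+v ∈ X)`, `e v = (0, e'(v)) ∈ Y0`.
Then `CBf a1 a2 g1 g2 Y0 v (e v) = 𝔼_{w ∈ V1} B (y1+w) B (y1+w+x) iv (∀ i, ..)` (the conditions on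
`g` hold automatically on the support of `B`) and
`CBf 1 1 g1 g2 Y0 v (e v) = 𝔼_w iv (g (y1+w) = 0) iv (g (y1+w+x) = 0) iv (∀ i, ..)`.
Spreadness: `SprQ a1 g1 Y0 κ' t` for `κ' + codim V1 ≤ κ`: for an injective `f : W → V1` and
`E ≤ Y0`, `s ∈ Y0`: `E = ⊥ × E'`, `s = (0, s')`, the condition `g1 (w0 + f w) + s ∈ E` is
`g (y1 + w0 + f w) = 0 ∧ h w = 0`, `h w = mkQ (q(w0 + f w) + γ(w0 + f w) + s') ∈
(Fin r' → ZMod 2) ⧸ E'`, quadratic, and `SprV B g κ r t` applies to
`V1.subtype ∘ f`, the base point `y1 + w0` and `h` (dimension at most `r' ≤ r`); the same for `a2`.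
Finally `propL` with `n := finrank Yt = finrank Y + r' ≤ q`.
-/

set_option autoImplicit false

open Finset Function Module
open scoped BigOperators
open Pool.Agent.H77.KM

namespace Pool.Agent.H22.QK

section

variable {V : Type} [AddCommGroup V] [Module (ZMod 2) V] [Fintype V]
variable {Y : Type} [AddCommGroup Y] [Module (ZMod 2) Y] [Fintype Y]
variable {g : V → Y} {b : V →ₗ[ZMod 2] V →ₗ[ZMod 2] Y}

/-- Membership in a subspace of `⊥ × ⊤`. -/
lemma cb_mem {Z : Type} [AddCommGroup Z] [Module (ZMod 2) Z]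
    (E : Submodule (ZMod 2) (Y × Z)) (hE : E ≤ Submodule.prod ⊥ ⊤) (y : Y) (z : Z) :
    (y, z) ∈ E ↔ y = 0 ∧ z ∈ E.comap (LinearMap.inr (ZMod 2) Y Z) := by
  rw [Submodule.mem_comap, LinearMap.inr_apply]
  constructor
  · intro h
    have h1 := hE h
    rw [Submodule.mem_prod, Submodule.mem_bot] at h1
    have h2 : y = 0 := h1.1
    subst h2
    exact ⟨rfl, h⟩
  · rintro ⟨h1, h2⟩
    subst h1
    exact h2

theorem cb_spr (B : V → ℝ) (hBg : ∀ x, B x ≠ 0 → g x = 0)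
    {r r' : ℕ} (hr : r' ≤ r) (V1 : Submodule (ZMod 2) V) {k1 κ' κ : ℕ}
    (hk1 : finrank (ZMod 2) V ≤ finrank (ZMod 2) V1 + k1) (hκ : k1 + κ' ≤ κ) {t : ℝ}
    (hspr : SprV B g κ r t) (Q : V1 → Fin r' → ZMod 2)
    (TT : V1 →ₗ[ZMod 2] V1 →ₗ[ZMod 2] (Fin r' → ZMod 2)) (hQ : IsQM Q TT)
    (L : V1 →ₗ[ZMod 2] (Fin r' → ZMod 2)) (z0 : V) :
    SprQ (fun w : V1 => B (z0 + w))
      (fun w : V1 => ((g (z0 + w), Q w + L w) : Y × (Fin r' → ZMod 2)))
      (Submodule.prod ⊥ ⊤) κ' t := by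
  intro W _ _ _ f hf hfin w0 E hE s hs
  set E' : Submodule (ZMod 2) (Fin r' → ZMod 2) :=
    E.comap (LinearMap.inr (ZMod 2) Y (Fin r' → ZMod 2)) with hE'
  have : Fintype ((Fin r' → ZMod 2) ⧸ E') := Fintype.ofFinite _
  have hs1 : s.1 = 0 := by
    rw [Submodule.mem_prod, Submodule.mem_bot] at hs
    exact hs.1
  have hq1 : IsQM (fun w : V1 => Q w + L w + s.2) TT := hQ.addAffine L s.2
  have hq2 := (hq1.pull f w0).map E'.mkQ
  have hinj : Injective (V1.subtype ∘ₗ f) := by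
    intro x y hxy
    exact hf (Subtype.ext hxy)
  have hdim : finrank (ZMod 2) V ≤ finrank (ZMod 2) W + κ := by omega
  have hdim' : finrank (ZMod 2) ((Fin r' → ZMod 2) ⧸ E') ≤ r := by
    refine le_trans (Submodule.finrank_quotient_le E') ?_
    rw [Module.finrank_fin_fun]
    exact hr
  have key := hspr W ((Fin r' → ZMod 2) ⧸ E') (V1.subtype ∘ₗ f) hinj hdim hdim' (z0 + w0)
    (fun w => E'.mkQ (Q (w0 + f w) + L (w0 + f w) + s.2)) _ hq2
  have hpt : ∀ w : W, ((g (z0 + ((w0 + f w : V1) : V)), Q (w0 + f w) + L (w0 + f w)) :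
      Y × (Fin r' → ZMod 2)) + s ∈ E ↔
      (g (z0 + w0 + (V1.subtype ∘ₗ f) w) = 0 ∧
        E'.mkQ (Q (w0 + f w) + L (w0 + f w) + s.2) = 0) := by
    intro w
    have e1 : ((g (z0 + ((w0 + f w : V1) : V)), Q (w0 + f w) + L (w0 + f w)) :
      Y × (Fin r' → ZMod 2)) + s =
      (g (z0 + ((w0 + f w : V1) : V)), Q (w0 + f w) + L (w0 + f w) + s.2) := by
      refine Prod.ext ?_ rfl
      change g (z0 + ((w0 + f w : V1) : V)) + s.1 = _
      rw [hs1, add_zero]
    rw [e1, cb_mem E hE, Submodule.mkQ_apply, Submodule.Quotient.mk_eq_zero]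
    have e2 : z0 + ((w0 + f w : V1) : V) = z0 + w0 + (V1.subtype ∘ₗ f) w := by
      rw [LinearMap.comp_apply, Submodule.subtype_apply, Submodule.coe_add, add_assoc]
    rw [e2]
  have hpt2 : ∀ w : W, z0 + ((w0 + f w : V1) : V) = z0 + w0 + (V1.subtype ∘ₗ f) w := by
    intro w
    rw [LinearMap.comp_apply, Submodule.subtype_apply, Submodule.coe_add, add_assoc]
  have hl : ∀ w : W, B (z0 + ((w0 + f w : V1) : V)) *
      iv (((g (z0 + ((w0 + f w : V1) : V)), Q (w0 + f w) + L (w0 + f w)) :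
      Y × (Fin r' → ZMod 2)) + s ∈ E) =
      B (z0 + w0 + (V1.subtype ∘ₗ f) w) *
        iv (E'.mkQ (Q (w0 + f w) + L (w0 + f w) + s.2) = 0) := by
    intro w
    rw [iv_congr (hpt w), hpt2 w]
    by_cases hb : B (z0 + w0 + (V1.subtype ∘ₗ f) w) = 0
    · rw [hb, zero_mul, zero_mul]
    · rw [iv_and, iv_pos (hBg _ hb), one_mul]
  have hr' : ∀ w : W, iv (((g (z0 + ((w0 + f w : V1) : V)), Q (w0 + f w) + L (w0 + f w)) :
      Y × (Fin r' → ZMod 2)) + s ∈ E) =
      iv (g (z0 + w0 + (V1.subtype ∘ₗ f) w) = 0) *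
        iv (E'.mkQ (Q (w0 + f w) + L (w0 + f w) + s.2) = 0) := by
    intro w
    rw [iv_congr (hpt w), iv_and]
  rw [Finset.expect_congr rfl fun w _ => hl w, Finset.expect_congr rfl fun w _ => hr' w]
  exact key

theorem coset_bound (hg : IsQM g b) (B : V → ℝ) (hB : ∀ x, B x = 0 ∨ B x = 1)
    (hBg : ∀ x, B x ≠ 0 → g x = 0) {r r' : ℕ} (hr : r' ≤ r)
    (T : Fin r' → V →ₗ[ZMod 2] Dual (ZMod 2) V) (c : Fin r' → Dual (ZMod 2) V)
    (e : Fin r' → ZMod 2) (V1 : Submodule (ZMod 2) V) {k1 : ℕ}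
    (hk1 : finrank (ZMod 2) V ≤ finrank (ZMod 2) V1 + k1)
    (hV1 : ∀ i, ∀ v ∈ V1, T i v v = 0)
    {N l m p q σ κ : ℕ} (hN : 1 ≤ N)
    (hm : (2 * N + 1) * (N + 7) ≤ m) (hmp : (N + 2) * p ≤ m) {t : ℝ}
    (ht : (1 / 2 : ℝ) ^ l ≤ t) (hq : finrank (ZMod 2) Y + r' ≤ q)
    (hσ : kmDim N (l + q) m + 2 * q + N + p + 6 ≤ σ)
    (hκ : k1 + (q * (2 * σ + 1) + kmDim N (l + q) m) ≤ κ)
    (hspr : SprV B g κ r t) (X : Set V) (x0 y1 : V) :
    𝔼 v : V1, iv (x0 + (v : V) ∈ X) *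
      ((𝔼 w : V1, B (y1 + w) * B (y1 + w + (x0 + v))
          * iv (∀ i, (T i (x0 + v) + c i) (y1 + w) = e i))
        - (1 + 3 / (N : ℝ)) * t ^ 2 * 𝔼 w : V1, iv (g (y1 + w) = 0)
          * iv (g (y1 + w + (x0 + v)) = 0) * iv (∀ i, (T i (x0 + v) + c i) (y1 + w) = e i))
      ≤ 2 * 2 ^ q * (1 / 2) ^ p := by
  classical
  set κ' : ℕ := q * (2 * σ + 1) + kmDim N (l + q) m with hκ'
  -- the quadratic refinements
  have hex : ∀ i : Fin r', ∃ qq : V1 → ZMod 2,
      IsQM qq (pb (T i : V →ₗ[ZMod 2] V →ₗ[ZMod 2] ZMod 2) V1.subtype) ∧ qq 0 = 0 := by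
    intro i
    refine exists_quad _ ?_
    intro w
    exact hV1 i w w.2
  choose qf hqf hqf0 using hex
  set Q : V1 → Fin r' → ZMod 2 := fun w i => qf i w with hQdef
  let TT : V1 →ₗ[ZMod 2] V1 →ₗ[ZMod 2] (Fin r' → ZMod 2) :=
    LinearMap.mk₂ (ZMod 2) (fun v w i => T i (v : V) (w : V))
      (fun x y z => by
        funext i
        change T i ((x + y : V1) : V) (z : V) = T i (x : V) (z : V) + T i (y : V) (z : V)
        rw [Submodule.coe_add, map_add, LinearMap.add_apply])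
      (fun a x y => by
        funext i
        change T i ((a • x : V1) : V) (y : V) = a • T i (x : V) (y : V)
        rw [Submodule.coe_smul, map_smul, LinearMap.smul_apply])
      (fun x y z => by
        funext i
        change T i (x : V) ((y + z : V1) : V) = T i (x : V) (y : V) + T i (x : V) (z : V)
        rw [Submodule.coe_add, map_add])
      (fun a x y => by
        funext i
        change T i (x : V) ((a • y : V1) : V) = a • T i (x : V) (y : V)
        rw [Submodule.coe_smul, map_smul])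
  have hTT : ∀ v w : V1, ∀ i, TT v w i = T i (v : V) (w : V) := fun v w i => rfl
  have hQ : IsQM Q TT := by
    intro x y
    funext i
    exact hqf i x y
  let L : V1 →ₗ[ZMod 2] (Fin r' → ZMod 2) :=
    LinearMap.pi (fun i => (T i x0 + c i).comp V1.subtype)
  have hL : ∀ w : V1, ∀ i, L w i = T i x0 (w : V) + c i (w : V) := fun w i => rfl
  let Y0 : Submodule (ZMod 2) (Y × (Fin r' → ZMod 2)) := Submodule.prod ⊥ ⊤
  let g1 : V1 → Y × (Fin r' → ZMod 2) := fun w => (g (y1 + w), Q w + L w)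
  let g2 : V1 → Y × (Fin r' → ZMod 2) :=
    fun w => (g (y1 + x0 + w), Q w + (0 : V1 →ₗ[ZMod 2] (Fin r' → ZMod 2)) w)
  have hg1 : IsQM g1 (bpair (pb b V1.subtype) TT) := by
    have h1 := (hg.pull V1.subtype y1).pair (hQ.addAffine L 0)
    have e1 : g1 = fun x : V1 => (g (y1 + V1.subtype x), Q x + L x + 0) := by
      funext w
      change (g (y1 + w), Q w + L w) = _
      rw [add_zero]
      rfl
    rw [e1]
    exact h1
  have hg2 : IsQM g2 (bpair (pb b V1.subtype) TT) := by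
    have h1 := (hg.pull V1.subtype (y1 + x0)).pair
      (hQ.addAffine (0 : V1 →ₗ[ZMod 2] (Fin r' → ZMod 2)) 0)
    have e1 : g2 = fun x : V1 => (g (y1 + x0 + V1.subtype x),
        Q x + (0 : V1 →ₗ[ZMod 2] (Fin r' → ZMod 2)) x + 0) := by
      funext w
      change (g (y1 + x0 + w), Q w + (0 : V1 →ₗ[ZMod 2] (Fin r' → ZMod 2)) w) = _
      rw [add_zero]
      rfl
    rw [e1]
    exact h1
  have hS1 : SprQ (fun w : V1 => B (y1 + w)) g1 Y0 κ' t :=
    cb_spr B hBg hr V1 hk1 hκ hspr Q TT hQ L y1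
  have hS2 : SprQ (fun w : V1 => B (y1 + x0 + w)) g2 Y0 κ' t :=
    cb_spr B hBg hr V1 hk1 hκ hspr Q TT hQ 0 (y1 + x0)
  have hfr : finrank (ZMod 2) (Y × (Fin r' → ZMod 2)) = finrank (ZMod 2) Y + r' := by
    rw [Module.finrank_prod, Module.finrank_fin_fun]
  let ev : V1 → Y0 := fun v =>
    ⟨(0, fun i => e i + (T i (x0 + v) y1 + c i y1) + qf i v), by
      change _ ∈ Submodule.prod ⊥ ⊤
      rw [Submodule.mem_prod]
      exact ⟨Submodule.zero_mem _, Submodule.mem_top⟩⟩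
  have key := propL (finrank (ZMod 2) Y + r') V1 (Y × (Fin r' → ZMod 2)) g1 g2
    (bpair (pb b V1.subtype) TT) hg1 hg2 (fun w : V1 => B (y1 + w))
    (fun w : V1 => B (y1 + x0 + w)) (fun w => hB _) (fun w => hB _) Y0 hN hm hmp ht hfr hq hσ
    (by
      rw [hκ']
      exact Nat.add_le_add_right (Nat.mul_le_mul_right _ hq) _) hS1 hS2
    (fun v => iv (x0 + (v : V) ∈ X)) (fun v => ⟨iv_nonneg _, iv_le_one _⟩) ev
  refine le_trans (le_of_eq ?_) key
  have hcond : ∀ v w : V1, (g1 w + g2 (w + v) = ((ev v : Y0) : Y × (Fin r' → ZMod 2)) ↔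
      (g (y1 + w) + g (y1 + w + (x0 + v)) = 0 ∧
        ∀ i, (T i (x0 + v) + c i) (y1 + w) = e i)) := by
    intro v w
    have e0 : y1 + x0 + ((w + v : V1) : V) = y1 + w + (x0 + v) := by
      rw [Submodule.coe_add]
      abel
    have h2 : g1 w + g2 (w + v) = (g (y1 + w) + g (y1 + w + (x0 + v)),
        fun i => (qf i w + (T i x0 (w : V) + c i (w : V))) + (qf i (w + v) + 0)) := by
      refine Prod.ext ?_ ?_
      · change g (y1 + w) + g (y1 + x0 + ((w + v : V1) : V)) = _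
        rw [e0]
      · funext i
        rfl
    have h3 : ((ev v : Y0) : Y × (Fin r' → ZMod 2)) =
      (0, fun i => e i + (T i (x0 + v) y1 + c i y1) + qf i v) := rfl
    rw [h2, h3, Prod.mk.injEq]
    refine and_congr_right fun _ => ?_
    rw [funext_iff]
    refine forall_congr' fun i => ?_
    have h4 : qf i (w + v) = qf i w + qf i v + qf i 0 + T i (w : V) (v : V) := hqf i w v
    have h5 : T i (w : V) (v : V) = T i (v : V) (w : V) := (hqf i).symm w v
    rw [h4, hqf0 i, h5]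
    rw [map_add (T i) x0 (v : V)]
    simp only [LinearMap.add_apply, map_add, add_zero]
    have hc : ∀ z : ZMod 2, z + z = 0 := fun z => CharTwo.add_self_eq_zero z
    generalize qf i w = A1
    generalize qf i v = A2
    generalize T i x0 (w : V) = A3
    generalize T i x0 y1 = A4
    generalize T i (v : V) (w : V) = A5
    generalize T i (v : V) y1 = A6
    generalize c i (w : V) = A7
    generalize c i y1 = A8
    generalize e i = A9
    have e1 : A1 + (A3 + A7) + (A1 + A2 + A5) + (A9 + (A4 + A6 + A8) + A2) =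
        A4 + A6 + A8 + (A3 + A5 + A7) + A9 := by
      linear_combination hc A1 + hc A2
    rw [← CharTwo.add_eq_zero (a := A1 + (A3 + A7) + (A1 + A2 + A5)), e1, CharTwo.add_eq_zero]
  refine Finset.expect_congr rfl fun v _ => ?_
  have hA : (𝔼 w : V1, B (y1 + w) * B (y1 + w + (x0 + v))
          * iv (∀ i, (T i (x0 + v) + c i) (y1 + w) = e i)) =
      CBf (fun w : V1 => B (y1 + w)) (fun w : V1 => B (y1 + x0 + w)) g1 g2 Y0 v (ev v) := by
    unfold CBf
    refine Finset.expect_congr rfl fun w _ => ?_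
    have e0 : y1 + x0 + ((w + v : V1) : V) = y1 + w + (x0 + v) := by
      rw [Submodule.coe_add]
      abel
    change _ = B (y1 + w) * B (y1 + x0 + ((w + v : V1) : V)) * iv (g1 w ∈ Y0) *
      iv (g1 w + g2 (w + v) = ((ev v : Y0) : Y × (Fin r' → ZMod 2)))
    rw [iv_congr (hcond v w), e0]
    by_cases hb1 : B (y1 + w) = 0
    · rw [hb1]
      simp only [zero_mul]
    by_cases hb2 : B (y1 + w + (x0 + v)) = 0
    · rw [hb2]
      simp only [zero_mul, mul_zero]
    have hz1 := hBg _ hb1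
    have hz2 := hBg _ hb2
    have hm1 : g1 w ∈ Y0 := by
      change (g (y1 + w), Q w + L w) ∈ Submodule.prod ⊥ ⊤
      rw [Submodule.mem_prod, hz1]
      exact ⟨Submodule.zero_mem _, Submodule.mem_top⟩
    rw [iv_pos hm1, iv_and, hz1, hz2, iv_pos (add_zero (0 : Y)), one_mul, mul_one]
  have hBv : (𝔼 w : V1, iv (g (y1 + w) = 0)
          * iv (g (y1 + w + (x0 + v)) = 0) * iv (∀ i, (T i (x0 + v) + c i) (y1 + w) = e i)) =
      CBf (fun _ => 1) (fun _ => 1) g1 g2 Y0 v (ev v) := by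
    unfold CBf
    refine Finset.expect_congr rfl fun w _ => ?_
    rw [iv_congr (hcond v w), one_mul, one_mul]
    have hm1 : g1 w ∈ Y0 ↔ g (y1 + w) = 0 := by
      change (g (y1 + w), Q w + L w) ∈ Submodule.prod ⊥ ⊤ ↔ _
      rw [Submodule.mem_prod]
      exact ⟨fun h => h.1, fun h => ⟨h, Submodule.mem_top⟩⟩
    rw [iv_congr hm1, iv_and, ← mul_assoc]
    by_cases hz : g (y1 + w) = 0
    · rw [hz, zero_add]
    · rw [iv_neg hz]
      simp only [zero_mul]
  rw [hA, hBv]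

end

end Pool.Agent.H22.QK
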