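import Pool.Agent.H22.QK.FrVar

/-!
# FrFour: upper bound for the sum of fourth moments (about 120 lines)

PROOF of `four_fourier`: expand with `inversion`, or: `∑_φ (hat F φ)^4 = ∑_φ 𝔼_{a,b,c,d} F a F b F c
F d chi φ (a+b+c+d)`, `∑_φ chi φ x = |V|` or `0` (`sum_chi_zero`, `sum_chi_eq_zero`), hence
`= 𝔼_{a,b,c} F a F b F c F (a+b+c)`; put `b = a + h`, `c = a + k`.

PROOF of `FR_four`. `F_{y,x} u = E (y + lc u x)`. By `four_fourier`, `FR_expect`, `FR_shift`:
`FR (∑ hat^4) = 𝔼_u 𝔼_v 𝔼_w FR (E y * E (y + lc v x) * E (y + lc w x) * E (y + lc (v+w) x))`.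
If `v ≠ 0`, `w ≠ 0`, `v ≠ w`: `FR_two_dir`, value at most
`|Y|^4 𝔼 E y E (y+z) E (y+z') E (y+z+z') + τ = |Y|^4 ∑ (hat E ξ)^4 + τ` (support of `E`,
`four_fourier` on `V`). The other pairs `(v,w)` have proportion at most `3 (1/2)^m` and give at most
`FR 1 ≤ 1 + τ ≤ 2`.
-/

set_option autoImplicit false

open Finset Function Module
open scoped BigOperators
open Pool.Agent.H77.KM

namespace Pool.Agent.H22.QK

section

variable {V : Type} [AddCommGroup V] [Module (ZMod 2) V] [Fintype V]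
variable {Y : Type} [AddCommGroup Y] [Module (ZMod 2) Y] [Fintype Y]
variable {g : V → Y} {b : V →ₗ[ZMod 2] V →ₗ[ZMod 2] Y} {m : ℕ}

omit [AddCommGroup Y] [Module (ZMod 2) Y] [Fintype Y] in
private lemma ff_parseval (F : V → ℝ) :
    ∑ φ : Dual (ZMod 2) V, hat F φ ^ 2 = 𝔼 x, F x ^ 2 := by
  have h1 : ∀ φ : Dual (ZMod 2) V, hat F φ ^ 2 = 𝔼 x, F x * (hat F φ * chi φ x) := by
    intro φ
    have : ∀ x, F x * (hat F φ * chi φ x) = hat F φ * (F x * chi φ x) := fun x => by ring
    simp only [this]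
    rw [← Finset.mul_expect, sq]
    rfl
  simp only [h1]
  rw [← Finset.expect_sum_comm]
  refine Finset.expect_congr rfl (fun x _ => ?_)
  rw [← Finset.mul_sum, inversion, sq]

omit [AddCommGroup Y] [Module (ZMod 2) Y] [Fintype Y] in
private lemma ff_sq (F : V → ℝ) (φ : Dual (ZMod 2) V) : hat F φ ^ 2 = hat (corr F F) φ := by
  unfold hat corr
  rw [sq, Finset.expect_mul_expect]
  have h1 : ∀ x, (𝔼 y, F y * F (y + x)) * chi φ x = 𝔼 y, F y * F (y + x) * chi φ x := fun x => by
    rw [Finset.expect_mul]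
  simp only [h1]
  rw [Finset.expect_comm (s := (Finset.univ : Finset V)) (t := (Finset.univ : Finset V))
    (f := fun x y => F y * F (y + x) * chi φ x)]
  refine Finset.expect_congr rfl (fun y _ => ?_)
  rw [← expect_add_left (fun z => F y * chi φ y * (F z * chi φ z)) y]
  refine Finset.expect_congr rfl (fun x _ => ?_)
  rw [chi_add]
  have := chi_sq φ y
  linear_combination (F y * F (y + x) * chi φ x) * this

theorem four_fourier (F : V → ℝ) :
    ∑ φ : Dual (ZMod 2) V, hat F φ ^ 4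
      = 𝔼 y, 𝔼 h, 𝔼 k, F y * F (y + h) * F (y + k) * F (y + h + k) := by
  have h1 : ∀ φ : Dual (ZMod 2) V, hat F φ ^ 4 = hat (corr F F) φ ^ 2 := by
    intro φ
    rw [← ff_sq]
    ring
  simp only [h1]
  rw [ff_parseval]
  rw [Finset.expect_comm (s := (Finset.univ : Finset V)) (t := (Finset.univ : Finset V))
    (f := fun y h => 𝔼 k, F y * F (y + h) * F (y + k) * F (y + h + k))]
  refine Finset.expect_congr rfl (fun h _ => ?_)
  unfold corr
  rw [sq, Finset.expect_mul_expect]
  refine Finset.expect_congr rfl (fun y _ => ?_)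
  rw [← expect_add_left (fun z => F y * F (y + h) * (F z * F (z + h))) y]
  refine Finset.expect_congr rfl (fun k _ => ?_)
  rw [show y + k + h = y + h + k by abel]
  ring

private lemma ff_iv (m : ℕ) (a : Fin m → ZMod 2) :
    𝔼 v : Fin m → ZMod 2, iv (v = a) = (1 / 2) ^ m := by
  rw [Finset.expect_eq_sum_div_card, Finset.sum_eq_single a]
  · rw [iv_pos rfl]
    simp
  · intro b _ hb
    exact iv_neg hb
  · intro h
    exact absurd (Finset.mem_univ a) h

theorem FR_four (hg : IsQM g b) {s : ℕ} (hs : Reg b s) (hτ : tauF Y m s ≤ 1)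
    (E : V → ℝ) (hE : ∀ x, E x = 0 ∨ E x = 1) (hEg : ∀ x, E x ≠ 0 → g x = 0) :
    FR g m (fun y x => ∑ φ : Dual (ZMod 2) (Fin m → ZMod 2),
        hat (fun u => E (y + lc u x)) φ ^ 4)
      ≤ (Fintype.card Y : ℝ) ^ 4 * ∑ ξ : Dual (ZMod 2) V, hat E ξ ^ 4
        + 6 * (1 / 2) ^ m + tauF Y m s := by
  have hE0 : ∀ x, 0 ≤ E x := fun x => by rcases hE x with h | h <;> rw [h] <;> norm_num
  have hE1 : ∀ x, E x ≤ 1 := fun x => by rcases hE x with h | h <;> rw [h] <;> norm_num
  have hp0 : ∀ x1 x2 x3 x4, 0 ≤ E x1 * E x2 * E x3 * E x4 := fun x1 x2 x3 x4 =>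
    mul_nonneg (mul_nonneg (mul_nonneg (hE0 _) (hE0 _)) (hE0 _)) (hE0 _)
  have hp1 : ∀ x1 x2 x3 x4, E x1 * E x2 * E x3 * E x4 ≤ 1 := fun x1 x2 x3 x4 =>
    mul_le_one₀ (mul_le_one₀ (mul_le_one₀ (hE1 _) (hE0 _) (hE1 _)) (hE0 _) (hE1 _)) (hE0 _) (hE1 _)
  have hτ0 : 0 ≤ tauF Y m s := by
    unfold tauF
    positivity
  -- the value for a pair of directions
  obtain ⟨R, hR⟩ : ∃ R : (Fin m → ZMod 2) → (Fin m → ZMod 2) → ℝ, ∀ v w, R v w
      = FR g m (fun y x => E y * E (y + lc v x) * E (y + lc w x) * E (y + lc (v + w) x)) :=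
    ⟨_, fun _ _ => rfl⟩
  have e1 : FR g m (fun y x => ∑ φ : Dual (ZMod 2) (Fin m → ZMod 2),
        hat (fun u => E (y + lc u x)) φ ^ 4)
      = 𝔼 u : Fin m → ZMod 2, 𝔼 v : Fin m → ZMod 2, 𝔼 w : Fin m → ZMod 2,
        FR g m (fun y x => E (y + lc u x) * E (y + lc (u + v) x) * E (y + lc (u + w) x)
          * E (y + lc (u + v + w) x)) := by
    have e2 : (fun (y : V) (x : Fin m → V) => ∑ φ : Dual (ZMod 2) (Fin m → ZMod 2),
        hat (fun u => E (y + lc u x)) φ ^ 4)
        = fun y x => 𝔼 u : Fin m → ZMod 2, 𝔼 v : Fin m → ZMod 2, 𝔼 w : Fin m → ZMod 2,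
          E (y + lc u x) * E (y + lc (u + v) x) * E (y + lc (u + w) x)
          * E (y + lc (u + v + w) x) := by
      funext y x
      exact four_fourier (fun u => E (y + lc u x))
    rw [e2, FR_expect (fun (u : Fin m → ZMod 2) y x => 𝔼 v : Fin m → ZMod 2,
      𝔼 w : Fin m → ZMod 2, E (y + lc u x) * E (y + lc (u + v) x) * E (y + lc (u + w) x)
          * E (y + lc (u + v + w) x))]
    refine Finset.expect_congr rfl (fun u _ => ?_)
    rw [FR_expect (fun (v : Fin m → ZMod 2) y x =>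
      𝔼 w : Fin m → ZMod 2, E (y + lc u x) * E (y + lc (u + v) x) * E (y + lc (u + w) x)
          * E (y + lc (u + v + w) x))]
    refine Finset.expect_congr rfl (fun v _ => ?_)
    exact FR_expect (fun (w : Fin m → ZMod 2) y x =>
      E (y + lc u x) * E (y + lc (u + v) x) * E (y + lc (u + w) x)
          * E (y + lc (u + v + w) x))
  have e3 : ∀ u v w : Fin m → ZMod 2,
      FR g m (fun y x => E (y + lc u x) * E (y + lc (u + v) x) * E (y + lc (u + w) x)
          * E (y + lc (u + v + w) x)) = R v w := by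
    intro u v w
    rw [hR, ← FR_shift (g := g) (fun y x => E y * E (y + lc v x) * E (y + lc w x)
      * E (y + lc (v + w) x)) u]
    congr 1
    funext y x
    rw [lc_add u v, lc_add u w, lc_add (u + v) w, lc_add u v, lc_add v w]
    simp only [add_assoc]
  rw [e1]
  simp only [e3]
  rw [Finset.expect_const Finset.univ_nonempty]
  have hR2 : ∀ v w, R v w ≤ 2 := by
    intro v w
    have h1 : R v w ≤ FR g m (fun _ _ => 1) := by
      rw [hR]
      exact FR_mono (fun y x _ => hp1 _ _ _ _)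
    have h2 := (abs_le.mp (FR_one (m := m) hg hs hτ)).2
    linarith
  have hRg : ∀ v w, v ≠ 0 → w ≠ 0 → v ≠ w → R v w
      ≤ (Fintype.card Y : ℝ) ^ 4 * ∑ ξ : Dual (ZMod 2) V, hat E ξ ^ 4 + tauF Y m s := by
    intro v w hv hw hvw
    have h1 := (abs_le.mp (FR_two_dir (m := m) hg hs hτ hv hw hvw
      (fun y z z' => E y * E (y + z) * E (y + z') * E (y + z + z'))
      (fun y z z' => by rw [abs_of_nonneg (hp0 _ _ _ _)]; exact hp1 _ _ _ _))).2
    have h2 : FR g m (fun y x => E y * E (y + lc v x) * E (y + lc w x)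
        * E (y + lc v x + lc w x)) = R v w := by
      rw [hR]
      congr 1
      funext y x
      rw [lc_add, add_assoc]
    have h3 : ∀ x, iv (g x = 0) * E x = E x := by
      intro x
      by_cases hx : E x = 0
      · rw [hx, mul_zero]
      · rw [iv_pos (hEg x hx), one_mul]
    have h4 : ∀ y z z', iv (g y = 0) * iv (g (y + z) = 0) * iv (g (y + z') = 0)
        * iv (g (y + z + z') = 0) * (E y * E (y + z) * E (y + z') * E (y + z + z'))
        = E y * E (y + z) * E (y + z') * E (y + z + z') := by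
      intro y z z'
      calc _ = (iv (g y = 0) * E y) * (iv (g (y + z) = 0) * E (y + z))
            * (iv (g (y + z') = 0) * E (y + z')) * (iv (g (y + z + z') = 0) * E (y + z + z')) := by
            ring
        _ = _ := by rw [h3, h3, h3, h3]
    simp only [h4] at h1
    rw [h2, ← four_fourier] at h1
    linarith
  have hB0 : 0 ≤ (Fintype.card Y : ℝ) ^ 4 * ∑ ξ : Dual (ZMod 2) V, hat E ξ ^ 4 := by
    refine mul_nonneg (by positivity) (Finset.sum_nonneg (fun ξ _ => ?_))
    have : hat E ξ ^ 4 = (hat E ξ ^ 2) ^ 2 := by ring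
    rw [this]
    exact sq_nonneg _
  have hall : ∀ v w, R v w
      ≤ (Fintype.card Y : ℝ) ^ 4 * ∑ ξ : Dual (ZMod 2) V, hat E ξ ^ 4 + tauF Y m s
        + 2 * (iv (v = 0) + iv (w = 0) + iv (w = v)) := by
    intro v w
    have i1 := iv_nonneg (v = 0)
    have i2 := iv_nonneg (w = 0)
    have i3 := iv_nonneg (w = v)
    by_cases hv : v = 0
    · rw [iv_pos hv]
      have := hR2 v w
      linarith
    · by_cases hw : w = 0
      · rw [iv_pos hw]
        have := hR2 v w
        linarith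
      · by_cases hvw : w = v
        · rw [iv_pos hvw]
          have := hR2 v w
          linarith
        · have := hRg v w hv hw (fun h => hvw h.symm)
          linarith
  calc 𝔼 v, 𝔼 w, R v w ≤ 𝔼 v : Fin m → ZMod 2, 𝔼 w : Fin m → ZMod 2,
        ((Fintype.card Y : ℝ) ^ 4 * ∑ ξ : Dual (ZMod 2) V, hat E ξ ^ 4 + tauF Y m s
        + 2 * (iv (v = 0) + iv (w = 0) + iv (w = v))) :=
        Finset.expect_le_expect (fun v _ => Finset.expect_le_expect (fun w _ => hall v w))
    _ = _ := by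
        simp only [Finset.expect_add_distrib, ← Finset.mul_expect, ff_iv,
          Finset.expect_const Finset.univ_nonempty]
        ring

end

end Pool.Agent.H22.QK
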