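import Pool.Agent.H22.QK.Defs

/-!
# QBase: elementary facts on quadratic maps (about 90 lines)

All proofs are one-line computations in characteristic two (`ZModModule.add_self`):
* `b x x = 0`: put `y = x` in the definition (`g (x+x) = g 0`).
* symmetry: `g (x+y) = g (y+x)`.
* `shift`: `g (w0+x+y) = g (w0+x) + g y + g 0 + b (w0+x) y`,
  `g (w0+y) = g w0 + g y + g 0 + b w0 y`.
* `pull`: composition with a linear map `f`.
* `map`: composition with a linear map `l` of the target.
* `addAffine`: adding `x ↦ L x + c`.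
* `pair`: the pair of two quadratic maps.
* `two`: for `g1, g2` with the same polarisation, `g1 v + g2 (v + w) = b w v + h v + k w` where
  `h v = g1 v + g2 v + g1 0 + g2 0` is additive; stated as the existence of a linear map `h`.
* `lin_on`: if `b x y = 0` for all `x, y` then `x ↦ g x + g 0` is linear.
-/

set_option autoImplicit false

open Finset Function Module
open scoped BigOperators
open Pool.Agent.H77.KM

namespace Pool.Agent.H22.QK

section

variable {V : Type} [AddCommGroup V] [Module (ZMod 2) V]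
variable {Y : Type} [AddCommGroup Y] [Module (ZMod 2) Y]
variable {g : V → Y} {b : V →ₗ[ZMod 2] V →ₗ[ZMod 2] Y}

theorem IsQM.self_zero (hg : IsQM g b) (x : V) : b x x = 0 := by
  have h := hg x x
  rw [ZModModule.add_self x, ZModModule.add_self (g x), zero_add] at h
  exact (add_eq_left.1 h.symm)

theorem IsQM.symm (hg : IsQM g b) (x y : V) : b x y = b y x := by
  have h := hg x y
  rw [add_comm x y, hg y x, add_comm (g y) (g x)] at h
  exact (add_left_cancel h).symm

theorem IsQM.shift (hg : IsQM g b) (w0 : V) : IsQM (fun x => g (w0 + x)) b := by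
  intro x y
  have h1 := hg (w0 + x) y
  have h2 := hg w0 y
  rw [map_add, LinearMap.add_apply, add_assoc w0 x y] at h1
  show g (w0 + (x + y)) = g (w0 + x) + g (w0 + y) + g (w0 + 0) + b x y
  rw [h1, h2, add_zero]
  have e := ZModModule.add_self (g w0)
  calc g (w0 + x) + g y + g 0 + (b w0 y + b x y)
      = g (w0 + x) + g y + g 0 + (b w0 y + b x y) + 0 := (add_zero _).symm
    _ = g (w0 + x) + g y + g 0 + (b w0 y + b x y) + (g w0 + g w0) := by rw [e]
    _ = g (w0 + x) + (g w0 + g y + g 0 + b w0 y) + g w0 + b x y := by abel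

theorem IsQM.pull {W : Type} [AddCommGroup W] [Module (ZMod 2) W] (hg : IsQM g b)
    (f : W →ₗ[ZMod 2] V) (w0 : V) : IsQM (fun w => g (w0 + f w)) (pb b f) := by
  intro x y
  have h := hg.shift w0 (f x) (f y)
  show g (w0 + f (x + y)) = g (w0 + f x) + g (w0 + f y) + g (w0 + f 0) + b (f x) (f y)
  rw [map_add, map_zero]
  exact h

theorem IsQM.map {Y' : Type} [AddCommGroup Y'] [Module (ZMod 2) Y'] (hg : IsQM g b)
    (l : Y →ₗ[ZMod 2] Y') : IsQM (fun x => l (g x)) (b.compr₂ l) := by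
  intro x y
  show l (g (x + y)) = l (g x) + l (g y) + l (g 0) + l (b x y)
  rw [hg x y, map_add, map_add, map_add]

theorem IsQM.addAffine (hg : IsQM g b) (L : V →ₗ[ZMod 2] Y) (c : Y) :
    IsQM (fun x => g x + L x + c) b := by
  intro x y
  show g (x + y) + L (x + y) + c = (g x + L x + c) + (g y + L y + c) + (g 0 + L 0 + c) + b x y
  rw [hg x y, map_add, map_zero]
  have e := ZModModule.add_self c
  calc g x + g y + g 0 + b x y + (L x + L y) + c
      = g x + g y + g 0 + b x y + (L x + L y) + c + 0 := (add_zero _).symm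
    _ = g x + g y + g 0 + b x y + (L x + L y) + c + (c + c) := by rw [e]
    _ = g x + L x + c + (g y + L y + c) + (g 0 + 0 + c) + b x y := by abel

/-- The pair of two bilinear maps. -/
def bpair {Y' : Type} [AddCommGroup Y'] [Module (ZMod 2) Y'] (b : V →ₗ[ZMod 2] V →ₗ[ZMod 2] Y)
    (b' : V →ₗ[ZMod 2] V →ₗ[ZMod 2] Y') : V →ₗ[ZMod 2] V →ₗ[ZMod 2] (Y × Y') :=
  LinearMap.mk₂ (ZMod 2) (fun x y => (b x y, b' x y))
    (fun x y z => by simp) (fun c x y => by simp) (fun x y z => by simp) (fun c x y => by simp)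

@[simp] lemma bpair_apply {Y' : Type} [AddCommGroup Y'] [Module (ZMod 2) Y']
    (b : V →ₗ[ZMod 2] V →ₗ[ZMod 2] Y) (b' : V →ₗ[ZMod 2] V →ₗ[ZMod 2] Y') (x y : V) :
    bpair b b' x y = (b x y, b' x y) := rfl

theorem IsQM.pair {Y' : Type} [AddCommGroup Y'] [Module (ZMod 2) Y'] {g' : V → Y'}
    {b' : V →ₗ[ZMod 2] V →ₗ[ZMod 2] Y'} (hg : IsQM g b) (hg' : IsQM g' b') :
    IsQM (fun x => (g x, g' x)) (bpair b b') := by
  intro x y
  show (g (x + y), g' (x + y)) = (g x, g' x) + (g y, g' y) + (g 0, g' 0) + (b x y, b' x y)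
  rw [hg x y, hg' x y]
  rfl

theorem IsQM.two {g1 g2 : V → Y} (h1 : IsQM g1 b) (h2 : IsQM g2 b) :
    ∃ h : V →ₗ[ZMod 2] Y, ∀ v w, g1 v + g2 (v + w) = b w v + h v + (g2 w + g1 0) := by
  have hadd : ∀ x y : V, g1 (x + y) + g2 (x + y) + g1 0 + g2 0 =
      (g1 x + g2 x + g1 0 + g2 0) + (g1 y + g2 y + g1 0 + g2 0) := by
    intro x y
    rw [h1 x y, h2 x y]
    have e := ZModModule.add_self (b x y)
    calc g1 x + g1 y + g1 0 + b x y + (g2 x + g2 y + g2 0 + b x y) + g1 0 + g2 0
        = (g1 x + g2 x + g1 0 + g2 0) + (g1 y + g2 y + g1 0 + g2 0) + (b x y + b x y) := by abel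
      _ = (g1 x + g2 x + g1 0 + g2 0) + (g1 y + g2 y + g1 0 + g2 0) := by rw [e, add_zero]
  refine ⟨(AddMonoidHom.mk' (fun v => g1 v + g2 v + g1 0 + g2 0) hadd).toZModLinearMap 2, ?_⟩
  intro v w
  show g1 v + g2 (v + w) = b w v + (g1 v + g2 v + g1 0 + g2 0) + (g2 w + g1 0)
  rw [h2 v w, h2.symm v w]
  have e := ZModModule.add_self (g1 0)
  calc g1 v + (g2 v + g2 w + g2 0 + b w v)
      = g1 v + (g2 v + g2 w + g2 0 + b w v) + 0 := (add_zero _).symm
    _ = g1 v + (g2 v + g2 w + g2 0 + b w v) + (g1 0 + g1 0) := by rw [e]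
    _ = b w v + (g1 v + g2 v + g1 0 + g2 0) + (g2 w + g1 0) := by abel

theorem IsQM.lin_on (hg : IsQM g b) (hb : ∀ x y, b x y = 0) :
    ∃ L : V →ₗ[ZMod 2] Y, ∀ x, g x = L x + g 0 := by
  have e := ZModModule.add_self (g 0)
  have hadd : ∀ x y : V, g (x + y) + g 0 = (g x + g 0) + (g y + g 0) := by
    intro x y
    rw [hg x y, hb x y, add_zero]
    abel
  refine ⟨(AddMonoidHom.mk' (fun v => g v + g 0) hadd).toZModLinearMap 2, ?_⟩
  intro x
  show g x = g x + g 0 + g 0
  rw [add_assoc, e, add_zero]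

end

end Pool.Agent.H22.QK
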