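import Pool.Agent.H22.QK.GoodM

/-!
# Two: the local increment, with a number of characters independent of the number of equations (about 170 lines)

Notation: `r = iiR k`, `m = iiM k R`, `δ = (1/2)^m`, `τ = tauF Y m s`,
`η = (1/2)^(r+k+8)`, `ηg = (1/2)^(iiT k R)`, `ε = |Y| 𝔼 E ∈ [(1/2)^k, 2]`.

PROOF of `two`. Suppose the conclusion fails. By `per_frame` every good frame has a triple
`(r', ξ, e)`, `r' ≤ r`, `ξ : Fin r' → S` independent, `e`, with
`Φ_f y x := 𝔼_u f (y + lc u x) ≥ 41/40 ε (1/2)^r'`, `f z = E z * iv (∀ i, ξ i z = e i)`. For each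
such triple the failure of the conclusion gives `a := |Y| 𝔼 f < 51/50 ε (1/2)^r'` (the lower bound
for the `hat E (ξ i)` holds since `ξ i ∈ S`), hence `Φ_f - a ≥ (1/200) ε (1/2)^r'` and by
`FR_var` the triple occurs with
`FR (iv ..) ≤ 3 δ (200 2^r' / ε)^2 ≤ 3 δ 2^(16 + 2r + 2k)`. The number of triples is at most
`∑_{r' ≤ r} (2^(iiS) 2)^r' ≤ (r+1) 2^((iiS+1) r) ≤ 2^((iiS+2) r)`. So
`(1/2)^(k+2) ≤ FR (iv good) ≤ 3 δ 2^(16+2r+2k+(iiS+2) r)`, which contradicts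
`m ≥ (iiS+4) r + 3 k + 21`.
-/

set_option autoImplicit false

open Finset Function Module
open scoped BigOperators
open Pool.Agent.H77.KM

namespace Pool.Agent.H22.QK

section

variable {V : Type} [AddCommGroup V] [Module (ZMod 2) V] [Fintype V]
variable {Y : Type} [AddCommGroup Y] [Module (ZMod 2) Y] [Fintype Y]
variable {g : V → Y} {b : V →ₗ[ZMod 2] V →ₗ[ZMod 2] Y}

/-- The index set of the triples. -/
private noncomputable def twI (S : Finset (Dual (ZMod 2) V)) (r : ℕ) :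
    Finset (Σ r' : ℕ, (Fin r' → Dual (ZMod 2) V) × (Fin r' → ZMod 2)) := by
  classical
  exact (Finset.range (r + 1)).sigma
    (fun r' => (Fintype.piFinset (fun _ : Fin r' => S)) ×ˢ Finset.univ)

omit [Fintype V] in
private lemma twI_card (S : Finset (Dual (ZMod 2) V)) (r a : ℕ) (hS : S.card ≤ 2 ^ a) :
    (twI S r).card ≤ 2 ^ ((a + 2) * r) := by
  classical
  unfold twI
  rw [Finset.card_sigma]
  have h1 : ∀ r' ∈ Finset.range (r + 1),
      ((Fintype.piFinset (fun _ : Fin r' => S)) ×ˢ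
        (Finset.univ : Finset (Fin r' → ZMod 2))).card ≤ (2 ^ (a + 1)) ^ r := by
    intro r' hr'
    rw [Finset.mem_range] at hr'
    rw [Finset.card_product, Fintype.card_piFinset_const, Finset.card_univ, Fintype.card_fun,
      Fintype.card_fin, ZMod.card, ← mul_pow]
    calc (S.card * 2) ^ r' ≤ (2 ^ a * 2) ^ r' :=
          Nat.pow_le_pow_left (Nat.mul_le_mul_right 2 hS) r'
      _ = (2 ^ (a + 1)) ^ r' := by rw [pow_succ 2 a]
      _ ≤ (2 ^ (a + 1)) ^ r := Nat.pow_le_pow_right (by positivity) (by omega)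
  refine (Finset.sum_le_sum h1).trans ?_
  rw [Finset.sum_const, Finset.card_range, smul_eq_mul]
  have h2 : r + 1 ≤ 2 ^ r := Nat.lt_two_pow_self
  calc (r + 1) * (2 ^ (a + 1)) ^ r ≤ 2 ^ r * (2 ^ (a + 1)) ^ r := Nat.mul_le_mul_right _ h2
    _ = 2 ^ ((a + 2) * r) := by
        rw [← pow_mul, ← pow_add]
        congr 1
        ring

private lemma two_num {k r a m : ℕ} (hm : (a + 4) * r + 3 * k + 21 ≤ m) :
    (2 : ℝ) ^ ((a + 2) * r) * (2 ^ (16 + 2 * r + 2 * k) * (3 * (1 / 2) ^ m))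
      < (1 / 2) ^ (k + 2) := by
  have h1 : (3 : ℝ) * 2 ^ ((a + 2) * r + (16 + 2 * r + 2 * k) + (k + 2)) < 2 ^ m := by
    calc (3 : ℝ) * 2 ^ ((a + 2) * r + (16 + 2 * r + 2 * k) + (k + 2)) <
          2 ^ 2 * 2 ^ ((a + 2) * r + (16 + 2 * r + 2 * k) + (k + 2)) := by
          refine mul_lt_mul_of_pos_right (by norm_num) (by positivity)
      _ = 2 ^ (2 + ((a + 2) * r + (16 + 2 * r + 2 * k) + (k + 2))) := (pow_add _ _ _).symm
      _ ≤ 2 ^ m := by
          refine pow_le_pow_right₀ (by norm_num) ?_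
          have e : (a + 4) * r = (a + 2) * r + 2 * r := by ring
          omega
  have h2 : (0 : ℝ) < (1 / 2) ^ m := by positivity
  have h3 : (0 : ℝ) < (1 / 2) ^ (k + 2) := by positivity
  have e1 : (2 : ℝ) ^ m * (1 / 2) ^ m = 1 := by rw [← mul_pow]; norm_num
  have e2 : (2 : ℝ) ^ (k + 2) * (1 / 2) ^ (k + 2) = 1 := by rw [← mul_pow]; norm_num
  have h4 := mul_lt_mul_of_pos_right h1 h2
  rw [e1] at h4
  have h5 := mul_lt_mul_of_pos_right h4 h3
  rw [one_mul] at h5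
  calc (2 : ℝ) ^ ((a + 2) * r) * (2 ^ (16 + 2 * r + 2 * k) * (3 * (1 / 2) ^ m)) =
        2 ^ ((a + 2) * r) * (2 ^ (16 + 2 * r + 2 * k) * (3 * (1 / 2) ^ m)) *
          ((2 : ℝ) ^ (k + 2) * (1 / 2) ^ (k + 2)) := by rw [e2, mul_one]
    _ = 3 * 2 ^ ((a + 2) * r + (16 + 2 * r + 2 * k) + (k + 2)) * (1 / 2) ^ m
          * (1 / 2) ^ (k + 2) := by
        rw [pow_add (2 : ℝ) ((a + 2) * r + (16 + 2 * r + 2 * k)) (k + 2),
          pow_add (2 : ℝ) ((a + 2) * r) (16 + 2 * r + 2 * k)]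
        ring
    _ < (1 / 2) ^ (k + 2) := h5

private lemma two_aux {k m r a : ℕ} (hm : (a + 4) * r + 3 * k + 21 ≤ m)
    (S : Finset (Dual (ZMod 2) V)) (hS : S.card ≤ 2 ^ a) (E : V → ℝ) {ε : ℝ}
    (hεk : (1 / 2 : ℝ) ^ k ≤ ε) (P : V → (Fin m → V) → Prop)
    (hgood : (1 / 2 : ℝ) ^ (k + 2) ≤ FR g m (fun y x => iv (P y x)))
    (hvar : ∀ (r' : ℕ) (ξ : Fin r' → Dual (ZMod 2) V) (e : Fin r' → ZMod 2),
      FR g m (fun y x => (𝔼 u : Fin m → ZMod 2,
          E (y + lc u x) * iv (∀ i, ξ i (y + lc u x) = e i)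
        - Fintype.card Y * 𝔼 z, E z * iv (∀ i, ξ i z = e i)) ^ 2) ≤ 3 * (1 / 2) ^ m)
    (hper : ∀ y x, P y x → ∃ r' ≤ r, ∃ ξ : Fin r' → Dual (ZMod 2) V, (∀ i, ξ i ∈ S) ∧
      ∃ e : Fin r' → ZMod 2,
        41 / 40 * ε * (1 / 2) ^ r'
          ≤ (𝔼 u : Fin m → ZMod 2, E (y + lc u x) * iv (∀ i, ξ i (y + lc u x) = e i)) ∧
        Fintype.card Y * (𝔼 z, E z * iv (∀ i, ξ i z = e i)) ≤ 51 / 50 * ε * (1 / 2) ^ r') :
    False := by
  classical
  set f : (Σ r' : ℕ, (Fin r' → Dual (ZMod 2) V) × (Fin r' → ZMod 2)) → V → ℝ :=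
    fun t z => E z * iv (∀ i, t.2.1 i z = t.2.2 i) with hf
  have hvar' : ∀ t, FR g m (fun y x => (𝔼 u : Fin m → ZMod 2, f t (y + lc u x)
      - Fintype.card Y * 𝔼 z, f t z) ^ 2) ≤ 3 * (1 / 2) ^ m := fun t =>
    hvar t.1 t.2.1 t.2.2
  -- pointwise
  have hpt : FR g m (fun y x => iv (P y x)) ≤
      FR g m (fun y x => ∑ t ∈ twI S r, 2 ^ (16 + 2 * r + 2 * k) *
        (𝔼 u : Fin m → ZMod 2, f t (y + lc u x) - Fintype.card Y * 𝔼 z, f t z) ^ 2) := by
    refine FR_mono fun y x _ => ?_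
    by_cases hG : P y x
    · rw [iv_pos hG]
      obtain ⟨r', hr', ξ, hξS, e, he, hc2⟩ := hper y x hG
      have hmem : (⟨r', ξ, e⟩ : Σ r' : ℕ, (Fin r' → Dual (ZMod 2) V) × (Fin r' → ZMod 2)) ∈
          twI S r := by
        unfold twI
        rw [Finset.mem_sigma, Finset.mem_range, Finset.mem_product, Fintype.mem_piFinset]
        exact ⟨by show r' < r + 1; omega, hξS, Finset.mem_univ _⟩
      refine le_trans ?_ (Finset.single_le_sum (f := fun t => 2 ^ (16 + 2 * r + 2 * k) *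
        (𝔼 u : Fin m → ZMod 2, f t (y + lc u x) - Fintype.card Y * 𝔼 z, f t z) ^ 2)
        (fun t _ => by positivity) hmem)
      show (1 : ℝ) ≤ 2 ^ (16 + 2 * r + 2 * k) *
        (𝔼 u : Fin m → ZMod 2, E (y + lc u x) * iv (∀ i, ξ i (y + lc u x) = e i)
          - Fintype.card Y * 𝔼 z, E z * iv (∀ i, ξ i z = e i)) ^ 2
      generalize (𝔼 u : Fin m → ZMod 2, E (y + lc u x) * iv (∀ i, ξ i (y + lc u x) = e i)) = A
        at he ⊢
      generalize Fintype.card Y * (𝔼 z, E z * iv (∀ i, ξ i z = e i)) = B at hc2 ⊢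
      have h5 : (1 / 2 : ℝ) ^ (8 + r + k) ≤ A - B := by
        have h6 : (1 / 2 : ℝ) ^ r ≤ (1 / 2) ^ r' :=
          pow_le_pow_of_le_one (by norm_num) (by norm_num) hr'
        have h7 : (1 / 2 : ℝ) ^ k * (1 / 2) ^ r ≤ ε * (1 / 2) ^ r' :=
          mul_le_mul hεk h6 (by positivity) (le_trans (by positivity) hεk)
        have e1 : (1 / 2 : ℝ) ^ (8 + r + k) = (1 / 2) ^ 8 * ((1 / 2) ^ k * (1 / 2) ^ r) := by
          rw [pow_add, pow_add]; ring
        rw [e1]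
        have h8 : (1 / 200 : ℝ) * (ε * (1 / 2) ^ r') ≤ A - B := by
          have e2 : (1 / 200 : ℝ) * (ε * (1 / 2) ^ r') =
              41 / 40 * ε * (1 / 2) ^ r' - 51 / 50 * ε * (1 / 2) ^ r' := by ring
          rw [e2]
          linarith
        have h9 : (0 : ℝ) < (1 / 2) ^ k * (1 / 2) ^ r := by positivity
        nlinarith
      have h6 : ((1 / 2 : ℝ) ^ (8 + r + k)) ^ 2 ≤ (A - B) ^ 2 :=
        pow_le_pow_left₀ (by positivity) h5 2
      calc (1 : ℝ) = 2 ^ (16 + 2 * r + 2 * k) * ((1 / 2 : ℝ) ^ (8 + r + k)) ^ 2 := by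
            rw [← pow_mul, show (8 + r + k) * 2 = 16 + 2 * r + 2 * k by ring, ← mul_pow]
            norm_num
        _ ≤ _ := mul_le_mul_of_nonneg_left h6 (by positivity)
    · rw [iv_neg hG]
      exact Finset.sum_nonneg fun t _ => by positivity
  have hsum : FR g m (fun y x => ∑ t ∈ twI S r, 2 ^ (16 + 2 * r + 2 * k) *
        (𝔼 u : Fin m → ZMod 2, f t (y + lc u x) - Fintype.card Y * 𝔼 z, f t z) ^ 2) ≤
      2 ^ ((a + 2) * r) * (2 ^ (16 + 2 * r + 2 * k) * (3 * (1 / 2) ^ m)) := by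
    have h2 := twI_card S r a hS
    have h3 : ((twI S r).card : ℝ) ≤ 2 ^ ((a + 2) * r) := by exact_mod_cast h2
    generalize twI S r = I at h3 ⊢
    have h4 := FR_sum (g := g) (m := m) I (fun t y x => 2 ^ (16 + 2 * r + 2 * k) *
        (𝔼 u : Fin m → ZMod 2, f t (y + lc u x) - Fintype.card Y * 𝔼 z, f t z) ^ 2)
    rw [h4]
    have h1 : ∀ t ∈ I, FR g m (fun y x => 2 ^ (16 + 2 * r + 2 * k) *
        (𝔼 u : Fin m → ZMod 2, f t (y + lc u x) - Fintype.card Y * 𝔼 z, f t z) ^ 2) ≤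
        2 ^ (16 + 2 * r + 2 * k) * (3 * (1 / 2) ^ m) := by
      intro t _
      have h5 := FR_mul (g := g) (m := m) (2 ^ (16 + 2 * r + 2 * k)) (fun y x =>
        (𝔼 u : Fin m → ZMod 2, f t (y + lc u x) - Fintype.card Y * 𝔼 z, f t z) ^ 2)
      rw [h5]
      exact mul_le_mul_of_nonneg_left (hvar' t) (by positivity)
    refine (Finset.sum_le_sum h1).trans ?_
    rw [Finset.sum_const, nsmul_eq_mul]
    exact mul_le_mul_of_nonneg_right h3 (by positivity)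
  have hfin := two_num hm
  linarith

private lemma two_tau {m : ℕ} {τ : ℝ} (hm : 21 ≤ m) (hτ : τ ≤ (1 / 2) ^ (2 * m + 1)) :
    2 * (1 / 2 : ℝ) ^ m + 14 * τ ≤ 3 * (1 / 2) ^ m := by
  have h1 : 14 * τ ≤ (1 / 2 : ℝ) ^ m := by
    have h2 : (14 : ℝ) * (1 / 2) ^ (2 * m + 1) ≤ (1 / 2) ^ m := by
      have e : (1 / 2 : ℝ) ^ (2 * m + 1) = (1 / 2) ^ m * (1 / 2) ^ (m + 1) := by
        rw [← pow_add]; congr 1; ring
      rw [e]
      have h3 : (1 / 2 : ℝ) ^ (m + 1) ≤ (1 / 2) ^ 4 :=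
        pow_le_pow_of_le_one (by norm_num) (by norm_num) (by omega)
      have h4 : (0 : ℝ) < (1 / 2) ^ m := by positivity
      nlinarith
    linarith
  linarith

theorem two (hg : IsQM g b) {k s : ℕ} (hs : Reg b s)
    (hk : iiReg k (finrank (ZMod 2) Y) ≤ s)
    (E C : V → ℝ) (hE : ∀ x, E x = 0 ∨ E x = 1) (hC : ∀ x, C x = 0 ∨ C x = 1)
    (hEg : ∀ x, E x ≠ 0 → g x = 0) (hEC : ∀ x y, E x * E y * C (x + y) = 0)
    (hEk : (1 / 2 : ℝ) ^ k ≤ Fintype.card Y * 𝔼 x, E x)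
    (hCk : (1 / 2 : ℝ) ^ k ≤ 𝔼 x, C x) :
    ∃ r' ≤ iiR k, ∃ ξ : Fin r' → Dual (ZMod 2) V, LinearIndependent (ZMod 2) ξ ∧
      (∀ i, (1 / 2 : ℝ) ^ iiT k (finrank (ZMod 2) Y) ≤ Fintype.card Y * |hat E (ξ i)|) ∧
      ∃ e : Fin r' → ZMod 2,
        51 / 50 * (𝔼 x, E x) * (1 / 2) ^ r' ≤ 𝔼 x, E x * iv (∀ i, ξ i x = e i) := by
  classical
  by_contra hcon
  push Not at hcon
  have hY : (0 : ℝ) < Fintype.card Y := by exact_mod_cast Fintype.card_pos
  have hτ0 := tau_small (Y := Y) hk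
  have hgood := good_many hg hs hk E C hE hC hEg hEk hCk
  have hS := bigS_card hg hs hk E hE hEg
  have hm21 : (iiS k (finrank (ZMod 2) Y) + 4) * iiR k + 3 * k + 21 ≤
      iiM k (finrank (ZMod 2) Y) := by
    unfold iiM
    generalize iiS k (finrank (ZMod 2) Y) = a
    generalize iiR k = r
    have e : (a + 4) * (r + 4) = (a + 4) * r + 4 * (a + 4) := by ring
    omega
  generalize iiM k (finrank (ZMod 2) Y) = m at hτ0 hgood hm21
  have hm21' : 21 ≤ m := by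
    have : 21 ≤ (iiS k (finrank (ZMod 2) Y) + 4) * iiR k + 3 * k + 21 := Nat.le_add_left _ _
    exact this.trans hm21
  have hτ1 : tauF Y m s ≤ 1 := hτ0.trans (pow_le_one₀ (by norm_num) (by norm_num))
  have hτ2 := two_tau hm21' hτ0
  refine two_aux (g := g) hm21 (bigS Y E (iiT k (finrank (ZMod 2) Y))) hS E hEk _ hgood ?_ ?_
  · intro r' ξ e
    refine (FR_var hg hs hτ1 (fun z => E z * iv (∀ i, ξ i z = e i)) ?_ ?_).trans hτ2
    · intro z
      rcases hE z with h1 | h1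
      · left
        show E z * iv _ = 0
        rw [h1, zero_mul]
      · show E z * iv _ = 0 ∨ E z * iv _ = 1
        rw [h1, one_mul]
        exact iv_cases _
    · intro z h
      refine hEg z fun h0 => h ?_
      show E z * iv _ = 0
      rw [h0, zero_mul]
  · intro y x hG
    obtain ⟨h1, h2, h3⟩ := hG
    obtain ⟨r', hr', ξ, hξ, hξS, e, he⟩ := per_frame E C hE hC hEC hEk _ y x h1 h2 h3
    refine ⟨r', hr', ξ, hξS, e, he, ?_⟩
    have hc := hcon r' hr' ξ hξ (fun i => by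
      have h4 := hξS i
      unfold bigS at h4
      exact (Finset.mem_filter.1 h4).2) e
    calc Fintype.card Y * (𝔼 z, E z * iv (∀ i, ξ i z = e i)) ≤
          Fintype.card Y * (51 / 50 * (𝔼 x, E x) * (1 / 2) ^ r') :=
          mul_le_mul_of_nonneg_left hc.le hY.le
      _ = 51 / 50 * (Fintype.card Y * (𝔼 x, E x)) * (1 / 2) ^ r' := by ring

end

end Pool.Agent.H22.QK
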