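import Pool.Agent.H22.QK.StA
import Pool.Agent.H22.QK.Two
import Pool.Agent.H22.QK.QRes

/-!
# StB: the local increment on the fibres (about 180 lines)

PROOF of `fibre_two`. Let `k = 3n+3`, `R = finrank Y`, `K = ker (b x)`; `b x` is surjective
(nondegeneracy), so `K` has codimension `R`, and averages over `K` and over `V` are related by
`𝔼_{z ∈ K} F z = |Y| 𝔼_z iv (b x z = 0) F z`; similarly over a coset of `K`. Choose `y0` with
`b x y0 = g x + g 0`. If `B y B (y+x) ≠ 0` then `g y = g (y+x) = 0`, so `b x y = g x + g 0`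
(`b` is symmetric) and `y ∈ y0 + K`.
Put `E z = B (y0 + z) * B (y0 + z + x)`, `C z = iv (BadPair B b x z)` for `z ∈ K`,
`g' z = g (y0 + z)`; `IsQM g' b'`, `b'` the restriction of `b` to `K`,
`Reg b' (s - R)`, `iiReg k R ≤ s - R`; `E` is supported in `{g' = 0}`.
* `𝔼_K E = |Y| corr B B x ≥ |Y| (199/200) β^2`, so `|Y| 𝔼_K E ≥ (199/200) (|Y| β)^2
  ≥ (199/200) (1/2)^(2n) ≥ (1/2)^k`;
* `𝔼_K C = |Y| 𝔼_z iv (BadPair) ≥ (1/2)^(n+1) ≥ (1/2)^k` (`BadPair` implies `b x z = 0`);
* `E z E z' C (z + z') = 0`: with `y = y0 + z`, `y0 + z' = y + (z + z')` the four points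
  `y, y + x, y + (z+z'), y + x + (z+z')` would all be in `B`.
`two` gives `r' ≤ iiR k`, independent `ξ i ∈ Dual K`, `e`. Extend `ξ i` to `V`
(`LinearMap.exists_extend`). Nondegeneracy: if `bl b l x + ∑ u_i ξ_i = 0` on `V` then on `K`
`∑ u_i ξ_i = 0` (there `bl b l x = 0`), so `u = 0`, and then `bl b l x = 0`, so `l = 0`.
`𝔼_y B y B (y+x) chi ξ_i y = ± |Y|^-1 hat E ξ_i`, of absolute value at least
`|Y|^-2 (1/2)^(iiT k R) = (1/2)^(iiT k R + 2R)`. And with `e' i = e i + ξ_i y0`:
`𝔼_y B y B (y+x) iv (∀ i, ξ_i y = e' i) = |Y|^-1 𝔼_K E iv (ξ = e) ≥ (51/50) |Y|^-1 𝔼_K E (1/2)^r'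
≥ (51/50) (199/200) β^2 (1/2)^r' ≥ (101/100) β^2 (1/2)^r'`.
-/

set_option autoImplicit false

open Finset Function Module
open scoped BigOperators
open Pool.Agent.H77.KM

namespace Pool.Agent.H22.QK

section

variable {V : Type} [AddCommGroup V] [Module (ZMod 2) V] [Fintype V]
variable {Y : Type} [AddCommGroup Y] [Module (ZMod 2) Y] [Fintype Y]
variable {g : V → Y} {b : V →ₗ[ZMod 2] V →ₗ[ZMod 2] Y}

/-- The linear forms `bl b l x` and `ξ i` are jointly independent. -/
def NonDeg (b : V →ₗ[ZMod 2] V →ₗ[ZMod 2] Y) (x : V) {r' : ℕ}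
    (ξ : Fin r' → Dual (ZMod 2) V) : Prop :=
  ∀ (l : Dual (ZMod 2) Y) (u : Fin r' → ZMod 2), bl b l x + ∑ i, u i • ξ i = 0 →
    l = 0 ∧ u = 0

/-- Averages over a coset of the kernel of a surjective map. -/
theorem expect_ker_coset (L : V →ₗ[ZMod 2] Y) (hL : Surjective L) (y0 : V) (F : V → ℝ) :
    𝔼 z : LinearMap.ker L, F (y0 + (z : V))
      = (Fintype.card Y : ℝ) * 𝔼 y, iv (L y = L y0) * F y := by
  classical
  rw [← expect_sf_eq (LinearMap.ker L) (fun z => F (y0 + z))]
  have hcardY : (Fintype.card Y : ℝ) ≠ 0 := by exact_mod_cast Fintype.card_ne_zero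
  have hcardV : (Fintype.card V : ℝ) ≠ 0 := by exact_mod_cast Fintype.card_ne_zero
  have hdim : finrank (ZMod 2) Y + finrank (ZMod 2) (LinearMap.ker L) = finrank (ZMod 2) V := by
    have h1 := LinearMap.finrank_range_add_finrank_ker L
    rw [LinearMap.range_eq_top.mpr hL, finrank_top] at h1
    exact h1
  have hcard : ((sf (LinearMap.ker L)).card : ℝ) / Fintype.card V = (Fintype.card Y : ℝ)⁻¹ := by
    have h2 : (Fintype.card V : ℝ) = Fintype.card Y * (sf (LinearMap.ker L)).card := by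
      rw [card_sf, Module.card_eq_pow_finrank (K := ZMod 2) (V := V),
        Module.card_eq_pow_finrank (K := ZMod 2) (V := Y), ZMod.card, ← hdim, pow_add]
      push_cast
      ring
    rw [h2]
    have h3 : ((sf (LinearMap.ker L)).card : ℝ) ≠ 0 := by
      exact_mod_cast (Finset.card_pos.mpr (sf_nonempty _)).ne'
    field_simp
  have h4 := expect_finset_eq (sf (LinearMap.ker L)) (fun z => F (y0 + z)) (sf_nonempty _)
  rw [hcard] at h4
  have h5 : 𝔼 y, iv (L y = L y0) * F y = 𝔼 z, iv (L (y0 + z) = L y0) * F (y0 + z) :=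
    (expect_add_left (fun y => iv (L y = L y0) * F y) y0).symm
  have h6 : 𝔼 z, iv (L (y0 + z) = L y0) * F (y0 + z)
      = 𝔼 z, (if z ∈ sf (LinearMap.ker L) then (1 : ℝ) else 0) * F (y0 + z) := by
    refine Finset.expect_congr rfl (fun z _ => ?_)
    congr 1
    by_cases hz : z ∈ sf (LinearMap.ker L)
    · rw [if_pos hz, iv_pos]
      rw [mem_sf, LinearMap.mem_ker] at hz
      rw [map_add, hz, add_zero]
    · rw [if_neg hz, iv_neg]
      rw [mem_sf, LinearMap.mem_ker] at hz
      rw [map_add]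
      intro h
      exact hz (by simpa using h)
  rw [h5, h6, ← h4, ← mul_assoc, mul_inv_cancel₀ hcardY, one_mul]

theorem fibre_two (hg : IsQM g b) {s n : ℕ} (hs : Reg b s)
    (hsn : iiReg (3 * n + 3) (finrank (ZMod 2) Y) + finrank (ZMod 2) Y ≤ s)
    (B : V → ℝ) (hB : ∀ x, B x = 0 ∨ B x = 1) (hBg : ∀ x, B x ≠ 0 → g x = 0)
    (hβ : (1 / 2 : ℝ) ^ n ≤ Fintype.card Y * 𝔼 x, B x) (x : V)
    (hx : ∀ l : Dual (ZMod 2) Y, l ≠ 0 → bl b l x ≠ 0)
    (hbad : (1 / 2 : ℝ) ^ (n + 1) ≤ Fintype.card Y * 𝔼 z, iv (BadPair B b x z))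
    (hcor : 199 / 200 * (𝔼 x, B x) ^ 2 ≤ corr B B x) :
    ∃ r' ≤ iiR (3 * n + 3), ∃ ξ : Fin r' → Dual (ZMod 2) V, ∃ e : Fin r' → ZMod 2,
      (∀ i, (1 / 2 : ℝ) ^ fibT n (finrank (ZMod 2) Y)
        ≤ |𝔼 y, B y * B (y + x) * chi (ξ i) y|) ∧
      (NonDeg b x ξ ∧ 101 / 100 * (𝔼 x, B x) ^ 2 * (1 / 2) ^ r'
        ≤ 𝔼 y, B y * B (y + x) * iv (∀ i, ξ i y = e i)) := by
  have hchar : ∀ a : V, a + a = 0 := fun a => ZModModule.add_self a
  have hcharY : ∀ a : Y, a + a = 0 := fun a => ZModModule.add_self a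
  set R : ℕ := finrank (ZMod 2) Y with hR
  set β : ℝ := 𝔼 x, B x with hβdef
  have hcardY : (Fintype.card Y : ℝ) = 2 ^ R := by
    rw [Module.card_eq_pow_finrank (K := ZMod 2) (V := Y), ZMod.card]
    push_cast
    rfl
  have hcY0 : (0 : ℝ) < Fintype.card Y := by rw [hcardY]; positivity
  have hsurj : Surjective (b x) := by
    rw [← LinearMap.range_eq_top]
    by_contra hne
    obtain ⟨l, hl0, hl⟩ :=
      Submodule.exists_le_ker_of_lt_top (LinearMap.range (b x)) (lt_top_iff_ne_top.mpr hne)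
    apply hx l hl0
    ext y
    have h1 : b x y ∈ LinearMap.ker l := hl (LinearMap.mem_range_self (b x) y)
    rw [LinearMap.mem_ker] at h1
    simpa using h1
  obtain ⟨y0, hy0⟩ := hsurj (g x + g 0)
  -- the support of the correlation
  have hsupp : ∀ y, B y * B (y + x) ≠ 0 → b x y = b x y0 := by
    intro y hy
    have h1 : g y = 0 := hBg y (left_ne_zero_of_mul hy)
    have h2 : g (y + x) = 0 := hBg _ (right_ne_zero_of_mul hy)
    rw [hg y x, h1, zero_add] at h2
    rw [hy0, hg.symm x y]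
    have h3 : b y x = (g x + g 0 + b y x) + (g x + g 0) := by
      have h4 := hcharY (g x + g 0)
      calc b y x = ((g x + g 0) + (g x + g 0)) + b y x := by rw [h4, zero_add]
        _ = _ := by abel
    rw [h3, h2, zero_add]
  have hmul : ∀ (F : V → ℝ) y, iv (b x y = b x y0) * (B y * B (y + x) * F y)
      = B y * B (y + x) * F y := by
    intro F y
    by_cases h : B y * B (y + x) = 0
    · rw [h]; ring
    · rw [iv_pos (hsupp y h), one_mul]
  set K : Submodule (ZMod 2) V := LinearMap.ker (b x) with hK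
  have hdim : R + finrank (ZMod 2) K = finrank (ZMod 2) V := by
    have h1 := LinearMap.finrank_range_add_finrank_ker (b x)
    rw [LinearMap.range_eq_top.mpr hsurj, finrank_top] at h1
    exact h1
  set E : K → ℝ := fun z => B (y0 + (z : V)) * B (y0 + (z : V) + x) with hEdef
  set C : K → ℝ := fun z => iv (BadPair B b x (z : V)) with hCdef
  have hB0 : ∀ y, 0 ≤ B y := fun y => by rcases hB y with h | h <;> rw [h] <;> norm_num
  have hE : ∀ z, E z = 0 ∨ E z = 1 := by
    intro z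
    simp only [hEdef]
    rcases hB (y0 + (z : V)) with h | h <;> rcases hB (y0 + (z : V) + x) with h' | h' <;>
      rw [h, h'] <;> norm_num
  -- averages over the fibre
  have havg : ∀ F : V → ℝ, 𝔼 z : K, E z * F (y0 + (z : V))
      = (Fintype.card Y : ℝ) * 𝔼 y, B y * B (y + x) * F y := by
    intro F
    have h1 := expect_ker_coset (b x) hsurj y0 (fun y => B y * B (y + x) * F y)
    rw [Finset.expect_congr rfl (fun y _ => hmul F y)] at h1
    exact h1
  have havgE : 𝔼 z : K, E z = (Fintype.card Y : ℝ) * corr B B x := by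
    have h1 := havg (fun _ => 1)
    simp only [mul_one] at h1
    exact h1
  have hcorr : 199 / 200 * β ^ 2 ≤ corr B B x := hcor
  have hpow : ∀ a c : ℕ, a ≤ c → (1 / 2 : ℝ) ^ c ≤ (1 / 2) ^ a := fun a c h =>
    pow_le_pow_of_le_one (by norm_num) (by norm_num) h
  have hEk : (1 / 2 : ℝ) ^ (3 * n + 3) ≤ Fintype.card Y * 𝔼 z, E z := by
    rw [havgE]
    have h1 : ((1 / 2 : ℝ) ^ n) ^ 2 ≤ (Fintype.card Y * β) ^ 2 :=
      pow_le_pow_left₀ (by positivity) hβ 2
    have h2 : (Fintype.card Y * β) ^ 2 * (199 / 200)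
        ≤ Fintype.card Y * (Fintype.card Y * corr B B x) := by
      calc (Fintype.card Y * β) ^ 2 * (199 / 200)
          = Fintype.card Y * (Fintype.card Y * (199 / 200 * β ^ 2)) := by ring
        _ ≤ _ := by gcongr
    have h3 : (1 / 2 : ℝ) ^ (3 * n + 3) ≤ ((1 / 2 : ℝ) ^ n) ^ 2 * (199 / 200) := by
      have h4 : (1 / 2 : ℝ) ^ (3 * n + 3) ≤ (1 / 2) ^ (2 * n + 1) := hpow _ _ (by omega)
      have h5 : (1 / 2 : ℝ) ^ (2 * n + 1) = ((1 / 2 : ℝ) ^ n) ^ 2 * (1 / 2) := by
        rw [pow_succ, mul_comm 2 n, pow_mul]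
      rw [h5] at h4
      have h6 : (0 : ℝ) ≤ ((1 / 2 : ℝ) ^ n) ^ 2 := by positivity
      nlinarith
    nlinarith
  have hCk : (1 / 2 : ℝ) ^ (3 * n + 3) ≤ 𝔼 z, C z := by
    have h1 := expect_ker_coset (b x) hsurj 0 (fun y => iv (BadPair B b x y))
    have h2 : 𝔼 z, C z = (Fintype.card Y : ℝ) * 𝔼 y, iv (BadPair B b x y) := by
      have h3 : 𝔼 z, C z = 𝔼 z : LinearMap.ker (b x), iv (BadPair B b x (0 + (z : V))) := by
        refine Finset.expect_congr rfl (fun z _ => ?_)
        simp only [hCdef, zero_add]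
      rw [h3, h1]
      congr 1
      refine Finset.expect_congr rfl (fun y _ => ?_)
      by_cases h : BadPair B b x y
      · rw [iv_pos (show b x y = b x 0 by rw [map_zero]; exact h.1), one_mul]
      · rw [iv_neg h, mul_zero]
    rw [h2]
    exact le_trans (hpow _ _ (by omega)) hbad
  have hEC : ∀ z z' : K, E z * E z' * C (z + z') = 0 := by
    intro z z'
    by_cases h : BadPair B b x ((z + z' : K) : V)
    · have h1 := h.2 (y0 + (z : V))
      have h2 : y0 + (z : V) + ((z + z' : K) : V) = y0 + (z' : V) := by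
        rw [Submodule.coe_add]
        calc y0 + (z : V) + ((z : V) + (z' : V)) = y0 + ((z : V) + (z : V)) + (z' : V) := by abel
          _ = _ := by rw [hchar, add_zero]
      have h3 : y0 + (z : V) + x + ((z + z' : K) : V) = y0 + (z' : V) + x := by
        rw [← h2]; abel
      rw [h2, h3] at h1
      simp only [hEdef]
      linear_combination (C (z + z')) * h1
    · simp only [hCdef]
      rw [iv_neg h, mul_zero]
  have hsub : iiReg (3 * n + 3) R ≤ s - R := by omega
  have hg' : IsQM (fun z : K => g (y0 + K.subtype z)) (pb b K.subtype) := hg.pull K.subtype y0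
  have hs' : Reg (pb b K.subtype) (s - R) :=
    hs.restrict K.subtype K.injective_subtype (by omega) (by omega)
  obtain ⟨r', hr', ξ', hind, hhat, e', hmain⟩ := two hg' hs' hsub E C hE (fun z => iv_cases _)
    (fun z hz => hBg _ (left_ne_zero_of_mul hz)) hEC hEk hCk
  choose ξ hξ using fun i => LinearMap.exists_extend (ξ' i)
  have hξ' : ∀ i (z : K), ξ i (z : V) = ξ' i z := by
    intro i z
    rw [← hξ i]; rfl
  refine ⟨r', hr', ξ, fun i => e' i + ξ i y0, ?_, ?_, ?_⟩
  · intro i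
    have h1 := havg (chi (ξ i))
    have h2 : 𝔼 z : K, E z * chi (ξ i) (y0 + (z : V)) = chi (ξ i) y0 * hat E (ξ' i) := by
      unfold hat
      rw [Finset.mul_expect]
      refine Finset.expect_congr rfl (fun z _ => ?_)
      rw [chi_add]
      have h3 : chi (ξ i) (z : V) = chi (ξ' i) z := by
        unfold chi; rw [hξ']
      rw [h3]; ring
    rw [h2] at h1
    have h4 : |hat E (ξ' i)| = Fintype.card Y * |𝔼 y, B y * B (y + x) * chi (ξ i) y| := by
      have h5 := congrArg abs h1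
      rw [abs_mul, abs_mul, abs_chi, one_mul, abs_of_pos hcY0] at h5
      exact h5
    have h6 := hhat i
    rw [h4, hcardY] at h6
    have h7 : (1 / 2 : ℝ) ^ fibT n R = (1 / 2) ^ iiT (3 * n + 3) R * ((1 / 2) ^ R * (1 / 2) ^ R) := by
      rw [← pow_add, ← pow_add]
      congr 1
      unfold fibT
      ring
    rw [h7]
    have h8 : (1 / 2 : ℝ) ^ R * 2 ^ R = 1 := by rw [← mul_pow]; norm_num
    calc (1 / 2 : ℝ) ^ iiT (3 * n + 3) R * ((1 / 2) ^ R * (1 / 2) ^ R)
        ≤ (2 ^ R * (2 ^ R * |𝔼 y, B y * B (y + x) * chi (ξ i) y|))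
            * ((1 / 2) ^ R * (1 / 2) ^ R) := by gcongr
      _ = ((1 / 2 : ℝ) ^ R * 2 ^ R) * ((1 / 2 : ℝ) ^ R * 2 ^ R)
            * |𝔼 y, B y * B (y + x) * chi (ξ i) y| := by ring
      _ = _ := by rw [h8]; ring
  · intro l u h
    have hu : u = 0 := by
      have h1 : ∑ i, u i • ξ' i = 0 := by
        refine LinearMap.ext (fun z => ?_)
        have h2 := LinearMap.congr_fun h (z : V)
        have h3 : b x (z : V) = 0 := LinearMap.mem_ker.mp z.2
        simp only [LinearMap.add_apply, LinearMap.sum_apply, LinearMap.smul_apply, bl_apply, h3,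
          map_zero, zero_add, LinearMap.zero_apply, hξ'] at h2
        simp only [LinearMap.sum_apply, LinearMap.smul_apply, LinearMap.zero_apply]
        exact h2
      funext i
      exact Fintype.linearIndependent_iff.mp hind u h1 i
    refine ⟨?_, hu⟩
    by_contra hl
    apply hx l hl
    rw [hu] at h
    simpa using h
  · have h1 := havg (fun y => iv (∀ i, ξ i y = e' i + ξ i y0))
    have h2 : 𝔼 z : K, E z * iv (∀ i, ξ i (y0 + (z : V)) = e' i + ξ i y0)
        = 𝔼 z : K, E z * iv (∀ i, ξ' i z = e' i) := by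
      refine Finset.expect_congr rfl (fun z _ => ?_)
      congr 1
      refine iv_congr (forall_congr' (fun i => ?_))
      rw [map_add, hξ', add_comm (ξ i y0)]
      exact add_left_inj _
    rw [h2] at h1
    rw [h1, havgE] at hmain
    have h3 : 51 / 50 * corr B B x * (1 / 2) ^ r'
        ≤ 𝔼 y, B y * B (y + x) * iv (∀ i, ξ i y = e' i + ξ i y0) := by
      have h4 : (Fintype.card Y : ℝ) * (51 / 50 * corr B B x * (1 / 2) ^ r')
          ≤ Fintype.card Y * 𝔼 y, B y * B (y + x) * iv (∀ i, ξ i y = e' i + ξ i y0) := by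
        refine le_trans (le_of_eq ?_) hmain
        ring
      exact le_of_mul_le_mul_left h4 hcY0
    refine le_trans ?_ h3
    have h5 : 101 / 100 * β ^ 2 ≤ 51 / 50 * corr B B x := by
      nlinarith [sq_nonneg β]
    exact mul_le_mul_of_nonneg_right h5 (by positivity)

end

end Pool.Agent.H22.QK
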