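import Pool.Agent.H22.QK.Nums

/-!
# StkMono: monotonicity of the numerical functions (about 60 lines)

PROOF of `stK_mono`: all functions are monotone in `R` (unfold everything; `kmDim` is monotone in
the last two arguments, `covK`, `selK` are monotone, sums, products and powers; `gcongr`).
-/

set_option autoImplicit false

open Finset Function Module
open scoped BigOperators
open Pool.Agent.H77.KM

namespace Pool.Agent.H22.QK

private theorem kmDim_mono {N l l' m m' : ℕ} (hl : l ≤ l') (hm : m ≤ m') :
    kmDim N l m ≤ kmDim N l' m' := by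
  unfold kmDim; gcongr

private theorem stepDim_mono {d d' : ℕ} (h : d ≤ d') : stepDim d ≤ stepDim d' := by
  unfold stepDim; gcongr

private theorem iiR_mono {k k' : ℕ} (h : k ≤ k') : iiR k ≤ iiR k' := by
  unfold iiR; exact stepDim_mono (by omega)

private theorem iiS_mono {k k' R R' : ℕ} (h : k ≤ k') (hR : R ≤ R') : iiS k R ≤ iiS k' R' := by
  have h1 := iiR_mono h
  unfold iiS; omega

private theorem iiM_mono {k k' R R' : ℕ} (h : k ≤ k') (hR : R ≤ R') : iiM k R ≤ iiM k' R' := by
  have h1 := iiR_mono h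
  have h2 := iiS_mono h hR
  unfold iiM; gcongr

private theorem iiReg_mono {k k' R R' : ℕ} (h : k ≤ k') (hR : R ≤ R') : iiReg k R ≤ iiReg k' R' := by
  have h2 := iiM_mono h hR
  unfold iiReg; gcongr

private theorem iiT_mono {k k' R R' : ℕ} (h : k ≤ k') (hR : R ≤ R') : iiT k R ≤ iiT k' R' := by
  have h1 := iiR_mono h
  unfold iiT; omega

private theorem selK_mono {k k' : ℕ} (h : k ≤ k') : selK k ≤ selK k' := by
  unfold selK; gcongr

private theorem covK_mono {k k' : ℕ} (h : k ≤ k') : covK k ≤ covK k' := by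
  have h1 : selK (3 * k + 1) ≤ selK (3 * k' + 1) := selK_mono (by omega)
  unfold covK; omega

section

variable {n n' R R' : ℕ}

private theorem corK_mono (hn : n ≤ n') (hR : R ≤ R') : corK n R ≤ corK n' R' := by
  unfold corK
  refine kmDim_mono (by omega) ?_
  gcongr

private theorem fibT_mono (hn : n ≤ n') (hR : R ≤ R') : fibT n R ≤ fibT n' R' := by
  have h1 : iiT (3 * n + 3) R ≤ iiT (3 * n' + 3) R' := iiT_mono (by omega) hR
  unfold fibT; omega

private theorem stK1_mono (hn : n ≤ n') (hR : R ≤ R') : stK1 n R ≤ stK1 n' R' := by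
  have h1 := fibT_mono hn hR
  unfold stK1; omega

private theorem iiR3_mono (hn : n ≤ n') : iiR (3 * n + 3) ≤ iiR (3 * n' + 3) := iiR_mono (by omega)

private theorem stM_mono (hn : n ≤ n') (hR : R ≤ R') : stM n R ≤ stM n' R' := by
  have h1 := stK1_mono hn hR
  have h2 := iiR3_mono hn
  have h3 := covK_mono h1
  unfold stM; gcongr

private theorem stC1_mono (hn : n ≤ n') (hR : R ≤ R') : stC1 n R ≤ stC1 n' R' := by
  have h1 := stK1_mono hn hR
  have h2 := iiR3_mono hn
  have h3 := stM_mono hn hR
  unfold stC1; gcongr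

private theorem stQ_mono (hn : n ≤ n') (hR : R ≤ R') : stQ n R ≤ stQ n' R' := by
  have h2 := iiR3_mono hn
  unfold stQ; omega

private theorem stP_mono (hn : n ≤ n') (hR : R ≤ R') : stP n R ≤ stP n' R' := by
  have h1 := stQ_mono hn hR
  have h2 := iiR3_mono hn
  have h3 := stM_mono hn hR
  unfold stP; omega

private theorem stMm_mono (hn : n ≤ n') (hR : R ≤ R') : stMm n R ≤ stMm n' R' := by
  have h1 := stP_mono hn hR
  unfold stMm; omega

private theorem stKm_mono (hn : n ≤ n') (hR : R ≤ R') : stKm n R ≤ stKm n' R' := by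
  have h1 := stQ_mono hn hR
  have h2 := stMm_mono hn hR
  unfold stKm
  exact kmDim_mono (by omega) h2

private theorem stSi_mono (hn : n ≤ n') (hR : R ≤ R') : stSi n R ≤ stSi n' R' := by
  have h1 := stKm_mono hn hR
  have h2 := stQ_mono hn hR
  have h3 := stP_mono hn hR
  unfold stSi; omega

end

theorem stK_mono {n n' R R' : ℕ} (hn : n ≤ n') (hR : R ≤ R') : stK n R ≤ stK n' R' := by
  have h1 := stC1_mono hn hR
  have h2 := stQ_mono hn hR
  have h3 := stSi_mono hn hR
  have h4 := stKm_mono hn hR
  have h5 := corK_mono hn hR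
  have h6 : iiReg (3 * n + 3) R ≤ iiReg (3 * n' + 3) R' := iiReg_mono (by omega) hR
  have h7 := iiR3_mono hn
  unfold stK; gcongr

end Pool.Agent.H22.QK
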