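import Pool.Agent.H22.QK.QCount
import Pool.Agent.H22.QK.QRes

/-!
# QLow: removing a combination of low rank (about 90 lines)

PROOF of `lowrank`. If `Reg b s` fails there is `l ≠ 0` with
`finrank K + 2 s > finrank V`, `K = ker (bl b l)`. On `K` the map `L k = l (g k) + l (g 0)` is
linear (`l (b k k') = 0` for `k, k' ∈ K`; use `IsQM.lin_on` for the pull back to `K`). Let
`W = (ker L).map K.subtype`: `finrank W ≥ finrank K - 1 ≥ finrank V - 2 s`. For `v : V`, `k ∈ W`:
`l (g (v+k)) = l (g v) + [l (g k) + l (g 0)] + l (b v k) = l (g v) + 0 + l (b k v) = l (g v)`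
since `bl b l k = 0`.

PROOF of `lowrank2`. The same with two maps `g1, g2` with the same polarisation: intersect the
kernels of the two linear maps `L1, L2`; `finrank W ≥ finrank K - 2 ≥ finrank V - 2 s - 1`.

PROOF of `expect_coset`: for an injective linear map `f : W → V`,
`𝔼_v F v = 𝔼_v 𝔼_w F (v + f w)` (translation invariance for each `w`, `expect_comm`).
-/

set_option autoImplicit false

open Finset Function Module
open scoped BigOperators
open Pool.Agent.H77.KM

namespace Pool.Agent.H22.QK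

section

variable {V : Type} [AddCommGroup V] [Module (ZMod 2) V] [Fintype V]
variable {Y : Type} [AddCommGroup Y] [Module (ZMod 2) Y] [Fintype Y]
variable {g : V → Y} {b : V →ₗ[ZMod 2] V →ₗ[ZMod 2] Y}

private theorem finrank_map_sub (K : Submodule (ZMod 2) V) (W : Submodule (ZMod 2) K) :
    finrank (ZMod 2) (W.map K.subtype) = finrank (ZMod 2) W :=
  (LinearEquiv.finrank_eq (Submodule.equivMapOfInjective K.subtype K.injective_subtype W)).symm

/-- The linear part of `l ∘ g` on the kernel of `bl b l`. -/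
private theorem ker_lin {g : V → Y} (hg : IsQM g b) (l : Dual (ZMod 2) Y) :
    ∃ L : LinearMap.ker (bl b l) →ₗ[ZMod 2] ZMod 2,
      ∀ x : LinearMap.ker (bl b l), l (g (x : V)) = L x + l (g 0) := by
  have h1 : IsQM (fun x : LinearMap.ker (bl b l) => l (g (0 + (LinearMap.ker (bl b l)).subtype x)))
      ((pb b (LinearMap.ker (bl b l)).subtype).compr₂ l) :=
    (hg.pull (LinearMap.ker (bl b l)).subtype 0).map l
  obtain ⟨L, hL⟩ := h1.lin_on (fun x y => by
    have hx : bl b l (x : V) = 0 := LinearMap.mem_ker.1 x.2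
    have h2 : bl b l (x : V) (y : V) = 0 := by rw [hx]; rfl
    exact h2)
  refine ⟨L, fun x => ?_⟩
  have := hL x
  simpa using this

/-- An element of the kernel of the linear part leaves `l ∘ g` invariant. -/
private theorem inv_of_ker {g : V → Y} (hg : IsQM g b) (l : Dual (ZMod 2) Y)
    {L : LinearMap.ker (bl b l) →ₗ[ZMod 2] ZMod 2}
    (hL : ∀ x : LinearMap.ker (bl b l), l (g (x : V)) = L x + l (g 0))
    (v : V) (k : LinearMap.ker (bl b l)) (hk : L k = 0) :
    l (g (v + (k : V))) = l (g v) := by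
  have h1 := hg v (k : V)
  have h2 : l (b v (k : V)) = 0 := by
    rw [hg.symm v (k : V)]
    have hx : bl b l (k : V) = 0 := LinearMap.mem_ker.1 k.2
    have h3 : bl b l (k : V) v = 0 := by rw [hx]; rfl
    exact h3
  have h4 := hL k
  rw [hk, zero_add] at h4
  rw [h1, map_add, map_add, map_add, h2, h4, add_zero, add_assoc,
    ZModModule.add_self (l (g 0)), add_zero]

theorem lowrank (hg : IsQM g b) {s : ℕ} (hs : ¬ Reg b s) :
    ∃ l : Dual (ZMod 2) Y, l ≠ 0 ∧ ∃ W : Submodule (ZMod 2) V,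
      finrank (ZMod 2) V ≤ finrank (ZMod 2) W + 2 * s ∧
      ∀ v, ∀ k ∈ W, l (g (v + k)) = l (g v) := by
  unfold Reg at hs
  push Not at hs
  obtain ⟨l, hl, hlt⟩ := hs
  obtain ⟨L, hL⟩ := ker_lin hg l
  refine ⟨l, hl, (LinearMap.ker L).map (LinearMap.ker (bl b l)).subtype, ?_, ?_⟩
  · have h1 : finrank (ZMod 2) ((LinearMap.ker L).map (LinearMap.ker (bl b l)).subtype)
        = finrank (ZMod 2) (LinearMap.ker L) :=
      finrank_map_sub _ _
    have h2 := LinearMap.finrank_range_add_finrank_ker L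
    have h3 : finrank (ZMod 2) (LinearMap.range L) ≤ 1 := by
      have := Submodule.finrank_le (LinearMap.range L)
      rwa [finrank_self] at this
    omega
  · intro v k hk
    obtain ⟨k', hk', rfl⟩ := Submodule.mem_map.1 hk
    exact inv_of_ker hg l hL v k' (LinearMap.mem_ker.1 hk')

theorem lowrank2 {g1 g2 : V → Y} (h1 : IsQM g1 b) (h2 : IsQM g2 b) {s : ℕ} (hs : ¬ Reg b s) :
    ∃ l : Dual (ZMod 2) Y, l ≠ 0 ∧ ∃ W : Submodule (ZMod 2) V,
      finrank (ZMod 2) V ≤ finrank (ZMod 2) W + (2 * s + 1) ∧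
      (∀ v, ∀ k ∈ W, l (g1 (v + k)) = l (g1 v)) ∧ (∀ v, ∀ k ∈ W, l (g2 (v + k)) = l (g2 v)) := by
  unfold Reg at hs
  push Not at hs
  obtain ⟨l, hl, hlt⟩ := hs
  obtain ⟨L1, hL1⟩ := ker_lin h1 l
  obtain ⟨L2, hL2⟩ := ker_lin h2 l
  refine ⟨l, hl, (LinearMap.ker (L1.prod L2)).map (LinearMap.ker (bl b l)).subtype, ?_, ?_, ?_⟩
  · have h1 : finrank (ZMod 2) ((LinearMap.ker (L1.prod L2)).map (LinearMap.ker (bl b l)).subtype)
        = finrank (ZMod 2) (LinearMap.ker (L1.prod L2)) :=
      finrank_map_sub _ _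
    have h2 := LinearMap.finrank_range_add_finrank_ker (L1.prod L2)
    have h3 : finrank (ZMod 2) (LinearMap.range (L1.prod L2)) ≤ 2 := by
      have := Submodule.finrank_le (LinearMap.range (L1.prod L2))
      have h4 : finrank (ZMod 2) (ZMod 2 × ZMod 2) = 2 := by
        rw [Module.finrank_prod, finrank_self]
      omega
    omega
  · intro v k hk
    obtain ⟨k', hk', rfl⟩ := Submodule.mem_map.1 hk
    have h3 := LinearMap.mem_ker.1 hk'
    exact inv_of_ker h1 l hL1 v k' (congrArg Prod.fst h3)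
  · intro v k hk
    obtain ⟨k', hk', rfl⟩ := Submodule.mem_map.1 hk
    have h3 := LinearMap.mem_ker.1 hk'
    exact inv_of_ker h2 l hL2 v k' (congrArg Prod.snd h3)

theorem expect_coset {W : Type} [Fintype W] [Nonempty W] (f : W → V) (F : V → ℝ) :
    𝔼 v, F v = 𝔼 v, 𝔼 w, F (v + f w) := by
  rw [Finset.expect_comm]
  have h : ∀ w : W, 𝔼 v, F (v + f w) = 𝔼 v, F v := fun w =>
    Fintype.expect_equiv (Equiv.addRight (f w)) _ _ (fun v => rfl)
  simp only [h]
  rw [Finset.expect_const Finset.univ_nonempty]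

end

end Pool.Agent.H22.QK
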