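import Pool.Agent.H22.QK.LemR

/-!
# Levels: a level where the density almost stops growing (about 120 lines)

A `Piece A K R σ t`: a regular piece of codimension at most `K`, at most `R` equations, with
normalised density `t`.

PROOF of `levels`. Let `t0` be the density of the start piece (`Y' = Fin 0 → ZMod 2`, `W = V`,
`t0 = 𝔼 A ≥ (1/2)^d`). Suppose that for every `j < J` and every piece of level `j`
(`K_j = j κ`, `R_j = j r`), with density `t ≥ (1/2)^d`, `LevBd A K_(j+1) R_(j+1) σ ((1+1/(2N)) t)`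
fails. Then we get pieces of level `j` with density `t_j ≥ (1+1/(2N))^j (1/2)^d` for all
`j ≤ J = 2N(d+2)`. But `(1+1/(2N))^(2N(d+2)) ≥ 2^(d+2)` and all densities are at most
`|Y'| 𝔼 iv (g = 0) ≤ 1 + 2^R_J (1/2)^σ ≤ 2`, a contradiction.
-/

set_option autoImplicit false

open Finset Function Module
open scoped BigOperators
open Pool.Agent.H77.KM

/-!
# Levels: a level where the density almost stops growing (about 120 lines)

A `Piece A K R σ t`: a regular piece of codimension at most `K`, at most `R` equations, with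
normalised density `t`.

PROOF of `levels`. Let `t0` be the density of the start piece (`Y' = Fin 0 → ZMod 2`, `W = V`,
`t0 = 𝔼 A ≥ (1/2)^d`). Suppose that for every `j < J` and every piece of level `j`
(`K_j = j κ`, `R_j = j r`), with density `t ≥ (1/2)^d`, `LevBd A K_(j+1) R_(j+1) σ ((1+1/(2N)) t)`
fails. Then we get pieces of level `j` with density `t_j ≥ (1+1/(2N))^j (1/2)^d` for all
`j ≤ J = 2N(d+2)`. But `(1+1/(2N))^(2N(d+2)) ≥ 2^(d+2)` and all densities are at most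
`|Y'| 𝔼 iv (g = 0) ≤ 1 + 2^R_J (1/2)^σ ≤ 2`, a contradiction.
-/

namespace Pool.Agent.H22.QK

section

variable {V : Type} [AddCommGroup V] [Module (ZMod 2) V] [Fintype V]

/-- There is a regular piece of codimension at most `K` with at most `R` equations and
normalised density exactly `t`. -/
def HasPiece (A : V → ℝ) (K R σ : ℕ) (t : ℝ) : Prop :=
  ∃ (W Y' : Type) (_ : AddCommGroup W) (_ : Module (ZMod 2) W) (_ : Fintype W)
    (_ : AddCommGroup Y') (_ : Module (ZMod 2) Y') (_ : Fintype Y') (f : W →ₗ[ZMod 2] V),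
    Injective f ∧ finrank (ZMod 2) V ≤ finrank (ZMod 2) W + K ∧ finrank (ZMod 2) Y' ≤ R ∧
    ∃ (w0 : V) (g : W → Y') (b : W →ₗ[ZMod 2] W →ₗ[ZMod 2] Y'), IsQM g b ∧ Reg b σ ∧
      (Fintype.card Y' : ℝ) * 𝔼 w, A (w0 + f w) * iv (g w = 0) = t

/-- The whole space is a piece. -/
private theorem hasPiece_start (A : V → ℝ) (K R σ : ℕ) : HasPiece A K R σ (𝔼 x, A x) := by
  refine ⟨V, PUnit, inferInstance, inferInstance, inferInstance, inferInstance, inferInstance,
    inferInstance, LinearMap.id, fun _ _ h => h, Nat.le_add_right _ _, ?_, 0, fun _ => 0, 0,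
    ?_, ?_, ?_⟩
  · rw [Module.finrank_zero_of_subsingleton]
    exact Nat.zero_le _
  · intro x y
    rfl
  · intro l hl
    exact absurd (Subsingleton.elim l 0) hl
  · simp [iv_pos]

/-- All densities are at most `1 + 2^R (1/2)^σ`. -/
private theorem hasPiece_le {A : V → ℝ} (hA : ∀ x, A x = 0 ∨ A x = 1) {K R σ : ℕ} {t : ℝ}
    (h : HasPiece A K R σ t) : t ≤ 1 + (2 : ℝ) ^ R * (1 / 2) ^ σ := by
  obtain ⟨W, Y', i1, i2, i3, i4, i5, i6, f, -, -, hR, w0, g, b, hg, hb, rfl⟩ := h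
  have hc := count_zero hg hb
  have hE : 𝔼 w, A (w0 + f w) * iv (g w = 0) ≤ 𝔼 w, iv (g w = 0) := by
    refine Finset.expect_le_expect fun w _ => ?_
    have h0 := iv_nonneg (g w = 0)
    rcases hA (w0 + f w) with h | h <;> rw [h] <;> linarith
  have hcard : (Fintype.card Y' : ℝ) = 2 ^ finrank (ZMod 2) Y' := by
    rw [Module.card_eq_pow_finrank (K := ZMod 2) (V := Y'), ZMod.card]
    push_cast
    rfl
  have hpos : (0 : ℝ) < Fintype.card Y' := by rw [hcard]; positivity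
  have hle : (Fintype.card Y' : ℝ) ≤ 2 ^ R := by
    rw [hcard]
    exact pow_le_pow_right₀ (by norm_num) hR
  have h2 : 𝔼 w, iv (g w = 0) ≤ 1 / (Fintype.card Y' : ℝ) + (1 / 2) ^ σ := by
    have := (abs_le.mp hc).2
    linarith
  calc (Fintype.card Y' : ℝ) * 𝔼 w, A (w0 + f w) * iv (g w = 0)
      ≤ Fintype.card Y' * (1 / (Fintype.card Y' : ℝ) + (1 / 2) ^ σ) :=
        mul_le_mul_of_nonneg_left (hE.trans h2) hpos.le
    _ = 1 + Fintype.card Y' * (1 / 2) ^ σ := by
        rw [mul_add, mul_one_div_cancel hpos.ne']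
    _ ≤ 1 + (2 : ℝ) ^ R * (1 / 2) ^ σ := by
        have := mul_le_mul_of_nonneg_right hle (show (0 : ℝ) ≤ (1 / 2) ^ σ by positivity)
        linarith

theorem levels (A : V → ℝ) (hA : ∀ x, A x = 0 ∨ A x = 1) {d N κ r σ : ℕ} (hN : 1 ≤ N)
    (hd : (1 / 2 : ℝ) ^ d ≤ 𝔼 x, A x)
    (hσ : (2 : ℝ) ^ (2 * N * (d + 2) * r) * (1 / 2) ^ σ ≤ 1 / (8 * N)) :
    ∃ j < 2 * N * (d + 2), ∃ t : ℝ, (1 / 2 : ℝ) ^ d ≤ t ∧ HasPiece A (j * κ) (j * r) σ t ∧
      LevBd A ((j + 1) * κ) ((j + 1) * r) σ ((1 + 1 / (2 * N : ℝ)) * t) := by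
  by_contra hcon
  push Not at hcon
  have hN' : (1 : ℝ) ≤ N := by exact_mod_cast hN
  have hq : (1 : ℝ) ≤ 1 + 1 / (2 * N : ℝ) := by
    have : (0 : ℝ) ≤ 1 / (2 * N : ℝ) := by positivity
    linarith
  have hdp : (0 : ℝ) < (1 / 2 : ℝ) ^ d := by positivity
  have key : ∀ j, j ≤ 2 * N * (d + 2) → ∃ t : ℝ,
      (1 + 1 / (2 * N : ℝ)) ^ j * (1 / 2 : ℝ) ^ d ≤ t ∧ HasPiece A (j * κ) (j * r) σ t := by
    intro j
    induction j with
    | zero =>
      intro _
      refine ⟨𝔼 x, A x, ?_, hasPiece_start A _ _ _⟩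
      simpa using hd
    | succ j ih =>
      intro hj
      obtain ⟨t, ht, hp⟩ := ih (by omega)
      have ht0 : (1 / 2 : ℝ) ^ d ≤ t := by
        refine le_trans ?_ ht
        have := mul_le_mul_of_nonneg_right (one_le_pow₀ hq (n := j)) hdp.le
        linarith
      have hno := hcon j (by omega) t ht0 hp
      unfold LevBd at hno
      push Not at hno
      obtain ⟨W, Y', i1, i2, i3, i4, i5, i6, f, hf, hW, hR, w0, g, b, hg, hb, hlt⟩ := hno
      refine ⟨_, ?_, W, Y', i1, i2, i3, i4, i5, i6, f, hf, hW, hR, w0, g, b, hg, hb, rfl⟩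
      refine le_trans ?_ hlt.le
      calc (1 + 1 / (2 * N : ℝ)) ^ (j + 1) * (1 / 2 : ℝ) ^ d
          = (1 + 1 / (2 * N : ℝ)) * ((1 + 1 / (2 * N : ℝ)) ^ j * (1 / 2 : ℝ) ^ d) := by
            rw [pow_succ]; ring
        _ ≤ (1 + 1 / (2 * N : ℝ)) * t := mul_le_mul_of_nonneg_left ht (by linarith)
  obtain ⟨t, ht, hp⟩ := key _ le_rfl
  have hup := hasPiece_le hA hp
  have hB : (2 : ℝ) ≤ (1 + 1 / (2 * N : ℝ)) ^ (2 * N) := by
    have h1 := one_add_mul_le_pow (a := 1 / (2 * N : ℝ))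
      (by have : (0 : ℝ) ≤ 1 / (2 * N : ℝ) := by positivity
          linarith) (2 * N)
    have h2 : ((2 * N : ℕ) : ℝ) * (1 / (2 * N : ℝ)) = 1 := by
      push_cast
      have : (2 * N : ℝ) ≠ 0 := by positivity
      field_simp
    linarith
  have hB2 : (2 : ℝ) ^ (d + 2) ≤ (1 + 1 / (2 * N : ℝ)) ^ (2 * N * (d + 2)) := by
    rw [pow_mul]
    exact pow_le_pow_left₀ (by norm_num) hB _
  have h4 : (4 : ℝ) ≤ t := by
    refine le_trans ?_ ht
    have h5 := mul_le_mul_of_nonneg_right hB2 hdp.le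
    have h6 : (2 : ℝ) ^ (d + 2) * (1 / 2 : ℝ) ^ d = 4 := by
      rw [pow_add, mul_right_comm, ← mul_pow]
      norm_num
    linarith
  have h8 : 1 / (8 * N : ℝ) ≤ 1 := by
    rw [div_le_one (by positivity)]
    linarith
  linarith

end

end Pool.Agent.H22.QK
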