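import Pool.Agent.H22.QK.Levels

/-!
# MaxPiece: a piece of almost maximal density is spread (about 150 lines)

A `Piece A K R σ t`: a regular piece of codimension at most `K`, at most `R` equations, with
normalised density `t`.

PROOF of `maxpiece`. Use `levels` with `κ1 = κ + J r (2σ+1)` in the place of `κ`
(`K_j = j κ1 ≤ J κ1`, `R_j = j r ≤ J r`). Let `(W, f, w0, Y', g, b)` be the piece of level `j`, `t` its
density, `B w = A (w0 + f w) iv (g w = 0)`, so `t = |Y'| 𝔼 B`. For `SprV`: a piece of `W`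
given by `f1 : W1 → W` (codimension at most `κ`), `w1` and `h : W1 → Y1`, `finrank Y1 ≤ r`, gives the
piece of `V`: `f ∘ f1`, base point `w0 + f w1`, quadratic map
`w ↦ (g (w1 + f1 w), h w) ∈ Y' × Y1`, codimension at most `K_j + κ`, dimension at most
`R_j + r = R_(j+1)`, and `lemR` (with `4N` in the place of `N`, `K = K_(j+1) ≥ K_j + κ + R_(j+1) 2σ`):
`𝔼 B (w1 + f1 w) iv (h w = 0) ≤ (1+1/(4N)) (1+1/(2N)) t 𝔼 iv (g (w1 + f1 w) = 0) iv (h w = 0)` and
`(1+1/(4N)) (1+1/(2N)) ≤ 1 + 1/N`.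
-/

set_option autoImplicit false

open Finset Function Module
open scoped BigOperators
open Pool.Agent.H77.KM

namespace Pool.Agent.H22.QK

section

variable {V : Type} [AddCommGroup V] [Module (ZMod 2) V] [Fintype V]

private lemma aux_num {N : ℕ} (hN : 1 ≤ N) :
    (1 + 1 / ((4 * N : ℕ) : ℝ)) * (1 + 1 / (2 * N : ℝ)) ≤ 1 + 1 / (N : ℝ) := by
  have hN' : (1 : ℝ) ≤ N := by exact_mod_cast hN
  have hx : 1 / (N : ℝ) ≤ 1 := by
    rw [div_le_one (by linarith)]; exact hN'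
  have hx0 : 0 < 1 / (N : ℝ) := by positivity
  have e1 : 1 / ((4 * N : ℕ) : ℝ) = 1 / 4 * (1 / (N : ℝ)) := by
    push_cast; field_simp
  have e2 : 1 / (2 * N : ℝ) = 1 / 2 * (1 / (N : ℝ)) := by field_simp
  rw [e1, e2]
  nlinarith [mul_pos hx0 hx0]

theorem maxpiece (A : V → ℝ) (hA : ∀ x, A x = 0 ∨ A x = 1) {d N κ r σ : ℕ} (hN : 1 ≤ N)
    (hd : (1 / 2 : ℝ) ^ d ≤ 𝔼 x, A x)
    (hσ : (2 : ℝ) ^ (2 * N * (d + 2) * r) * (1 / 2) ^ σ ≤ 1 / (8 * N)) :
    ∃ (W Y' : Type) (_ : AddCommGroup W) (_ : Module (ZMod 2) W) (_ : Fintype W)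
      (_ : AddCommGroup Y') (_ : Module (ZMod 2) Y') (_ : Fintype Y') (f : W →ₗ[ZMod 2] V),
      Injective f ∧
      finrank (ZMod 2) V ≤ finrank (ZMod 2) W
        + 2 * N * (d + 2) * (κ + 2 * N * (d + 2) * r * (2 * σ + 1)) ∧
      finrank (ZMod 2) Y' ≤ 2 * N * (d + 2) * r ∧
      ∃ (w0 : V) (g : W → Y') (b : W →ₗ[ZMod 2] W →ₗ[ZMod 2] Y'), IsQM g b ∧ Reg b σ ∧
        (1 / 2 : ℝ) ^ d ≤ Fintype.card Y' * 𝔼 w, A (w0 + f w) * iv (g w = 0) ∧
        SprV (fun w => A (w0 + f w) * iv (g w = 0)) g κ r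
          ((1 + 1 / (N : ℝ)) *
            (Fintype.card Y' * 𝔼 w, A (w0 + f w) * iv (g w = 0))) := by
  obtain ⟨j, hj, t, hdt, hpiece, hlev⟩ := levels A hA
    (κ := κ + 2 * N * (d + 2) * r * (2 * σ + 1)) hN hd hσ
  obtain ⟨W, Y', iW, mW, fW, iY, mY, fY, f, hf, hW, hY, w0, g, b, hg, hb, ht⟩ := hpiece
  have hj1 : j ≤ 2 * N * (d + 2) := hj.le
  refine ⟨W, Y', iW, mW, fW, iY, mY, fY, f, hf, ?_, ?_, w0, g, b, hg, hb, ?_, ?_⟩
  · refine le_trans hW (Nat.add_le_add_left ?_ _)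
    exact Nat.mul_le_mul_right _ hj1
  · exact le_trans hY (Nat.mul_le_mul_right _ hj1)
  · rw [ht]; exact hdt
  · rw [ht]
    intro W1 Y1 iW1 mW1 fW1 iY1 mY1 fY1 f1 hf1 hW1 hY1 w1 h c hh
    have ht0 : 0 ≤ t := le_trans (by positivity) hdt
    have ht' : 0 ≤ (1 + 1 / (2 * N : ℝ)) * t := by positivity
    have hσ' : (2 : ℝ) ^ ((j + 1) * r) * (1 / 2) ^ σ ≤ 1 / (2 * ((4 * N : ℕ) : ℝ)) := by
      refine le_trans (mul_le_mul_of_nonneg_right ?_ (by positivity)) (le_trans hσ ?_)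
      · exact pow_le_pow_right₀ (by norm_num) (Nat.mul_le_mul_right _ (by omega))
      · apply le_of_eq
        push_cast
        ring
    have hcod : finrank (ZMod 2) V ≤ finrank (ZMod 2) W1
        + (j * (κ + 2 * N * (d + 2) * r * (2 * σ + 1)) + κ) := by omega
    have hfin : finrank (ZMod 2) (Y' × Y1) ≤ (j + 1) * r := by
      rw [Module.finrank_prod]
      have : (j + 1) * r = j * r + r := by ring
      omega
    have hK : j * (κ + 2 * N * (d + 2) * r * (2 * σ + 1)) + κ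
        + finrank (ZMod 2) (Y' × Y1) * (2 * σ)
        ≤ (j + 1) * (κ + 2 * N * (d + 2) * r * (2 * σ + 1)) := by
      have h1 : finrank (ZMod 2) (Y' × Y1) * (2 * σ) ≤ 2 * N * (d + 2) * r * (2 * σ + 1) := by
        refine Nat.mul_le_mul (le_trans hfin (Nat.mul_le_mul_right _ (by omega))) (by omega)
      have h2 : (j + 1) * (κ + 2 * N * (d + 2) * r * (2 * σ + 1))
          = j * (κ + 2 * N * (d + 2) * r * (2 * σ + 1))
            + κ + 2 * N * (d + 2) * r * (2 * σ + 1) := by ring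
      omega
    have key := lemR A hA (K := (j + 1) * (κ + 2 * N * (d + 2) * r * (2 * σ + 1)))
      (R := (j + 1) * r) (σ := σ) (N := 4 * N) (by omega) ht' hlev hσ'
      (finrank (ZMod 2) (Y' × Y1))
      (j * (κ + 2 * N * (d + 2) * r * (2 * σ + 1)) + κ) W1 (Y' × Y1) (f ∘ₗ f1)
      (hf.comp hf1) hcod rfl hfin hK (w0 + f w1) (fun w => (g (w1 + f1 w), h w))
      (bpair (pb b f1) c) ((hg.pull f1 w1).pair hh)
    have e1 : ∀ w : W1, A (w0 + f w1 + (f ∘ₗ f1) w)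
        * iv ((fun w => (g (w1 + f1 w), h w)) w = 0)
        = A (w0 + f (w1 + f1 w)) * iv (g (w1 + f1 w) = 0) * iv (h w = 0) := by
      intro w
      have e3 : w0 + f w1 + (f ∘ₗ f1) w = w0 + f (w1 + f1 w) := by
        rw [map_add, LinearMap.comp_apply, add_assoc]
      have e4 : ((fun w => (g (w1 + f1 w), h w)) w = (0 : Y' × Y1))
          ↔ (g (w1 + f1 w) = 0 ∧ h w = 0) := Prod.mk_eq_zero
      rw [e3, iv_congr e4, iv_and, mul_assoc]
    have e2 : ∀ w : W1, iv ((fun w => (g (w1 + f1 w), h w)) w = 0)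
        = iv (g (w1 + f1 w) = 0) * iv (h w = 0) := by
      intro w
      have e4 : ((fun w => (g (w1 + f1 w), h w)) w = (0 : Y' × Y1))
          ↔ (g (w1 + f1 w) = 0 ∧ h w = 0) := Prod.mk_eq_zero
      rw [iv_congr e4, iv_and]
    rw [Finset.expect_congr rfl (fun w _ => e1 w), Finset.expect_congr rfl (fun w _ => e2 w)]
      at key
    refine le_trans key ?_
    refine mul_le_mul_of_nonneg_right ?_
      (Finset.expect_nonneg (fun w _ => mul_nonneg (iv_nonneg _) (iv_nonneg _)))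
    rw [← mul_assoc]
    exact mul_le_mul_of_nonneg_right (aux_num hN) ht0

end

end Pool.Agent.H22.QK
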