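import Pool.Agent.H22.QK.CzLow

/-!
# PBase: the base case of Proposition L (about 140 lines)

PROOF of `propL_base`. Put `κ5 = kmDim N (l+q) m`. `lift_spr` for `a1`, `a2` (codimension `κ5 ≤ κ`,
`SprQ` is monotone in `κ`) and `2^(q - (σ - κ5)) ≤ 1/(16 N)` (since
`σ - κ5 ≥ 2q + N + p + 6`, `2^(N+6) ≥ 16 N`) give `Spr (lft ..) κ5 ((1 + 1/(16N)) (t/|Y|))`.
`km_upper` on `V × Y0` with `t/|Y| ≥ (1/2)^(l+q)`: the set of `(w', e) ∈ V × Y0` with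
`corr > (1+2/N) (t/|Y|)^2` has measure at most `(1/2)^p`; hence the set of `w'` for which
`(w', e w')` is in it has measure at most `|Y0| (1/2)^p ≤ 2^q (1/2)^p`. The set of degenerate `w'`
(`nondeg_count` with the `h` of `IsQM.two`) has measure at most `|Y| (1/2)^(2σ) ≤ 2^q (1/2)^p`
(`2σ ≥ p`). For all other `w'`: `CBf a1 a2 ≤ (1+2/N) t^2 |Y0|/|Y|^2` (`lift_corr`) and
`CBf 1 1 ≥ |Y0|/|Y|^2 - (1/2)^σ ≥ (|Y0|/|Y|^2) (1 - (1/2)^(σ - 2q))` (`cz_lower`), and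
`(1+3/N)(1 - (1/2)^(σ-2q)) ≥ 1+2/N` because `(N+3) ≤ 2^(N+6)`. So the bracket is `≤ 0` there; in the
exceptional set it is at most `CBf a1 a2 ≤ 1`.
-/

set_option autoImplicit false

open Finset Function Module
open scoped BigOperators
open Pool.Agent.H77.KM

namespace Pool.Agent.H22.QK

section

variable {V : Type} [AddCommGroup V] [Module (ZMod 2) V] [Fintype V]
variable {Y : Type} [AddCommGroup Y] [Module (ZMod 2) Y] [Fintype Y]
variable {g1 g2 : V → Y} {b : V →ₗ[ZMod 2] V →ₗ[ZMod 2] Y}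

private theorem half_le {a b : ℕ} (h : a ≤ b) : (1 / 2 : ℝ) ^ b ≤ (1 / 2) ^ a :=
  pow_le_pow_of_le_one (by norm_num) (by norm_num) h

private theorem two_mul_half (a : ℕ) : (2 : ℝ) ^ a * (1 / 2) ^ a = 1 := by
  rw [← mul_pow]; norm_num

private theorem nat_le_pow (N : ℕ) : (N : ℝ) + 1 ≤ 2 ^ N := by
  exact_mod_cast (Nat.lt_two_pow_self (n := N))

private theorem half_small {N : ℕ} (hN : 1 ≤ N) : (1 / 2 : ℝ) ^ (N + 6) ≤ 1 / (16 * (N : ℝ)) := by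
  have hNpos : (0 : ℝ) < (N : ℝ) := by exact_mod_cast hN
  have h1 := nat_le_pow N
  have h2 : (16 : ℝ) * N ≤ 2 ^ (N + 6) := by rw [pow_add]; nlinarith
  rw [one_div_pow, one_div_le_one_div (by positivity) (by positivity)]
  exact h2

private theorem half_small' (N : ℕ) : ((N : ℝ) + 3) * (1 / 2 : ℝ) ^ (N + 6) ≤ 1 := by
  have h1 := nat_le_pow N
  have h2 : (N : ℝ) + 3 ≤ 2 ^ (N + 6) := by rw [pow_add]; nlinarith
  calc ((N : ℝ) + 3) * (1 / 2 : ℝ) ^ (N + 6) ≤ 2 ^ (N + 6) * (1 / 2 : ℝ) ^ (N + 6) :=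
        mul_le_mul_of_nonneg_right h2 (by positivity)
    _ = 1 := two_mul_half _

private theorem cbf_one_nonneg (g1 g2 : V → Y) (Y0 : Submodule (ZMod 2) Y) (w' : V) (e : Y) :
    0 ≤ CBf (fun _ => 1) (fun _ => 1) g1 g2 Y0 w' e := by
  unfold CBf
  refine Finset.expect_nonneg (fun w _ => ?_)
  exact mul_nonneg (mul_nonneg (by norm_num) (iv_nonneg _)) (iv_nonneg _)

private theorem cbf_le_one (a1 a2 : V → ℝ) (ha1 : ∀ x, a1 x = 0 ∨ a1 x = 1)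
    (ha2 : ∀ x, a2 x = 0 ∨ a2 x = 1) (g1 g2 : V → Y) (Y0 : Submodule (ZMod 2) Y) (w' : V)
    (e : Y) : CBf a1 a2 g1 g2 Y0 w' e ≤ 1 := by
  unfold CBf
  refine Finset.expect_le Finset.univ_nonempty (fun w _ => ?_)
  have h1 : a1 w * a2 (w + w') ≤ 1 := by
    rcases ha1 w with h | h <;> rcases ha2 (w + w') with h' | h' <;> rw [h, h'] <;> norm_num
  have h10 : 0 ≤ a1 w * a2 (w + w') := by
    rcases ha1 w with h | h <;> rcases ha2 (w + w') with h' | h' <;> rw [h, h'] <;> norm_num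
  exact mul_le_one₀ (mul_le_one₀ h1 (iv_nonneg _) (iv_le_one _)) (iv_nonneg _) (iv_le_one _)

private theorem lft_cases (a : V → ℝ) (ha : ∀ x, a x = 0 ∨ a x = 1) (g : V → Y)
    (Y0 : Submodule (ZMod 2) Y) (x : V × Y0) : lft a g Y0 x = 0 ∨ lft a g Y0 x = 1 := by
  unfold lft
  rcases ha x.1 with h | h
  · left; rw [h, zero_mul]
  · rw [h, one_mul]; exact iv_cases _

private theorem card_le_two_pow {q : ℕ} (hq : finrank (ZMod 2) Y ≤ q) :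
    (Fintype.card Y : ℝ) ≤ 2 ^ q := by
  have h := Module.card_eq_pow_finrank (K := ZMod 2) (V := Y)
  rw [ZMod.card] at h
  rw [h]
  push_cast
  exact pow_le_pow_right₀ (by norm_num) hq

theorem propL_base (h1 : IsQM g1 b) (h2 : IsQM g2 b)
    (a1 a2 : V → ℝ) (ha1 : ∀ x, a1 x = 0 ∨ a1 x = 1) (ha2 : ∀ x, a2 x = 0 ∨ a2 x = 1)
    (Y0 : Submodule (ZMod 2) Y) {N l m p q σ κ : ℕ} (hN : 1 ≤ N)
    (hm : (2 * N + 1) * (N + 7) ≤ m) (hmp : (N + 2) * p ≤ m) {t : ℝ}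
    (ht : (1 / 2 : ℝ) ^ l ≤ t) (hq : finrank (ZMod 2) Y ≤ q)
    (hσ : kmDim N (l + q) m + 2 * q + N + p + 6 ≤ σ) (hκ : kmDim N (l + q) m ≤ κ)
    (hs : Reg b σ) (hS1 : SprQ a1 g1 Y0 κ t) (hS2 : SprQ a2 g2 Y0 κ t)
    (u : V → ℝ) (hu : ∀ x, 0 ≤ u x ∧ u x ≤ 1) (e : V → Y0) :
    𝔼 w', u w' * (CBf a1 a2 g1 g2 Y0 w' (e w')
        - (1 + 3 / (N : ℝ)) * t ^ 2 * CBf (fun _ => 1) (fun _ => 1) g1 g2 Y0 w' (e w'))
      ≤ 2 * 2 ^ q * (1 / 2) ^ p := by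
  classical
  obtain ⟨h, hh⟩ := h1.two h2
  have hNpos : (0 : ℝ) < (N : ℝ) := by exact_mod_cast hN
  have ht0 : 0 < t := lt_of_lt_of_le (by positivity) ht
  have hKl : ∃ K, K = kmDim N (l + q) m := ⟨_, rfl⟩
  obtain ⟨K, hK⟩ := hKl
  rw [← hK] at hσ hκ
  have hcY1 : (1 : ℝ) ≤ (Fintype.card Y : ℝ) := by exact_mod_cast Fintype.card_pos
  have hcY0 : (0 : ℝ) < (Fintype.card Y : ℝ) := by linarith
  have hcYq : (Fintype.card Y : ℝ) ≤ 2 ^ q := card_le_two_pow hq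
  have hc01 : (1 : ℝ) ≤ (Fintype.card Y0 : ℝ) := by exact_mod_cast Fintype.card_pos
  have hc0Y : (Fintype.card Y0 : ℝ) ≤ (Fintype.card Y : ℝ) := by
    exact_mod_cast Fintype.card_le_of_injective (fun y : Y0 => (y : Y)) Subtype.val_injective
  -- spreadness of the lifts
  have hspr : ∀ (a : V → ℝ) (g : V → Y), IsQM g b → SprQ a g Y0 κ t →
      Spr (lft a g Y0) K ((1 + 1 / (16 * N : ℝ)) * (t / Fintype.card Y)) := by
    intro a g hg hS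
    have hS' : SprQ a g Y0 K t := by
      intro W _ _ _ f hf hcod
      exact hS W f hf (hcod.trans (Nat.add_le_add_left hκ _))
    have h3 := lift_spr hg hs (k := K) (by omega) Y0 ht0.le hS'
    refine h3.mono le_rfl ?_
    have h4 : (Fintype.card Y : ℝ) * (1 / 2) ^ (σ - K) ≤ 1 / (16 * N : ℝ) := by
      calc (Fintype.card Y : ℝ) * (1 / 2) ^ (σ - K) ≤ 2 ^ q * (1 / 2) ^ (q + (N + 6)) :=
            mul_le_mul hcYq (half_le (by omega)) (by positivity) (by positivity)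
        _ = (2 ^ q * (1 / 2) ^ q) * (1 / 2) ^ (N + 6) := by rw [pow_add]; ring
        _ = (1 / 2) ^ (N + 6) := by rw [two_mul_half, one_mul]
        _ ≤ 1 / (16 * N : ℝ) := half_small hN
    have h5 : 0 ≤ t / Fintype.card Y := by positivity
    calc t / Fintype.card Y * (1 + Fintype.card Y * (1 / 2) ^ (σ - K))
        ≤ t / Fintype.card Y * (1 + 1 / (16 * N : ℝ)) :=
          mul_le_mul_of_nonneg_left (by linarith) h5
      _ = (1 + 1 / (16 * N : ℝ)) * (t / Fintype.card Y) := by ring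
  have ht' : (1 / 2 : ℝ) ^ (l + q) ≤ t / Fintype.card Y := by
    rw [le_div_iff₀ hcY0]
    calc (1 / 2 : ℝ) ^ (l + q) * Fintype.card Y ≤ (1 / 2 : ℝ) ^ (l + q) * 2 ^ q :=
          mul_le_mul_of_nonneg_left hcYq (by positivity)
      _ = (1 / 2) ^ l * (2 ^ q * (1 / 2) ^ q) := by rw [pow_add]; ring
      _ = (1 / 2) ^ l := by rw [two_mul_half, mul_one]
      _ ≤ t := ht
  have hup := km_upper (lft a1 g1 Y0) (lft a2 g2 Y0) (lft_cases a1 ha1 g1 Y0)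
    (lft_cases a2 ha2 g2 Y0) (l := l + q) (m := m) (p := p) hN hm hmp ht'
    (by rw [← hK]; exact hspr a1 g1 h1 hS1) (by rw [← hK]; exact hspr a2 g2 h2 hS2)
  -- first exceptional set
  have hbad1 : 𝔼 w', iv ((1 + 2 / (N : ℝ)) * (t / Fintype.card Y) ^ 2
      < corr (lft a1 g1 Y0) (lft a2 g2 Y0) (w', e w')) ≤ 2 ^ q * (1 / 2) ^ p := by
    have h3 : ∀ w' : V, iv ((1 + 2 / (N : ℝ)) * (t / Fintype.card Y) ^ 2
        < corr (lft a1 g1 Y0) (lft a2 g2 Y0) (w', e w')) ≤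
        (Fintype.card Y0 : ℝ) * 𝔼 s : Y0, iv ((1 + 2 / (N : ℝ)) * (t / Fintype.card Y) ^ 2
        < corr (lft a1 g1 Y0) (lft a2 g2 Y0) (w', s)) := by
      intro w'
      rw [Fintype.card_mul_expect]
      exact Finset.single_le_sum (f := fun s : Y0 =>
        iv ((1 + 2 / (N : ℝ)) * (t / Fintype.card Y) ^ 2
          < corr (lft a1 g1 Y0) (lft a2 g2 Y0) (w', s)))
        (fun s _ => iv_nonneg _) (Finset.mem_univ _)
    calc 𝔼 w', iv ((1 + 2 / (N : ℝ)) * (t / Fintype.card Y) ^ 2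
          < corr (lft a1 g1 Y0) (lft a2 g2 Y0) (w', e w'))
        ≤ 𝔼 w' : V, (Fintype.card Y0 : ℝ) * 𝔼 s : Y0,
          iv ((1 + 2 / (N : ℝ)) * (t / Fintype.card Y) ^ 2
            < corr (lft a1 g1 Y0) (lft a2 g2 Y0) (w', s)) :=
          Finset.expect_le_expect (fun w' _ => h3 w')
      _ = (Fintype.card Y0 : ℝ) * 𝔼 x : V × Y0,
          iv ((1 + 2 / (N : ℝ)) * (t / Fintype.card Y) ^ 2
            < corr (lft a1 g1 Y0) (lft a2 g2 Y0) x) := by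
          rw [← Finset.mul_expect]
          congr 1
          rw [← Finset.univ_product_univ, Finset.expect_product]
      _ ≤ 2 ^ q * (1 / 2) ^ p :=
          mul_le_mul (hc0Y.trans hcYq) hup (Finset.expect_nonneg (fun _ _ => iv_nonneg _))
            (by positivity)
  -- second exceptional set
  have hbad2 : 𝔼 w', iv (∃ m : Dual (ZMod 2) Y, m ≠ 0 ∧ ∀ y, m (b w' y + h y) = 0)
      ≤ 2 ^ q * (1 / 2) ^ p := by
    refine (nondeg_count hs h).trans ?_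
    exact mul_le_mul hcYq (half_le (by omega)) (by positivity) (by positivity)
  -- pointwise bound
  have hpt : ∀ w', u w' * (CBf a1 a2 g1 g2 Y0 w' (e w')
        - (1 + 3 / (N : ℝ)) * t ^ 2 * CBf (fun _ => 1) (fun _ => 1) g1 g2 Y0 w' (e w'))
      ≤ iv ((1 + 2 / (N : ℝ)) * (t / Fintype.card Y) ^ 2
        < corr (lft a1 g1 Y0) (lft a2 g2 Y0) (w', e w')) +
        iv (∃ m : Dual (ZMod 2) Y, m ≠ 0 ∧ ∀ y, m (b w' y + h y) = 0) := by
    intro w'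
    obtain ⟨hu0, hu1⟩ := hu w'
    have hn1 := iv_nonneg ((1 + 2 / (N : ℝ)) * (t / Fintype.card Y) ^ 2
        < corr (lft a1 g1 Y0) (lft a2 g2 Y0) (w', e w'))
    have hn2 := iv_nonneg (∃ m : Dual (ZMod 2) Y, m ≠ 0 ∧ ∀ y, m (b w' y + h y) = 0)
    have hC1 := cbf_one_nonneg g1 g2 Y0 w' (e w')
    have hC2 := cbf_le_one a1 a2 ha1 ha2 g1 g2 Y0 w' (e w')
    have hcoef : 0 ≤ (1 + 3 / (N : ℝ)) * t ^ 2 := by positivity
    have hle1 : u w' * (CBf a1 a2 g1 g2 Y0 w' (e w')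
        - (1 + 3 / (N : ℝ)) * t ^ 2 * CBf (fun _ => 1) (fun _ => 1) g1 g2 Y0 w' (e w')) ≤ 1 := by
      have h3 : CBf a1 a2 g1 g2 Y0 w' (e w')
        - (1 + 3 / (N : ℝ)) * t ^ 2 * CBf (fun _ => 1) (fun _ => 1) g1 g2 Y0 w' (e w') ≤ 1 := by
        have := mul_nonneg hcoef hC1
        linarith
      calc _ ≤ u w' * 1 := mul_le_mul_of_nonneg_left h3 hu0
        _ ≤ 1 := by linarith
    by_cases hb1 : (1 + 2 / (N : ℝ)) * (t / Fintype.card Y) ^ 2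
        < corr (lft a1 g1 Y0) (lft a2 g2 Y0) (w', e w')
    · rw [iv_pos hb1]; linarith
    by_cases hb2 : ∃ m : Dual (ZMod 2) Y, m ≠ 0 ∧ ∀ y, m (b w' y + h y) = 0
    · rw [iv_pos hb2]; linarith
    rw [iv_neg hb1, iv_neg hb2, add_zero]
    have hcz := cz_lower (g2 := g2) h1 hs Y0 h hh w' hb2 (e w')
    have hlc := lift_corr a1 a2 g1 g2 Y0 w' (e w')
    have h3 := not_lt.1 hb1
    have hd0 : (0 : ℝ) < (Fintype.card Y0 : ℝ) / (Fintype.card Y : ℝ) ^ 2 := by positivity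
    have h4 : CBf a1 a2 g1 g2 Y0 w' (e w') ≤
        (1 + 2 / (N : ℝ)) * t ^ 2 * ((Fintype.card Y0 : ℝ) / (Fintype.card Y : ℝ) ^ 2) := by
      rw [← hlc]
      calc (Fintype.card Y0 : ℝ) * corr (lft a1 g1 Y0) (lft a2 g2 Y0) (w', e w')
          ≤ (Fintype.card Y0 : ℝ) * ((1 + 2 / (N : ℝ)) * (t / Fintype.card Y) ^ 2) :=
            mul_le_mul_of_nonneg_left h3 (by positivity)
        _ = (1 + 2 / (N : ℝ)) * t ^ 2 *
            ((Fintype.card Y0 : ℝ) / (Fintype.card Y : ℝ) ^ 2) := by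
            rw [div_pow]; ring
    have h5 : (1 / 2 : ℝ) ^ σ ≤
        (1 / 2) ^ (N + 6) * ((Fintype.card Y0 : ℝ) / (Fintype.card Y : ℝ) ^ 2) := by
      have h6 : (1 / 2 : ℝ) ^ (2 * q) ≤ (Fintype.card Y0 : ℝ) / (Fintype.card Y : ℝ) ^ 2 := by
        rw [le_div_iff₀ (by positivity)]
        calc (1 / 2 : ℝ) ^ (2 * q) * (Fintype.card Y : ℝ) ^ 2
            ≤ (1 / 2 : ℝ) ^ (2 * q) * (2 ^ q) ^ 2 :=
              mul_le_mul_of_nonneg_left (pow_le_pow_left₀ hcY0.le hcYq 2) (by positivity)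
          _ = 2 ^ (2 * q) * (1 / 2 : ℝ) ^ (2 * q) := by
              rw [← pow_mul, mul_comm q 2]; ring
          _ = 1 := two_mul_half _
          _ ≤ (Fintype.card Y0 : ℝ) := hc01
      calc (1 / 2 : ℝ) ^ σ ≤ (1 / 2) ^ ((N + 6) + 2 * q) := half_le (by omega)
        _ = (1 / 2) ^ (N + 6) * (1 / 2) ^ (2 * q) := by rw [pow_add]
        _ ≤ (1 / 2) ^ (N + 6) * ((Fintype.card Y0 : ℝ) / (Fintype.card Y : ℝ) ^ 2) :=
            mul_le_mul_of_nonneg_left h6 (by positivity)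
    have h7 : (1 - (1 / 2 : ℝ) ^ (N + 6)) * ((Fintype.card Y0 : ℝ) / (Fintype.card Y : ℝ) ^ 2)
        ≤ CBf (fun _ => 1) (fun _ => 1) g1 g2 Y0 w' (e w') := by
      have e1 : (1 - (1 / 2 : ℝ) ^ (N + 6)) *
          ((Fintype.card Y0 : ℝ) / (Fintype.card Y : ℝ) ^ 2) =
          (Fintype.card Y0 : ℝ) / (Fintype.card Y : ℝ) ^ 2 -
          (1 / 2) ^ (N + 6) * ((Fintype.card Y0 : ℝ) / (Fintype.card Y : ℝ) ^ 2) := by ring
      rw [e1]
      linarith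
    have h8 : 1 + 2 / (N : ℝ) ≤ (1 + 3 / (N : ℝ)) * (1 - (1 / 2 : ℝ) ^ (N + 6)) := by
      have h9 := half_small' N
      have h10 : (1 + 3 / (N : ℝ)) * (1 - (1 / 2 : ℝ) ^ (N + 6)) - (1 + 2 / (N : ℝ)) =
          (1 - ((N : ℝ) + 3) * (1 / 2 : ℝ) ^ (N + 6)) / N := by
        field_simp
        ring
      have h11 : 0 ≤ (1 - ((N : ℝ) + 3) * (1 / 2 : ℝ) ^ (N + 6)) / N :=
        div_nonneg (by linarith) hNpos.le
      linarith
    have h12 : (1 + 2 / (N : ℝ)) * t ^ 2 * ((Fintype.card Y0 : ℝ) / (Fintype.card Y : ℝ) ^ 2) ≤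
        (1 + 3 / (N : ℝ)) * t ^ 2 * CBf (fun _ => 1) (fun _ => 1) g1 g2 Y0 w' (e w') := by
      calc (1 + 2 / (N : ℝ)) * t ^ 2 * ((Fintype.card Y0 : ℝ) / (Fintype.card Y : ℝ) ^ 2)
          = (1 + 2 / (N : ℝ)) * (t ^ 2 *
            ((Fintype.card Y0 : ℝ) / (Fintype.card Y : ℝ) ^ 2)) := by ring
        _ ≤ ((1 + 3 / (N : ℝ)) * (1 - (1 / 2 : ℝ) ^ (N + 6))) * (t ^ 2 *
            ((Fintype.card Y0 : ℝ) / (Fintype.card Y : ℝ) ^ 2)) :=
            mul_le_mul_of_nonneg_right h8 (by positivity)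
        _ = (1 + 3 / (N : ℝ)) * t ^ 2 * ((1 - (1 / 2 : ℝ) ^ (N + 6)) *
            ((Fintype.card Y0 : ℝ) / (Fintype.card Y : ℝ) ^ 2)) := by ring
        _ ≤ (1 + 3 / (N : ℝ)) * t ^ 2 *
            CBf (fun _ => 1) (fun _ => 1) g1 g2 Y0 w' (e w') :=
            mul_le_mul_of_nonneg_left h7 hcoef
    exact mul_nonpos_of_nonneg_of_nonpos hu0 (by linarith)
  calc 𝔼 w', u w' * (CBf a1 a2 g1 g2 Y0 w' (e w')
        - (1 + 3 / (N : ℝ)) * t ^ 2 * CBf (fun _ => 1) (fun _ => 1) g1 g2 Y0 w' (e w'))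
      ≤ 𝔼 w', (iv ((1 + 2 / (N : ℝ)) * (t / Fintype.card Y) ^ 2
        < corr (lft a1 g1 Y0) (lft a2 g2 Y0) (w', e w')) +
        iv (∃ m : Dual (ZMod 2) Y, m ≠ 0 ∧ ∀ y, m (b w' y + h y) = 0)) :=
        Finset.expect_le_expect (fun w' _ => hpt w')
    _ ≤ 2 ^ q * (1 / 2) ^ p + 2 ^ q * (1 / 2) ^ p := by
        rw [Finset.expect_add_distrib]
        exact add_le_add hbad1 hbad2
    _ = 2 * 2 ^ q * (1 / 2) ^ p := by ring

end

end Pool.Agent.H22.QK
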