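import Pool.Agent.H22.QK.Defs

/-!
# Extract: a density increment on a coset is caused by large Fourier coefficients (about 120
lines)

PROOF. Let `P = W.dualAnnihilator`, a subspace of `Dual V` with at most `2^r` elements
(`finrank P = finrank V - finrank W ≤ r`). `avg (sf W) F x0 = ∑_{φ ∈ P} hat F φ * chi φ x0`
(`hat_avg`/`inversion`: `avg (sf W) F x0 = ∑_φ hat F φ * uhat (sf W) φ * chi φ x0` and
`uhat (sf W) φ` is `1` or `0` according to `φ ∈ P`; see `uhat_sf_of_vanish`, `uhat_sf_cases`).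
Choose a maximal linearly independent family `φ_0, ..., φ_(r'-1)` among the `φ ∈ P` with
`η ≤ |hat F φ|` (`exists_linearIndependent`), `r' ≤ finrank P ≤ r`; let `Λ` be its span. Every
`φ ∈ P ∖ Λ` has `|hat F φ| < η`, so
`∑_{φ ∈ Λ} hat F φ chi φ x0 ≥ t - 2^r η`. And with `e i = φ_i x0`, for every `x`:
`iv (∀ i, φ_i x = e i) = (1/2)^r' ∑_{φ ∈ Λ} chi φ (x + x0)` (`Λ` has `2^r'` elements: if some
`φ_i (x + x0) = 1` the sum of characters over `Λ` vanishes). Average against `F`.
-/

set_option autoImplicit false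

open Finset Function Module
open scoped BigOperators
open Pool.Agent.H77.KM

namespace Pool.Agent.H22.QK

private lemma zc (c : ZMod 2) : c = 0 ∨ c = 1 := by revert c; decide

private lemma ext_iv {V : Type} [AddCommGroup V] [Module (ZMod 2) V] {r' : ℕ}
    (φ : Fin r' → Dual (ZMod 2) V) (x x0 : V) :
    iv (∀ i, φ i x = φ i x0) = (1 / 2 : ℝ) ^ r' * ∑ I : Finset (Fin r'),
      chi (∑ i ∈ I, φ i) x * chi (∑ i ∈ I, φ i) x0 := by
  classical
  have h1 : ∑ I : Finset (Fin r'), chi (∑ i ∈ I, φ i) x * chi (∑ i ∈ I, φ i) x0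
      = ∏ i : Fin r', (1 + chi (φ i) (x + x0)) := by
    rw [Finset.prod_one_add, Finset.powerset_univ]
    refine Finset.sum_congr rfl (fun I _ => ?_)
    rw [prod_chi, chi_add]
  rw [h1]
  have h2 : (1 / 2 : ℝ) ^ r' = ∏ _i : Fin r', (1 / 2 : ℝ) := by simp
  rw [h2, ← Finset.prod_mul_distrib]
  have h3 : ∀ i : Fin r', (1 / 2 : ℝ) * (1 + chi (φ i) (x + x0)) = iv (φ i x = φ i x0) := by
    intro i
    have h11 : (1 : ZMod 2) + 1 = 0 := by decide
    rcases zc (φ i x) with h | h <;> rcases zc (φ i x0) with h' | h' <;>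
      simp [chi, sgn, iv, h, h', h11] <;> norm_num
  rw [Finset.prod_congr rfl (fun i _ => h3 i)]
  by_cases h : ∀ i, φ i x = φ i x0
  · rw [iv_pos h]
    exact (Finset.prod_eq_one (fun i _ => iv_pos (h i))).symm
  · rw [iv_neg h]
    push Not at h
    obtain ⟨i, hi⟩ := h
    exact (Finset.prod_eq_zero (Finset.mem_univ i) (iv_neg hi)).symm

private lemma ext_avg {V : Type} [AddCommGroup V] [Module (ZMod 2) V] [Fintype V]
    (F : V → ℝ) (W : Submodule (ZMod 2) V) (x0 : V) :
    avg (sf W) F x0 = ∑ φ : Dual (ZMod 2) V, hat F φ * (uhat (sf W) φ * chi φ x0) := by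
  rw [← inversion (avg (sf W) F) x0]
  refine Finset.sum_congr rfl (fun φ _ => ?_)
  rw [hat_avg]; ring

theorem extract {V : Type} [AddCommGroup V] [Module (ZMod 2) V] [Fintype V]
    (F : V → ℝ) {r : ℕ} (W : Submodule (ZMod 2) V)
    (hW : finrank (ZMod 2) V ≤ finrank (ZMod 2) W + r) (x0 : V) {η t : ℝ} (hη : 0 ≤ η)
    (ht : t ≤ avg (sf W) F x0) :
    ∃ r' ≤ r, ∃ φ : Fin r' → Dual (ZMod 2) V, LinearIndependent (ZMod 2) φ ∧
      (∀ i, η ≤ |hat F (φ i)|) ∧
      ∃ e : Fin r' → ZMod 2,
        (t - 2 ^ r * η) * (1 / 2) ^ r' ≤ 𝔼 x, F x * iv (∀ i, φ i x = e i) := by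
  classical
  set P : Submodule (ZMod 2) (Dual (ZMod 2) V) := W.dualAnnihilator with hP
  have hfP : finrank (ZMod 2) P ≤ r := by
    have h0 : finrank (ZMod 2) W + finrank (ZMod 2) P = finrank (ZMod 2) V :=
      Subspace.finrank_add_finrank_dualAnnihilator_eq W
    omega
  set S : Set (Dual (ZMod 2) V) := {φ | φ ∈ P ∧ η ≤ |hat F φ|} with hS
  obtain ⟨b, hbS, hspan, hli⟩ := exists_linearIndependent (ZMod 2) S
  have hbfin : Finite b := Subtype.finite
  let _ : Fintype b := Fintype.ofFinite b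
  set r' := Fintype.card b with hr'
  let ε : Fin r' ≃ b := (Fintype.equivFin b).symm
  let φ : Fin r' → Dual (ZMod 2) V := fun i => (ε i : Dual (ZMod 2) V)
  have hliφ : LinearIndependent (ZMod 2) φ := hli.comp ε ε.injective
  have hφS : ∀ i, φ i ∈ S := fun i => hbS (ε i).2
  have hr : r' ≤ r := by
    refine le_trans ?_ hfP
    have h1 : finrank (ZMod 2) (Submodule.span (ZMod 2) (Set.range φ)) = Fintype.card (Fin r') :=
      finrank_span_eq_card hliφ
    rw [Fintype.card_fin] at h1
    rw [← h1]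
    refine Submodule.finrank_mono ?_
    rw [Submodule.span_le]
    rintro _ ⟨i, rfl⟩
    exact (hφS i).1
  have hrange : Set.range φ = b := by
    ext ψ
    constructor
    · rintro ⟨i, rfl⟩; exact (ε i).2
    · intro h; exact ⟨ε.symm ⟨ψ, h⟩, by simp [φ]⟩
  refine ⟨r', hr, φ, hliφ, fun i => (hφS i).2, fun i => φ i x0, ?_⟩
  -- the sums over subsets
  let T : Finset (Fin r') → Dual (ZMod 2) V := fun I => ∑ i ∈ I, φ i
  have hTinj : Function.Injective T := by
    intro I J hIJ
    have h0 : ∀ K : Finset (Fin r'), ∑ i, (if i ∈ K then (1 : ZMod 2) else 0) • φ i = T K := by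
      intro K
      simp only [ite_smul, one_smul, zero_smul, T]
      rw [Finset.sum_ite_mem, Finset.univ_inter]
    have h1 := hliφ.fintypeLinearCombination_injective
    have h2 : (fun i => if i ∈ I then (1 : ZMod 2) else 0) = fun i => if i ∈ J then 1 else 0 := by
      apply h1
      rw [Fintype.linearCombination_apply, Fintype.linearCombination_apply, h0, h0]
      exact hIJ
    ext i
    have h3 := congrFun h2 i
    by_cases hi : i ∈ I <;> by_cases hj : i ∈ J
    · simp [hi, hj]
    · exfalso; rw [if_pos hi, if_neg hj] at h3; exact absurd h3 (by decide)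
    · exfalso; rw [if_neg hi, if_pos hj] at h3; exact absurd h3 (by decide)
    · simp [hi, hj]
  have hTP : ∀ I, T I ∈ P := fun I => P.sum_mem (fun i _ => (hφS i).1)
  have hexp : 𝔼 x, F x * iv (∀ i, φ i x = φ i x0)
      = (1 / 2 : ℝ) ^ r' * ∑ I : Finset (Fin r'), hat F (T I) * chi (T I) x0 := by
    have h1 : ∀ x, F x * iv (∀ i, φ i x = φ i x0)
        = (1 / 2 : ℝ) ^ r' * ∑ I : Finset (Fin r'), F x * chi (T I) x * chi (T I) x0 := by
      intro x
      rw [ext_iv, Finset.mul_sum, Finset.mul_sum, Finset.mul_sum]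
      refine Finset.sum_congr rfl (fun I _ => ?_)
      simp only [T]; ring
    simp only [h1]
    rw [← Finset.mul_expect, Finset.expect_sum_comm]
    congr 1
    refine Finset.sum_congr rfl (fun I _ => ?_)
    rw [← Finset.expect_mul]; rfl
  rw [hexp]
  -- lower bound of the sum
  set PF : Finset (Dual (ZMod 2) V) := Finset.univ.filter (fun ψ => ψ ∈ P) with hPF
  have havg : avg (sf W) F x0 = ∑ ψ ∈ PF, hat F ψ * chi ψ x0 := by
    rw [ext_avg, hPF, Finset.sum_filter]
    refine Finset.sum_congr rfl (fun ψ _ => ?_)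
    split_ifs with h
    · rw [uhat_sf_of_vanish W ψ ((Submodule.mem_dualAnnihilator ψ).mp h), one_mul]
    · rcases uhat_sf_cases W ψ with h1 | h1
      · exfalso
        apply h
        rw [hP, Submodule.mem_dualAnnihilator]
        by_contra hne
        push Not at hne
        obtain ⟨w0, hw0, hw1⟩ := hne
        have h2 : chi ψ w0 = -1 := by simp [chi, sgn, hw1]
        have h3 := expect_sf_add W (chi ψ) hw0
        simp only [chi_add, h2, mul_neg_one] at h3
        rw [Finset.expect_neg_distrib] at h3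
        unfold uhat at h1
        linarith
      · rw [h1]; ring
  have hsplit : ∑ ψ ∈ PF, hat F ψ * chi ψ x0
      = ∑ I : Finset (Fin r'), hat F (T I) * chi (T I) x0
        + ∑ ψ ∈ PF \ (Finset.univ.image T), hat F ψ * chi ψ x0 := by
    rw [← Finset.sum_image (s := Finset.univ) (g := T) (f := fun ψ => hat F ψ * chi ψ x0)
      (fun a _ b _ h => hTinj h), add_comm]
    refine (Finset.sum_sdiff ?_).symm
    intro ψ hψ
    obtain ⟨I, -, rfl⟩ := Finset.mem_image.mp hψ
    exact Finset.mem_filter.mpr ⟨Finset.mem_univ _, hTP I⟩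
  have hsmall : ∀ ψ ∈ PF \ (Finset.univ.image T), hat F ψ * chi ψ x0 ≤ η := by
    intro ψ hψ
    obtain ⟨h1, h2⟩ := Finset.mem_sdiff.mp hψ
    have h3 : ψ ∈ P := (Finset.mem_filter.mp h1).2
    have h4 : |hat F ψ| < η := by
      by_contra hcon
      push Not at hcon
      apply h2
      have h5 : ψ ∈ Submodule.span (ZMod 2) (Set.range φ) := by
        rw [hrange, hspan]
        exact Submodule.subset_span ⟨h3, hcon⟩
      obtain ⟨c, hc⟩ := (Submodule.mem_span_range_iff_exists_fun (ZMod 2)).mp h5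
      refine Finset.mem_image.mpr ⟨Finset.univ.filter (fun i => c i = 1), Finset.mem_univ _, ?_⟩
      simp only [T]
      rw [Finset.sum_filter, ← hc]
      refine Finset.sum_congr rfl (fun i _ => ?_)
      rcases zc (c i) with h | h <;> simp [h]
    calc hat F ψ * chi ψ x0 ≤ |hat F ψ * chi ψ x0| := le_abs_self _
      _ = |hat F ψ| := by rw [abs_mul, abs_chi, mul_one]
      _ ≤ η := h4.le
  have hcard : (PF.card : ℝ) ≤ 2 ^ r := by
    have h1 : PF.card = 2 ^ finrank (ZMod 2) P := by
      have h2 : PF.card = Nat.card P := by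
        rw [Nat.card_eq_fintype_card, Fintype.card_subtype]
      rw [h2, Nat.card_eq_fintype_card, Module.card_eq_pow_finrank (K := ZMod 2) (V := P)]
      simp [ZMod.card]
    rw [h1]
    push_cast
    exact pow_le_pow_right₀ (by norm_num) hfP
  have hrest : ∑ ψ ∈ PF \ (Finset.univ.image T), hat F ψ * chi ψ x0 ≤ 2 ^ r * η := by
    calc ∑ ψ ∈ PF \ (Finset.univ.image T), hat F ψ * chi ψ x0
        ≤ ∑ _ψ ∈ PF \ (Finset.univ.image T), η := Finset.sum_le_sum hsmall
      _ = ((PF \ (Finset.univ.image T)).card : ℝ) * η := by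
          rw [Finset.sum_const, nsmul_eq_mul]
      _ ≤ 2 ^ r * η := by
          refine mul_le_mul_of_nonneg_right (le_trans ?_ hcard) hη
          exact_mod_cast Finset.card_le_card Finset.sdiff_subset
  have hlow : t - 2 ^ r * η ≤ ∑ I : Finset (Fin r'), hat F (T I) * chi (T I) x0 := by
    have := ht
    rw [havg, hsplit] at this
    linarith
  rw [mul_comm]
  exact mul_le_mul_of_nonneg_left hlow (by positivity)

end Pool.Agent.H22.QK
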