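import Pool.Agent.H22.QK.FrSpec
import Pool.Agent.H22.QK.Extract

/-!
# PerFrame: the increment on one good frame (about 110 lines)

PROOF. Let `U = Fin m → ZMod 2`, `F u = E (y + lc u x)`, `C' u = C (lc u x)` (values `0, 1`). If
`F u = F u' = C' (u + u') = 1` then with `p = y + lc u x`, `q = y + lc u' x`:
`p + q = lc (u + u') x`, so `E p * E q * C (p + q) = 1`, excluded. `increment F F C'` with
`d = k + 2`: `(1/2)^(k+2) ≤ 𝔼 F` since `(999/1000) ε ≥ (999/1000) (1/2)^k`. It gives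
`W ≤ U` of codimension at most `stepDim (k+2) = iiR k` and `x0` with
`135/128 * 𝔼 F ≤ avg (sf W) F x0` (both alternatives are the same). `extract` with
`η = (1/2)^(iiR k + k + 8)`: `2^(iiR k) η = (1/2)^(k+8) ≤ ε/256`, and
`135/128 * 999/1000 ε - ε/256 ≥ 41/40 ε`. By `hspec` (negation of the bad event) every `φ i` is
`u ↦ ξ_i (lc u x)` for some `ξ_i ∈ S`; the `ξ_i` are independent since the `φ i` are. Finally
`ξ_i (y + lc u x) = ξ_i y + φ_i u`, so replace `e i` by `e i + ξ_i y`.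
-/

set_option autoImplicit false

open Finset Function Module
open scoped BigOperators
open Pool.Agent.H77.KM

namespace Pool.Agent.H22.QK

theorem per_frame {V : Type} [AddCommGroup V] [Module (ZMod 2) V] [Fintype V]
    (E C : V → ℝ) (hE : ∀ x, E x = 0 ∨ E x = 1) (hC : ∀ x, C x = 0 ∨ C x = 1)
    (hEC : ∀ x y, E x * E y * C (x + y) = 0) {k m : ℕ} {ε : ℝ} (hε : (1 / 2 : ℝ) ^ k ≤ ε)
    (S : Finset (Dual (ZMod 2) V)) (y : V) (x : Fin m → V)
    (h1 : 999 / 1000 * ε ≤ 𝔼 u : Fin m → ZMod 2, E (y + lc u x))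
    (h2 : (1 / 2 : ℝ) ^ (k + 3) < 𝔼 u : Fin m → ZMod 2, C (lc u x))
    (hspec : ¬ ∃ φ : Dual (ZMod 2) (Fin m → ZMod 2),
        (1 / 2 : ℝ) ^ (iiR k + k + 8) ≤ |hat (fun u => E (y + lc u x)) φ| ∧
          ∀ ξ ∈ S, ∃ u, φ u ≠ ξ (lc u x)) :
    ∃ r' ≤ iiR k, ∃ ξ : Fin r' → Dual (ZMod 2) V, LinearIndependent (ZMod 2) ξ ∧
      (∀ i, ξ i ∈ S) ∧ ∃ e : Fin r' → ZMod 2,
        41 / 40 * ε * (1 / 2) ^ r'
          ≤ 𝔼 u : Fin m → ZMod 2, E (y + lc u x) * iv (∀ i, ξ i (y + lc u x) = e i) := by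
  classical
  have hself : ∀ z : V, z + z = 0 := fun z => ZModModule.add_self z
  have hkpos : (0 : ℝ) < (1 / 2) ^ k := by positivity
  have hεpos : 0 < ε := lt_of_lt_of_le hkpos hε
  obtain ⟨W, hW, hx⟩ := increment (V := Fin m → ZMod 2) (fun u => E (y + lc u x))
    (fun u => E (y + lc u x)) (fun u => C (lc u x)) (fun u => hE _) (fun u => hE _)
    (fun u => hC _)
    (by
      intro u u'
      have h := hEC (y + lc u x) (y + lc u' x)
      have h2 : y + lc u x + (y + lc u' x) = lc (u + u') x := by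
        rw [lc_add]
        calc y + lc u x + (y + lc u' x) = (y + y) + (lc u x + lc u' x) := by abel
          _ = lc u x + lc u' x := by rw [hself, zero_add]
      rw [h2] at h
      exact h)
    (d := k + 2) (by omega)
    (by
      refine le_trans ?_ h1
      rw [pow_add]
      norm_num
      linarith)
    (by
      refine le_trans ?_ h1
      rw [pow_add]
      norm_num
      linarith)
    h2
  have hx' : ∃ x0, 135 / 128 * (𝔼 u : Fin m → ZMod 2, E (y + lc u x))
      ≤ avg (sf W) (fun u => E (y + lc u x)) x0 := by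
    rcases hx with h | h <;> exact h
  obtain ⟨x0, hx0⟩ := hx'
  have hη : (0 : ℝ) ≤ (1 / 2) ^ (iiR k + k + 8) := by positivity
  obtain ⟨r', hr', φ, hind, hφ, e, he⟩ := extract (fun u => E (y + lc u x)) (r := iiR k) W hW x0
    hη hx0
  have hch : ∀ i, ∃ ξ ∈ S, ∀ u, φ i u = ξ (lc u x) := by
    intro i
    by_contra hcon
    refine hspec ⟨φ i, hφ i, fun ξ hξ => ?_⟩
    by_contra hcon2
    refine hcon ⟨ξ, hξ, fun u => ?_⟩
    by_contra hne
    exact hcon2 ⟨u, hne⟩
  choose ξ hξS hξ using hch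
  refine ⟨r', hr', ξ, ?_, hξS, fun i => e i + ξ i y, ?_⟩
  · refine LinearIndependent.of_comp (Fintype.linearCombination (ZMod 2) x).dualMap ?_
    have hcomp : ((Fintype.linearCombination (ZMod 2) x).dualMap ∘ ξ) = φ := by
      funext i
      refine LinearMap.ext fun u => ?_
      rw [Function.comp_apply, LinearMap.dualMap_apply, Fintype.linearCombination_apply]
      exact (hξ i u).symm
    rw [hcomp]
    exact hind
  · have hiv : ∀ u : Fin m → ZMod 2, iv (∀ i, ξ i (y + lc u x) = e i + ξ i y)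
        = iv (∀ i, φ i u = e i) := by
      intro u
      refine iv_congr (forall_congr' fun i => ?_)
      rw [map_add, hξ i u, add_comm (e i) (ξ i y)]
      exact add_right_inj _
    have hsum : 𝔼 u : Fin m → ZMod 2, E (y + lc u x) * iv (∀ i, ξ i (y + lc u x) = e i + ξ i y)
        = 𝔼 u : Fin m → ZMod 2, E (y + lc u x) * iv (∀ i, φ i u = e i) :=
      Finset.expect_congr rfl fun u _ => by rw [hiv u]
    rw [hsum]
    refine le_trans ?_ he
    have hp : (0 : ℝ) ≤ (1 / 2) ^ r' := by positivity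
    refine mul_le_mul_of_nonneg_right ?_ hp
    have h5 : (2 : ℝ) ^ iiR k * (1 / 2) ^ (iiR k + k + 8) = (1 / 2) ^ k * (1 / 256) := by
      rw [pow_add, pow_add, ← mul_assoc, ← mul_assoc, ← mul_pow]
      norm_num
    rw [h5]
    linarith

end Pool.Agent.H22.QK
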