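import Pool.Agent.H22.QK.Nums

/-!
# Poly: the bound is polynomial (about 90 lines)

PROOF. Call `f : ℕ → ℕ` polynomially bounded if `∃ C, ∀ d, f d ≤ (d + 2)^C`. Constants, the
identity, sums, products, powers with constant exponents of polynomially bounded functions are
polynomially bounded (`a ≤ (d+2)^C`, `b ≤ (d+2)^C'` give `a + b ≤ (d+2)^(C + C' + 1)`,
`a b ≤ (d+2)^(C+C')`; a constant `c ≤ 2^c ≤ (d+2)^c`). `mnD` is built from the identity and
constants by these operations (unfold `mnD`, `mnS`, `mnR`, `mnN`, `mnM`, `stK`, ..., `kmDim`,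
`corK`, `covK`, `selK`, `iiReg`, `iiM`, `iiS`, `iiT`, `iiR`, `stepDim`, `fibT`): show step by step
that each of them is polynomially bounded when its arguments are (lemmas such as: if `f` is
polynomially bounded then so is `fun d => iiR (f d)`).
-/

set_option autoImplicit false

namespace Pool.Agent.H22.QK

/-- Polynomially bounded. -/
def PB (f : ℕ → ℕ) : Prop := ∃ C : ℕ, ∀ d, f d ≤ (d + 2) ^ C

theorem PB.const (c : ℕ) : PB (fun _ => c) :=
  ⟨c, fun d => (Nat.lt_two_pow_self (n := c)).le.trans (Nat.pow_le_pow_left (by omega) c)⟩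

theorem PB.id : PB (fun d => d) := ⟨1, fun d => by simp⟩

theorem PB.add {f g : ℕ → ℕ} (hf : PB f) (hg : PB g) : PB (fun d => f d + g d) := by
  obtain ⟨C, hC⟩ := hf
  obtain ⟨C', hC'⟩ := hg
  refine ⟨C + C' + 1, fun d => ?_⟩
  have h1 : (d + 2) ^ C ≤ (d + 2) ^ (C + C') := Nat.pow_le_pow_right (by omega) (by omega)
  have h2 : (d + 2) ^ C' ≤ (d + 2) ^ (C + C') := Nat.pow_le_pow_right (by omega) (by omega)
  have h3 : (d + 2) ^ (C + C' + 1) = (d + 2) ^ (C + C') * (d + 2) := pow_succ _ _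
  have h4 : (d + 2) ^ (C + C') * 2 ≤ (d + 2) ^ (C + C') * (d + 2) :=
    Nat.mul_le_mul_left _ (by omega)
  have h5 := hC d
  have h6 := hC' d
  show f d + g d ≤ _
  omega

theorem PB.mul {f g : ℕ → ℕ} (hf : PB f) (hg : PB g) : PB (fun d => f d * g d) := by
  obtain ⟨C, hC⟩ := hf
  obtain ⟨C', hC'⟩ := hg
  refine ⟨C + C', fun d => ?_⟩
  rw [pow_add]
  exact Nat.mul_le_mul (hC d) (hC' d)

theorem PB.pow {f : ℕ → ℕ} (hf : PB f) (n : ℕ) : PB (fun d => f d ^ n) := by
  obtain ⟨C, hC⟩ := hf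
  refine ⟨C * n, fun d => ?_⟩
  rw [pow_mul]
  exact Nat.pow_le_pow_left (hC d) n

section

variable {f g h : ℕ → ℕ}

theorem PB.kmDim (hf : PB f) (hg : PB g) (hh : PB h) :
    PB (fun d => kmDim (f d) (g d) (h d)) := by
  unfold QK.kmDim
  exact (PB.const 8).mul ((((PB.const 196608).mul (hf.pow 2)).mul
    (((hg.add (PB.const 2)).mul hh).pow 4)).add (PB.const 1))

theorem PB.stepDim (hf : PB f) : PB (fun d => Pool.Agent.H77.KM.stepDim (f d)) := by
  unfold Pool.Agent.H77.KM.stepDim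
  exact (PB.const 12582920).mul (((hf.mul ((PB.const 26).mul
    (((PB.const 2).mul hf).add (PB.const 11)))).add (PB.const 1)).pow 4)

theorem PB.iiR (hf : PB f) : PB (fun d => iiR (f d)) := by
  unfold QK.iiR
  exact (hf.add (PB.const 2)).stepDim

theorem PB.iiS (hf : PB f) (hg : PB g) : PB (fun d => iiS (f d) (g d)) := by
  unfold QK.iiS
  exact ((((PB.const 4).mul hf.iiR).add ((PB.const 6).mul hf)).add ((PB.const 3).mul hg)).add
    (PB.const 47)

theorem PB.iiM (hf : PB f) (hg : PB g) : PB (fun d => iiM (f d) (g d)) := by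
  unfold QK.iiM
  exact ((((hf.iiS hg).add (PB.const 4)).mul (hf.iiR.add (PB.const 4))).add
    ((PB.const 10).mul hf)).add (PB.const 60)

theorem PB.iiReg (hf : PB f) (hg : PB g) : PB (fun d => iiReg (f d) (g d)) := by
  unfold QK.iiReg
  exact ((hg.mul (((hf.iiM hg).add (PB.const 1)).pow 2)).add
    ((PB.const 3).mul (hf.iiM hg))).add (PB.const 2)

theorem PB.iiT (hf : PB f) (hg : PB g) : PB (fun d => iiT (f d) (g d)) := by
  unfold QK.iiT
  exact ((((PB.const 2).mul ((hf.iiR.add hf).add (PB.const 8))).add hf).add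
    (PB.const 7)).add hg

theorem PB.selK (hf : PB f) : PB (fun d => selK (f d)) := by
  unfold QK.selK
  exact ((((PB.const 6).mul hf).add (PB.const 3)).add
    ((PB.const 160).mul (hf.add (PB.const 1)))).add
    ((PB.const 12582920).mul (((PB.const 256).mul (hf.add (PB.const 1))).pow 4))

theorem PB.covK (hf : PB f) : PB (fun d => covK (f d)) := by
  unfold QK.covK
  exact ((PB.const 2).mul hf).add (((PB.const 3).mul hf).add (PB.const 1)).selK

theorem PB.corK (hf : PB f) (hg : PB g) : PB (fun d => corK (f d) (g d)) := by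
  unfold QK.corK
  exact (PB.const 800).kmDim (hf.add hg) ((PB.const (24 * 200 * 203)).mul
    (((PB.const 2).mul (hf.add (PB.const 8))).add (PB.const 1)))

theorem PB.arg (hf : PB f) : PB (fun d => 3 * f d + 3) :=
  ((PB.const 3).mul hf).add (PB.const 3)

theorem PB.fibT (hf : PB f) (hg : PB g) : PB (fun d => fibT (f d) (g d)) := by
  unfold QK.fibT
  exact (hf.arg.iiT hg).add ((PB.const 2).mul hg)

theorem PB.stK1 (hf : PB f) (hg : PB g) : PB (fun d => stK1 (f d) (g d)) := by
  unfold QK.stK1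
  exact ((hf.fibT hg).add hf).add (PB.const 3)

theorem PB.stM (hf : PB f) (hg : PB g) : PB (fun d => stM (f d) (g d)) := by
  unfold QK.stM
  exact ((hf.stK1 hg).add (PB.const 1)).add
    (hf.arg.iiR.mul ((hf.stK1 hg).covK.add (PB.const 2)))

theorem PB.stC1 (hf : PB f) (hg : PB g) : PB (fun d => stC1 (f d) (g d)) := by
  unfold QK.stC1
  exact hf.arg.iiR.mul (((PB.const 4).mul ((hf.stM hg).add
    ((PB.const 2).mul (hf.stK1 hg)))).add (PB.const 1))

theorem PB.stQ (hf : PB f) (hg : PB g) : PB (fun d => stQ (f d) (g d)) := by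
  unfold QK.stQ
  exact hg.add hf.arg.iiR

theorem PB.stP (hf : PB f) (hg : PB g) : PB (fun d => stP (f d) (g d)) := by
  unfold QK.stP
  exact ((((((hf.stQ hg).add (hf.stM hg)).add ((PB.const 2).mul hf)).add
    ((PB.const 2).mul hg)).add hf.arg.iiR).add (PB.const 10))

theorem PB.stMm (hf : PB f) (hg : PB g) : PB (fun d => stMm (f d) (g d)) := by
  unfold QK.stMm
  exact (PB.const (2001 * 1007)).add ((PB.const 1002).mul (hf.stP hg))

theorem PB.stKm (hf : PB f) (hg : PB g) : PB (fun d => stKm (f d) (g d)) := by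
  unfold QK.stKm
  exact (PB.const 1000).kmDim (hf.add (hf.stQ hg)) (hf.stMm hg)

theorem PB.stSi (hf : PB f) (hg : PB g) : PB (fun d => stSi (f d) (g d)) := by
  unfold QK.stSi
  exact ((((hf.stKm hg).add ((PB.const 2).mul (hf.stQ hg))).add (PB.const 1000)).add
    (hf.stP hg)).add (PB.const 6)

theorem PB.stK (hf : PB f) (hg : PB g) : PB (fun d => stK (f d) (g d)) := by
  unfold QK.stK
  exact (((((((hf.stC1 hg).add (((hf.stQ hg).mul (((PB.const 2).mul (hf.stSi hg)).add
    (PB.const 1))).add (hf.stKm hg))).add (hf.corK hg)).add (hf.arg.iiReg hg)).add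
    ((PB.const 2).mul hg)).add hf.arg.iiR).add hf).add (PB.const 20)

theorem PB.mnM : PB mnM := by
  unfold QK.mnM
  exact (PB.const (6 * 10 ^ 18)).mul (PB.id.pow 10)

theorem PB.mnN : PB mnN := by
  unfold QK.mnN
  exact ((PB.const 2).mul PB.mnM).add (PB.const 4)

theorem PB.mnR : PB mnR := by
  unfold QK.mnR
  exact ((PB.const (2 * 1000000)).mul (PB.mnN.add (PB.const 2))).mul PB.mnN.arg.iiR

theorem PB.mnS : PB mnS := by
  unfold QK.mnS
  exact ((((PB.mnN.stK PB.mnR).add (PB.mnR.mul ((PB.mnM.add (PB.const 1)).pow 2))).add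
    ((PB.const 3).mul PB.mnM)).add PB.mnR).add (PB.const 40)

end

theorem mnD_poly : PB mnD := by
  unfold mnD
  exact ((((((PB.const (2 * 1000000)).mul (PB.mnN.add (PB.const 2))).mul
    ((PB.mnN.stK PB.mnR).add (PB.mnR.mul (((PB.const 2).mul PB.mnS).add (PB.const 1))))).add
    ((PB.const 2).mul PB.mnR)).add PB.mnM).add (PB.const 4)).add PB.id

end Pool.Agent.H22.QK
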