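import Pool.Agent.H22.QK.Defs

/-!
# Bogo: Bogolyubov (about 60 lines)

PROOF of `bogo`. `coset_structure A hA g` with `g x = 1` if `x ∈ A + A` and `0` otherwise
(`avg A g x = 1` for `x ∈ A`): there are `W` of codimension at most `12582920 L^4` and `x0` with
`15/16 ≤ avg (sf W) g x0`. For `w ∈ W` the sets `{v ∈ W : x0 + v ∈ A + A}` and
`{v ∈ W : x0 + v + w ∈ A + A}` both have density at least `15/16 > 1/2` in `W`, so they meet:
`w = (x0 + v) + (x0 + v + w)` is a sum of four elements of `A`.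
-/

set_option autoImplicit false

open Finset Function Module
open scoped BigOperators Pointwise
open Pool.Agent.H77.KM

namespace Pool.Agent.H22.QK

theorem bogo {V : Type} [AddCommGroup V] [Module (ZMod 2) V] [Fintype V]
    (A : Finset V) {L : ℕ} (hL : 6 ≤ L)
    (hA : (1 / 2 : ℝ) ^ L ≤ (A.card : ℝ) / Fintype.card V) :
    ∃ W : Submodule (ZMod 2) V, finrank (ZMod 2) V ≤ finrank (ZMod 2) W + 12582920 * L ^ 4 ∧
      ∀ w ∈ W, ∃ a ∈ A, ∃ b ∈ A, ∃ c ∈ A, ∃ d ∈ A, w = a + b + c + d := by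
  classical
  have hne : A.Nonempty := by
    rw [nonempty_iff_ne_empty]
    rintro rfl
    have h0 : (0 : ℝ) < (1 / 2 : ℝ) ^ L := by positivity
    rw [card_empty, Nat.cast_zero, zero_div] at hA
    linarith
  set g : V → ℝ := fun x => iv (∃ a ∈ A, ∃ b ∈ A, x = a + b) with hg
  have hbig : 63 / 64 ≤ 𝔼 x ∈ A, avg A g x := by
    have h1 : ∀ x ∈ A, avg A g x = 1 := by
      intro x hx
      have h2 : ∀ a ∈ A, g (x + a) = 1 := fun a ha => iv_pos ⟨x, hx, a, ha, rfl⟩
      unfold avg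
      rw [Finset.expect_congr rfl h2, Finset.expect_const hne]
    rw [Finset.expect_congr rfl h1, Finset.expect_const hne]
    norm_num
  obtain ⟨W, hW, x0, hx0⟩ := coset_structure A hne g (fun x => iv_nonneg _) (fun x => iv_le_one _)
    hL hA hbig
  refine ⟨W, hW, fun w hw => ?_⟩
  have h1 : 𝔼 v ∈ sf W, g (x0 + (v + w)) = 𝔼 v ∈ sf W, g (x0 + v) :=
    expect_sf_add W (fun v => g (x0 + v)) hw
  unfold avg at hx0
  have h2 : ∃ v ∈ sf W, 1 < g (x0 + v) + g (x0 + (v + w)) := by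
    by_contra hcon
    push Not at hcon
    have h3 := Finset.expect_le (sf_nonempty W) hcon
    rw [Finset.expect_add_distrib, h1] at h3
    linarith
  obtain ⟨v, -, hv⟩ := h2
  have hP : ∃ a ∈ A, ∃ b ∈ A, x0 + v = a + b := by
    by_contra hc
    have e1 : g (x0 + v) = 0 := iv_neg hc
    have e2 : g (x0 + (v + w)) ≤ 1 := iv_le_one _
    linarith
  have hQ : ∃ a ∈ A, ∃ b ∈ A, x0 + (v + w) = a + b := by
    by_contra hc
    have e1 : g (x0 + (v + w)) = 0 := iv_neg hc
    have e2 : g (x0 + v) ≤ 1 := iv_le_one _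
    linarith
  obtain ⟨a, ha, b, hb, hab⟩ := hP
  obtain ⟨c, hc, d, hd, hcd⟩ := hQ
  refine ⟨a, ha, b, hb, c, hc, d, hd, ?_⟩
  have h2V : ∀ x : V, x + x = 0 := fun x => by
    have : (2 : ZMod 2) • x = 0 := by
      rw [show (2 : ZMod 2) = 0 from rfl, zero_smul]
    rwa [two_smul] at this
  calc w = (x0 + v + (x0 + v)) + w := by rw [h2V, zero_add]
    _ = (x0 + v) + (x0 + (v + w)) := by abel
    _ = a + b + c + d := by rw [hab, hcd]; abel

end Pool.Agent.H22.QK
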