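import Mathlib

/-!
# Bsg: the Balog-Szemeredi-Gowers theorem in characteristic two (about 190 lines)

PROOF. Write `n = |A|`, `A_t = {a ∈ A : a + t ∈ A}` and `ρ t = |A_t|` = number of pairs of `A` with
sum `t`. Then `∑_t ρ t = n^2` and `∑_t (ρ t)^2` = number of `(a,b,c) ∈ A^3` with `a+b+c ∈ A`
(`≥ κ n^3`). (All sums are over `t ∈ A + A`.) In particular `κ ≤ 1`. Let `θ = κ/32` and call
`(a,b) ∈ A^2` bad if `ρ (a+b) < θ n`. For a pair `(a,b)` the number of `t` with `a, b ∈ A_t` is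
`ρ (a+b)` (`t ↦ (a+t, b+t)`), so `∑_t #{bad pairs in A_t^2} = ∑_{bad (a,b)} ρ (a+b) ≤ θ n^3`.
Also `∑_{t : ρ t < κ n/4} (ρ t)^2 ≤ (κ n/4) ∑ ρ t = κ n^3/4`. Therefore
`∑_{t : ρ t ≥ κ n /4} ((ρ t)^2 - (κ/(2θ)) #bad_t) ≥ κ n^3 - κ n^3/4 - κ n^3/2 > 0` and there is `t`
with `ρ t ≥ κ n/4` and `#bad_t ≤ (2θ/κ) (ρ t)^2 = (ρ t)^2/16`.
Let `A' = {a ∈ A_t : at most ρ t/4 of the b ∈ A_t are bad partners of a}`. By Markov
`|A_t ∖ A'| ≤ ρ t/4`, so `|A'| ≥ (3/4) ρ t ≥ (3/16) κ n ≥ (κ/8) n`. For `a, a' ∈ A'` there are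
at least `ρ t/2` elements `b ∈ A_t` such that `(a,b)` and `(a',b)` are not bad; then
`a + a' = (a+b) + (a'+b)` and each of `a+b`, `a'+b` is in at least `θ n` ways a sum of two
elements of `A`. Different `b` give different quadruples `(x1,x2,x3,x4)` (`x1+x2 = a+b`). So
every element of `A'+A'` has at least `(ρ t/2) θ^2 n^2` representations as a sum of four elements
of `A`, hence `|A'+A'| (ρ t/2) θ^2 n^2 ≤ n^4` and
`|A'+A'| ≤ 2 n^2/(θ^2 ρ t) ≤ 8 n/(θ^2 κ) = 8192 n/κ^3 ≤ (2^16/κ^4) |A'|` (`n ≤ 8 |A'|/κ`).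
-/

set_option autoImplicit false

open Finset
open scoped Pointwise

namespace Pool.Agent.H22.QK

private lemma aa {G : Type} [AddCommGroup G] [Module (ZMod 2) G] (a t : G) :
    a + (a + t) = t := by
  rw [← add_assoc, ZModModule.add_self, zero_add]

section Aux

variable {G : Type} [AddCommGroup G] [Module (ZMod 2) G] [DecidableEq G]

private def At (A : Finset G) (t : G) : Finset G := A.filter (fun a => a + t ∈ A)

omit [Module (ZMod 2) G] in
private lemma mem_At {A : Finset G} {t a : G} : a ∈ At A t ↔ a ∈ A ∧ a + t ∈ A := by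
  unfold At
  rw [mem_filter]

private lemma sum1 (A : Finset G) : ∑ t ∈ A + A, (At A t).card = A.card ^ 2 := by
  rw [← card_sigma, sq, ← card_product]
  refine card_nbij' (fun x => (x.2, x.2 + x.1)) (fun p => ⟨p.1 + p.2, p.1⟩) ?_ ?_ ?_ ?_
  · rintro ⟨t, a⟩ h
    rw [mem_coe, mem_sigma] at h
    have h2 := mem_At.mp h.2
    rw [mem_coe, mem_product]
    exact h2
  · rintro ⟨a, b⟩ h
    rw [mem_coe, mem_product] at h
    rw [mem_coe, mem_sigma]
    refine ⟨add_mem_add h.1 h.2, mem_At.mpr ⟨h.1, ?_⟩⟩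
    change a + (a + b) ∈ A
    rw [aa]
    exact h.2
  · rintro ⟨t, a⟩ _
    change (⟨a + (a + t), a⟩ : Σ _ : G, G) = ⟨t, a⟩
    rw [aa]
  · rintro ⟨a, b⟩ _
    change (a, a + (a + b)) = (a, b)
    rw [aa]

private lemma sum2 (A : Finset G) :
    ∑ t ∈ A + A, (At A t).card ^ 2 =
      ((A ×ˢ A ×ˢ A).filter (fun p => p.1 + p.2.1 + p.2.2 ∈ A)).card := by
  have h0 : ∀ t ∈ A + A, (At A t).card ^ 2 = (At A t ×ˢ At A t).card := by
    intro t _
    rw [card_product, sq]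
  rw [sum_congr rfl h0, ← card_sigma]
  refine card_nbij' (fun x => (x.2.1, x.2.1 + x.1, x.2.2))
    (fun p => ⟨p.1 + p.2.1, (p.1, p.2.2)⟩) ?_ ?_ ?_ ?_
  · rintro ⟨t, a, c⟩ h
    rw [mem_coe, mem_sigma, mem_product] at h
    have h2 := mem_At.mp h.2.1
    have h3 := mem_At.mp h.2.2
    rw [mem_coe, mem_filter, mem_product, mem_product]
    refine ⟨⟨h2.1, h2.2, h3.1⟩, ?_⟩
    change a + (a + t) + c ∈ A
    rw [aa, add_comm]
    exact h3.2
  · rintro ⟨a, b, c⟩ h
    rw [mem_coe, mem_filter, mem_product, mem_product] at h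
    obtain ⟨⟨h1, h2, h3⟩, h4⟩ := h
    rw [mem_coe, mem_sigma, mem_product]
    refine ⟨add_mem_add h1 h2, mem_At.mpr ⟨h1, ?_⟩, mem_At.mpr ⟨h3, ?_⟩⟩
    · change a + (a + b) ∈ A
      rw [aa]
      exact h2
    · change c + (a + b) ∈ A
      rw [add_comm]
      exact h4
  · rintro ⟨t, a, c⟩ _
    change (⟨a + (a + t), (a, c)⟩ : Σ _ : G, G × G) = ⟨t, (a, c)⟩
    rw [aa]
  · rintro ⟨a, b, c⟩ _
    change (a, a + (a + b), c) = (a, b, c)
    rw [aa]

private lemma sum3 (A : Finset G) (bad : G × G → Prop) [DecidablePred bad] :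
    ∑ t ∈ A + A, ((At A t ×ˢ At A t).filter bad).card ≤
      ∑ p ∈ (A ×ˢ A).filter bad, (At A (p.1 + p.2)).card := by
  rw [← card_sigma, ← card_sigma]
  refine card_le_card_of_injOn (fun x => (⟨x.2, x.2.1 + x.1⟩ : Σ _ : G × G, G)) ?_ ?_
  · rintro ⟨t, a, b⟩ h
    rw [mem_coe, mem_sigma, mem_filter, mem_product] at h
    obtain ⟨_, ⟨h2, h3⟩, h4⟩ := h
    have h2' := mem_At.mp h2
    have h3' := mem_At.mp h3
    rw [mem_coe, mem_sigma, mem_filter, mem_product]
    refine ⟨⟨⟨h2'.1, h3'.1⟩, h4⟩, mem_At.mpr ⟨h2'.2, ?_⟩⟩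
    change a + t + (a + b) ∈ A
    have : a + t + (a + b) = b + t := by
      rw [add_comm a t, add_assoc, aa, add_comm]
    rw [this]
    exact h3'.2
  · rintro ⟨t, a, b⟩ _ ⟨t', a', b'⟩ _ h
    have h1 : ((a, b) : G × G) = (a', b') ∧ a + t = a' + t' := by
      have := Sigma.mk.inj_iff.mp h
      exact ⟨this.1, eq_of_heq this.2⟩
    obtain ⟨h2, h3⟩ := h1
    obtain ⟨rfl, rfl⟩ := Prod.mk_inj.mp h2
    rw [add_left_cancel h3]

private lemma exists_t (A : Finset G) (hA : A.Nonempty) {κ : ℝ} (hκ : 0 < κ)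
    (bad : G × G → Prop) [DecidablePred bad]
    (hbad : ∀ p, bad p → ((At A (p.1 + p.2)).card : ℝ) ≤ κ / 32 * A.card)
    (hE : κ * (A.card : ℝ) ^ 3
      ≤ (((A ×ˢ A ×ˢ A).filter (fun p => p.1 + p.2.1 + p.2.2 ∈ A)).card : ℝ)) :
    ∃ t, κ * A.card / 4 ≤ ((At A t).card : ℝ) ∧
      16 * ((((At A t ×ˢ At A t).filter bad).card : ℕ) : ℝ) ≤ ((At A t).card : ℝ) ^ 2 := by
  by_contra hcon
  push Not at hcon
  have hn : (0 : ℝ) < A.card := by exact_mod_cast hA.card_pos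
  have s1 : ∑ t ∈ A + A, ((At A t).card : ℝ) = (A.card : ℝ) ^ 2 := by exact_mod_cast sum1 A
  have s2 : κ * (A.card : ℝ) ^ 3 ≤ ∑ t ∈ A + A, ((At A t).card : ℝ) ^ 2 := by
    have h := sum2 A
    have h' : ∑ t ∈ A + A, ((At A t).card : ℝ) ^ 2 =
      (((A ×ˢ A ×ˢ A).filter (fun p => p.1 + p.2.1 + p.2.2 ∈ A)).card : ℝ) := by
      exact_mod_cast h
    rw [h']
    exact hE
  have s3 : ∑ t ∈ A + A, ((((At A t ×ˢ At A t).filter bad).card : ℕ) : ℝ) ≤
      κ / 32 * (A.card : ℝ) ^ 3 := by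
    have h := sum3 A bad
    have h' : ∑ t ∈ A + A, ((((At A t ×ˢ At A t).filter bad).card : ℕ) : ℝ) ≤
        ∑ p ∈ (A ×ˢ A).filter bad, ((At A (p.1 + p.2)).card : ℝ) := by exact_mod_cast h
    refine h'.trans ?_
    calc ∑ p ∈ (A ×ˢ A).filter bad, ((At A (p.1 + p.2)).card : ℝ)
        ≤ ∑ _p ∈ (A ×ˢ A).filter bad, κ / 32 * (A.card : ℝ) :=
          sum_le_sum fun p hp => hbad p (mem_filter.mp hp).2
      _ = (((A ×ˢ A).filter bad).card : ℝ) * (κ / 32 * (A.card : ℝ)) := by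
          rw [sum_const, nsmul_eq_mul]
      _ ≤ ((A.card : ℝ) ^ 2) * (κ / 32 * (A.card : ℝ)) := by
          refine mul_le_mul_of_nonneg_right ?_ (by positivity)
          have h4 : ((A ×ˢ A).filter bad).card ≤ A.card ^ 2 := by
            refine (card_filter_le _ _).trans ?_
            rw [card_product, sq]
          exact_mod_cast h4
      _ = κ / 32 * (A.card : ℝ) ^ 3 := by ring
  have s4 : ∑ t ∈ A + A, ((At A t).card : ℝ) ^ 2 ≤
      ∑ t ∈ A + A, (κ * A.card / 4 * ((At A t).card : ℝ) +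
        16 * ((((At A t ×ˢ At A t).filter bad).card : ℕ) : ℝ)) := by
    refine sum_le_sum fun t _ => ?_
    by_cases ht : κ * A.card / 4 ≤ ((At A t).card : ℝ)
    · have h5 := hcon t ht
      have h6 : (0 : ℝ) ≤ κ * A.card / 4 * ((At A t).card : ℝ) := by positivity
      linarith
    · push Not at ht
      have h6 : (0 : ℝ) ≤ 16 * ((((At A t ×ˢ At A t).filter bad).card : ℕ) : ℝ) := by positivity
      have h7 : ((At A t).card : ℝ) ^ 2 ≤ κ * A.card / 4 * ((At A t).card : ℝ) := by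
        rw [sq]
        exact mul_le_mul_of_nonneg_right ht.le (by positivity)
      linarith
  rw [sum_add_distrib, ← mul_sum, ← mul_sum, s1] at s4
  have hpos : (0 : ℝ) < κ * (A.card : ℝ) ^ 3 := by positivity
  have h8 : κ * A.card / 4 * (A.card : ℝ) ^ 2 = κ * (A.card : ℝ) ^ 3 / 4 := by ring
  rw [h8] at s4
  nlinarith

/-- the number of representations -/
private lemma reps (A B : Finset G) (a a' : G) :
    ∑ b ∈ B, (At A (a + b)).card * (At A (a' + b)).card ≤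
      ((A ×ˢ A ×ˢ A ×ˢ A).filter
        (fun p => p.1 + p.2.1 + (p.2.2.1 + p.2.2.2) = a + a')).card := by
  have h0 : ∀ b ∈ B, (At A (a + b)).card * (At A (a' + b)).card =
      (At A (a + b) ×ˢ At A (a' + b)).card := fun b _ => by rw [card_product]
  rw [sum_congr rfl h0, ← card_sigma]
  refine card_le_card_of_injOn
    (fun x => (x.2.1, x.2.1 + (a + x.1), x.2.2, x.2.2 + (a' + x.1))) ?_ ?_
  · rintro ⟨b, x, y⟩ h
    rw [mem_coe, mem_sigma, mem_product] at h
    have h2 := mem_At.mp h.2.1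
    have h3 := mem_At.mp h.2.2
    rw [mem_coe, mem_filter, mem_product, mem_product, mem_product]
    refine ⟨⟨h2.1, h2.2, h3.1, h3.2⟩, ?_⟩
    change x + (x + (a + b)) + (y + (y + (a' + b))) = a + a'
    rw [aa, aa, add_comm a' b, add_assoc, aa]
  · rintro ⟨b, x, y⟩ _ ⟨b', x', y'⟩ _ h
    have h1 : x = x' ∧ x + (a + b) = x' + (a + b') ∧ y = y' ∧
        y + (a' + b) = y' + (a' + b') := by
      have h2 := Prod.mk_inj.mp h
      have h3 := Prod.mk_inj.mp h2.2
      have h4 := Prod.mk_inj.mp h3.2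
      exact ⟨h2.1, h3.1, h4.1, h4.2⟩
    obtain ⟨rfl, h2, rfl, _⟩ := h1
    have h3 : b = b' := add_left_cancel (add_left_cancel h2)
    rw [h3]

omit [Module (ZMod 2) G] in
private lemma total (A S : Finset G) :
    ∑ s ∈ S, ((A ×ˢ A ×ˢ A ×ˢ A).filter
        (fun p => p.1 + p.2.1 + (p.2.2.1 + p.2.2.2) = s)).card ≤ A.card ^ 4 := by
  have h1 : (A ×ˢ A ×ˢ A ×ˢ A).card = A.card ^ 4 := by
    rw [card_product, card_product, card_product]
    ring
  rw [← h1, ← card_sigma]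
  refine card_le_card_of_injOn (fun x => x.2) ?_ ?_
  · rintro ⟨s, p⟩ h
    rw [mem_coe, mem_sigma, mem_filter] at h
    exact h.2.1
  · rintro ⟨s, p⟩ h ⟨s', p'⟩ h' he
    rw [mem_coe, mem_sigma, mem_filter] at h h'
    have he' : p = p' := he
    subst he'
    have : s = s' := h.2.2.symm.trans h'.2.2
    rw [this]

end Aux

theorem bsg {G : Type} [AddCommGroup G] [Module (ZMod 2) G] [DecidableEq G]
    (A : Finset G) (hA : A.Nonempty) {κ : ℝ} (hκ : 0 < κ)
    (hE : κ * (A.card : ℝ) ^ 3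
      ≤ (((A ×ˢ A ×ˢ A).filter (fun p => p.1 + p.2.1 + p.2.2 ∈ A)).card : ℝ)) :
    ∃ A' ⊆ A, A'.Nonempty ∧ κ / 8 * (A.card : ℝ) ≤ A'.card ∧
      ((A' + A').card : ℝ) ≤ 2 ^ 16 / κ ^ 4 * A'.card := by
  classical
  set n : ℝ := (A.card : ℝ) with hn
  have hn0 : 0 < n := by
    rw [hn]
    exact_mod_cast hA.card_pos
  obtain ⟨t, ht1, ht2⟩ := exists_t A hA hκ
    (fun p => ((At A (p.1 + p.2)).card : ℝ) < κ / 32 * n) (fun p hp => le_of_lt hp) hE
  set ρ : ℝ := ((At A t).card : ℝ) with hρ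
  have hρ0 : 0 < ρ := lt_of_lt_of_le (by positivity) ht1
  -- number of bad partners
  set bp : G → Finset G := fun a =>
    (At A t).filter (fun b => ((At A (a + b)).card : ℝ) < κ / 32 * n) with hbp
  set A' : Finset G := (At A t).filter (fun a => ((bp a).card : ℝ) ≤ ρ / 4) with hA'
  have hsub : A' ⊆ A := fun a ha => (mem_At.mp (mem_filter.mp ha).1).1
  have hsum : ∑ a ∈ At A t, ((bp a).card : ℝ) =
      ((((At A t ×ˢ At A t).filter
        (fun p => ((At A (p.1 + p.2)).card : ℝ) < κ / 32 * n)).card : ℕ) : ℝ) := by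
    have h : ∑ a ∈ At A t, (bp a).card = ((At A t ×ˢ At A t).filter
        (fun p => ((At A (p.1 + p.2)).card : ℝ) < κ / 32 * n)).card := by
      rw [← card_sigma]
      refine card_nbij' (fun x => (x.1, x.2)) (fun p => ⟨p.1, p.2⟩) ?_ ?_ ?_ ?_
      · rintro ⟨a, b⟩ h
        rw [mem_coe, mem_sigma] at h
        rw [mem_coe, mem_filter, mem_product]
        exact ⟨⟨h.1, (mem_filter.mp h.2).1⟩, (mem_filter.mp h.2).2⟩
      · rintro ⟨a, b⟩ h
        rw [mem_coe, mem_filter, mem_product] at h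
        rw [mem_coe, mem_sigma]
        exact ⟨h.1.1, mem_filter.mpr ⟨h.1.2, h.2⟩⟩
      · rintro ⟨a, b⟩ _
        rfl
      · rintro ⟨a, b⟩ _
        rfl
    exact_mod_cast h
  have hB : (((At A t \ A').card : ℕ) : ℝ) ≤ ρ / 4 := by
    have h1 : (((At A t \ A').card : ℕ) : ℝ) * (ρ / 4) ≤ ∑ a ∈ At A t \ A', ((bp a).card : ℝ) := by
      rw [← nsmul_eq_mul, ← sum_const]
      refine sum_le_sum fun a ha => ?_
      rw [mem_sdiff] at ha
      by_contra hc
      push Not at hc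
      exact ha.2 (mem_filter.mpr ⟨ha.1, hc.le⟩)
    have h2 : ∑ a ∈ At A t \ A', ((bp a).card : ℝ) ≤ ∑ a ∈ At A t, ((bp a).card : ℝ) :=
      sum_le_sum_of_subset_of_nonneg sdiff_subset (fun _ _ _ => by positivity)
    rw [hsum] at h2
    have h3 : (((At A t \ A').card : ℕ) : ℝ) * (ρ / 4) ≤ (ρ / 4) * (ρ / 4) := by
      nlinarith
    exact le_of_mul_le_mul_right h3 (by positivity)
  have hAc : 3 / 4 * ρ ≤ (A'.card : ℝ) := by
    have h1 : (At A t \ A').card + A'.card = (At A t).card :=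
      card_sdiff_add_card_eq_card (filter_subset _ _)
    have h2 : (((At A t \ A').card : ℕ) : ℝ) + (A'.card : ℝ) = ρ := by
      rw [hρ]
      exact_mod_cast h1
    linarith
  have hA0 : (0 : ℝ) < A'.card := lt_of_lt_of_le (by positivity) hAc
  have hA8 : κ / 8 * n ≤ (A'.card : ℝ) := by
    have : 0 < κ * n := by positivity
    linarith
  refine ⟨A', hsub, card_pos.mp (by exact_mod_cast hA0), hA8, ?_⟩
  -- representations
  have hrep : ∀ s ∈ A' + A', ρ / 2 * (κ / 32 * n) ^ 2 ≤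
      ((((A ×ˢ A ×ˢ A ×ˢ A).filter
        (fun p => p.1 + p.2.1 + (p.2.2.1 + p.2.2.2) = s)).card : ℕ) : ℝ) := by
    intro s hs
    obtain ⟨a, ha, a', ha', rfl⟩ := mem_add.mp hs
    have hBc : ρ / 2 ≤ ((((At A t \ bp a) \ bp a').card : ℕ) : ℝ) := by
      have h1 := (mem_filter.mp ha).2
      have h2 := (mem_filter.mp ha').2
      have h3 : (At A t).card ≤ ((At A t \ bp a) \ bp a').card + (bp a).card + (bp a').card := by
        have h4 := card_le_card_sdiff_add_card (s := At A t \ bp a) (t := bp a')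
        have h5 := card_le_card_sdiff_add_card (s := At A t) (t := bp a)
        omega
      have h4 : ρ ≤ ((((At A t \ bp a) \ bp a').card : ℕ) : ℝ) + ((bp a).card : ℝ) +
          ((bp a').card : ℝ) := by
        rw [hρ]
        exact_mod_cast h3
      linarith
    have h1 := reps A ((At A t \ bp a) \ bp a') a a'
    have h2 : ∑ b ∈ (At A t \ bp a) \ bp a',
        ((At A (a + b)).card : ℝ) * ((At A (a' + b)).card : ℝ) ≤
        ((((A ×ˢ A ×ˢ A ×ˢ A).filter
        (fun p => p.1 + p.2.1 + (p.2.2.1 + p.2.2.2) = a + a')).card : ℕ) : ℝ) := by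
      exact_mod_cast h1
    refine le_trans ?_ h2
    calc ρ / 2 * (κ / 32 * n) ^ 2
        ≤ ((((At A t \ bp a) \ bp a').card : ℕ) : ℝ) * (κ / 32 * n) ^ 2 :=
          mul_le_mul_of_nonneg_right hBc (by positivity)
      _ = ∑ _b ∈ (At A t \ bp a) \ bp a', (κ / 32 * n) ^ 2 := by
          rw [sum_const, nsmul_eq_mul]
      _ ≤ _ := by
          refine sum_le_sum fun b hb => ?_
          rw [mem_sdiff, mem_sdiff] at hb
          obtain ⟨⟨hb1, hb2⟩, hb3⟩ := hb
          have e1 : κ / 32 * n ≤ ((At A (a + b)).card : ℝ) := by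
            by_contra hc
            push Not at hc
            exact hb2 (mem_filter.mpr ⟨hb1, hc⟩)
          have e2 : κ / 32 * n ≤ ((At A (a' + b)).card : ℝ) := by
            by_contra hc
            push Not at hc
            exact hb3 (mem_filter.mpr ⟨hb1, hc⟩)
          rw [sq]
          exact mul_le_mul e1 e2 (by positivity) (by positivity)
  have htot : ((A' + A').card : ℝ) * (ρ / 2 * (κ / 32 * n) ^ 2) ≤ n ^ 4 := by
    have h1 := total A (A' + A')
    have h2 : ∑ s ∈ A' + A', ((((A ×ˢ A ×ˢ A ×ˢ A).filter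
        (fun p => p.1 + p.2.1 + (p.2.2.1 + p.2.2.2) = s)).card : ℕ) : ℝ) ≤ n ^ 4 := by
      rw [hn]
      exact_mod_cast h1
    refine le_trans ?_ h2
    rw [← nsmul_eq_mul, ← sum_const]
    exact sum_le_sum hrep
  have hfin : ((A' + A').card : ℝ) * κ ^ 3 ≤ 8192 * n := by
    have h1 : ((A' + A').card : ℝ) * (κ * n / 4 / 2 * (κ / 32 * n) ^ 2) ≤ n ^ 4 := by
      refine le_trans ?_ htot
      refine mul_le_mul_of_nonneg_left ?_ (by positivity)
      refine mul_le_mul_of_nonneg_right ?_ (by positivity)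
      linarith
    have h2 : ((A' + A').card : ℝ) * (κ * n / 4 / 2 * (κ / 32 * n) ^ 2) =
        (((A' + A').card : ℝ) * κ ^ 3) * (n ^ 3 / 8192) := by ring
    have h3 : n ^ 4 = (8192 * n) * (n ^ 3 / 8192) := by ring
    rw [h2, h3] at h1
    exact le_of_mul_le_mul_right h1 (by positivity)
  rw [div_mul_eq_mul_div, le_div_iff₀ (by positivity)]
  calc ((A' + A').card : ℝ) * κ ^ 4 = (((A' + A').card : ℝ) * κ ^ 3) * κ := by ring
    _ ≤ (8192 * n) * κ := mul_le_mul_of_nonneg_right hfin hκ.le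
    _ = 65536 * (κ / 8 * n) := by ring
    _ ≤ 65536 * (A'.card : ℝ) := by linarith
    _ = 2 ^ 16 * (A'.card : ℝ) := by norm_num

end Pool.Agent.H22.QK
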