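import Pool.Agent.H22.QK.CosetB

/-!
# CosetA: averaging over the cosets (about 100 lines)

PROOF of `coset_avg`: average `coset_bound` over `x0, y1 : V` and use `expect_coset` (with the
inclusion `V1 → V`): for fixed `x0, v` the average over `y1` of the average over `w` is the average
over `y = y1 + w` (apply it to both terms), then the average over `x0` and `v` is the average over
`x = x0 + v`.
-/

set_option autoImplicit false

open Finset Function Module
open scoped BigOperators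
open Pool.Agent.H77.KM

namespace Pool.Agent.H22.QK

section

variable {V : Type} [AddCommGroup V] [Module (ZMod 2) V] [Fintype V]
variable {Y : Type} [AddCommGroup Y] [Module (ZMod 2) Y] [Fintype Y]
variable {g : V → Y} {b : V →ₗ[ZMod 2] V →ₗ[ZMod 2] Y}

theorem coset_avg (hg : IsQM g b) (B : V → ℝ) (hB : ∀ x, B x = 0 ∨ B x = 1)
    (hBg : ∀ x, B x ≠ 0 → g x = 0) {r r' : ℕ} (hr : r' ≤ r)
    (T : Fin r' → V →ₗ[ZMod 2] Dual (ZMod 2) V) (c : Fin r' → Dual (ZMod 2) V)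
    (e : Fin r' → ZMod 2) (V1 : Submodule (ZMod 2) V) {k1 : ℕ}
    (hk1 : finrank (ZMod 2) V ≤ finrank (ZMod 2) V1 + k1)
    (hV1 : ∀ i, ∀ v ∈ V1, T i v v = 0)
    {N l m p q σ κ : ℕ} (hN : 1 ≤ N)
    (hm : (2 * N + 1) * (N + 7) ≤ m) (hmp : (N + 2) * p ≤ m) {t : ℝ}
    (ht : (1 / 2 : ℝ) ^ l ≤ t) (hq : finrank (ZMod 2) Y + r' ≤ q)
    (hσ : kmDim N (l + q) m + 2 * q + N + p + 6 ≤ σ)
    (hκ : k1 + (q * (2 * σ + 1) + kmDim N (l + q) m) ≤ κ)
    (hspr : SprV B g κ r t) (X : Set V) :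
    𝔼 x, iv (x ∈ X) *
      ((𝔼 y, B y * B (y + x) * iv (∀ i, (T i x + c i) y = e i))
        - (1 + 3 / (N : ℝ)) * t ^ 2 * 𝔼 y, iv (g y = 0)
          * iv (g (y + x) = 0) * iv (∀ i, (T i x + c i) y = e i))
      ≤ 2 * 2 ^ q * (1 / 2) ^ p := by
  classical
  set K : ℝ := (1 + 3 / (N : ℝ)) * t ^ 2 with hK
  let F : V → V → ℝ := fun x y =>
    iv (x ∈ X) * (B y * B (y + x) * iv (∀ i, (T i x + c i) y = e i)
      - K * (iv (g y = 0) * iv (g (y + x) = 0) * iv (∀ i, (T i x + c i) y = e i)))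
  have h1 : ∀ x, iv (x ∈ X) *
      ((𝔼 y, B y * B (y + x) * iv (∀ i, (T i x + c i) y = e i))
        - K * 𝔼 y, iv (g y = 0)
          * iv (g (y + x) = 0) * iv (∀ i, (T i x + c i) y = e i)) = 𝔼 y, F x y := by
    intro x
    show _ = 𝔼 y, iv (x ∈ X) * (B y * B (y + x) * iv (∀ i, (T i x + c i) y = e i)
      - K * (iv (g y = 0) * iv (g (y + x) = 0) * iv (∀ i, (T i x + c i) y = e i)))
    rw [← Finset.mul_expect, Finset.expect_sub_distrib, ← Finset.mul_expect]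
  have h2 : 𝔼 x, iv (x ∈ X) *
      ((𝔼 y, B y * B (y + x) * iv (∀ i, (T i x + c i) y = e i))
        - K * 𝔼 y, iv (g y = 0)
          * iv (g (y + x) = 0) * iv (∀ i, (T i x + c i) y = e i))
      = 𝔼 x0, 𝔼 y1, 𝔼 v : V1, 𝔼 w : V1, F (x0 + v) (y1 + w) := by
    rw [Finset.expect_congr rfl (fun x _ => h1 x)]
    rw [expect_coset (fun v : V1 => (v : V)) (fun x => 𝔼 y, F x y)]
    refine Finset.expect_congr rfl (fun x0 _ => ?_)
    have h3 : ∀ v : V1, 𝔼 y, F (x0 + v) y = 𝔼 y1, 𝔼 w : V1, F (x0 + v) (y1 + w) := fun v =>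
      expect_coset (fun w : V1 => (w : V)) (fun y => F (x0 + v) y)
    rw [Finset.expect_congr rfl (fun v _ => h3 v), Finset.expect_comm]
  rw [h2]
  refine Finset.expect_le Finset.univ_nonempty (fun x0 _ => ?_)
  refine Finset.expect_le Finset.univ_nonempty (fun y1 _ => ?_)
  have h3 := coset_bound hg B hB hBg hr T c e V1 hk1 hV1 hN hm hmp ht hq hσ hκ hspr X x0 y1
  refine le_trans (le_of_eq ?_) h3
  refine Finset.expect_congr rfl (fun v _ => ?_)
  show 𝔼 w : V1, iv (x0 + (v : V) ∈ X) *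
    (B (y1 + w) * B (y1 + w + (x0 + v)) * iv (∀ i, (T i (x0 + v) + c i) (y1 + w) = e i)
      - K * (iv (g (y1 + w) = 0) * iv (g (y1 + w + (x0 + v)) = 0)
        * iv (∀ i, (T i (x0 + v) + c i) (y1 + w) = e i))) = _
  rw [← Finset.mul_expect, Finset.expect_sub_distrib, ← Finset.mul_expect]

end

end Pool.Agent.H22.QK
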