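import Pool.Agent.H22.QK.Selector

/-!
# CovStep: one step of the covering (about 110 lines)

Notation `Sp x = {ζ : (1/2)^k ≤ |𝔼_y f y f (y+x) chi ζ y|}`; `|Sp x| ≤ 4^k` by Parseval
(`∑_ζ (hat G ζ)^2 = 𝔼 G^2 ≤ 1`).

PROOF of `cover_step`. `X' = {x ∈ X : some ζ ∈ Sp x is not of the form p.1 x + p.2, p ∈ L}` has
measure at least `(1/2)^k - (1/2)^(k+1) = (1/2)^(k+1)`. Choose such `ξ x ∈ Sp x` for `x ∈ X'`
(and `ξ x = 0` otherwise). `𝔼 iv (x ∈ X') (..)^2 ≥ (1/2)^(k+1) (1/2)^(2k) = (1/2)^(3k+1)`;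
`selector` gives `T, c` and the potential
`Φ L = 𝔼_x #{ζ ∈ Sp x : ∃ p ∈ L, ζ = p.1 x + p.2}` increases by at least `(1/2)^(selK (3k+1))`
when `(T, c)` is added.
-/

set_option autoImplicit false

open Finset Function Module
open scoped BigOperators
open Pool.Agent.H77.KM

namespace Pool.Agent.H22.QK

section

variable {V : Type} [AddCommGroup V] [Module (ZMod 2) V] [Fintype V]

/-- `x` is covered by the list `L` of affine maps. -/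
def Cov (f : V → ℝ) (k : ℕ)
    (L : Finset ((V →ₗ[ZMod 2] Dual (ZMod 2) V) × Dual (ZMod 2) V)) (x : V) : Prop :=
  ∀ ζ : Dual (ZMod 2) V, (1 / 2 : ℝ) ^ k ≤ |𝔼 y, f y * f (y + x) * chi ζ y| →
    ∃ p ∈ L, ζ = p.1 x + p.2

/-- The average number of large characters that are covered. -/
noncomputable def covPhi (f : V → ℝ) (k : ℕ)
    (L : Finset ((V →ₗ[ZMod 2] Dual (ZMod 2) V) × Dual (ZMod 2) V)) : ℝ :=
  𝔼 x, ∑ ζ : Dual (ZMod 2) V,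
    iv ((1 / 2 : ℝ) ^ k ≤ |𝔼 y, f y * f (y + x) * chi ζ y| ∧ ∃ p ∈ L, ζ = p.1 x + p.2)

private lemma sum_hat_sq (F : V → ℝ) :
    ∑ ζ : Dual (ZMod 2) V, hat F ζ ^ 2 = 𝔼 y, F y ^ 2 := by
  have h1 : ∀ y ∈ (Finset.univ : Finset V), F y ^ 2
      = ∑ ζ : Dual (ZMod 2) V, hat F ζ * (F y * chi ζ y) := by
    intro y _
    have h2 := inversion F y
    calc F y ^ 2 = F y * F y := sq _
      _ = F y * ∑ ζ : Dual (ZMod 2) V, hat F ζ * chi ζ y := by rw [h2]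
      _ = _ := by
          rw [Finset.mul_sum]
          exact Finset.sum_congr rfl (fun ζ _ => by ring)
  rw [Finset.expect_congr rfl h1, Finset.expect_sum_comm]
  refine Finset.sum_congr rfl (fun ζ _ => ?_)
  rw [← Finset.mul_expect, sq]
  rfl

theorem covPhi_le (f : V → ℝ) (hf : ∀ x, |f x| ≤ 1) (k : ℕ)
    (L : Finset ((V →ₗ[ZMod 2] Dual (ZMod 2) V) × Dual (ZMod 2) V)) :
    covPhi f k L ≤ 4 ^ k := by
  have hpt : ∀ x, ∑ ζ : Dual (ZMod 2) V,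
      iv ((1 / 2 : ℝ) ^ k ≤ |𝔼 y, f y * f (y + x) * chi ζ y| ∧ ∃ p ∈ L, ζ = p.1 x + p.2)
        ≤ 4 ^ k := by
    intro x
    have h1 : ∀ ζ : Dual (ZMod 2) V,
        iv ((1 / 2 : ℝ) ^ k ≤ |𝔼 y, f y * f (y + x) * chi ζ y| ∧ ∃ p ∈ L, ζ = p.1 x + p.2)
          ≤ 4 ^ k * hat (fun y => f y * f (y + x)) ζ ^ 2 := by
      intro ζ
      have hnn : 0 ≤ (4 : ℝ) ^ k * hat (fun y => f y * f (y + x)) ζ ^ 2 := by positivity
      by_cases h : (1 / 2 : ℝ) ^ k ≤ |𝔼 y, f y * f (y + x) * chi ζ y| ∧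
          ∃ p ∈ L, ζ = p.1 x + p.2
      · rw [iv_pos h]
        have h2 : ((1 / 2 : ℝ) ^ k) ^ 2 ≤ |𝔼 y, f y * f (y + x) * chi ζ y| ^ 2 :=
          pow_le_pow_left₀ (by positivity) h.1 2
        rw [sq_abs] at h2
        have h3 : (𝔼 y, f y * f (y + x) * chi ζ y) = hat (fun y => f y * f (y + x)) ζ := rfl
        rw [h3] at h2
        calc (1 : ℝ) = 4 ^ k * ((1 / 2 : ℝ) ^ k) ^ 2 := by
              rw [← pow_mul, mul_comm k 2, pow_mul, ← mul_pow]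
              norm_num
          _ ≤ _ := mul_le_mul_of_nonneg_left h2 (by positivity)
      · rw [iv_neg h]
        exact hnn
    refine (Finset.sum_le_sum (fun ζ _ => h1 ζ)).trans ?_
    rw [← Finset.mul_sum, sum_hat_sq]
    have h4 : 𝔼 y, (fun y => f y * f (y + x)) y ^ 2 ≤ 1 := by
      refine Finset.expect_le Finset.univ_nonempty (fun y _ => ?_)
      have h5 : |f y * f (y + x)| ≤ 1 := by
        rw [abs_mul]
        exact mul_le_one₀ (hf y) (abs_nonneg _) (hf _)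
      have h6 := abs_le.mp h5
      nlinarith
    calc (4 : ℝ) ^ k * 𝔼 y, (fun y => f y * f (y + x)) y ^ 2 ≤ 4 ^ k * 1 :=
          mul_le_mul_of_nonneg_left h4 (by positivity)
      _ = 4 ^ k := mul_one _
  unfold covPhi
  exact Finset.expect_le Finset.univ_nonempty (fun x _ => hpt x)

theorem cover_step (f : V → ℝ) (hf : ∀ x, |f x| ≤ 1) (X : Set V) {k : ℕ}
    (hX : (1 / 2 : ℝ) ^ k ≤ 𝔼 x, iv (x ∈ X))
    (L : Finset ((V →ₗ[ZMod 2] Dual (ZMod 2) V) × Dual (ZMod 2) V))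
    (hL : 𝔼 x, iv (x ∈ X ∧ Cov f k L x) < (1 / 2) ^ (k + 1)) :
    ∃ L' : Finset ((V →ₗ[ZMod 2] Dual (ZMod 2) V) × Dual (ZMod 2) V),
      L'.card ≤ L.card + 1 ∧ covPhi f k L + (1 / 2) ^ selK (3 * k + 1) ≤ covPhi f k L' := by
  classical
  set X' : Set V := {x | x ∈ X ∧ ¬ Cov f k L x} with hX'
  have hex : ∀ x, ∃ ζ : Dual (ZMod 2) V, x ∈ X' →
      ((1 / 2 : ℝ) ^ k ≤ |𝔼 y, f y * f (y + x) * chi ζ y| ∧ ¬ ∃ p ∈ L, ζ = p.1 x + p.2) := by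
    intro x
    by_cases hx : x ∈ X'
    · have h1 : ¬ Cov f k L x := hx.2
      unfold Cov at h1
      push Not at h1
      obtain ⟨ζ, h2, h3⟩ := h1
      refine ⟨ζ, fun _ => ⟨h2, ?_⟩⟩
      rintro ⟨p, hp, h4⟩
      exact h3 p hp h4
    · exact ⟨0, fun h => absurd h hx⟩
  choose ξ hξ using hex
  have hmeas : (1 / 2 : ℝ) ^ (k + 1) ≤ 𝔼 x, iv (x ∈ X') := by
    have h1 : ∀ x, iv (x ∈ X) = iv (x ∈ X') + iv (x ∈ X ∧ Cov f k L x) := by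
      intro x
      by_cases hx : x ∈ X
      · by_cases hc : Cov f k L x
        · rw [iv_pos hx, iv_neg (fun h : x ∈ X' => h.2 hc),
            iv_pos (show x ∈ X ∧ Cov f k L x from ⟨hx, hc⟩), zero_add]
        · rw [iv_pos hx, iv_pos (show x ∈ X' from ⟨hx, hc⟩),
            iv_neg (fun h : x ∈ X ∧ Cov f k L x => hc h.2), add_zero]
      · rw [iv_neg hx, iv_neg (fun h : x ∈ X' => hx h.1),
          iv_neg (fun h : x ∈ X ∧ Cov f k L x => hx h.1), add_zero]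
    have h2 : 𝔼 x, iv (x ∈ X) = 𝔼 x, iv (x ∈ X') + 𝔼 x, iv (x ∈ X ∧ Cov f k L x) := by
      rw [← Finset.expect_add_distrib]
      exact Finset.expect_congr rfl (fun x _ => h1 x)
    have h3 : (1 / 2 : ℝ) ^ k = 2 * (1 / 2) ^ (k + 1) := by
      rw [pow_succ]
      ring
    linarith
  have hsel : (1 / 2 : ℝ) ^ (3 * k + 1)
      ≤ 𝔼 x, iv (x ∈ X') * (𝔼 y, f y * f (y + x) * chi (ξ x) y) ^ 2 := by
    have h1 : ∀ x, iv (x ∈ X') * ((1 / 2 : ℝ) ^ k) ^ 2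
        ≤ iv (x ∈ X') * (𝔼 y, f y * f (y + x) * chi (ξ x) y) ^ 2 := by
      intro x
      by_cases hx : x ∈ X'
      · rw [iv_pos hx, one_mul, one_mul, ← sq_abs (𝔼 y, f y * f (y + x) * chi (ξ x) y)]
        exact pow_le_pow_left₀ (by positivity) (hξ x hx).1 2
      · rw [iv_neg hx, zero_mul, zero_mul]
    calc (1 / 2 : ℝ) ^ (3 * k + 1) = (1 / 2 : ℝ) ^ (k + 1) * ((1 / 2 : ℝ) ^ k) ^ 2 := by
          rw [← pow_mul, ← pow_add]
          congr 1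
          ring
      _ ≤ (𝔼 x, iv (x ∈ X')) * ((1 / 2 : ℝ) ^ k) ^ 2 :=
          mul_le_mul_of_nonneg_right hmeas (by positivity)
      _ = 𝔼 x, iv (x ∈ X') * ((1 / 2 : ℝ) ^ k) ^ 2 := by rw [Finset.expect_mul]
      _ ≤ _ := Finset.expect_le_expect (fun x _ => h1 x)
  obtain ⟨T, c, hTc⟩ := selector f hf X' ξ hsel
  refine ⟨insert (T, c) L, Finset.card_insert_le _ _, ?_⟩
  have hpt : ∀ x, (∑ ζ : Dual (ZMod 2) V,
      iv ((1 / 2 : ℝ) ^ k ≤ |𝔼 y, f y * f (y + x) * chi ζ y| ∧ ∃ p ∈ L, ζ = p.1 x + p.2))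
        + iv (x ∈ X' ∧ ξ x = T x + c)
      ≤ ∑ ζ : Dual (ZMod 2) V,
      iv ((1 / 2 : ℝ) ^ k ≤ |𝔼 y, f y * f (y + x) * chi ζ y| ∧
        ∃ p ∈ insert (T, c) L, ζ = p.1 x + p.2) := by
    intro x
    have hmono : ∀ ζ : Dual (ZMod 2) V,
        iv ((1 / 2 : ℝ) ^ k ≤ |𝔼 y, f y * f (y + x) * chi ζ y| ∧ ∃ p ∈ L, ζ = p.1 x + p.2)
        ≤ iv ((1 / 2 : ℝ) ^ k ≤ |𝔼 y, f y * f (y + x) * chi ζ y| ∧
          ∃ p ∈ insert (T, c) L, ζ = p.1 x + p.2) := by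
      intro ζ
      refine iv_mono ?_
      rintro ⟨h1, p, hp, h2⟩
      exact ⟨h1, p, Finset.mem_insert_of_mem hp, h2⟩
    by_cases hx : x ∈ X' ∧ ξ x = T x + c
    · rw [iv_pos hx]
      obtain ⟨h1, h2⟩ := hξ x hx.1
      rw [← Finset.add_sum_erase _ _ (Finset.mem_univ (ξ x)),
        ← Finset.add_sum_erase (s := Finset.univ)
          (f := fun ζ : Dual (ZMod 2) V =>
            iv ((1 / 2 : ℝ) ^ k ≤ |𝔼 y, f y * f (y + x) * chi ζ y| ∧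
              ∃ p ∈ insert (T, c) L, ζ = p.1 x + p.2)) (a := ξ x) (Finset.mem_univ (ξ x))]
      have h3 : iv ((1 / 2 : ℝ) ^ k ≤ |𝔼 y, f y * f (y + x) * chi (ξ x) y| ∧
          ∃ p ∈ L, ξ x = p.1 x + p.2) = 0 := iv_neg (fun h => h2 h.2)
      have h4 : iv ((1 / 2 : ℝ) ^ k ≤ |𝔼 y, f y * f (y + x) * chi (ξ x) y| ∧
          ∃ p ∈ insert (T, c) L, ξ x = p.1 x + p.2) = 1 :=
        iv_pos ⟨h1, (T, c), Finset.mem_insert_self _ _, hx.2⟩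
      have h5 := Finset.sum_le_sum (s := Finset.univ.erase (ξ x)) (fun ζ _ => hmono ζ)
      simp only [h3, h4]
      linarith
    · rw [iv_neg hx, add_zero]
      exact Finset.sum_le_sum (fun ζ _ => hmono ζ)
  calc covPhi f k L + (1 / 2) ^ selK (3 * k + 1)
      ≤ covPhi f k L + 𝔼 x, iv (x ∈ X' ∧ ξ x = T x + c) := by linarith
    _ = 𝔼 x, ((∑ ζ : Dual (ZMod 2) V,
      iv ((1 / 2 : ℝ) ^ k ≤ |𝔼 y, f y * f (y + x) * chi ζ y| ∧ ∃ p ∈ L, ζ = p.1 x + p.2))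
        + iv (x ∈ X' ∧ ξ x = T x + c)) := by
        rw [Finset.expect_add_distrib]
        rfl
    _ ≤ _ := Finset.expect_le_expect (fun x _ => hpt x)

end

end Pool.Agent.H22.QK
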