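import Pool.Agent.H22.QK.CovStep

/-!
# Cover: few affine maps cover the large spectra of most derivatives (about 60 lines)

Notation `Sp x = {ζ : (1/2)^k ≤ |𝔼_y f y f (y+x) chi ζ y|}`; `|Sp x| ≤ 4^k` by Parseval
(`∑_ζ (hat G ζ)^2 = 𝔼 G^2 ≤ 1`).

PROOF of `cover`. Suppose that no `L` with at most `2^(covK k)` elements works. By induction on `j`
there is for every `j ≤ 2^(covK k) + 1` a set `L` with `|L| ≤ j` and
`Φ L ≥ j (1/2)^(selK (3k+1))` (start: `L = ∅`, `Φ ≥ 0`; step: `L` with `|L| ≤ j ≤ 2^(covK k)` does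
not work, so `cover_step` applies). For `j = 2^(covK k) + 1` this contradicts `Φ ≤ 4^k`
(`covPhi_le`), because `2^(covK k) (1/2)^(selK (3k+1)) = 4^k`.
-/

set_option autoImplicit false

open Finset Function Module
open scoped BigOperators
open Pool.Agent.H77.KM

namespace Pool.Agent.H22.QK

section

variable {V : Type} [AddCommGroup V] [Module (ZMod 2) V] [Fintype V]

theorem cover (f : V → ℝ) (hf : ∀ x, |f x| ≤ 1) (X : Set V) {k : ℕ}
    (hX : (1 / 2 : ℝ) ^ k ≤ 𝔼 x, iv (x ∈ X)) :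
    ∃ L : Finset ((V →ₗ[ZMod 2] Dual (ZMod 2) V) × Dual (ZMod 2) V),
      L.card ≤ 2 ^ covK k ∧ (1 / 2 : ℝ) ^ (k + 1) ≤ 𝔼 x, iv (x ∈ X ∧ Cov f k L x) := by
  by_contra hcon
  push Not at hcon
  have key : ∀ j : ℕ, j ≤ 2 ^ covK k + 1 →
      ∃ L : Finset ((V →ₗ[ZMod 2] Dual (ZMod 2) V) × Dual (ZMod 2) V),
        L.card ≤ j ∧ (j : ℝ) * (1 / 2) ^ selK (3 * k + 1) ≤ covPhi f k L := by
    intro j
    induction j with
    | zero =>
      intro _
      refine ⟨∅, by simp, ?_⟩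
      unfold covPhi
      rw [Nat.cast_zero, zero_mul]
      apply Finset.expect_nonneg
      intro x _
      apply Finset.sum_nonneg
      intro ζ _
      exact iv_nonneg _
    | succ j ih =>
      intro hj
      obtain ⟨L, hL1, hL2⟩ := ih (by omega)
      have hLc : L.card ≤ 2 ^ covK k := by omega
      obtain ⟨L', h1, h2⟩ := cover_step f hf X hX L (hcon L hLc)
      refine ⟨L', by omega, ?_⟩
      push_cast
      linarith
  obtain ⟨L, -, hL⟩ := key (2 ^ covK k + 1) le_rfl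
  have h4 := covPhi_le f hf k L
  have hpow : ((2 : ℝ) ^ covK k) * (1 / 2) ^ selK (3 * k + 1) = 4 ^ k := by
    unfold covK
    rw [pow_add, mul_assoc, ← mul_pow, pow_mul]
    norm_num
  have hpos : (0 : ℝ) < (1 / 2) ^ selK (3 * k + 1) := by positivity
  push_cast at hL
  rw [add_mul, hpow] at hL
  linarith

end

end Pool.Agent.H22.QK
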