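import Pool.Agent.H22.QK.PLift

/-!
# CzLow: lower bound for the number of solutions (about 90 lines)

PROOF of `cz_lower`. `count_coset` for `Θ w = (g1 w, g1 w + g2 (w+w')) ∈ Y × Y`, the subspace
`Y0 × ⊥` and the shift `(0, e)` (cardinality `|Y0|`; `(g1 w, g1 w + g2 (w+w')) + (0, e) ∈ Y0 × ⊥`
is the event). A nonzero character of `Y × Y` is `(y, y') ↦ l0 y + l1 y'`. If `l0 ≠ 0`: by
`IsQM.two`, `g1 w + g2 (w+w') = b w' w + h w + const`, so the phase is
`l0 (g1 w) + l1 (b w' w + h w) + const`, a quadratic form with polarisation `l0 ∘ b`: `bias`. If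
`l0 = 0`, `l1 ≠ 0`: the linear form `l1 (b w' w + h w)` is nonzero because `w'` is nondegenerate.
-/

set_option autoImplicit false

open Finset Function Module
open scoped BigOperators
open Pool.Agent.H77.KM

namespace Pool.Agent.H22.QK

section

variable {V : Type} [AddCommGroup V] [Module (ZMod 2) V] [Fintype V]
variable {Y : Type} [AddCommGroup Y] [Module (ZMod 2) Y] [Fintype Y]
variable {g1 g2 : V → Y} {b : V →ₗ[ZMod 2] V →ₗ[ZMod 2] Y}

theorem cz_lower (h1 : IsQM g1 b) {σ : ℕ} (hs : Reg b σ)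
    (Y0 : Submodule (ZMod 2) Y) (h : V →ₗ[ZMod 2] Y)
    (hh : ∀ v w, g1 v + g2 (v + w) = b w v + h v + (g2 w + g1 0)) (w' : V)
    (hw : ¬ ∃ m : Dual (ZMod 2) Y, m ≠ 0 ∧ ∀ y, m (b w' y + h y) = 0) (e : Y0) :
    (Fintype.card Y0 : ℝ) / (Fintype.card Y : ℝ) ^ 2 - (1 / 2) ^ σ
      ≤ CBf (fun _ => 1) (fun _ => 1) g1 g2 Y0 w' e := by
  classical
  have hself : ∀ y : Y, y + y = 0 := fun y => ZModModule.add_self y
  set Θ : V → Y × Y := fun w => (g1 w, g1 w + g2 (w + w')) with hΘ
  set E : Submodule (ZMod 2) (Y × Y) := Y0.prod ⊥ with hE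
  have hδ : ∀ l : Dual (ZMod 2) (Y × Y), l ≠ 0 → (∀ e ∈ E, l e = 0) →
      |𝔼 x, sgn (l (Θ x))| ≤ (1 / 2 : ℝ) ^ σ := by
    intro l hl _
    set l0 : Dual (ZMod 2) Y := l ∘ₗ LinearMap.inl (ZMod 2) Y Y with hl0
    set l1 : Dual (ZMod 2) Y := l ∘ₗ LinearMap.inr (ZMod 2) Y Y with hl1
    have hsplit : ∀ y y' : Y, l (y, y') = l0 y + l1 y' := by
      intro y y'
      rw [hl0, hl1]
      simp only [LinearMap.coe_comp, Function.comp_apply, LinearMap.inl_apply,
        LinearMap.inr_apply, ← map_add, Prod.mk_add_mk, add_zero, zero_add]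
    set z : Dual (ZMod 2) V := l1 ∘ₗ (b w' + h) with hz
    have hval : ∀ w, sgn (l (Θ w)) = sgn (l1 (g2 w' + g1 0)) * sgn (l0 (g1 w) + z w) := by
      intro w
      have e1 : Θ w = (g1 w, b w' w + h w + (g2 w' + g1 0)) := by
        rw [hΘ]; simp only [hh w w']
      rw [e1, hsplit, ← sgn_add]
      congr 1
      rw [hz]
      simp only [LinearMap.coe_comp, Function.comp_apply, LinearMap.add_apply, map_add]
      ring
    have habs : |𝔼 x, sgn (l (Θ x))| = |𝔼 x, sgn (l0 (g1 x) + z x)| := by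
      rw [Finset.expect_congr rfl (fun x _ => hval x), ← Finset.mul_expect, abs_mul, abs_sgn,
        one_mul]
    rw [habs]
    by_cases h0 : l0 = 0
    · have hl1' : l1 ≠ 0 := by
        intro h1'
        apply hl
        apply LinearMap.ext
        rintro ⟨y, y'⟩
        rw [hsplit, h0, h1']
        simp
      have hz0 : z ≠ 0 := by
        intro hz0
        apply hw
        refine ⟨l1, hl1', fun y => ?_⟩
        have := LinearMap.congr_fun hz0 y
        simpa [hz] using this
      have : ∀ x, sgn (l0 (g1 x) + z x) = chi z x := by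
        intro x; rw [h0]; simp [chi]
      rw [Finset.expect_congr rfl (fun x _ => this x), expect_chi_eq_zero hz0, abs_zero]
      positivity
    · exact bias h1 l0 z (hs l0 h0)
  have hcount := count_coset Θ E ((0, (e : Y)) : Y × Y) (by positivity) hδ
  have hcard : (Fintype.card E : ℝ) = Fintype.card Y0 := by
    have : Fintype.card E = Fintype.card Y0 := by
      rw [← Nat.card_eq_fintype_card, ← Nat.card_eq_fintype_card, hE]
      refine Nat.card_congr ⟨fun p => ⟨p.1.1, p.2.1⟩, fun y => ⟨(y.1, 0), y.2, rfl⟩, ?_, ?_⟩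
      · rintro ⟨⟨y, y'⟩, hy, hy'⟩
        have : y' = 0 := hy'
        subst this
        rfl
      · rintro ⟨y, hy⟩
        rfl
    exact_mod_cast this
  have hcardY : (Fintype.card (Y × Y) : ℝ) = (Fintype.card Y : ℝ) ^ 2 := by
    rw [Fintype.card_prod]; push_cast; ring
  have hCB : CBf (fun _ => 1) (fun _ => 1) g1 g2 Y0 w' e
      = 𝔼 x, iv (Θ x + ((0, (e : Y)) : Y × Y) ∈ E) := by
    unfold CBf
    refine Finset.expect_congr rfl (fun x _ => ?_)
    rw [one_mul, one_mul, ← iv_and]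
    apply iv_congr
    rw [hE, hΘ]
    simp only [Submodule.mem_prod, Prod.fst_add, Prod.snd_add, add_zero, Submodule.mem_bot]
    constructor
    · rintro ⟨h2, h3⟩
      exact ⟨h2, by rw [h3]; exact hself _⟩
    · rintro ⟨h2, h3⟩
      refine ⟨h2, ?_⟩
      have := congrArg (· + (e : Y)) h3
      simpa [add_assoc, hself] using this
  rw [hcard, hcardY, ← hCB] at hcount
  have := (abs_le.1 hcount).1
  linarith

end

end Pool.Agent.H22.QK
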