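import Pool.Agent.H77.KM.Iterate

/-!
# Nums: the numerical functions of the project

`stepDim` is the codimension of one Kelley-Meka increment (H77 library). All functions are
polynomials.
-/

set_option autoImplicit false

open Pool.Agent.H77.KM

namespace Pool.Agent.H22.QK

/-- The codimension used in the Kelley-Meka moment bound. -/
def kmDim (N l m : ℕ) : ℕ := 8 * (196608 * N ^ 2 * ((l + 2) * m) ^ 4 + 1)

/-- The number of characters used in the local increment. -/
def iiR (k : ℕ) : ℕ := stepDim (k + 2)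

/-- Logarithm of the size of the large spectrum. -/
def iiS (k R : ℕ) : ℕ := 4 * iiR k + 6 * k + 3 * R + 47

/-- The number of directions of the random frames. -/
def iiM (k R : ℕ) : ℕ := (iiS k R + 4) * (iiR k + 4) + 10 * k + 60

/-- The regularity needed for the local increment. -/
def iiReg (k R : ℕ) : ℕ := R * (iiM k R + 1) ^ 2 + 3 * iiM k R + 2

/-- Exponent of the threshold of the large spectrum. -/
def iiT (k R : ℕ) : ℕ := 2 * (iiR k + k + 8) + k + 7 + R

/-- The exponent in `selector`. -/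
def selK (k : ℕ) : ℕ := 6 * k + 3 + 160 * (k + 1) + 12582920 * (256 * (k + 1)) ^ 4

/-- The exponent in `cover`. -/
def covK (k : ℕ) : ℕ := 2 * k + selK (3 * k + 1)

/-- The codimension used for the self-correlation. -/
def corK (n R : ℕ) : ℕ := kmDim 800 (n + R) (24 * 200 * 203 * (2 * (n + 8) + 1))

/-- Exponent of the threshold for the Fourier coefficients of the fibres. -/
def fibT (n R : ℕ) : ℕ := iiT (3 * n + 3) R + 2 * R

def stK1 (n R : ℕ) : ℕ := fibT n R + n + 3
def stM (n R : ℕ) : ℕ := stK1 n R + 1 + iiR (3 * n + 3) * (covK (stK1 n R) + 2)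
def stC1 (n R : ℕ) : ℕ := iiR (3 * n + 3) * (4 * (stM n R + 2 * stK1 n R) + 1)
def stQ (n R : ℕ) : ℕ := R + iiR (3 * n + 3)
def stP (n R : ℕ) : ℕ := stQ n R + stM n R + 2 * n + 2 * R + iiR (3 * n + 3) + 10
def stMm (n R : ℕ) : ℕ := 2001 * 1007 + 1002 * stP n R
def stKm (n R : ℕ) : ℕ := kmDim 1000 (n + stQ n R) (stMm n R)
def stSi (n R : ℕ) : ℕ := stKm n R + 2 * stQ n R + 1000 + stP n R + 6

/-- The regularity and the codimension needed in `stage`. -/
def stK (n R : ℕ) : ℕ :=
  stC1 n R + (stQ n R * (2 * stSi n R + 1) + stKm n R)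
    + corK n R + iiReg (3 * n + 3) R + 2 * R + iiR (3 * n + 3) + n + 20

def mnM (d : ℕ) : ℕ := 6 * 10 ^ 18 * d ^ 10
def mnN (d : ℕ) : ℕ := 2 * mnM d + 4
def mnR (d : ℕ) : ℕ := 2 * 1000000 * (mnN d + 2) * iiR (3 * mnN d + 3)
def mnS (d : ℕ) : ℕ :=
  stK (mnN d) (mnR d) + mnR d * (mnM d + 1) ^ 2 + 3 * mnM d + mnR d + 40

/-- The dimension needed in `main_sets`. -/
def mnD (d : ℕ) : ℕ :=
  2 * 1000000 * (mnN d + 2) * (stK (mnN d) (mnR d) + mnR d * (2 * mnS d + 1))
    + 2 * mnR d + mnM d + 4 + d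

end Pool.Agent.H22.QK
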