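import Pool.Agent.H77.KM.Chain
import Pool.Agent.H22.QK.Nums

/-!
# Quadratic maps over `F_2`: definitions

All spaces are finite vector spaces over `ZMod 2` (and live in `Type`).
* `iv p` is the real indicator of a proposition.
* `IsQM g b`: the map `g : V → Y` is quadratic (degree at most two, inhomogeneous) with
  polarisation `b`.
* `bl b l : V → Dual V` is the scalar form `l ∘ b`.
* `Reg b s`: every nonzero combination `l ∘ b` has rank at least `2 s`.
* `Spr a k t`: the average of `a` on every coset of every subspace of codimension at most `k`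
  is at most `t`.
* `SprQ`, `SprV`: spreadness on quadratic pieces.
-/

set_option autoImplicit false

open Finset Function Module
open scoped BigOperators
open Pool.Agent.H77.KM

namespace Pool.Agent.H22.QK

universe u v

/-- The indicator of a proposition, as a real number. -/
noncomputable def iv (p : Prop) : ℝ := by classical exact if p then 1 else 0

lemma iv_pos {p : Prop} (h : p) : iv p = 1 := by classical simp [iv, h]

lemma iv_neg {p : Prop} (h : ¬ p) : iv p = 0 := by classical simp [iv, h]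

lemma iv_cases (p : Prop) : iv p = 0 ∨ iv p = 1 := by
  by_cases h : p
  · exact Or.inr (iv_pos h)
  · exact Or.inl (iv_neg h)

lemma iv_nonneg (p : Prop) : 0 ≤ iv p := by
  rcases iv_cases p with h | h <;> rw [h] <;> norm_num

lemma iv_le_one (p : Prop) : iv p ≤ 1 := by
  rcases iv_cases p with h | h <;> rw [h] <;> norm_num

lemma iv_and (p q : Prop) : iv (p ∧ q) = iv p * iv q := by
  by_cases hp : p <;> by_cases hq : q <;> simp [iv, hp, hq]

lemma iv_mono {p q : Prop} (h : p → q) : iv p ≤ iv q := by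
  by_cases hp : p
  · rw [iv_pos hp, iv_pos (h hp)]
  · rw [iv_neg hp]; exact iv_nonneg q

lemma iv_congr {p q : Prop} (h : p ↔ q) : iv p = iv q := by
  rw [propext h]

/-- The dual of a finite space is finite. -/
noncomputable instance dualFintype (V : Type u) [AddCommGroup V] [Module (ZMod 2) V] [Fintype V] :
    Fintype (Dual (ZMod 2) V) :=
  haveI : Finite (Dual (ZMod 2) V) :=
    Finite.of_injective (fun φ => (φ : V → ZMod 2)) DFunLike.coe_injective
  Fintype.ofFinite _

/-- The elements of a subspace of a finite space form a finite type. -/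
noncomputable instance subFintype (V : Type u) [AddCommGroup V] [Module (ZMod 2) V] [Fintype V]
    (W : Submodule (ZMod 2) V) : Fintype W := Fintype.ofFinite _

section

variable {V : Type} [AddCommGroup V] [Module (ZMod 2) V]
variable {Y : Type} [AddCommGroup Y] [Module (ZMod 2) Y]

/-- `g` is a quadratic map with polarisation `b`. -/
def IsQM (g : V → Y) (b : V →ₗ[ZMod 2] V →ₗ[ZMod 2] Y) : Prop :=
  ∀ x y, g (x + y) = g x + g y + g 0 + b x y

/-- The scalar bilinear form `l ∘ b`, as a map to the dual. -/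
def bl (b : V →ₗ[ZMod 2] V →ₗ[ZMod 2] Y) (l : Dual (ZMod 2) Y) :
    V →ₗ[ZMod 2] Dual (ZMod 2) V := b.compr₂ l

@[simp] lemma bl_apply (b : V →ₗ[ZMod 2] V →ₗ[ZMod 2] Y) (l : Dual (ZMod 2) Y) (x y : V) :
    bl b l x y = l (b x y) := rfl

/-- Every nonzero combination of the components of `b` has rank at least `2 s`. -/
def Reg (b : V →ₗ[ZMod 2] V →ₗ[ZMod 2] Y) (s : ℕ) : Prop :=
  ∀ l : Dual (ZMod 2) Y, l ≠ 0 →
    finrank (ZMod 2) (LinearMap.ker (bl b l)) + 2 * s ≤ finrank (ZMod 2) V

/-- The pull back of a bilinear map along a linear map. -/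
def pb {W : Type} [AddCommGroup W] [Module (ZMod 2) W]
    (b : V →ₗ[ZMod 2] V →ₗ[ZMod 2] Y) (f : W →ₗ[ZMod 2] V) :
    W →ₗ[ZMod 2] W →ₗ[ZMod 2] Y := b.compl₁₂ f f

@[simp] lemma pb_apply {W : Type} [AddCommGroup W] [Module (ZMod 2) W]
    (b : V →ₗ[ZMod 2] V →ₗ[ZMod 2] Y) (f : W →ₗ[ZMod 2] V) (x y : W) :
    pb b f x y = b (f x) (f y) := rfl

variable [Fintype V]

/-- The averages of `a` over all cosets of subspaces of codimension at most `k` are at most
`t`. -/
def Spr (a : V → ℝ) (k : ℕ) (t : ℝ) : Prop :=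
  ∀ W : Submodule (ZMod 2) V, finrank (ZMod 2) V ≤ finrank (ZMod 2) W + k →
    ∀ y, avg (sf W) a y ≤ t

/-- Spreadness of `a` on the pieces of `{g ∈ Y0}` cut out by a coset of the image of an
injective linear map of codimension at most `k` and by a condition `g + s ∈ E`,
`E ≤ Y0`, `s ∈ Y0`: the average of `a` is at most `t` times the true density of the piece. -/
def SprQ (a : V → ℝ) (g : V → Y) (Y0 : Submodule (ZMod 2) Y) (k : ℕ) (t : ℝ) : Prop :=
  ∀ (W : Type) [AddCommGroup W] [Module (ZMod 2) W] [Fintype W] (f : W →ₗ[ZMod 2] V),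
    Injective f → finrank (ZMod 2) V ≤ finrank (ZMod 2) W + k →
    ∀ (w0 : V) (E : Submodule (ZMod 2) Y), E ≤ Y0 → ∀ s ∈ Y0,
      𝔼 w, a (w0 + f w) * iv (g (w0 + f w) + s ∈ E)
        ≤ t * 𝔼 w, iv (g (w0 + f w) + s ∈ E)

/-- Spreadness of `B` on the pieces of `{g = 0}` cut out by a coset of the image of an
injective linear map of codimension at most `k` and by at most `r` further quadratic
equations. -/
def SprV (B : V → ℝ) (g : V → Y) (k r : ℕ) (t : ℝ) : Prop :=
  ∀ (W Y' : Type) [AddCommGroup W] [Module (ZMod 2) W] [Fintype W]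
    [AddCommGroup Y'] [Module (ZMod 2) Y'] [Fintype Y'] (f : W →ₗ[ZMod 2] V),
    Injective f → finrank (ZMod 2) V ≤ finrank (ZMod 2) W + k → finrank (ZMod 2) Y' ≤ r →
    ∀ (w0 : V) (h : W → Y') (c : W →ₗ[ZMod 2] W →ₗ[ZMod 2] Y'), IsQM h c →
      𝔼 w, B (w0 + f w) * iv (h w = 0)
        ≤ t * 𝔼 w, iv (g (w0 + f w) = 0) * iv (h w = 0)

/-- All regular pieces of codimension at most `k` with at most `R` equations have normalised
density at most `t`. -/
def LevBd (A : V → ℝ) (k R s : ℕ) (t : ℝ) : Prop :=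
  ∀ (W Y' : Type) [AddCommGroup W] [Module (ZMod 2) W] [Fintype W]
    [AddCommGroup Y'] [Module (ZMod 2) Y'] [Fintype Y'] (f : W →ₗ[ZMod 2] V),
    Injective f → finrank (ZMod 2) V ≤ finrank (ZMod 2) W + k → finrank (ZMod 2) Y' ≤ R →
    ∀ (w0 : V) (g : W → Y') (b : W →ₗ[ZMod 2] W →ₗ[ZMod 2] Y'), IsQM g b → Reg b s →
      (Fintype.card Y' : ℝ) * 𝔼 w, A (w0 + f w) * iv (g w = 0) ≤ t

end

end Pool.Agent.H22.QK
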