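import Pool.Agent.H22.QK.MainSets
import Pool.Agent.H22.QK.Poly

/-!
# Fin1: the polynomial form (about 60 lines)

PROOF of `ramsey_poly`: `mnD_poly` gives `C` with `mnD d ≤ (d+2)^C`; replace `C` by `C + 1`;
`main_sets` in `V = Fin n → ZMod 2` (`finrank = n`).

PROOF of `real_bound`: let `x = n^(1/C)`. If `x < 4` take `d = 1`. Otherwise `d = ⌊x⌋ - 2 ≥ 2`:
`(d+2)^C = ⌊x⌋^C ≤ x^C = n` and `d ≥ x - 3 ≥ x/4`.
-/

set_option autoImplicit false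

open Finset Function Module
open scoped BigOperators

namespace Pool.Agent.H22.QK

theorem ramsey_poly : ∃ C : ℕ, 1 ≤ C ∧ ∀ n d : ℕ, 1 ≤ d → (d + 2) ^ C ≤ n →
    ∀ A B1 B2 B3 : Set (Fin n → ZMod 2), (0 : Fin n → ZMod 2) ∉ A →
      (0 : Fin n → ZMod 2) ∉ B1 → (0 : Fin n → ZMod 2) ∉ B2 → (0 : Fin n → ZMod 2) ∉ B3 →
      (∃ U : Submodule (ZMod 2) (Fin n → ZMod 2), finrank (ZMod 2) U = d ∧
        ((∀ u ∈ U, u ∉ A) ∨ (∀ u ∈ U, u ∉ B1) ∨ (∀ u ∈ U, u ∉ B2) ∨ (∀ u ∈ U, u ∉ B3))) ∨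
      ∃ p x z, x ∈ B1 ∧ z ∈ B2 ∧ x + z ∈ B3 ∧ p ∈ A ∧ p + x ∈ A ∧ p + z ∈ A ∧
        p + x + z ∈ A := by
  obtain ⟨C, hC⟩ := mnD_poly
  refine ⟨C + 1, Nat.le_add_left 1 C, ?_⟩
  intro n d hd hn A B1 B2 B3 hA h1 h2 h3
  have hfr : finrank (ZMod 2) (Fin n → ZMod 2) = n := by
    rw [Module.finrank_pi, Fintype.card_fin]
  have hV : mnD d ≤ finrank (ZMod 2) (Fin n → ZMod 2) := by
    rw [hfr]
    refine (hC d).trans (le_trans ?_ hn)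
    exact Nat.pow_le_pow_right (by omega) (Nat.le_succ C)
  exact main_sets A B1 B2 B3 hA h1 h2 h3 hd hV

theorem real_bound {C : ℕ} (hC : 1 ≤ C) {n : ℕ} (hn : 1 ≤ n) :
    ∃ d : ℕ, 1 ≤ d ∧ (d = 1 ∨ (d + 2) ^ C ≤ n) ∧
      (1 / 4 : ℝ) * (n : ℝ) ^ (1 / (C : ℝ)) ≤ d := by
  set x : ℝ := (n : ℝ) ^ (1 / (C : ℝ)) with hx
  have hC0 : (C : ℝ) ≠ 0 := by
    have : (0 : ℝ) < C := by exact_mod_cast hC
    exact this.ne'
  have hn0 : (0 : ℝ) ≤ n := Nat.cast_nonneg n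
  have hxC : x ^ C = n := by
    rw [hx, ← Real.rpow_natCast, ← Real.rpow_mul hn0, one_div_mul_cancel hC0, Real.rpow_one]
  have hx0 : 0 ≤ x := Real.rpow_nonneg hn0 _
  by_cases h4 : x < 4
  · refine ⟨1, le_refl 1, Or.inl rfl, ?_⟩
    push_cast
    linarith
  · push Not at h4
    have hm4 : 4 ≤ ⌊x⌋₊ := Nat.le_floor (by exact_mod_cast h4)
    have hmx : (⌊x⌋₊ : ℝ) ≤ x := Nat.floor_le hx0
    have hxm : x < (⌊x⌋₊ : ℝ) + 1 := Nat.lt_floor_add_one x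
    refine ⟨⌊x⌋₊ - 2, by omega, Or.inr ?_, ?_⟩
    · have e : ⌊x⌋₊ - 2 + 2 = ⌊x⌋₊ := by omega
      rw [e]
      have : ((⌊x⌋₊ ^ C : ℕ) : ℝ) ≤ n := by
        push_cast
        rw [← hxC]
        exact pow_le_pow_left₀ (Nat.cast_nonneg _) hmx C
      exact_mod_cast this
    · rw [Nat.cast_sub (by omega)]
      push_cast
      linarith

end Pool.Agent.H22.QK
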