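import Pool.Agent.H22.QK.FrExt1

/-!
# FrAct: invariance of the distribution of frames (about 90 lines)

PROOF of `FR_shift`: for fixed `x` translate `y` by `lc u x` (`expect_add_right`);
`IsFr g (y + lc u x) x ↔ IsFr g y x` (`lc_add`; translate `u`).

PROOF of `FR_act`: `x ↦ fun i => lc (M (Pi.single i 1)) x` is a bijection of `Fin m → V` (inverse:
the same for `M.symm`) and `lc u (fun i => lc (M (Pi.single i 1)) x) = lc (M u) x`; so `IsFr` is
invariant.
-/

set_option autoImplicit false

open Finset Function Module
open scoped BigOperators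
open Pool.Agent.H77.KM

namespace Pool.Agent.H22.QK

section

variable {V : Type} [AddCommGroup V] [Module (ZMod 2) V] [Fintype V]
variable {Y : Type} [AddCommGroup Y] [Module (ZMod 2) Y] [Fintype Y]
variable {g : V → Y} {b : V →ₗ[ZMod 2] V →ₗ[ZMod 2] Y} {m : ℕ}

omit [Fintype V] [Module (ZMod 2) Y] [Fintype Y] in
private theorem isFr_shift (y : V) (x : Fin m → V) (u : Fin m → ZMod 2) :
    IsFr g (y + lc u x) x ↔ IsFr g y x := by
  constructor
  · intro h v
    have h1 := h (v - u)
    have h2 : y + lc u x + lc (v - u) x = y + lc v x := by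
      rw [add_assoc, ← lc_add, add_sub_cancel]
    rwa [h2] at h1
  · intro h v
    rw [add_assoc, ← lc_add]
    exact h _

theorem FR_shift (F : V → (Fin m → V) → ℝ) (u : Fin m → ZMod 2) :
    FR g m (fun y x => F (y + lc u x) x) = FR g m F := by
  unfold FR
  congr 1
  rw [Finset.expect_comm, Finset.expect_comm (f := fun y x => iv (IsFr g y x) * F y x)]
  refine Finset.expect_congr rfl fun x _ => ?_
  refine Fintype.expect_equiv (Equiv.addRight (lc u x)) _ _ fun y => ?_
  rw [Equiv.coe_addRight, iv_congr (isFr_shift y x u)]

/-- `lc` as a linear map in the coefficients. -/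
private def lcL (x : Fin m → V) : (Fin m → ZMod 2) →ₗ[ZMod 2] V where
  toFun u := lc u x
  map_add' u v := lc_add u v x
  map_smul' c u := by
    simp only [lc, Pi.smul_apply, smul_eq_mul, RingHom.id_apply, Finset.smul_sum, mul_smul]

omit [Fintype V] in
private theorem lc_act (M : (Fin m → ZMod 2) ≃ₗ[ZMod 2] (Fin m → ZMod 2)) (x : Fin m → V)
    (u : Fin m → ZMod 2) :
    lc u (fun i => lc (M (Pi.single i 1)) x) = lc (M u) x := by
  have h := LinearMap.pi_apply_eq_sum_univ ((lcL x).comp M.toLinearMap) u
  have h1 : ((lcL x).comp M.toLinearMap) u = lc (M u) x := rfl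
  rw [h1] at h
  rw [h, lc]
  refine Finset.sum_congr rfl fun i _ => ?_
  congr 1
  have h2 : (Pi.single i 1 : Fin m → ZMod 2) = fun j => if i = j then 1 else 0 := by
    funext j
    simp only [Pi.single_apply, eq_comm]
  rw [h2]
  rfl

theorem FR_act (M : (Fin m → ZMod 2) ≃ₗ[ZMod 2] (Fin m → ZMod 2))
    (F : V → (Fin m → V) → ℝ) :
    FR g m (fun y x => F y (fun i => lc (M (Pi.single i 1)) x)) = FR g m F := by
  unfold FR
  congr 1
  refine Finset.expect_congr rfl fun y _ => ?_
  let e : (Fin m → V) ≃ (Fin m → V) :=
    { toFun := fun x i => lc (M (Pi.single i 1)) x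
      invFun := fun x i => lc (M.symm (Pi.single i 1)) x
      left_inv := by
        intro x
        funext i
        have h := lc_act M x (M.symm (Pi.single i 1))
        rw [LinearEquiv.apply_symm_apply, lc_single] at h
        exact h
      right_inv := by
        intro x
        funext i
        have h := lc_act M.symm x (M (Pi.single i 1))
        rw [LinearEquiv.symm_apply_apply, lc_single] at h
        exact h }
  refine Fintype.expect_equiv e _ _ fun x => ?_
  have he : e x = fun i => lc (M (Pi.single i 1)) x := rfl
  rw [he]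
  have h1 : IsFr g y x ↔ IsFr g y (fun i => lc (M (Pi.single i 1)) x) := by
    constructor
    · intro h u
      rw [lc_act]
      exact h _
    · intro h u
      have h2 := h (M.symm u)
      rwa [lc_act, LinearEquiv.apply_symm_apply] at h2
  rw [iv_congr h1]

end

end Pool.Agent.H22.QK
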