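import Pool.Agent.H22.QK.FrVal

/-!
# FrCav: the average of a set over the directions of a random frame (about 100 lines)

PROOF of `FR_cav`. `FR (𝔼_u C (lc u x)) = 𝔼_u FR (C (lc u x))`; the term `u = 0` is `≥ 0`. For
`u ≠ 0`, `FR_one_dir` with `F y z = C z`: the term is at least
`𝔼_z C z [|Y|^2 𝔼_y iv (g y = 0) iv (g (y+z) = 0)] - τ`. For `z` such that `bl b l z ≠ 0` for all
`l ≠ 0` the bracket is at least `1 - |Y|^2 (1/2)^s`: `count_point` for
`Θ y = (g y, g (y+z)) ∈ Y × Y`, a character `(l0, l1) ≠ 0` gives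
`(l0 + l1) (g y) + l1 (b y z) + const`; if `l0 + l1 ≠ 0` use `bias`, otherwise the linear form
`l1 (b y z) = bl b l1 z y` is nonzero. The other `z` have measure at most `|Y| (1/2)^(2s)`
(`nondeg_count` with `h = 0`) and for them the bracket is `≥ 0`. So the term is at least
`𝔼 C - |Y| (1/2)^(2s) - |Y|^2 (1/2)^s - τ ≥ 𝔼 C - 2 |Y|^2 (1/2)^s - τ ≥ 𝔼 C - 2 τ`
(`1 ≤ m`, `mexp m ≥ 2`). Since the proportion of `u = 0` is `δ` and `𝔼 C ≤ 1`:
total at least `(1 - δ) (𝔼 C - 2 τ) ≥ 𝔼 C - δ - 2 τ`.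
-/

set_option autoImplicit false

open Finset Function Module
open scoped BigOperators
open Pool.Agent.H77.KM

namespace Pool.Agent.H22.QK

section

variable {V : Type} [AddCommGroup V] [Module (ZMod 2) V] [Fintype V]
variable {Y : Type} [AddCommGroup Y] [Module (ZMod 2) Y] [Fintype Y]
variable {g : V → Y} {b : V →ₗ[ZMod 2] V →ₗ[ZMod 2] Y} {m : ℕ}

/-- The number of `y` with `g y = g (y + z) = 0`, for a nondegenerate direction `z`. -/
private theorem cav_count (hg : IsQM g b) {s : ℕ} (hs : Reg b s) (z : V)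
    (hz : ¬ ∃ l : Dual (ZMod 2) Y, l ≠ 0 ∧ ∀ y, l (b z y + (0 : V →ₗ[ZMod 2] Y) y) = 0) :
    1 - (Fintype.card Y : ℝ) ^ 2 * (1 / 2) ^ s
      ≤ (Fintype.card Y : ℝ) ^ 2 * 𝔼 y, iv (g y = 0) * iv (g (y + z) = 0) := by
  classical
  have hY : (0 : ℝ) < Fintype.card Y := by
    exact_mod_cast Fintype.card_pos_iff.2 ⟨(0 : Y)⟩
  have hnd : ∀ l : Dual (ZMod 2) Y, l ≠ 0 → bl b l z ≠ 0 := by
    intro l hl h0
    refine hz ⟨l, hl, fun y => ?_⟩
    rw [LinearMap.zero_apply, add_zero]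
    have := LinearMap.congr_fun h0 y
    rwa [bl_apply, LinearMap.zero_apply] at this
  have key := count_point (Y := Y × Y) (X := V) (fun y => (g y, g (y + z))) (0, 0)
    (δ := (1 / 2) ^ s) (by positivity) ?_
  · have h1 : ∀ y, iv ((g y, g (y + z)) = ((0, 0) : Y × Y)) = iv (g y = 0) * iv (g (y + z) = 0) := by
      intro y
      rw [← iv_and]
      exact iv_congr Prod.mk_inj
    simp only [h1] at key
    rw [Fintype.card_prod, Nat.cast_mul] at key
    have h2 := (abs_le.1 key).1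
    have h3 : (Fintype.card Y : ℝ) ^ 2 * (1 / ((Fintype.card Y : ℝ) * Fintype.card Y)) = 1 := by
      field_simp
    nlinarith [mul_le_mul_of_nonneg_left h2 (sq_nonneg (Fintype.card Y : ℝ))]
  · intro l hl
    set l0 : Dual (ZMod 2) Y := l ∘ₗ LinearMap.inl (ZMod 2) Y Y with hl0
    set l1 : Dual (ZMod 2) Y := l ∘ₗ LinearMap.inr (ZMod 2) Y Y with hl1
    have hl01 : ∀ a c : Y, l (a, c) = l0 a + l1 c := by
      intro a c
      rw [hl0, hl1, LinearMap.comp_apply, LinearMap.comp_apply, LinearMap.inl_apply,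
        LinearMap.inr_apply, ← map_add, Prod.mk_add_mk, add_zero, zero_add]
    have hval : ∀ y, sgn (l (g y, g (y + z)))
        = sgn (l1 (g z) + l1 (g 0)) * sgn ((l0 + l1) (g y) + bl b l1 z y) := by
      intro y
      rw [← sgn_add]
      congr 1
      rw [hl01, hg y z, LinearMap.add_apply, bl_apply, hg.symm z y]
      simp only [map_add]
      ring
    simp only [hval]
    rw [← Finset.mul_expect, abs_mul, abs_sgn, one_mul]
    by_cases h : l0 + l1 = 0
    · have hl1' : l1 ≠ 0 := by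
        intro h1
        apply hl
        rw [h1, add_zero] at h
        refine LinearMap.ext fun p => ?_
        obtain ⟨a, c⟩ := p
        rw [hl01, h, h1]
        simp
      simp only [h, LinearMap.zero_apply, zero_add]
      have h2 := expect_chi_eq_zero (hnd l1 hl1')
      simp only [chi] at h2
      rw [h2, abs_zero]
      positivity
    · exact bias hg (l0 + l1) (bl b l1 z) (hs _ h)

theorem FR_cav (hg : IsQM g b) {s : ℕ} (hs : Reg b s) (hτ : tauF Y m s ≤ 1) (hm : 1 ≤ m)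
    (C : V → ℝ) (hC : ∀ x, C x = 0 ∨ C x = 1) :
    𝔼 z, C z - (1 / 2) ^ m - 2 * tauF Y m s
      ≤ FR g m (fun _ x => 𝔼 u : Fin m → ZMod 2, C (lc u x)) := by
  classical
  have hY1 : (1 : ℝ) ≤ Fintype.card Y := by
    have : 0 < Fintype.card Y := Fintype.card_pos_iff.2 ⟨(0 : Y)⟩
    exact_mod_cast this
  have hC0 : ∀ x, 0 ≤ C x := fun x => by rcases hC x with h | h <;> rw [h]; norm_num
  have hC1 : ∀ x, C x ≤ 1 := fun x => by rcases hC x with h | h <;> rw [h]; norm_num
  have hEC : 𝔼 z, C z ≤ 1 := by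
    refine (Finset.expect_le_expect (fun z _ => hC1 z)).trans ?_
    rw [Finset.expect_const Finset.univ_nonempty]
  have hτ0 : 0 ≤ tauF Y m s := by
    unfold tauF
    positivity
  have hsmall : (Fintype.card Y : ℝ) * (1 / 2) ^ (2 * s) + (Fintype.card Y : ℝ) ^ 2 * (1 / 2) ^ s
      ≤ tauF Y m s := by
    have h1 : (Fintype.card Y : ℝ) * (1 / 2) ^ (2 * s) ≤ (Fintype.card Y : ℝ) ^ 2 * (1 / 2) ^ s := by
      refine mul_le_mul ?_ ?_ (by positivity) (by positivity)
      · nlinarith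
      · exact pow_le_pow_of_le_one (by norm_num) (by norm_num) (by omega)
    have h2 : (Fintype.card Y : ℝ) ^ 2 ≤ (Fintype.card Y : ℝ) ^ mexp m := by
      refine pow_le_pow_right₀ hY1 ?_
      have := mexp_mono hm
      simpa [mexp] using this
    have h3 : (2 : ℝ) ≤ 2 * (m + 1) := by
      have : (0 : ℝ) ≤ m := Nat.cast_nonneg m
      linarith
    unfold tauF
    have h4 : (Fintype.card Y : ℝ) ^ 2 * 2 ≤ (Fintype.card Y : ℝ) ^ mexp m * (2 * (m + 1)) :=
      mul_le_mul h2 h3 (by norm_num) (by positivity)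
    have h5 := mul_le_mul_of_nonneg_right h4 (by positivity : (0 : ℝ) ≤ (1 / 2) ^ s)
    nlinarith
  -- one direction
  have hone : ∀ u : Fin m → ZMod 2, u ≠ 0 →
      𝔼 z, C z - 2 * tauF Y m s ≤ FR g m (fun _ x => C (lc u x)) := by
    intro u hu
    have h1 := FR_one_dir hg hs hτ hu (fun _ z => C z) (fun _ z => by
      rw [abs_of_nonneg (hC0 z)]; exact hC1 z)
    have h2 : (Fintype.card Y : ℝ) ^ 2 * 𝔼 y, 𝔼 z, iv (g y = 0) * iv (g (y + z) = 0) * C z
        = 𝔼 z, C z * ((Fintype.card Y : ℝ) ^ 2 * 𝔼 y, iv (g y = 0) * iv (g (y + z) = 0)) := by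
      rw [Finset.expect_comm, Finset.mul_expect]
      refine Finset.expect_congr rfl (fun z _ => ?_)
      rw [← Finset.expect_mul]
      ring
    have h3 : 𝔼 z, C z - (𝔼 z, iv (∃ l : Dual (ZMod 2) Y, l ≠ 0 ∧
          ∀ y, l (b z y + (0 : V →ₗ[ZMod 2] Y) y) = 0))
          - (Fintype.card Y : ℝ) ^ 2 * (1 / 2) ^ s
        ≤ 𝔼 z, C z * ((Fintype.card Y : ℝ) ^ 2 * 𝔼 y, iv (g y = 0) * iv (g (y + z) = 0)) := by
      have h4 : (Fintype.card Y : ℝ) ^ 2 * (1 / 2) ^ s
          = 𝔼 _z : V, (Fintype.card Y : ℝ) ^ 2 * (1 / 2) ^ s := by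
        rw [Finset.expect_const Finset.univ_nonempty]
      rw [h4, ← Finset.expect_sub_distrib, ← Finset.expect_sub_distrib]
      refine Finset.expect_le_expect (fun z _ => ?_)
      have hε : 0 ≤ (Fintype.card Y : ℝ) ^ 2 * (1 / 2) ^ s := by positivity
      have hbr : 0 ≤ (Fintype.card Y : ℝ) ^ 2 * 𝔼 y, iv (g y = 0) * iv (g (y + z) = 0) :=
        mul_nonneg (by positivity)
          (Finset.expect_nonneg fun y _ => mul_nonneg (iv_nonneg _) (iv_nonneg _))
      by_cases hz : ∃ l : Dual (ZMod 2) Y, l ≠ 0 ∧ ∀ y, l (b z y + (0 : V →ₗ[ZMod 2] Y) y) = 0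
      · rw [iv_pos hz]
        have := mul_nonneg (hC0 z) hbr
        have := hC1 z
        linarith
      · rw [iv_neg hz]
        have h5 := cav_count hg hs z hz
        rcases hC z with h | h <;> rw [h]
        · linarith
        · linarith
    have h6 := nondeg_count hs (0 : V →ₗ[ZMod 2] Y)
    have h7 := (abs_le.1 h1).1
    rw [h2] at h7
    linarith
  -- the average over the directions
  rw [FR_expect]
  have hu : ∀ u : Fin m → ZMod 2, 𝔼 z, C z - 2 * tauF Y m s - iv (u = 0)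
      ≤ FR g m (fun _ x => C (lc u x)) := by
    intro u
    by_cases h : u = 0
    · rw [iv_pos h]
      have h1 : 0 ≤ FR g m (fun _ x => C (lc u x)) := FR_nonneg (fun _ x _ => hC0 _)
      linarith
    · rw [iv_neg h]
      have := hone u h
      linarith
  have h8 : 𝔼 u : Fin m → ZMod 2, iv (u = 0) = (1 / 2) ^ m := by
    have h9 : ∀ u : Fin m → ZMod 2, iv (u = 0) = if u = 0 then (1 : ℝ) else 0 := by
      intro u
      by_cases h : u = 0
      · rw [iv_pos h, if_pos h]
      · rw [iv_neg h, if_neg h]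
    simp only [h9]
    rw [Finset.expect_eq_sum_div_card, Finset.sum_ite_eq' Finset.univ (0 : Fin m → ZMod 2)]
    rw [if_pos (Finset.mem_univ _), Finset.card_univ, Fintype.card_fun, ZMod.card, Fintype.card_fin]
    rw [one_div, one_div, inv_pow]
    push_cast
    rfl
  have h10 : 𝔼 u : Fin m → ZMod 2, (𝔼 z, C z - 2 * tauF Y m s - iv (u = 0))
      = 𝔼 z, C z - 2 * tauF Y m s - (1 / 2) ^ m := by
    rw [Finset.expect_sub_distrib, h8, Finset.expect_const Finset.univ_nonempty]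
  have h11 := Finset.expect_le_expect (s := (Finset.univ : Finset (Fin m → ZMod 2)))
    (fun u _ => hu u)
  rw [h10] at h11
  linarith

end

end Pool.Agent.H22.QK
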