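import Pool.Agent.H22.QK.QCount

/-!
# FrDefs: random affine subspaces of a quadric (frames) (about 110 lines)

* `lc u x = ∑ u_i x_i`.
* `IsFr g y x`: the whole affine subspace `{y + lc u x}` lies in `{g = 0}`.
* `FR g m F`: the normalised average of `F` over all frames with `m` directions; `mexp m =
  1 + 1 + 2 + ... + m` is the number of equations (each costs a factor `1/|Y|`).
* `tauF Y m s`: the error term.

PROOFS. `lc` is bilinear (`Finset.sum_add_distrib`, `add_smul`), `lc (Pi.single i 1) x = x i`.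
`FR` is `(card)^mexp *` an average of nonnegative weights `iv (IsFr ..)` times `F`: linearity and
monotonicity are immediate; `FR_expect`/`FR_sum` by `Finset.expect_comm`, `Finset.mul_expect`;
`FR_cs` is the Cauchy-Schwarz inequality for the weights `iv (IsFr g y x)` on `V × (Fin m → V)`
(for instance: the discriminant of `t ↦ FR ((F - t)^2) ≥ 0`, a quadratic polynomial in `t`, is
nonpositive; if `FR 1 = 0` all values vanish); `FR_exists`: if for all frames `F ≤ 0` then
`FR F ≤ 0`.
-/

set_option autoImplicit false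

open Finset Function Module
open scoped BigOperators
open Pool.Agent.H77.KM

namespace Pool.Agent.H22.QK

section

variable {V : Type} [AddCommGroup V] [Module (ZMod 2) V]
variable {Y : Type} [AddCommGroup Y] [Module (ZMod 2) Y]

/-- Linear combinations. -/
def lc {m : ℕ} (u : Fin m → ZMod 2) (x : Fin m → V) : V := ∑ i, u i • x i

/-- `(y, x)` is a frame: the affine subspace `y + span x` lies in `{g = 0}`. -/
def IsFr (g : V → Y) {m : ℕ} (y : V) (x : Fin m → V) : Prop :=
  ∀ u : Fin m → ZMod 2, g (y + lc u x) = 0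

/-- The number of equations satisfied by a frame. -/
def mexp : ℕ → ℕ
  | 0 => 1
  | m + 1 => mexp m + (m + 1)

variable [Fintype V] [Fintype Y]

/-- Normalised average over the frames. -/
noncomputable def FR (g : V → Y) (m : ℕ) (F : V → (Fin m → V) → ℝ) : ℝ :=
  (Fintype.card Y : ℝ) ^ mexp m * 𝔼 y, 𝔼 x : Fin m → V, iv (IsFr g y x) * F y x

/-- The error term. -/
noncomputable def tauF (Y : Type) [Fintype Y] (m s : ℕ) : ℝ :=
  (Fintype.card Y : ℝ) ^ mexp m * (2 * (m + 1)) * (1 / 2) ^ s

end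

section

variable {V : Type} [AddCommGroup V] [Module (ZMod 2) V]
variable {Y : Type} [AddCommGroup Y] [Module (ZMod 2) Y]
variable {g : V → Y} {m : ℕ}

theorem lc_add (u v : Fin m → ZMod 2) (x : Fin m → V) : lc (u + v) x = lc u x + lc v x := by
  simp only [lc, Pi.add_apply, add_smul, Finset.sum_add_distrib]

theorem lc_zero (x : Fin m → V) : lc 0 x = 0 := by
  simp only [lc, Pi.zero_apply, zero_smul, Finset.sum_const_zero]

theorem lc_single (i : Fin m) (x : Fin m → V) : lc (Pi.single i 1) x = x i := by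
  rw [lc, Finset.sum_eq_single i]
  · rw [Pi.single_eq_same, one_smul]
  · intro j _ hj
    rw [Pi.single_eq_of_ne hj, zero_smul]
  · intro h
    exact absurd (Finset.mem_univ i) h

theorem mexp_le (m : ℕ) : mexp m ≤ (m + 1) ^ 2 := by
  induction m with
  | zero => simp [mexp]
  | succ m ih =>
    rw [mexp]
    nlinarith [ih]

theorem mexp_mono {m n : ℕ} (h : m ≤ n) : mexp m ≤ mexp n := by
  induction h with
  | refl => exact le_rfl
  | step _ ih =>
    rw [mexp]
    omega

variable [Fintype V] [Fintype Y]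

theorem FR_mono {F F' : V → (Fin m → V) → ℝ} (h : ∀ y x, IsFr g y x → F y x ≤ F' y x) :
    FR g m F ≤ FR g m F' := by
  rw [FR, FR]
  refine mul_le_mul_of_nonneg_left ?_ (by positivity)
  refine Finset.expect_le_expect fun y _ => ?_
  refine Finset.expect_le_expect fun x _ => ?_
  by_cases hx : IsFr g y x
  · exact mul_le_mul_of_nonneg_left (h y x hx) (iv_nonneg _)
  · rw [iv_neg hx, zero_mul, zero_mul]

theorem FR_nonneg {F : V → (Fin m → V) → ℝ} (h : ∀ y x, IsFr g y x → 0 ≤ F y x) :
    0 ≤ FR g m F := by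
  have h1 : FR g m (fun _ _ => 0) ≤ FR g m F := FR_mono h
  have h2 : FR g m (fun _ _ => 0) = 0 := by
    rw [FR]
    simp only [mul_zero, Finset.expect_const_zero]
  rw [h2] at h1
  exact h1

theorem FR_add (F F' : V → (Fin m → V) → ℝ) :
    FR g m (fun y x => F y x + F' y x) = FR g m F + FR g m F' := by
  simp only [FR, mul_add, Finset.expect_add_distrib]

theorem FR_sub (F F' : V → (Fin m → V) → ℝ) :
    FR g m (fun y x => F y x - F' y x) = FR g m F - FR g m F' := by
  simp only [FR, mul_sub, Finset.expect_sub_distrib]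

theorem FR_mul (c : ℝ) (F : V → (Fin m → V) → ℝ) :
    FR g m (fun y x => c * F y x) = c * FR g m F := by
  simp only [FR]
  have h : ∀ y : V, ∀ x : Fin m → V,
      iv (IsFr g y x) * (c * F y x) = c * (iv (IsFr g y x) * F y x) := fun y x => by ring
  simp only [h, ← Finset.mul_expect]
  ring

theorem FR_sum {ι : Type} (S : Finset ι) (F : ι → V → (Fin m → V) → ℝ) :
    FR g m (fun y x => ∑ i ∈ S, F i y x) = ∑ i ∈ S, FR g m (F i) := by
  simp only [FR, Finset.mul_sum, Finset.expect_sum_comm]

theorem FR_expect {ι : Type} [Fintype ι] (F : ι → V → (Fin m → V) → ℝ) :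
    FR g m (fun y x => 𝔼 i, F i y x) = 𝔼 i, FR g m (F i) := by
  have h : ∀ C : ℝ, ∀ G : ι → V → (Fin m → V) → ℝ,
      C * 𝔼 y, 𝔼 x : Fin m → V, 𝔼 i, G i y x = 𝔼 i, C * 𝔼 y, 𝔼 x : Fin m → V, G i y x := by
    intro C G
    rw [← Finset.mul_expect]
    congr 1
    rw [Finset.expect_comm Finset.univ Finset.univ (fun i y => 𝔼 x : Fin m → V, G i y x)]
    refine Finset.expect_congr rfl fun y _ => ?_
    exact Finset.expect_comm Finset.univ Finset.univ (fun x i => G i y x)
  simp only [FR]
  rw [← h]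
  simp only [Finset.mul_expect]

theorem FR_prod (F : V → (Fin m → V) → ℝ) :
    FR g m F = (Fintype.card Y : ℝ) ^ mexp m *
      𝔼 p : V × (Fin m → V), iv (IsFr g p.1 p.2) * F p.1 p.2 := by
  rw [FR, ← Finset.univ_product_univ, Finset.expect_product]

theorem FR_cs (F : V → (Fin m → V) → ℝ) :
    FR g m F ^ 2 ≤ FR g m (fun _ _ => 1) * FR g m (fun y x => F y x ^ 2) := by
  rw [FR_prod, FR_prod, FR_prod, mul_pow]
  have h := Finset.expect_mul_sq_le_sq_mul_sq (Finset.univ : Finset (V × (Fin m → V)))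
    (fun p => iv (IsFr g p.1 p.2)) (fun p => iv (IsFr g p.1 p.2) * F p.1 p.2)
  have hsq : ∀ p : Prop, iv p * iv p = iv p := fun p => by
    rcases iv_cases p with h | h <;> rw [h] <;> norm_num
  have e1 : ∀ p : V × (Fin m → V), iv (IsFr g p.1 p.2) * (iv (IsFr g p.1 p.2) * F p.1 p.2)
      = iv (IsFr g p.1 p.2) * F p.1 p.2 := fun p => by rw [← mul_assoc, hsq]
  have e2 : ∀ p : V × (Fin m → V), iv (IsFr g p.1 p.2) ^ 2 = iv (IsFr g p.1 p.2) * 1 :=
    fun p => by rw [sq, hsq, mul_one]
  have e3 : ∀ p : V × (Fin m → V), (iv (IsFr g p.1 p.2) * F p.1 p.2) ^ 2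
      = iv (IsFr g p.1 p.2) * F p.1 p.2 ^ 2 := fun p => by rw [mul_pow, sq (iv _), hsq]
  simp only [e1, e2, e3] at h
  have hC : (0 : ℝ) ≤ ((Fintype.card Y : ℝ) ^ mexp m) ^ 2 := by positivity
  have := mul_le_mul_of_nonneg_left h hC
  calc _ ≤ _ := this
    _ = _ := by ring

theorem FR_exists {F : V → (Fin m → V) → ℝ} (h : 0 < FR g m F) :
    ∃ y x, IsFr g y x ∧ 0 < F y x := by
  by_contra hcon
  have h1 : FR g m F ≤ FR g m (fun _ _ => 0) := by
    refine FR_mono fun y x hx => ?_
    by_contra hlt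
    exact hcon ⟨y, x, hx, not_le.mp hlt⟩
  have h2 : FR g m (fun _ _ => 0) = 0 := by
    rw [FR]
    simp only [mul_zero, Finset.expect_const_zero]
  rw [h2] at h1
  exact absurd h (not_lt.mpr h1)

end

end Pool.Agent.H22.QK
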