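import Pool.Agent.H22.QK.FrDefs

/-!
# FrExt: counting the extensions of a frame (about 170 lines)

PROOF of `isFr_snoc`. `g (y + lc u x + z) = g (y + lc u x) + g z + g 0 + b (y + lc u x) z` and
`b (y + lc u x) z = b y z + ∑ u_i b (x_i) z`. A vector of `Fin (m+1) → ZMod 2` is
`(u, 0)` or `(u, 1)`; use `Fin.sum_univ_castSucc`. If the right side holds, all values vanish;
conversely take `u = 0`, then `u = Pi.single i 1`.

PROOF of `deg_count`. Union bound over the fewer than `|Y|^m` nonzero `l : Fin m → Dual Y`. For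
such an `l` fix `i` with `l i ≠ 0` and fix the `x j`, `j ≠ i`: then `bl b (l i) (x i)` is
prescribed, and `ker_count` gives at most `(1/2)^(2s)`. (Formally: average over the `i`-th
coordinate first; `Equiv.piSplitAt`/`Fin.insertNthEquiv`.)

PROOF of `ext_count`. `count_point` for `Θ : V → Y × (Fin m → Y)`,
`Θ z = (g z + g 0 + b y z, fun i => b (x i) z)` and the point `0`, `δ = (1/2)^s`. A nonzero
character of `Y × (Fin m → Y)` is `(y, w) ↦ l0 y + ∑ l_i (w i)`. If `l0 ≠ 0`: `bias` for `l0`
and the linear form `z ↦ l0 (b y z) + ∑ l_i (b (x i) z)` (constant `l0 (g 0)` only changes the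
sign). If `l0 = 0`, `l ≠ 0`: the linear form `∑ bl b (l i) (x i)` is nonzero by hypothesis and its
character has average zero (`expect_chi_eq_zero`).
-/

set_option autoImplicit false

open Finset Function Module
open scoped BigOperators
open Pool.Agent.H77.KM

namespace Pool.Agent.H22.QK

section

variable {V : Type} [AddCommGroup V] [Module (ZMod 2) V] [Fintype V]
variable {Y : Type} [AddCommGroup Y] [Module (ZMod 2) Y] [Fintype Y]
variable {g : V → Y} {b : V →ₗ[ZMod 2] V →ₗ[ZMod 2] Y} {m : ℕ}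

omit [Fintype V] [Fintype Y] in
private lemma lc_snoc (u : Fin (m + 1) → ZMod 2) (x : Fin m → V) (z : V) :
    lc u (Fin.snoc x z : Fin (m + 1) → V) =
      lc (fun i => u i.castSucc) x + u (Fin.last m) • z := by
  unfold lc
  rw [Fin.sum_univ_castSucc]
  simp

omit [Fintype V] [Fintype Y] in
private lemma lc_snoc' (u : Fin m → ZMod 2) (c : ZMod 2) (x : Fin m → V) (z : V) :
    lc (Fin.snoc u c : Fin (m + 1) → ZMod 2) (Fin.snoc x z : Fin (m + 1) → V) =
      lc u x + c • z := by
  rw [lc_snoc]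
  simp

theorem isFr_snoc (hg : IsQM g b) (y : V) (x : Fin m → V) (z : V) :
    IsFr g y (Fin.snoc x z : Fin (m + 1) → V) ↔
      IsFr g y x ∧ (g z + g 0 + b y z = 0 ∧ ∀ i, b (x i) z = 0) := by
  have key : ∀ u : Fin m → ZMod 2, g (y + lc u x) = 0 →
      g (y + (lc u x + z)) = (g z + g 0 + b y z) + b (lc u x) z := by
    intro u hu
    rw [← add_assoc, hg (y + lc u x) z, hu, map_add, LinearMap.add_apply]
    abel
  constructor
  · intro h
    have h1 : IsFr g y x := by
      intro u
      have := h (Fin.snoc u 0)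
      rwa [lc_snoc', zero_smul, add_zero] at this
    have h2 : ∀ u : Fin m → ZMod 2, (g z + g 0 + b y z) + b (lc u x) z = 0 := by
      intro u
      have := h (Fin.snoc u 1)
      rw [lc_snoc', one_smul] at this
      rw [← key u (h1 u), this]
    have h3 : g z + g 0 + b y z = 0 := by
      have := h2 0
      rwa [lc_zero, map_zero, LinearMap.zero_apply, add_zero] at this
    refine ⟨h1, h3, fun i => ?_⟩
    have := h2 (Pi.single i 1)
    rwa [lc_single, h3, zero_add] at this
  · rintro ⟨h1, h2, h3⟩ u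
    rw [lc_snoc]
    have hc : ∀ c : ZMod 2, c = 0 ∨ c = 1 := by decide
    rcases hc (u (Fin.last m)) with h | h
    · rw [h, zero_smul, add_zero]
      exact h1 _
    · rw [h, one_smul, key _ (h1 _), h2, zero_add]
      unfold lc
      rw [map_sum, LinearMap.sum_apply]
      refine Finset.sum_eq_zero fun i _ => ?_
      rw [map_smul, LinearMap.smul_apply, h3 i, smul_zero]

theorem deg_count {s : ℕ} (hs : Reg b s) (m : ℕ) :
    𝔼 x : Fin m → V, iv (∃ l : Fin m → Dual (ZMod 2) Y, l ≠ 0 ∧ ∑ i, bl b (l i) (x i) = 0)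
      ≤ (Fintype.card Y : ℝ) ^ m * (1 / 2) ^ (2 * s) := by
  classical
  -- one tuple of functionals
  have h1 : ∀ l : Fin m → Dual (ZMod 2) Y, l ≠ 0 →
      𝔼 x : Fin m → V, iv (∑ i, bl b (l i) (x i) = 0) ≤ (1 / 2) ^ (2 * s) := by
    intro l hl
    obtain ⟨i, hi⟩ := Function.ne_iff.mp hl
    have e1 : 𝔼 x : Fin m → V, iv (∑ j, bl b (l j) (x j) = 0) =
        𝔼 x : Fin m → V, 𝔼 t : V,
          iv (∑ j, bl b (l j) ((x + (Pi.single i t : Fin m → V)) j) = 0) := by
      rw [Finset.expect_comm]
      have : ∀ t : V, 𝔼 x : Fin m → V,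
          iv (∑ j, bl b (l j) ((x + (Pi.single i t : Fin m → V)) j) = 0) =
          𝔼 x : Fin m → V, iv (∑ j, bl b (l j) (x j) = 0) := fun t =>
        expect_add_right (fun x : Fin m → V => iv (∑ j, bl b (l j) (x j) = 0))
          (Pi.single i t : Fin m → V)
      simp only [this]
      exact (Finset.expect_const Finset.univ_nonempty _).symm
    rw [e1]
    refine Finset.expect_le Finset.univ_nonempty fun x _ => ?_
    have e2 : ∀ t : V, iv (∑ j, bl b (l j) ((x + (Pi.single i t : Fin m → V)) j) = 0) =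
        iv (bl b (l i) t = - ∑ j, bl b (l j) (x j)) := by
      intro t
      have e3 : ∑ j, bl b (l j) ((x + (Pi.single i t : Fin m → V)) j) =
          ∑ j, bl b (l j) (x j) + bl b (l i) t := by
        simp only [Pi.add_apply, map_add]
        rw [Finset.sum_add_distrib]
        congr 1
        rw [Finset.sum_eq_single i]
        · rw [Pi.single_eq_same]
        · intro j _ hj
          rw [Pi.single_eq_of_ne hj, map_zero]
        · intro h
          exact absurd (Finset.mem_univ i) h
      rw [e3]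
      refine iv_congr ?_
      constructor
      · intro h
        exact eq_neg_of_add_eq_zero_right h
      · intro h
        rw [h, add_neg_cancel]
    simp only [e2]
    exact ker_count (l i) _ (hs (l i) hi)
  -- union bound
  have h2 : ∀ x : Fin m → V,
      iv (∃ l : Fin m → Dual (ZMod 2) Y, l ≠ 0 ∧ ∑ i, bl b (l i) (x i) = 0) ≤
      ∑ l ∈ (Finset.univ : Finset (Fin m → Dual (ZMod 2) Y)).erase 0,
        iv (∑ i, bl b (l i) (x i) = 0) := by
    intro x
    by_cases h : ∃ l : Fin m → Dual (ZMod 2) Y, l ≠ 0 ∧ ∑ i, bl b (l i) (x i) = 0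
    · rw [iv_pos h]
      obtain ⟨l, hl, hl2⟩ := h
      rw [← iv_pos hl2]
      exact Finset.single_le_sum
        (f := fun l : Fin m → Dual (ZMod 2) Y => iv (∑ i, bl b (l i) (x i) = 0))
        (fun l _ => iv_nonneg _) (Finset.mem_erase.mpr ⟨hl, Finset.mem_univ l⟩)
    · rw [iv_neg h]
      exact Finset.sum_nonneg fun l _ => iv_nonneg _
  refine le_trans (Finset.expect_le_expect fun x _ => h2 x) ?_
  rw [Finset.expect_sum_comm]
  refine le_trans (Finset.sum_le_sum fun l hl => h1 l (Finset.ne_of_mem_erase hl)) ?_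
  rw [Finset.sum_const, nsmul_eq_mul]
  refine mul_le_mul_of_nonneg_right ?_ (by positivity)
  have h3 : ((Finset.univ : Finset (Fin m → Dual (ZMod 2) Y)).erase 0).card ≤
      Fintype.card Y ^ m := by
    refine le_trans (Finset.card_erase_le) ?_
    rw [Finset.card_univ, Fintype.card_fun, Fintype.card_fin, card_dual]
  exact_mod_cast h3

theorem ext_count (hg : IsQM g b) {s : ℕ} (hs : Reg b s) (y : V) (x : Fin m → V)
    (hx : ¬ ∃ l : Fin m → Dual (ZMod 2) Y, l ≠ 0 ∧ ∑ i, bl b (l i) (x i) = 0) :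
    |𝔼 z, iv (g z + g 0 + b y z = 0 ∧ ∀ i, b (x i) z = 0)
      - 1 / (Fintype.card Y : ℝ) ^ (m + 1)| ≤ (1 / 2) ^ s := by
  classical
  set Θ : V → Y × (Fin m → Y) := fun z => (g z + g 0 + b y z, fun i => b (x i) z) with hΘ
  have hcard : (Fintype.card (Y × (Fin m → Y)) : ℝ) = (Fintype.card Y : ℝ) ^ (m + 1) := by
    rw [Fintype.card_prod, Fintype.card_fun, Fintype.card_fin]
    push_cast
    ring
  have hiv : ∀ z, iv (g z + g 0 + b y z = 0 ∧ ∀ i, b (x i) z = 0) = iv (Θ z = 0) := by
    intro z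
    refine iv_congr ?_
    rw [hΘ, Prod.mk_eq_zero, funext_iff]
    rfl
  simp only [hiv]
  rw [← hcard]
  refine count_point Θ 0 (by positivity) ?_
  intro l hl
  -- the components of the character
  set l0 : Dual (ZMod 2) Y := l.comp (LinearMap.inl (ZMod 2) Y (Fin m → Y)) with hl0
  set li : Fin m → Dual (ZMod 2) Y := fun i =>
    l.comp ((LinearMap.inr (ZMod 2) Y (Fin m → Y)).comp (LinearMap.single (ZMod 2) (fun _ => Y) i))
    with hli
  have hdec : ∀ (a : Y) (w : Fin m → Y), l (a, w) = l0 a + ∑ i, li i (w i) := by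
    intro a w
    have e1 : ((a, w) : Y × (Fin m → Y)) =
        LinearMap.inl (ZMod 2) Y (Fin m → Y) a + LinearMap.inr (ZMod 2) Y (Fin m → Y) w := by
      simp
    have e2 : l (LinearMap.inr (ZMod 2) Y (Fin m → Y) w) = ∑ i, li i (w i) := by
      have e3 : w = ∑ i, LinearMap.single (ZMod 2) (fun _ : Fin m => Y) i (w i) := by
        simp only [LinearMap.coe_single]
        exact (Finset.univ_sum_single w).symm
      conv_lhs => rw [e3]
      rw [map_sum, map_sum]
      rfl
    rw [e1, map_add, e2]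
    rfl
  set ζ : Dual (ZMod 2) V := ∑ i, bl b (li i) (x i) with hζ
  have hζz : ∀ z, ∑ i, li i (b (x i) z) = ζ z := by
    intro z
    rw [hζ, LinearMap.sum_apply]
    rfl
  have hval : ∀ z, l (Θ z) = (l0 (g z) + (bl b l0 y + ζ) z) + l0 (g 0) := by
    intro z
    rw [hΘ]
    simp only []
    rw [hdec, hζz, map_add, map_add, LinearMap.add_apply, bl_apply]
    abel
  by_cases h0 : l0 = 0
  · have hli0 : li ≠ 0 := by
      intro h
      apply hl
      refine LinearMap.ext fun p => ?_
      obtain ⟨a, w⟩ := p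
      rw [hdec, h0, h]
      simp
    have hζ0 : ζ ≠ 0 := fun h => hx ⟨li, hli0, h⟩
    have : 𝔼 z, sgn (l (Θ z)) = 𝔼 z, chi ζ z := by
      refine Finset.expect_congr rfl fun z _ => ?_
      rw [hval z, h0]
      unfold chi
      congr 1
      simp [bl]
    rw [this, expect_chi_eq_zero hζ0, abs_zero]
    positivity
  · have : 𝔼 z, sgn (l (Θ z)) = (𝔼 z, sgn (l0 (g z) + (bl b l0 y + ζ) z)) * sgn (l0 (g 0)) := by
      rw [Finset.expect_mul]
      refine Finset.expect_congr rfl fun z _ => ?_
      rw [hval z, sgn_add]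
    rw [this, abs_mul, abs_sgn, mul_one]
    exact bias hg l0 _ (hs l0 h0)

end

end Pool.Agent.H22.QK
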