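import Pool.Agent.H22.QK.FrVar

/-!
# FrJen: lower bound for the fourth moment of a Fourier coefficient (about 110 lines)

PROOF of `FR_jensen`. `a = |Y| |hat E ξ| ≤ 2` (`mean_le_two`), `δ = (1/2)^m`, `τ = tauF ≤ 1`,
`Ψ y x = 𝔼_u E (y + lc u x) chi ξ (lc u x)`.
`FR (Ψ^2) = 𝔼_u 𝔼_u' FR (E (y + lc u x) E (y + lc u' x) chi ξ (lc (u+u') x))`. For `u ≠ u'`
(`FR_shift`, `FR_one_dir` with `F y z = E y E (y+z) chi ξ z`) the term is at least
`|Y|^2 𝔼_y 𝔼_z E y E (y+z) chi ξ z - τ = |Y|^2 (hat E ξ)^2 - τ = a^2 - τ`; for `u = u'` it is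
`≥ 0`. So `FR (Ψ^2) ≥ (1 - δ)(a^2 - τ)`, hence `≥ a^2 - 4 δ - τ =: q`. `FR_cs` for `Ψ^2`:
`(FR (Ψ^2))^2 ≤ FR 1 * FR (Ψ^4) ≤ (1 + τ) FR (Ψ^4)`. If `q ≥ 0`:
`FR (Ψ^4) ≥ q^2 (1 - τ) ≥ q^2 - 16 τ` (`q ≤ 4`) and `q^2 ≥ a^4 - 2 a^2 (4 δ + τ)
≥ a^4 - 32 δ - 8 τ`. If `q < 0`: `a^4 ≤ 4 (4 δ + τ)` and `FR (Ψ^4) ≥ 0`.
-/

set_option autoImplicit false

open Finset Function Module
open scoped BigOperators
open Pool.Agent.H77.KM

namespace Pool.Agent.H22.QK

section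

variable {V : Type} [AddCommGroup V] [Module (ZMod 2) V] [Fintype V]
variable {Y : Type} [AddCommGroup Y] [Module (ZMod 2) Y] [Fintype Y]
variable {g : V → Y} {b : V →ₗ[ZMod 2] V →ₗ[ZMod 2] Y} {m : ℕ}

private theorem frjen_hat_abs (E : V → ℝ) (hE : ∀ x, E x = 0 ∨ E x = 1)
    (ξ : Dual (ZMod 2) V) : |hat E ξ| ≤ 𝔼 x, E x := by
  unfold hat
  refine (Finset.abs_expect_le _ _).trans (le_of_eq ?_)
  refine Finset.expect_congr rfl fun x _ => ?_
  rw [abs_mul, abs_chi, mul_one]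
  rcases hE x with h | h <;> rw [h] <;> norm_num

private theorem frjen_corr (E : V → ℝ) (ξ : Dual (ZMod 2) V) :
    𝔼 y, 𝔼 z, E y * E (y + z) * chi ξ z = hat E ξ ^ 2 := by
  have h1 : ∀ y, 𝔼 z, E y * E (y + z) * chi ξ z = E y * chi ξ y * hat E ξ := by
    intro y
    have h2 : ∀ z, E y * E (y + z) * chi ξ z
        = E y * chi ξ y * (E (y + z) * chi ξ (y + z)) := by
      intro z
      rw [chi_add]
      have := chi_sq ξ y
      linear_combination (-(E y * E (y + z) * chi ξ z)) * this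
    rw [Finset.expect_congr rfl fun z _ => h2 z, ← Finset.mul_expect,
      expect_add_left (fun z => E z * chi ξ z) y, hat]
  rw [Finset.expect_congr rfl fun y _ => h1 y, ← Finset.expect_mul, sq]
  rfl

private theorem frjen_diag : (𝔼 u : Fin m → ZMod 2, 𝔼 u' : Fin m → ZMod 2,
    (if u = u' then (4 : ℝ) else 0)) = 4 * (1 / 2) ^ m := by
  have h1 : ∀ u : Fin m → ZMod 2, 𝔼 u' : Fin m → ZMod 2, (if u = u' then (4 : ℝ) else 0)
      = 4 * (1 / 2) ^ m := by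
    intro u
    rw [Fintype.expect_eq_sum_div_card, Finset.sum_ite_eq, if_pos (Finset.mem_univ u)]
    have : Fintype.card (Fin m → ZMod 2) = 2 ^ m := by
      rw [Fintype.card_fun, ZMod.card, Fintype.card_fin]
    rw [this]
    push_cast
    rw [one_div, inv_pow, div_eq_mul_inv]
  rw [Finset.expect_congr rfl fun u _ => h1 u, Fintype.expect_const]

private theorem frjen_term (hg : IsQM g b) {s : ℕ} (hs : Reg b s) (hτ : tauF Y m s ≤ 1)
    (E : V → ℝ) (hE : ∀ x, E x = 0 ∨ E x = 1) (hEg : ∀ x, E x ≠ 0 → g x = 0)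
    (ξ : Dual (ZMod 2) V) {u u' : Fin m → ZMod 2} (huu : u ≠ u') :
    (Fintype.card Y : ℝ) ^ 2 * hat E ξ ^ 2 - tauF Y m s
      ≤ FR g m (fun y x => E (y + lc u x) * chi ξ (lc u x)
        * (E (y + lc u' x) * chi ξ (lc u' x))) := by
  have hv : u + u' ≠ 0 := by
    intro h
    apply huu
    have : u' = -u := by
      rw [eq_neg_iff_add_eq_zero, add_comm]
      exact h
    rw [this]
    funext i
    rw [Pi.neg_apply, ZMod.neg_eq_self_mod_two]
  have hsh := FR_shift (g := g) (fun y x => E y * E (y + lc (u + u') x) * chi ξ (lc (u + u') x)) u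
  have hone := FR_one_dir hg hs hτ hv (fun y z => E y * E (y + z) * chi ξ z) (fun y z => by
    rw [abs_mul, abs_chi, mul_one, abs_mul]
    rcases hE y with h | h <;> rcases hE (y + z) with h' | h' <;> rw [h, h'] <;> norm_num)
  have heq : (fun (y : V) (x : Fin m → V) => E (y + lc u x) * chi ξ (lc u x)
        * (E (y + lc u' x) * chi ξ (lc u' x)))
      = fun y x => E (y + lc u x) * E (y + lc u x + lc (u + u') x) * chi ξ (lc (u + u') x) := by
    funext y x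
    have h1 : y + lc u x + lc (u + u') x = y + lc u' x := by
      rw [lc_add]
      have : lc u x + lc u x = 0 := ZModModule.add_self _
      calc y + lc u x + (lc u x + lc u' x) = y + (lc u x + lc u x) + lc u' x := by abel
        _ = y + lc u' x := by rw [this, add_zero]
    rw [h1, lc_add, chi_add]
    ring
  rw [heq, hsh]
  have hmain : (Fintype.card Y : ℝ) ^ 2 * 𝔼 y, 𝔼 z, iv (g y = 0) * iv (g (y + z) = 0)
      * (E y * E (y + z) * chi ξ z) = (Fintype.card Y : ℝ) ^ 2 * hat E ξ ^ 2 := by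
    rw [← frjen_corr E ξ]
    congr 1
    refine Finset.expect_congr rfl fun y _ => Finset.expect_congr rfl fun z _ => ?_
    by_cases h : E y = 0
    · rw [h]; ring
    by_cases h' : E (y + z) = 0
    · rw [h']; ring
    rw [iv_pos (hEg y h), iv_pos (hEg _ h')]
    ring
  rw [hmain] at hone
  have := (abs_le.1 hone).1
  linarith

private theorem frjen_num {a2 R S δ τ : ℝ} (ha0 : 0 ≤ a2) (ha : a2 ≤ 4) (hR : 0 ≤ R)
    (hδ : 0 ≤ δ) (hτ0 : 0 ≤ τ) (hτ1 : τ ≤ 1) (hS : a2 - 4 * δ - τ ≤ S)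
    (hcs : S ^ 2 ≤ (1 + τ) * R) : a2 ^ 2 - 32 * δ - 24 * τ ≤ R := by
  rcases le_or_gt 0 (a2 - 4 * δ - τ) with hq | hq
  · have hqS : (a2 - 4 * δ - τ) ^ 2 ≤ S ^ 2 := by
      apply pow_le_pow_left₀ hq hS
    have hq4 : a2 - 4 * δ - τ ≤ 4 := by linarith
    have hqq : (a2 - 4 * δ - τ) ^ 2 ≤ 16 := by nlinarith
    have h1 : (a2 - 4 * δ - τ) ^ 2 ≤ (1 + τ) * R := hqS.trans hcs
    have h2 : (1 - τ) * (a2 - 4 * δ - τ) ^ 2 ≤ R := by
      have h3 : (1 - τ) * (a2 - 4 * δ - τ) ^ 2 ≤ (1 - τ) * ((1 + τ) * R) :=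
        mul_le_mul_of_nonneg_left h1 (by linarith)
      have h4 : (1 - τ) * ((1 + τ) * R) ≤ R := by nlinarith [mul_nonneg (sq_nonneg τ) hR]
      linarith
    have h5 : a2 ^ 2 - 2 * a2 * (4 * δ + τ) ≤ (a2 - 4 * δ - τ) ^ 2 := by
      nlinarith [sq_nonneg (4 * δ + τ)]
    have h6 : 2 * a2 * (4 * δ + τ) ≤ 8 * (4 * δ + τ) := by nlinarith
    nlinarith
  · have h1 : a2 * a2 ≤ 4 * (4 * δ + τ) := by nlinarith
    nlinarith

theorem FR_jensen (hg : IsQM g b) {s : ℕ} (hs : Reg b s) (hτ : tauF Y m s ≤ 1)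
    (E : V → ℝ) (hE : ∀ x, E x = 0 ∨ E x = 1) (hEg : ∀ x, E x ≠ 0 → g x = 0)
    (ξ : Dual (ZMod 2) V) :
    (Fintype.card Y : ℝ) ^ 4 * hat E ξ ^ 4 - 32 * (1 / 2) ^ m - 24 * tauF Y m s
      ≤ FR g m (fun y x => (𝔼 u : Fin m → ZMod 2, E (y + lc u x) * chi ξ (lc u x)) ^ 4) := by
  have hτ0 : 0 ≤ tauF Y m s := by unfold tauF; positivity
  have hmean := mean_le_two hg hs hτ E hE hEg
  have hN : (0 : ℝ) ≤ (Fintype.card Y : ℝ) := by positivity
  have hA : (Fintype.card Y : ℝ) * |hat E ξ| ≤ 2 :=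
    (mul_le_mul_of_nonneg_left (frjen_hat_abs E hE ξ) hN).trans hmean
  have ha4 : (Fintype.card Y : ℝ) ^ 2 * hat E ξ ^ 2 ≤ 4 := by
    have h0 : 0 ≤ (Fintype.card Y : ℝ) * |hat E ξ| := mul_nonneg hN (abs_nonneg _)
    have : ((Fintype.card Y : ℝ) * |hat E ξ|) ^ 2 ≤ 2 ^ 2 := pow_le_pow_left₀ h0 hA 2
    rw [mul_pow, sq_abs] at this
    linarith
  have ha0 : 0 ≤ (Fintype.card Y : ℝ) ^ 2 * hat E ξ ^ 2 := by positivity
  have hδ : (0 : ℝ) ≤ (1 / 2) ^ m := by positivity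
  have hR : 0 ≤ FR g m (fun y x =>
      (𝔼 u : Fin m → ZMod 2, E (y + lc u x) * chi ξ (lc u x)) ^ 4) :=
    FR_nonneg fun y x _ => by positivity
  have hcs := FR_cs (g := g) (m := m) (fun y x =>
    (𝔼 u : Fin m → ZMod 2, E (y + lc u x) * chi ξ (lc u x)) ^ 2)
  have hone := (abs_le.1 (FR_one hg hs hτ)).2
  have hpow : (fun (y : V) (x : Fin m → V) =>
      ((𝔼 u : Fin m → ZMod 2, E (y + lc u x) * chi ξ (lc u x)) ^ 2) ^ 2)
      = fun y x => (𝔼 u : Fin m → ZMod 2, E (y + lc u x) * chi ξ (lc u x)) ^ 4 := by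
    funext y x
    ring
  rw [hpow] at hcs
  have hcs' : FR g m (fun y x =>
      (𝔼 u : Fin m → ZMod 2, E (y + lc u x) * chi ξ (lc u x)) ^ 2) ^ 2
      ≤ (1 + tauF Y m s) * FR g m (fun y x =>
        (𝔼 u : Fin m → ZMod 2, E (y + lc u x) * chi ξ (lc u x)) ^ 4) :=
    hcs.trans (mul_le_mul_of_nonneg_right (by linarith) hR)
  have hS : (Fintype.card Y : ℝ) ^ 2 * hat E ξ ^ 2 - 4 * (1 / 2) ^ m - tauF Y m s
      ≤ FR g m (fun y x =>
        (𝔼 u : Fin m → ZMod 2, E (y + lc u x) * chi ξ (lc u x)) ^ 2) := by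
    have hsq : (fun (y : V) (x : Fin m → V) =>
        (𝔼 u : Fin m → ZMod 2, E (y + lc u x) * chi ξ (lc u x)) ^ 2)
        = fun y x => 𝔼 u : Fin m → ZMod 2, 𝔼 u' : Fin m → ZMod 2,
          E (y + lc u x) * chi ξ (lc u x) * (E (y + lc u' x) * chi ξ (lc u' x)) := by
      funext y x
      rw [sq, Finset.expect_mul]
      refine Finset.expect_congr rfl fun u _ => ?_
      rw [Finset.mul_expect]
    rw [hsq, FR_expect]
    have hin : ∀ u : Fin m → ZMod 2, FR g m (fun y x => 𝔼 u' : Fin m → ZMod 2,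
          E (y + lc u x) * chi ξ (lc u x) * (E (y + lc u' x) * chi ξ (lc u' x)))
        = 𝔼 u' : Fin m → ZMod 2, FR g m (fun y x =>
          E (y + lc u x) * chi ξ (lc u x) * (E (y + lc u' x) * chi ξ (lc u' x))) := by
      intro u
      rw [FR_expect]
    rw [Finset.expect_congr rfl fun u _ => hin u]
    have hlow : (𝔼 u : Fin m → ZMod 2, 𝔼 u' : Fin m → ZMod 2,
        ((Fintype.card Y : ℝ) ^ 2 * hat E ξ ^ 2 - tauF Y m s - (if u = u' then (4 : ℝ) else 0)))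
        ≤ 𝔼 u : Fin m → ZMod 2, 𝔼 u' : Fin m → ZMod 2, FR g m (fun y x =>
          E (y + lc u x) * chi ξ (lc u x) * (E (y + lc u' x) * chi ξ (lc u' x))) := by
      refine Finset.expect_le_expect fun u _ => Finset.expect_le_expect fun u' _ => ?_
      by_cases h : u = u'
      · subst h
        rw [if_pos rfl]
        have h0 : 0 ≤ FR g m (fun y x =>
            E (y + lc u x) * chi ξ (lc u x) * (E (y + lc u x) * chi ξ (lc u x))) :=
          FR_nonneg fun y x _ => mul_self_nonneg _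
        linarith
      · rw [if_neg h, sub_zero]
        exact frjen_term hg hs hτ E hE hEg ξ h
    refine le_trans (le_of_eq ?_) hlow
    simp only [Finset.expect_sub_distrib]
    rw [frjen_diag]
    simp only [Fintype.expect_const]
    ring
  have := frjen_num ha0 ha4 hR hδ hτ0 hτ hS hcs'
  have he : ((Fintype.card Y : ℝ) ^ 2 * hat E ξ ^ 2) ^ 2
      = (Fintype.card Y : ℝ) ^ 4 * hat E ξ ^ 4 := by ring
  rw [he] at this
  exact this

end

end Pool.Agent.H22.QK
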