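import Pool.Agent.H22.QK.FrExt1

/-!
# FrMany: adding many directions (about 80 lines)

PROOF of `ext_many`: induction on `n` from `ext_one` (applied with `j + n`,
`|Y|^(j+n) ≤ |Y|^(j+n+1) ≤ 2^s`); the errors add up to at most
`n |Y|^mexp(j+n) (2 (1/2)^s)` (`mexp_mono`). Note
`(Fin.castAdd n i).castSucc = Fin.castAdd (n+1) i`.

PROOF of `FR_one`: `ext_many` with `j = 0` and `count_zero`
(`FR g 0 1 = |Y| 𝔼 iv (g y = 0)`, error `|Y| (1/2)^s`).
`pow_le_of_tau`: `|Y|^m ≤ |Y|^mexp m ≤ 2^s` (`m ≤ mexp m`).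
-/

set_option autoImplicit false

open Finset Function Module
open scoped BigOperators
open Pool.Agent.H77.KM

namespace Pool.Agent.H22.QK

section

variable {V : Type} [AddCommGroup V] [Module (ZMod 2) V] [Fintype V]
variable {Y : Type} [AddCommGroup Y] [Module (ZMod 2) Y] [Fintype Y]
variable {g : V → Y} {b : V →ₗ[ZMod 2] V →ₗ[ZMod 2] Y} {m : ℕ}

theorem ext_many (hg : IsQM g b) {s : ℕ} (hs : Reg b s) (j n : ℕ)
    (hm : (Fintype.card Y : ℝ) ^ (j + n) ≤ 2 ^ s)
    (F : V → (Fin j → V) → ℝ) (hF : ∀ y x, |F y x| ≤ 1) :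
    |FR g (j + n) (fun y x => F y (fun i => x (Fin.castAdd n i))) - FR g j F|
      ≤ n * ((Fintype.card Y : ℝ) ^ mexp (j + n) * (2 * (1 / 2) ^ s)) := by
  have hc1 : (1 : ℝ) ≤ Fintype.card Y := by exact_mod_cast Fintype.card_pos
  induction n with
  | zero =>
    have h0 : FR g (j + 0) (fun y x => F y (fun i => x (Fin.castAdd 0 i))) = FR g j F := rfl
    rw [h0, sub_self, abs_zero]
    positivity
  | succ n ih =>
    have hm' : (Fintype.card Y : ℝ) ^ (j + n) ≤ 2 ^ s :=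
      (pow_le_pow_right₀ hc1 (by omega)).trans hm
    have h1 := ih hm'
    have h2 := ext_one hg hs (m := j + n) hm' (fun y x => F y (fun i => x (Fin.castAdd n i)))
      (fun y x => hF y _)
    have h3 : FR g (j + n + 1)
        (fun y x => (fun y (x : Fin (j + n) → V) => F y (fun i => x (Fin.castAdd n i))) y
          (fun i => x i.castSucc)) =
        FR g (j + (n + 1)) (fun y x => F y (fun i => x (Fin.castAdd (n + 1) i))) := rfl
    rw [h3] at h2
    have h4 : (Fintype.card Y : ℝ) ^ mexp (j + n) ≤ (Fintype.card Y : ℝ) ^ mexp (j + (n + 1)) :=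
      pow_le_pow_right₀ hc1 (mexp_mono (by omega))
    have h5 : (n : ℝ) * ((Fintype.card Y : ℝ) ^ mexp (j + n) * (2 * (1 / 2) ^ s)) ≤
        n * ((Fintype.card Y : ℝ) ^ mexp (j + (n + 1)) * (2 * (1 / 2) ^ s)) := by
      gcongr
    have h6 := abs_sub_le (FR g (j + (n + 1)) (fun y x => F y (fun i => x (Fin.castAdd (n + 1) i))))
      (FR g (j + n) (fun y x => F y (fun i => x (Fin.castAdd n i)))) (FR g j F)
    have h7 : j + n + 1 = j + (n + 1) := rfl
    rw [h7] at h2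
    push_cast
    linarith

private theorem le_mexp (m : ℕ) : m ≤ mexp m := by
  cases m with
  | zero => exact Nat.zero_le _
  | succ m => rw [mexp]; omega

theorem pow_le_of_tau {s : ℕ} (hτ : tauF Y m s ≤ 1) : (Fintype.card Y : ℝ) ^ m ≤ 2 ^ s := by
  have hc1 : (1 : ℝ) ≤ Fintype.card Y := by exact_mod_cast Fintype.card_pos
  have h1 : (Fintype.card Y : ℝ) ^ m ≤ (Fintype.card Y : ℝ) ^ mexp m :=
    pow_le_pow_right₀ hc1 (le_mexp m)
  have h2 : (0 : ℝ) < 2 ^ s := by positivity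
  have h3 : ((1 : ℝ) / 2) ^ s * 2 ^ s = 1 := by
    rw [← mul_pow]; norm_num
  have h4 : (0 : ℝ) ≤ (Fintype.card Y : ℝ) ^ mexp m := by positivity
  unfold tauF at hτ
  have h5 : (Fintype.card Y : ℝ) ^ mexp m * (2 * (m + 1)) ≤ 2 ^ s := by
    calc (Fintype.card Y : ℝ) ^ mexp m * (2 * (m + 1))
        = ((Fintype.card Y : ℝ) ^ mexp m * (2 * (m + 1)) * (1 / 2) ^ s) * 2 ^ s := by
          rw [mul_assoc _ _ ((2 : ℝ) ^ s), h3, mul_one]
      _ ≤ 1 * 2 ^ s := by gcongr
      _ = 2 ^ s := one_mul _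
  have h6 : (0 : ℝ) ≤ m := Nat.cast_nonneg m
  nlinarith [mul_nonneg h4 h6]

theorem FR_one (hg : IsQM g b) {s : ℕ} (hs : Reg b s) (hτ : tauF Y m s ≤ 1) :
    |FR g m (fun _ _ => 1) - 1| ≤ tauF Y m s := by
  have hc1 : (1 : ℝ) ≤ Fintype.card Y := by exact_mod_cast Fintype.card_pos
  have hc0 : (0 : ℝ) < Fintype.card Y := by linarith
  have hpow := pow_le_of_tau hτ
  have h1 := ext_many hg hs 0 m (by rwa [Nat.zero_add]) (fun _ _ => 1)
    (fun _ _ => by rw [abs_one])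
  have h2 : FR g (0 + m) (fun _ _ => 1) = FR g m (fun _ _ => 1) := by rw [Nat.zero_add]
  rw [h2, Nat.zero_add] at h1
  have h3 : FR g 0 (fun _ _ => (1 : ℝ)) = (Fintype.card Y : ℝ) * 𝔼 y, iv (g y = 0) := by
    unfold FR
    have hm0 : mexp 0 = 1 := rfl
    rw [hm0, pow_one]
    congr 1
    refine Finset.expect_congr rfl fun y _ => ?_
    have h4 : ∀ x : Fin 0 → V, iv (IsFr g y x) * 1 = iv (g y = 0) := by
      intro x
      rw [mul_one]
      refine iv_congr ?_
      have h5 : ∀ u : Fin 0 → ZMod 2, lc u x = 0 := fun u => by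
        simp [lc]
      constructor
      · intro h
        have := h 0
        rwa [h5, add_zero] at this
      · intro h u
        rw [h5, add_zero]
        exact h
    simp only [h4]
    exact Fintype.expect_const _
  have h5 := count_zero hg hs
  have h6 : |FR g 0 (fun _ _ => (1 : ℝ)) - 1| ≤ (Fintype.card Y : ℝ) * (1 / 2) ^ s := by
    rw [h3]
    have h7 : (Fintype.card Y : ℝ) * (𝔼 y, iv (g y = 0)) - 1 =
        (Fintype.card Y : ℝ) * ((𝔼 y, iv (g y = 0)) - 1 / Fintype.card Y) := by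
      field_simp
    rw [h7, abs_mul, abs_of_pos hc0]
    gcongr
  have h7 := abs_sub_le (FR g m (fun _ _ => (1 : ℝ))) (FR g 0 (fun _ _ => 1)) 1
  have h8 : (Fintype.card Y : ℝ) ≤ (Fintype.card Y : ℝ) ^ mexp m := by
    have h9 : 1 ≤ mexp m := by
      cases m with
      | zero => exact le_rfl
      | succ m => rw [mexp]; omega
    calc (Fintype.card Y : ℝ) = (Fintype.card Y : ℝ) ^ 1 := (pow_one _).symm
      _ ≤ _ := pow_le_pow_right₀ hc1 h9
  have h9 : (Fintype.card Y : ℝ) * (1 / 2) ^ s ≤ (Fintype.card Y : ℝ) ^ mexp m * (1 / 2) ^ s := by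
    gcongr
  have h10 : (0 : ℝ) ≤ (Fintype.card Y : ℝ) ^ mexp m * (1 / 2) ^ s := by positivity
  unfold tauF
  calc |FR g m (fun _ _ => (1 : ℝ)) - 1|
      ≤ m * ((Fintype.card Y : ℝ) ^ mexp m * (2 * (1 / 2) ^ s)) +
        (Fintype.card Y : ℝ) * (1 / 2) ^ s := h7.trans (add_le_add h1 h6)
    _ ≤ m * ((Fintype.card Y : ℝ) ^ mexp m * (2 * (1 / 2) ^ s)) +
        (Fintype.card Y : ℝ) ^ mexp m * (1 / 2) ^ s := by linarith
    _ ≤ _ := by nlinarith [h10]

end

end Pool.Agent.H22.QK
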