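import Pool.Agent.H22.QK.FrAct
import Pool.Agent.H22.QK.FrMany

/-!
# FrVal: the joint distribution of a few points of a random frame

`ext_many` with `j = 0, 1, 2` and the invariance `FR_act` of the distribution of the frames.
-/

set_option autoImplicit false
set_option linter.unusedSectionVars false

open Finset Function Module
open scoped BigOperators
open Pool.Agent.H77.KM

namespace Pool.Agent.H22.QK

section

variable {V : Type} [AddCommGroup V] [Module (ZMod 2) V] [Fintype V]
variable {Y : Type} [AddCommGroup Y] [Module (ZMod 2) Y] [Fintype Y]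
variable {g : V → Y} {b : V →ₗ[ZMod 2] V →ₗ[ZMod 2] Y} {m : ℕ}

private theorem exists_auto {j n : ℕ} {f : Fin j → (Fin (j + n) → ZMod 2)}
    (hf : LinearIndependent (ZMod 2) f) :
    ∃ M : (Fin (j + n) → ZMod 2) ≃ₗ[ZMod 2] (Fin (j + n) → ZMod 2),
      ∀ i, M (Pi.single (Fin.castAdd n i) 1) = f i := by
  classical
  have he : LinearIndependent (ZMod 2)
      (fun i : Fin j => (Pi.single (Fin.castAdd n i) 1 : Fin (j + n) → ZMod 2)) := by
    have h := (Pi.basisFun (ZMod 2) (Fin (j + n))).linearIndependent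
    have h2 := h.comp (Fin.castAdd n : Fin j → Fin (j + n)) (Fin.castAdd_injective j n)
    convert h2 using 1
    funext i
    simp
  obtain ⟨M, hM⟩ := Submodule.exists_linearEquiv_restrict_eq
    (he.linearCombinationEquiv.symm ≪≫ₗ hf.linearCombinationEquiv)
  refine ⟨M, fun i => ?_⟩
  have h1 := hM (he.linearCombinationEquiv (Finsupp.single i 1))
  simp only [LinearEquiv.trans_apply, LinearEquiv.symm_apply_apply] at h1
  simpa [LinearIndependent.linearCombinationEquiv_apply_coe] using h1.symm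

private theorem err_le (n : ℕ) (hn : n ≤ m) (s : ℕ) :
    (n : ℝ) * ((Fintype.card Y : ℝ) ^ mexp m * (2 * (1 / 2) ^ s)) ≤ tauF Y m s := by
  unfold tauF
  have h1 : (0 : ℝ) ≤ (Fintype.card Y : ℝ) ^ mexp m := by positivity
  have h2 : (0 : ℝ) ≤ (1 / 2 : ℝ) ^ s := by positivity
  have h3 : (n : ℝ) ≤ m + 1 := by
    have : (n : ℝ) ≤ m := by exact_mod_cast hn
    linarith
  calc (n : ℝ) * ((Fintype.card Y : ℝ) ^ mexp m * (2 * (1 / 2) ^ s))
      = (n : ℝ) * (2 * ((Fintype.card Y : ℝ) ^ mexp m * (1 / 2) ^ s)) := by ring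
    _ ≤ (m + 1 : ℝ) * (2 * ((Fintype.card Y : ℝ) ^ mexp m * (1 / 2) ^ s)) := by
        apply mul_le_mul_of_nonneg_right h3
        positivity
    _ = _ := by ring

private theorem lc_fin0 (u : Fin 0 → ZMod 2) (x : Fin 0 → V) : lc u x = 0 := by
  simp [lc]

private theorem lc_fin1 (u : Fin 1 → ZMod 2) (x : Fin 1 → V) : lc u x = u 0 • x 0 := by
  simp [lc]

private theorem lc_fin2 (u : Fin 2 → ZMod 2) (x : Fin 2 → V) :
    lc u x = u 0 • x 0 + u 1 • x 1 := by
  simp [lc, Fin.sum_univ_two]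

private theorem isFr0 (y : V) (x : Fin 0 → V) : IsFr g y x ↔ g y = 0 := by
  constructor
  · intro h
    have := h 0
    simpa [lc_fin0] using this
  · intro h u
    simpa [lc_fin0] using h

private theorem isFr1 (y : V) (x : Fin 1 → V) :
    IsFr g y x ↔ (g y = 0 ∧ g (y + x 0) = 0) := by
  constructor
  · intro h
    constructor
    · have := h (fun _ => 0)
      simpa [lc_fin1] using this
    · have := h (fun _ => 1)
      simpa [lc_fin1] using this
  · rintro ⟨h1, h2⟩ u
    have h3 : ∀ a : ZMod 2, a = 0 ∨ a = 1 := by decide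
    rcases h3 (u 0) with h | h
    · simpa [lc_fin1, h] using h1
    · simpa [lc_fin1, h] using h2

private theorem isFr2 (y : V) (x : Fin 2 → V) :
    IsFr g y x ↔ (g y = 0 ∧ g (y + x 0) = 0) ∧ g (y + x 1) = 0 ∧ g (y + x 0 + x 1) = 0 := by
  constructor
  · intro h
    refine ⟨⟨?_, ?_⟩, ?_, ?_⟩
    · have := h ![0, 0]
      simpa [lc_fin2] using this
    · have := h ![1, 0]
      simpa [lc_fin2] using this
    · have := h ![0, 1]
      simpa [lc_fin2] using this
    · have := h ![1, 1]
      simpa [lc_fin2, add_assoc] using this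
  · rintro ⟨⟨h1, h2⟩, h4, h5⟩ u
    have h3 : ∀ a : ZMod 2, a = 0 ∨ a = 1 := by decide
    rcases h3 (u 0) with h | h <;> rcases h3 (u 1) with h' | h'
    · simpa [lc_fin2, h, h'] using h1
    · simpa [lc_fin2, h, h'] using h4
    · simpa [lc_fin2, h, h'] using h2
    · simpa [lc_fin2, h, h', add_assoc] using h5

private theorem FR0_eq (f : V → ℝ) :
    FR g 0 (fun y _ => f y) = Fintype.card Y * 𝔼 y, iv (g y = 0) * f y := by
  unfold FR
  simp only [mexp, pow_one]
  congr 1
  apply Finset.expect_congr rfl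
  intro y _
  simp only [isFr0]
  exact Finset.expect_const Finset.univ_nonempty _

private theorem FR1_eq (F : V → V → ℝ) :
    FR g 1 (fun y x => F y (x 0)) =
      (Fintype.card Y : ℝ) ^ 2 * 𝔼 y, 𝔼 z, iv (g y = 0) * iv (g (y + z) = 0) * F y z := by
  unfold FR
  have hm : mexp 1 = 2 := rfl
  rw [hm]
  congr 1
  apply Finset.expect_congr rfl
  intro y _
  apply Fintype.expect_equiv (Equiv.funUnique (Fin 1) V)
  intro x
  rw [iv_congr (isFr1 y x), iv_and]
  rfl

private theorem FR2_eq (F : V → V → V → ℝ) :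
    FR g 2 (fun y x => F y (x 0) (x 1)) =
      (Fintype.card Y : ℝ) ^ 4 * 𝔼 y, 𝔼 z, 𝔼 z', iv (g y = 0) * iv (g (y + z) = 0)
        * iv (g (y + z') = 0) * iv (g (y + z + z') = 0) * F y z z' := by
  unfold FR
  have hm : mexp 2 = 4 := rfl
  rw [hm]
  congr 1
  apply Finset.expect_congr rfl
  intro y _
  have h1 : (𝔼 z, 𝔼 z', iv (g y = 0) * iv (g (y + z) = 0)
        * iv (g (y + z') = 0) * iv (g (y + z + z') = 0) * F y z z')
      = 𝔼 p : V × V, iv (g y = 0) * iv (g (y + p.1) = 0)
        * iv (g (y + p.2) = 0) * iv (g (y + p.1 + p.2) = 0) * F y p.1 p.2 := by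
    rw [← Finset.univ_product_univ, Finset.expect_product]
  rw [h1]
  apply Fintype.expect_equiv (piFinTwoEquiv (fun _ => V))
  intro x
  rw [iv_congr (isFr2 y x), iv_and, iv_and, iv_and]
  simp only [piFinTwoEquiv_apply]
  ring

theorem FR_zero_dir (hg : IsQM g b) {s : ℕ} (hs : Reg b s) (hτ : tauF Y m s ≤ 1)
    (f : V → ℝ) (hf : ∀ y, |f y| ≤ 1) :
    |FR g m (fun y _ => f y) - Fintype.card Y * 𝔼 y, iv (g y = 0) * f y| ≤ tauF Y m s := by
  have h := ext_many hg hs 0 m (by rw [Nat.zero_add]; exact pow_le_of_tau hτ)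
    (fun y _ => f y) (fun y _ => hf y)
  rw [FR0_eq] at h
  rw [Nat.zero_add] at h
  exact h.trans (err_le m le_rfl s)

theorem FR_one_dir (hg : IsQM g b) {s : ℕ} (hs : Reg b s) (hτ : tauF Y m s ≤ 1)
    {v : Fin m → ZMod 2} (hv : v ≠ 0) (F : V → V → ℝ) (hF : ∀ y z, |F y z| ≤ 1) :
    |FR g m (fun y x => F y (lc v x))
      - (Fintype.card Y : ℝ) ^ 2 * 𝔼 y, 𝔼 z, iv (g y = 0) * iv (g (y + z) = 0) * F y z|
        ≤ tauF Y m s := by
  obtain ⟨n, rfl⟩ : ∃ n, m = 1 + n := by
    rcases Nat.eq_zero_or_pos m with h | h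
    · subst h
      exact absurd (Subsingleton.elim v 0) hv
    · exact ⟨m - 1, by omega⟩
  have hli : LinearIndependent (ZMod 2) (fun _ : Fin 1 => v) := by
    rw [linearIndependent_unique_iff]
    exact hv
  obtain ⟨M, hM⟩ := exists_auto hli
  have h1 := FR_act (g := g) M (fun y x => F y (x (Fin.castAdd n 0)))
  simp only [hM] at h1
  rw [h1]
  have h := ext_many hg hs 1 n (pow_le_of_tau hτ)
    (fun y x => F y (x 0)) (fun y x => hF y (x 0))
  rw [FR1_eq] at h
  exact h.trans (err_le n (by omega) s)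

theorem FR_two_dir (hg : IsQM g b) {s : ℕ} (hs : Reg b s) (hτ : tauF Y m s ≤ 1)
    {v w : Fin m → ZMod 2} (hv : v ≠ 0) (hw : w ≠ 0) (hvw : v ≠ w)
    (F : V → V → V → ℝ) (hF : ∀ y z z', |F y z z'| ≤ 1) :
    |FR g m (fun y x => F y (lc v x) (lc w x))
      - (Fintype.card Y : ℝ) ^ 4 * 𝔼 y, 𝔼 z, 𝔼 z', iv (g y = 0) * iv (g (y + z) = 0)
        * iv (g (y + z') = 0) * iv (g (y + z + z') = 0) * F y z z'| ≤ tauF Y m s := by
  have h2 : ∀ a : ZMod 2, a = 0 ∨ a = 1 := by decide
  obtain ⟨n, rfl⟩ : ∃ n, m = 2 + n := by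
    rcases Nat.lt_or_ge m 2 with h | h
    · exfalso
      interval_cases m
      · exact hv (Subsingleton.elim v 0)
      · have hv0 : v 0 ≠ 0 := by
          intro h0; apply hv; funext i; rw [Subsingleton.elim i 0, h0]; rfl
        have hw0 : w 0 ≠ 0 := by
          intro h0; apply hw; funext i; rw [Subsingleton.elim i 0, h0]; rfl
        apply hvw
        funext i
        rw [Subsingleton.elim i 0]
        rcases h2 (v 0) with h | h
        · exact absurd h hv0
        · rcases h2 (w 0) with h' | h'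
          · exact absurd h' hw0
          · rw [h, h']
    · exact ⟨m - 2, by omega⟩
  have hli : LinearIndependent (ZMod 2) ![v, w] := by
    rw [LinearIndependent.pair_iff]
    intro a c hac
    rcases h2 a with ha | ha <;> rcases h2 c with hc | hc
    · exact ⟨ha, hc⟩
    · exfalso; rw [ha, hc] at hac; apply hw; simpa using hac
    · exfalso; rw [ha, hc] at hac; apply hv; simpa using hac
    · exfalso
      rw [ha, hc, one_smul, one_smul] at hac
      apply hvw
      funext i
      have h3 := congrFun hac i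
      simp only [Pi.add_apply, Pi.zero_apply] at h3
      rcases h2 (v i) with h | h <;> rcases h2 (w i) with h' | h' <;>
        rw [h, h'] at h3 ⊢ <;> first | rfl | (exfalso; simp at h3)
  obtain ⟨M, hM⟩ := exists_auto hli
  have h1 := FR_act (g := g) M
    (fun y x => F y (x (Fin.castAdd n 0)) (x (Fin.castAdd n 1)))
  simp only [hM] at h1
  simp only [Matrix.cons_val_zero, Matrix.cons_val_one] at h1
  rw [h1]
  have h := ext_many hg hs 2 n (pow_le_of_tau hτ)
    (fun y x => F y (x 0) (x 1)) (fun y x => hF y (x 0) (x 1))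
  rw [FR2_eq] at h
  exact h.trans (err_le n (by omega) s)

end

end Pool.Agent.H22.QK
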