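import Pool.Agent.H22.QK.FrVal

/-!
# FrVar: second moment of the average over a random frame (about 100 lines)

PROOF of `mean_le_two`: `f ≤ iv (g · = 0)`, `count_zero`, `|Y| (1/2)^s ≤ tauF Y m s ≤ 1`
(`1 ≤ mexp m`).

PROOF of `FR_var`. Put `a = |Y| 𝔼 f ∈ [0,2]`, `Φ y x = 𝔼_u f (y + lc u x)`, `τ = tauF Y m s ≤ 1`,
`δ = (1/2)^m`.
* `FR (Φ^2) = 𝔼_u 𝔼_u' FR (f (y + lc u x) f (y + lc u' x))` and `FR_shift` by `u` turns the
  term into `FR (f y * f (y + lc (u + u') x))`. If `u ≠ u'`: `FR_one_dir` with `v = u + u'`,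
  `F y z = f y * f (y+z)` gives at most `|Y|^2 𝔼 𝔼 f y f (y+z) + τ = a^2 + τ` (`f` is supported in
  `{g = 0}`). If `u = u'`: `f y * f y = f y`, `FR_zero_dir` gives at most `a + τ`. Since the
  proportion of pairs with `u = u'` is `δ`: `FR (Φ^2) ≤ a^2 + δ a + τ ≤ a^2 + 2 δ + τ`.
* `FR Φ ≥ a - τ` (`FR_shift`, `FR_zero_dir`), `FR 1 ≤ 1 + τ`.
* `FR ((Φ - a)^2) = FR (Φ^2) - 2 a FR Φ + a^2 FR 1 ≤ 2 δ + τ + 2 a τ + a^2 τ ≤ 2 δ + 9 τ`.
-/

set_option autoImplicit false

open Finset Function Module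
open scoped BigOperators
open Pool.Agent.H77.KM

namespace Pool.Agent.H22.QK

section

variable {V : Type} [AddCommGroup V] [Module (ZMod 2) V] [Fintype V]
variable {Y : Type} [AddCommGroup Y] [Module (ZMod 2) Y] [Fintype Y]
variable {g : V → Y} {b : V →ₗ[ZMod 2] V →ₗ[ZMod 2] Y} {m : ℕ}

private theorem card_mul_half_le {s : ℕ} (hτ : tauF Y m s ≤ 1) :
    (Fintype.card Y : ℝ) * (1 / 2) ^ s ≤ 1 := by
  have hc1 : (1 : ℝ) ≤ (Fintype.card Y : ℝ) := by
    exact_mod_cast Fintype.card_pos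
  have h1 : (Fintype.card Y : ℝ) ≤ (Fintype.card Y : ℝ) ^ mexp m := by
    have h2 : mexp 0 ≤ mexp m := mexp_mono (Nat.zero_le m)
    have h3 : 1 ≤ mexp m := h2
    calc (Fintype.card Y : ℝ) = (Fintype.card Y : ℝ) ^ 1 := (pow_one _).symm
      _ ≤ (Fintype.card Y : ℝ) ^ mexp m := pow_le_pow_right₀ hc1 h3
  have h4 : (1 : ℝ) ≤ 2 * ((m : ℝ) + 1) := by
    have : (0 : ℝ) ≤ (m : ℝ) := Nat.cast_nonneg m
    linarith
  refine le_trans ?_ hτ
  unfold tauF
  refine mul_le_mul_of_nonneg_right ?_ (by positivity)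
  calc (Fintype.card Y : ℝ) ≤ (Fintype.card Y : ℝ) ^ mexp m := h1
    _ = (Fintype.card Y : ℝ) ^ mexp m * 1 := (mul_one _).symm
    _ ≤ (Fintype.card Y : ℝ) ^ mexp m * (2 * ((m : ℝ) + 1)) :=
        mul_le_mul_of_nonneg_left h4 (by positivity)

theorem mean_le_two (hg : IsQM g b) {s : ℕ} (hs : Reg b s) (hτ : tauF Y m s ≤ 1)
    (f : V → ℝ) (hf : ∀ x, f x = 0 ∨ f x = 1) (hfg : ∀ x, f x ≠ 0 → g x = 0) :
    Fintype.card Y * 𝔼 z, f z ≤ 2 := by
  have hc1 : (1 : ℝ) ≤ (Fintype.card Y : ℝ) := by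
    exact_mod_cast Fintype.card_pos
  have hc0 : (0 : ℝ) < (Fintype.card Y : ℝ) := by linarith
  have h1 : 𝔼 z, f z ≤ 𝔼 z, iv (g z = 0) := by
    refine Finset.expect_le_expect (fun z _ => ?_)
    rcases hf z with h | h
    · rw [h]; exact iv_nonneg _
    · rw [h, iv_pos (hfg z (by rw [h]; norm_num))]
  have h2 := (abs_le.1 (count_zero hg hs)).2
  have h3 : 𝔼 z, f z ≤ 1 / Fintype.card Y + (1 / 2) ^ s := by linarith
  have h4 := mul_le_mul_of_nonneg_left h3 hc0.le
  have h5 := card_mul_half_le (m := m) hτ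
  have e : (Fintype.card Y : ℝ) * (1 / Fintype.card Y + (1 / 2) ^ s) =
      1 + (Fintype.card Y : ℝ) * (1 / 2) ^ s := by
    field_simp
  rw [e] at h4
  linarith

private theorem expect_iv_eq (u : Fin m → ZMod 2) :
    𝔼 u' : Fin m → ZMod 2, iv (u = u') = (1 / 2) ^ m := by
  classical
  have h1 : ∀ u' : Fin m → ZMod 2, iv (u = u') = if u = u' then (1 : ℝ) else 0 := by
    intro u'
    by_cases h : u = u'
    · rw [iv_pos h, if_pos h]
    · rw [iv_neg h, if_neg h]
  rw [Finset.expect_congr rfl (fun u' _ => h1 u'), Fintype.expect_eq_sum_div_card]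
  rw [Finset.sum_ite_eq, if_pos (Finset.mem_univ _), Fintype.card_fun, ZMod.card,
    Fintype.card_fin]
  push_cast
  rw [one_div, one_div, inv_pow]

theorem FR_var (hg : IsQM g b) {s : ℕ} (hs : Reg b s) (hτ : tauF Y m s ≤ 1)
    (f : V → ℝ) (hf : ∀ x, f x = 0 ∨ f x = 1) (hfg : ∀ x, f x ≠ 0 → g x = 0) :
    FR g m (fun y x => (𝔼 u : Fin m → ZMod 2, f (y + lc u x) - Fintype.card Y * 𝔼 z, f z) ^ 2)
      ≤ 2 * (1 / 2) ^ m + 14 * tauF Y m s := by
  have ha2 := mean_le_two hg hs hτ f hf hfg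
  have hf0 : ∀ x, 0 ≤ f x := fun x => by rcases hf x with h | h <;> rw [h]; norm_num
  have hf1 : ∀ x, |f x| ≤ 1 := fun x => by rcases hf x with h | h <;> rw [h] <;> norm_num
  have ha0 : 0 ≤ (Fintype.card Y : ℝ) * 𝔼 z, f z :=
    mul_nonneg (Nat.cast_nonneg _) (Finset.expect_nonneg (fun z _ => hf0 z))
  have hτ0 : 0 ≤ tauF Y m s := by unfold tauF; positivity
  have hsupp : ∀ z, iv (g z = 0) * f z = f z := by
    intro z
    rcases hf z with h | h
    · rw [h, mul_zero]
    · rw [iv_pos (hfg z (by rw [h]; norm_num)), one_mul]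
  -- zero direction
  have h0 := abs_le.1 (FR_zero_dir hg hs hτ f hf1)
  rw [Finset.expect_congr rfl (fun z _ => hsupp z)] at h0
  -- one direction
  have hd : ∀ v : Fin m → ZMod 2, v ≠ 0 → FR g m (fun y x => f y * f (y + lc v x)) ≤
      ((Fintype.card Y : ℝ) * 𝔼 z, f z) ^ 2 + tauF Y m s := by
    intro v hv
    have h1 := (abs_le.1 (FR_one_dir hg hs hτ hv (fun y z => f y * f (y + z)) (fun y z => by
      rw [abs_mul]
      exact mul_le_one₀ (hf1 _) (abs_nonneg _) (hf1 _)))).2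
    have h2 : 𝔼 y, 𝔼 z, iv (g y = 0) * iv (g (y + z) = 0) * (f y * f (y + z)) =
        (𝔼 z, f z) ^ 2 := by
      have h3 : ∀ y z, iv (g y = 0) * iv (g (y + z) = 0) * (f y * f (y + z)) =
          f y * f (y + z) := by
        intro y z
        calc iv (g y = 0) * iv (g (y + z) = 0) * (f y * f (y + z))
            = (iv (g y = 0) * f y) * (iv (g (y + z) = 0) * f (y + z)) := by ring
          _ = f y * f (y + z) := by rw [hsupp, hsupp]
      calc 𝔼 y, 𝔼 z, iv (g y = 0) * iv (g (y + z) = 0) * (f y * f (y + z))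
          = 𝔼 y, 𝔼 z, f y * f (y + z) :=
            Finset.expect_congr rfl (fun y _ => Finset.expect_congr rfl (fun z _ => h3 y z))
        _ = 𝔼 y, f y * 𝔼 z, f z := by
            refine Finset.expect_congr rfl (fun y _ => ?_)
            rw [← Finset.mul_expect, expect_add_left f y]
        _ = (𝔼 z, f z) ^ 2 := by rw [← Finset.expect_mul, sq]
    rw [h2] at h1
    have e : (Fintype.card Y : ℝ) ^ 2 * (𝔼 z, f z) ^ 2 =
        ((Fintype.card Y : ℝ) * 𝔼 z, f z) ^ 2 := by ring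
    rw [e] at h1
    linarith
  set a : ℝ := (Fintype.card Y : ℝ) * 𝔼 z, f z with ha
  -- the mean
  have hmean : FR g m (fun y x => 𝔼 u : Fin m → ZMod 2, f (y + lc u x)) =
      FR g m (fun y _ => f y) := by
    rw [FR_expect]
    have h1 : ∀ u : Fin m → ZMod 2, FR g m (fun y x => f (y + lc u x)) =
        FR g m (fun y _ => f y) := fun u => FR_shift (fun y _ => f y) u
    rw [Finset.expect_congr rfl (fun u _ => h1 u), Finset.expect_const Finset.univ_nonempty]
  -- the second moment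
  have hsq : FR g m (fun y x => (𝔼 u : Fin m → ZMod 2, f (y + lc u x)) ^ 2) ≤
      a ^ 2 + tauF Y m s + 2 * (1 / 2) ^ m := by
    have e1 : FR g m (fun y x => (𝔼 u : Fin m → ZMod 2, f (y + lc u x)) ^ 2) =
        𝔼 u : Fin m → ZMod 2, 𝔼 u' : Fin m → ZMod 2,
          FR g m (fun y x => f (y + lc u x) * f (y + lc u' x)) := by
      have e2 : (fun (y : V) (x : Fin m → V) => (𝔼 u : Fin m → ZMod 2, f (y + lc u x)) ^ 2) =
          fun (y : V) (x : Fin m → V) => 𝔼 u : Fin m → ZMod 2, 𝔼 u' : Fin m → ZMod 2,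
            f (y + lc u x) * f (y + lc u' x) := by
        funext y x
        rw [sq, Finset.expect_mul_expect]
      rw [e2, FR_expect]
      refine Finset.expect_congr rfl (fun u _ => ?_)
      rw [FR_expect]
    rw [e1]
    have h1 : ∀ u u' : Fin m → ZMod 2,
        FR g m (fun y x => f (y + lc u x) * f (y + lc u' x)) ≤
          a ^ 2 + tauF Y m s + iv (u = u') * 2 := by
      intro u u'
      by_cases huu : u = u'
      · subst huu
        rw [iv_pos rfl, one_mul]
        have e3 : (fun (y : V) (x : Fin m → V) => f (y + lc u x) * f (y + lc u x)) =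
            fun (y : V) (x : Fin m → V) => f (y + lc u x) := by
          funext y x
          rcases hf (y + lc u x) with h | h <;> rw [h] <;> norm_num
        rw [e3, FR_shift (fun y _ => f y) u]
        nlinarith [sq_nonneg a]
      · rw [iv_neg huu, zero_mul, add_zero]
        have hne : u + u' ≠ 0 := by
          intro h
          apply huu
          have h2 : u + u' + u' = u' := by rw [h, zero_add]
          rw [add_assoc, ZModModule.add_self u', add_zero] at h2
          exact h2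
        have e3 : (fun (y : V) (x : Fin m → V) => f (y + lc u x) * f (y + lc u' x)) =
            fun (y : V) (x : Fin m → V) =>
              (fun (y : V) (x : Fin m → V) => f y * f (y + lc (u + u') x)) (y + lc u x) x := by
          funext y x
          show f (y + lc u x) * f (y + lc u' x) =
            f (y + lc u x) * f (y + lc u x + lc (u + u') x)
          have e4 : y + lc u x + lc (u + u') x = y + lc u' x := by
            rw [lc_add, add_assoc, ← add_assoc (lc u x), ZModModule.add_self (lc u x), zero_add]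
          rw [e4]
        rw [e3, FR_shift (fun (y : V) (x : Fin m → V) => f y * f (y + lc (u + u') x)) u]
        exact hd _ hne
    calc 𝔼 u : Fin m → ZMod 2, 𝔼 u' : Fin m → ZMod 2,
          FR g m (fun y x => f (y + lc u x) * f (y + lc u' x))
        ≤ 𝔼 u : Fin m → ZMod 2, 𝔼 u' : Fin m → ZMod 2,
          (a ^ 2 + tauF Y m s + iv (u = u') * 2) :=
          Finset.expect_le_expect (fun u _ => Finset.expect_le_expect (fun u' _ => h1 u u'))
      _ = 𝔼 _u : Fin m → ZMod 2, (a ^ 2 + tauF Y m s + (1 / 2) ^ m * 2) := by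
          refine Finset.expect_congr rfl (fun u _ => ?_)
          rw [Finset.expect_add_distrib, Finset.expect_const Finset.univ_nonempty,
            ← Finset.expect_mul, expect_iv_eq]
      _ = a ^ 2 + tauF Y m s + 2 * (1 / 2) ^ m := by
          rw [Finset.expect_const Finset.univ_nonempty]; ring
  have hone := (abs_le.1 (FR_one (m := m) hg hs hτ)).2
  have eexp : (fun (y : V) (x : Fin m → V) =>
      (𝔼 u : Fin m → ZMod 2, f (y + lc u x) - a) ^ 2) =
      fun (y : V) (x : Fin m → V) => (𝔼 u : Fin m → ZMod 2, f (y + lc u x)) ^ 2 -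
        (2 * a) * (𝔼 u : Fin m → ZMod 2, f (y + lc u x)) + a ^ 2 * 1 := by
    funext y x
    ring
  rw [eexp]
  rw [FR_add, FR_sub, FR_mul, FR_mul, hmean]
  have h5 : 2 * a * FR g m (fun y _ => f y) ≥ 2 * a * (a - tauF Y m s) :=
    mul_le_mul_of_nonneg_left (by linarith) (by linarith)
  have h6 : a ^ 2 * FR g m (fun _ _ => 1) ≤ a ^ 2 * (1 + tauF Y m s) :=
    mul_le_mul_of_nonneg_left (by linarith) (sq_nonneg a)
  have h7 : a * tauF Y m s ≤ 2 * tauF Y m s := mul_le_mul_of_nonneg_right ha2 hτ0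
  have h8 : a ^ 2 * tauF Y m s ≤ 4 * tauF Y m s := by
    refine mul_le_mul_of_nonneg_right ?_ hτ0
    nlinarith
  nlinarith

end

end Pool.Agent.H22.QK
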