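import Pool.Agent.H22.QK.FrVal
import Pool.Agent.H22.QK.QLow

/-!
# GoodFrame: an isotropic subspace without bad pairs (about 170 lines)

Notation `τ = tauF Y m s ≤ (1/2)^(2m+8)`, `m ≥ 2`.

PROOF. Let `F z z' = iv (b z z' = 0 ∧ P z z')`.
1. For `u, u' ∈ Fin m → ZMod 2` nonzero and distinct, `FR_two_dir` gives
   `FR (F (lc u x) (lc u' x)) ≤ τ + |Y|^4 𝔼_y 𝔼_z 𝔼_z' iv (g y = 0) iv (g (y+z) = 0)
   iv (g (y+z') = 0) F z z'`. For fixed `(z, z')` such that `l1, l2 ↦ bl b l1 z + bl b l2 z'` has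
   no nonzero zero, `𝔼_y iv (g y = 0) iv (g (y+z) = 0) iv (g (y+z') = 0) ≤ |Y|^-3 + (1/2)^s`
   (`count_point` for `Θ y = (g y, g (y+z), g (y+z')) ∈ Y × Y × Y`; the phase of a character
   `(l0, l1, l2) ≠ 0` is `(l0+l1+l2) (g y) + l1 (b y z) + l2 (b y z') + const`). The other pairs
   have measure at most `|Y|^2 (1/2)^(2s)` (`deg_count` with `m = 2`). So
   `FR (..) ≤ τ + |Y|^4 (|Y|^-3 + (1/2)^s) 𝔼 𝔼 F + |Y|^6 (1/2)^(2s)
   ≤ τ + (1/2)^(2m+4) + |Y|^4 (1/2)^s + |Y|^6 (1/2)^(2s) ≤ (1/2)^(2m+4) + 3 τ`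
   (hypothesis `𝔼 𝔼 F ≤ (1/2)^(2m+4)/|Y|`; `mexp m ≥ mexp 2 = 4`, so `|Y|^4 (1/2)^s ≤ τ/6`).
2. For `u ≠ 0`: `FR_one_dir` with `F y z = iv (z = 0)`:
   `FR (iv (lc u x = 0)) ≤ τ + |Y|^2/|V| ≤ τ + (1/2)^(m+4)`
   (`|V| = 2^(finrank V)`, `hV`).
3. `FR 1 ≥ 1 - τ` (`FR_one`). Sum over the at most `4^m` pairs and `2^m` vectors:
   `4^m ((1/2)^(2m+4) + 3 τ) + 2^m (τ + (1/2)^(m+4)) ≤ 1/16 + 3/256 + 1/256 + 1/16 < 1 - τ`.
   So the function `1 - ∑ (bad events)` has positive `FR` and `FR_exists` gives a frame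
   `(y, x)` where all the bad events fail (they are indicator functions). For a frame,
   `b (lc u x) (lc u' x) = g (y + lc u x + lc u' x) + g (y + lc u x) + g (y + lc u' x) + g y = 0`
   (with `IsQM.shift`; if `u = u'` or one is `0` this also holds).
-/

set_option autoImplicit false

open Finset Function Module
open scoped BigOperators
open Pool.Agent.H77.KM

namespace Pool.Agent.H22.QK

section

variable {V : Type} [AddCommGroup V] [Module (ZMod 2) V] [Fintype V]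
variable {Y : Type} [AddCommGroup Y] [Module (ZMod 2) Y] [Fintype Y]
variable {g : V → Y} {b : V →ₗ[ZMod 2] V →ₗ[ZMod 2] Y} {m : ℕ}

/-- The measure of the degenerate pairs. -/
lemma deg_pairs {s : ℕ} (hs : Reg b s) :
    𝔼 z, 𝔼 z', iv (∃ l : Fin 2 → Dual (ZMod 2) Y, l ≠ 0 ∧
        ∑ i, bl b (l i) ((![z, z'] : Fin 2 → V) i) = 0)
      ≤ (Fintype.card Y : ℝ) ^ 2 * (1 / 2) ^ (2 * s) := by
  have h := deg_count hs 2
  refine le_of_eq_of_le ?_ h
  rw [← Finset.expect_product' Finset.univ Finset.univ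
    (fun z z' => iv (∃ l : Fin 2 → Dual (ZMod 2) Y, l ≠ 0 ∧
        ∑ i, bl b (l i) ((![z, z'] : Fin 2 → V) i) = 0))]
  rw [Finset.univ_product_univ]
  refine Fintype.expect_equiv (finTwoArrowEquiv V).symm _ _ (fun p => ?_)
  obtain ⟨z, z'⟩ := p
  rfl

/-- The three point count for a nondegenerate pair of directions. -/
lemma inner_count (hg : IsQM g b) {s : ℕ} (hs : Reg b s) (z z' : V)
    (hnd : ¬ ∃ l : Fin 2 → Dual (ZMod 2) Y, l ≠ 0 ∧
      ∑ i, bl b (l i) ((![z, z'] : Fin 2 → V) i) = 0) :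
    𝔼 y, iv (g y = 0) * iv (g (y + z) = 0) * iv (g (y + z') = 0)
      ≤ 1 / (Fintype.card Y : ℝ) ^ 3 + (1 / 2) ^ s := by
  have key : |𝔼 y, iv ((g y, g (y + z), g (y + z')) = (0 : Y × Y × Y))
      - 1 / (Fintype.card (Y × Y × Y) : ℝ)| ≤ (1 / 2) ^ s := by
    refine count_point (fun y => (g y, g (y + z), g (y + z'))) (0 : Y × Y × Y) (by positivity) ?_
    intro l hl
    obtain ⟨l0, hl0⟩ : ∃ l0 : Dual (ZMod 2) Y, ∀ a, l0 a = l (a, 0, 0) :=
      ⟨l.comp (LinearMap.inl (ZMod 2) Y (Y × Y)), fun a => rfl⟩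
    obtain ⟨l1, hl1⟩ : ∃ l1 : Dual (ZMod 2) Y, ∀ a, l1 a = l (0, a, 0) :=
      ⟨l.comp ((LinearMap.inr (ZMod 2) Y (Y × Y)).comp (LinearMap.inl (ZMod 2) Y Y)),
        fun a => rfl⟩
    obtain ⟨l2, hl2⟩ : ∃ l2 : Dual (ZMod 2) Y, ∀ a, l2 a = l (0, 0, a) :=
      ⟨l.comp ((LinearMap.inr (ZMod 2) Y (Y × Y)).comp (LinearMap.inr (ZMod 2) Y Y)),
        fun a => rfl⟩
    have hsum : ∀ a a' a'' : Y, l (a, a', a'') = l0 a + l1 a' + l2 a'' := by
      intro a a' a''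
      rw [hl0, hl1, hl2, ← map_add, ← map_add]
      simp
    obtain ⟨φ, hφ⟩ : ∃ φ : Dual (ZMod 2) V, ∀ x, φ x = l1 (b x z) + l2 (b x z') :=
      ⟨l1.comp (b.flip z) + l2.comp (b.flip z'), fun x => rfl⟩
    have hexp : ∀ y, sgn (l (g y, g (y + z), g (y + z')))
        = sgn ((l0 + l1 + l2) (g y) + φ y) * sgn (l1 (g z + g 0) + l2 (g z' + g 0)) := by
      intro y
      rw [← sgn_add, hsum, hg y z, hg y z', hφ]
      simp only [map_add, LinearMap.add_apply]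
      refine congrArg sgn ?_
      ring
    simp only [hexp]
    rw [← Finset.expect_mul, abs_mul, abs_sgn, mul_one]
    by_cases hL : l0 + l1 + l2 = 0
    · have hφ0 : φ ≠ 0 := by
        intro h0
        refine hnd ⟨![l1, l2], ?_, ?_⟩
        · intro h
          have h1 : l1 = 0 := by simpa using congrFun h 0
          have h2 : l2 = 0 := by simpa using congrFun h 1
          have h3 : l0 = 0 := by simpa [h1, h2] using hL
          refine hl (LinearMap.ext ?_)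
          rintro ⟨a, a', a''⟩
          rw [hsum, h1, h2, h3]
          simp
        · rw [Fin.sum_univ_two]
          refine LinearMap.ext (fun x => ?_)
          have h4 := hφ x
          rw [h0] at h4
          simp only [Matrix.cons_val_zero, Matrix.cons_val_one, LinearMap.add_apply, bl_apply,
            LinearMap.zero_apply] at h4 ⊢
          rw [hg.symm z x, hg.symm z' x]
          exact h4.symm
      have h5 : 𝔼 y, sgn ((l0 + l1 + l2) (g y) + φ y) = 0 := by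
        rw [hL]
        simp only [LinearMap.zero_apply, zero_add]
        exact expect_chi_eq_zero hφ0
      rw [h5, abs_zero]
      positivity
    · exact bias hg _ φ (hs _ hL)
  have hcard : (Fintype.card (Y × Y × Y) : ℝ) = (Fintype.card Y : ℝ) ^ 3 := by
    rw [Fintype.card_prod, Fintype.card_prod]
    push_cast
    ring
  rw [hcard] at key
  have hfun : ∀ y, iv (g y = 0) * iv (g (y + z) = 0) * iv (g (y + z') = 0)
      = iv ((g y, g (y + z), g (y + z')) = (0 : Y × Y × Y)) := by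
    intro y
    rw [← iv_and, ← iv_and]
    refine iv_congr ?_
    rw [Prod.ext_iff, Prod.ext_iff]
    simp only [Prod.fst_zero, Prod.snd_zero]
    tauto
  simp only [hfun]
  have := (abs_le.mp key).2
  linarith

lemma card_ge_one : (1 : ℝ) ≤ (Fintype.card Y : ℝ) := by
  exact_mod_cast (Fintype.card_pos : 0 < Fintype.card Y)

lemma small_tau {s : ℕ} (hm : 2 ≤ m) :
    (Fintype.card Y : ℝ) ^ 4 * (1 / 2) ^ s * 6 ≤ tauF Y m s := by
  unfold tauF
  have h1 : (1 : ℝ) ≤ (Fintype.card Y : ℝ) := card_ge_one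
  have h2 : (Fintype.card Y : ℝ) ^ 4 ≤ (Fintype.card Y : ℝ) ^ mexp m :=
    pow_le_pow_right₀ h1 (mexp_mono hm)
  have h3 : (6 : ℝ) ≤ 2 * ((m : ℝ) + 1) := by
    have : (2 : ℝ) ≤ (m : ℝ) := by exact_mod_cast hm
    linarith
  calc (Fintype.card Y : ℝ) ^ 4 * (1 / 2) ^ s * 6
      = (Fintype.card Y : ℝ) ^ 4 * 6 * (1 / 2) ^ s := by ring
    _ ≤ (Fintype.card Y : ℝ) ^ mexp m * (2 * ((m : ℝ) + 1)) * (1 / 2) ^ s := by
        refine mul_le_mul_of_nonneg_right ?_ (by positivity)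
        exact mul_le_mul h2 h3 (by norm_num) (by positivity)

/-- One bad pair. -/
lemma pair_bound (hg : IsQM g b) {s : ℕ} (hs : Reg b s) (hm : 2 ≤ m) (hτ : tauF Y m s ≤ 1)
    (P : V → V → Prop)
    (hP : 𝔼 z, 𝔼 z', iv (b z z' = 0 ∧ P z z') ≤ (1 / 2) ^ (2 * m + 4) / Fintype.card Y)
    {u u' : Fin m → ZMod 2} (hu : u ≠ 0) (hu' : u' ≠ 0) (huu : u ≠ u') :
    FR g m (fun _ x => iv (b (lc u x) (lc u' x) = 0 ∧ P (lc u x) (lc u' x)))
      ≤ (1 / 2) ^ (2 * m + 4) + 3 * tauF Y m s := by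
  have hC : (1 : ℝ) ≤ (Fintype.card Y : ℝ) := card_ge_one
  set C : ℝ := (Fintype.card Y : ℝ) with hCdef
  have hC0 : 0 < C := by linarith
  have h1 := FR_two_dir hg hs hτ hu hu' huu (fun _ z z' => iv (b z z' = 0 ∧ P z z'))
    (fun _ z z' => by rw [abs_of_nonneg (iv_nonneg _)]; exact iv_le_one _)
  rw [← hCdef] at h1
  have h2 : 𝔼 y, 𝔼 z, 𝔼 z', iv (g y = 0) * iv (g (y + z) = 0)
        * iv (g (y + z') = 0) * iv (g (y + z + z') = 0) * iv (b z z' = 0 ∧ P z z')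
      ≤ (1 / 2) ^ (2 * m + 4) / C * (1 / C ^ 3 + (1 / 2) ^ s) + C ^ 2 * (1 / 2) ^ (2 * s) := by
    have h3 : ∀ y z z', iv (g y = 0) * iv (g (y + z) = 0)
        * iv (g (y + z') = 0) * iv (g (y + z + z') = 0) * iv (b z z' = 0 ∧ P z z')
        ≤ iv (b z z' = 0 ∧ P z z')
          * (iv (g y = 0) * iv (g (y + z) = 0) * iv (g (y + z') = 0)) := by
      intro y z z'
      rw [mul_comm]
      refine mul_le_mul_of_nonneg_left ?_ (iv_nonneg _)
      have h4 : 0 ≤ iv (g y = 0) * iv (g (y + z) = 0) * iv (g (y + z') = 0) :=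
        mul_nonneg (mul_nonneg (iv_nonneg _) (iv_nonneg _)) (iv_nonneg _)
      exact mul_le_of_le_one_right h4 (iv_le_one _)
    have h5 : 𝔼 y, 𝔼 z, 𝔼 z', iv (g y = 0) * iv (g (y + z) = 0)
        * iv (g (y + z') = 0) * iv (g (y + z + z') = 0) * iv (b z z' = 0 ∧ P z z')
        ≤ 𝔼 z, 𝔼 z', iv (b z z' = 0 ∧ P z z')
          * 𝔼 y, (iv (g y = 0) * iv (g (y + z) = 0) * iv (g (y + z') = 0)) := by
      calc 𝔼 y, 𝔼 z, 𝔼 z', iv (g y = 0) * iv (g (y + z) = 0)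
            * iv (g (y + z') = 0) * iv (g (y + z + z') = 0) * iv (b z z' = 0 ∧ P z z')
          ≤ 𝔼 y, 𝔼 z, 𝔼 z', iv (b z z' = 0 ∧ P z z')
            * (iv (g y = 0) * iv (g (y + z) = 0) * iv (g (y + z') = 0)) :=
            Finset.expect_le_expect (fun y _ => Finset.expect_le_expect (fun z _ =>
              Finset.expect_le_expect (fun z' _ => h3 y z z')))
        _ = 𝔼 z, 𝔼 z', 𝔼 y, iv (b z z' = 0 ∧ P z z')
            * (iv (g y = 0) * iv (g (y + z) = 0) * iv (g (y + z') = 0)) := by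
            rw [Finset.expect_comm]
            refine Finset.expect_congr rfl (fun z _ => ?_)
            rw [Finset.expect_comm]
        _ = 𝔼 z, 𝔼 z', iv (b z z' = 0 ∧ P z z')
          * 𝔼 y, (iv (g y = 0) * iv (g (y + z) = 0) * iv (g (y + z') = 0)) := by
            refine Finset.expect_congr rfl (fun z _ => Finset.expect_congr rfl (fun z' _ => ?_))
            rw [Finset.mul_expect]
    refine h5.trans ?_
    have h6 : ∀ z z', iv (b z z' = 0 ∧ P z z')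
          * 𝔼 y, (iv (g y = 0) * iv (g (y + z) = 0) * iv (g (y + z') = 0))
        ≤ iv (b z z' = 0 ∧ P z z') * (1 / C ^ 3 + (1 / 2) ^ s)
          + iv (∃ l : Fin 2 → Dual (ZMod 2) Y, l ≠ 0 ∧
            ∑ i, bl b (l i) ((![z, z'] : Fin 2 → V) i) = 0) := by
      intro z z'
      by_cases hd : ∃ l : Fin 2 → Dual (ZMod 2) Y, l ≠ 0 ∧
            ∑ i, bl b (l i) ((![z, z'] : Fin 2 → V) i) = 0
      · rw [iv_pos hd]
        have h7 : 𝔼 y, (iv (g y = 0) * iv (g (y + z) = 0) * iv (g (y + z') = 0)) ≤ 1 := by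
          refine Finset.expect_le Finset.univ_nonempty (fun y _ => ?_)
          exact mul_le_one₀ (mul_le_one₀ (iv_le_one _) (iv_nonneg _) (iv_le_one _))
            (iv_nonneg _) (iv_le_one _)
        have h8 : 0 ≤ iv (b z z' = 0 ∧ P z z') * (1 / C ^ 3 + (1 / 2) ^ s) :=
          mul_nonneg (iv_nonneg _) (by positivity)
        have h9 : iv (b z z' = 0 ∧ P z z')
          * 𝔼 y, (iv (g y = 0) * iv (g (y + z) = 0) * iv (g (y + z') = 0)) ≤ 1 * 1 := by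
          refine mul_le_mul (iv_le_one _) h7 ?_ (by norm_num)
          exact Finset.expect_nonneg (fun y _ =>
            mul_nonneg (mul_nonneg (iv_nonneg _) (iv_nonneg _)) (iv_nonneg _))
        linarith
      · rw [iv_neg hd, add_zero]
        exact mul_le_mul_of_nonneg_left (inner_count hg hs z z' hd) (iv_nonneg _)
    calc 𝔼 z, 𝔼 z', iv (b z z' = 0 ∧ P z z')
          * 𝔼 y, (iv (g y = 0) * iv (g (y + z) = 0) * iv (g (y + z') = 0))
        ≤ 𝔼 z, 𝔼 z', (iv (b z z' = 0 ∧ P z z') * (1 / C ^ 3 + (1 / 2) ^ s)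
          + iv (∃ l : Fin 2 → Dual (ZMod 2) Y, l ≠ 0 ∧
            ∑ i, bl b (l i) ((![z, z'] : Fin 2 → V) i) = 0)) :=
          Finset.expect_le_expect (fun z _ => Finset.expect_le_expect (fun z' _ => h6 z z'))
      _ = (𝔼 z, 𝔼 z', iv (b z z' = 0 ∧ P z z')) * (1 / C ^ 3 + (1 / 2) ^ s)
          + 𝔼 z, 𝔼 z', iv (∃ l : Fin 2 → Dual (ZMod 2) Y, l ≠ 0 ∧
            ∑ i, bl b (l i) ((![z, z'] : Fin 2 → V) i) = 0) := by
          simp only [Finset.expect_add_distrib, Finset.expect_mul]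
      _ ≤ (1 / 2) ^ (2 * m + 4) / C * (1 / C ^ 3 + (1 / 2) ^ s)
          + C ^ 2 * (1 / 2) ^ (2 * s) := by
          refine add_le_add ?_ (deg_pairs hs)
          exact mul_le_mul_of_nonneg_right hP (by positivity)
  have h10 := (abs_le.mp h1).2
  have h11 : C ^ 4 * 𝔼 y, 𝔼 z, 𝔼 z', iv (g y = 0) * iv (g (y + z) = 0)
        * iv (g (y + z') = 0) * iv (g (y + z + z') = 0) * iv (b z z' = 0 ∧ P z z')
      ≤ (1 / 2) ^ (2 * m + 4) + 2 * tauF Y m s := by
    refine (mul_le_mul_of_nonneg_left h2 (by positivity)).trans ?_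
    have h12 : C ^ 4 * ((1 / 2) ^ (2 * m + 4) / C * (1 / C ^ 3 + (1 / 2) ^ s)
        + C ^ 2 * (1 / 2) ^ (2 * s))
        = (1 / 2) ^ (2 * m + 4) + (1 / 2) ^ (2 * m + 4) * (C ^ 3 * (1 / 2) ^ s)
          + (C ^ 3 * (1 / 2) ^ s) ^ 2 := by
      rw [show (2 * s) = s + s from by ring, pow_add (1 / 2 : ℝ) s s]
      field_simp
    rw [h12]
    have h13 : C ^ 4 * (1 / 2) ^ s * 6 ≤ tauF Y m s := small_tau hm
    have h14 : C ^ 3 * (1 / 2 : ℝ) ^ s ≤ C ^ 4 * (1 / 2) ^ s :=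
      mul_le_mul_of_nonneg_right (pow_le_pow_right₀ hC (by norm_num)) (by positivity)
    have h15 : (0 : ℝ) ≤ C ^ 3 * (1 / 2 : ℝ) ^ s := by positivity
    have h16 : C ^ 3 * (1 / 2 : ℝ) ^ s ≤ tauF Y m s := by linarith
    have h17 : (1 / 2 : ℝ) ^ (2 * m + 4) ≤ 1 := pow_le_one₀ (by norm_num) (by norm_num)
    have h18 : (1 / 2 : ℝ) ^ (2 * m + 4) * (C ^ 3 * (1 / 2) ^ s) ≤ 1 * tauF Y m s :=
      mul_le_mul h17 h16 h15 (by norm_num)
    have h19 : (C ^ 3 * (1 / 2 : ℝ) ^ s) ^ 2 ≤ 1 * tauF Y m s := by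
      rw [sq]
      exact mul_le_mul (h16.trans hτ) h16 h15 (by norm_num)
    linarith
  have h20 : FR g m (fun _ x => iv (b (lc u x) (lc u' x) = 0 ∧ P (lc u x) (lc u' x)))
      ≤ C ^ 4 * 𝔼 y, 𝔼 z, 𝔼 z', iv (g y = 0) * iv (g (y + z) = 0)
        * iv (g (y + z') = 0) * iv (g (y + z + z') = 0) * iv (b z z' = 0 ∧ P z z')
        + tauF Y m s := by linarith
  linarith

/-- One vanishing vector. -/
lemma vec_bound (hg : IsQM g b) {s : ℕ} (hs : Reg b s) (hτ : tauF Y m s ≤ 1)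
    (hV : 2 * finrank (ZMod 2) Y + m + 4 ≤ finrank (ZMod 2) V)
    {u : Fin m → ZMod 2} (hu : u ≠ 0) :
    FR g m (fun _ x => iv (lc u x = 0)) ≤ tauF Y m s + (1 / 2) ^ (m + 4) := by
  have h1 := FR_one_dir hg hs hτ hu (fun _ z => iv (z = 0))
    (fun _ z => by rw [abs_of_nonneg (iv_nonneg _)]; exact iv_le_one _)
  have h2 : 𝔼 y, 𝔼 z, iv (g y = 0) * iv (g (y + z) = 0) * iv (z = 0)
      ≤ 1 / (Fintype.card V : ℝ) := by
    refine Finset.expect_le Finset.univ_nonempty (fun y _ => ?_)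
    have h3 : 𝔼 z, iv (g y = 0) * iv (g (y + z) = 0) * iv (z = 0) ≤ 𝔼 z : V, iv (z = 0) := by
      refine Finset.expect_le_expect (fun z _ => ?_)
      exact mul_le_of_le_one_left (iv_nonneg _)
        (mul_le_one₀ (iv_le_one _) (iv_nonneg _) (iv_le_one _))
    refine h3.trans (le_of_eq ?_)
    rw [Finset.expect_eq_sum_div_card, Finset.sum_eq_single (0 : V), iv_pos rfl,
      Finset.card_univ]
    · intro z _ hz
      exact iv_neg hz
    · intro h
      exact absurd (Finset.mem_univ _) h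
  have h4 : (Fintype.card Y : ℝ) ^ 2 * (1 / (Fintype.card V : ℝ)) ≤ (1 / 2) ^ (m + 4) := by
    have hY : (Fintype.card Y : ℝ) = 2 ^ finrank (ZMod 2) Y := by
      rw [Module.card_eq_pow_finrank (K := ZMod 2) (V := Y), ZMod.card]
      norm_cast
    have hVc : (Fintype.card V : ℝ) = 2 ^ finrank (ZMod 2) V := by
      rw [Module.card_eq_pow_finrank (K := ZMod 2) (V := V), ZMod.card]
      norm_cast
    rw [hY, hVc, one_div_pow, mul_one_div, div_le_div_iff₀ (by positivity) (by positivity),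
      one_mul, ← pow_mul, ← pow_add]
    exact pow_le_pow_right₀ (by norm_num) (by omega)
  have h5 := (abs_le.mp h1).2
  have h6 : (Fintype.card Y : ℝ) ^ 2
      * 𝔼 y, 𝔼 z, iv (g y = 0) * iv (g (y + z) = 0) * iv (z = 0) ≤ (1 / 2) ^ (m + 4) :=
    (mul_le_mul_of_nonneg_left h2 (by positivity)).trans h4
  linarith

end

theorem good_frame {V : Type} [AddCommGroup V] [Module (ZMod 2) V] [Fintype V]
    {Y : Type} [AddCommGroup Y] [Module (ZMod 2) Y] [Fintype Y]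
    {g : V → Y} {b : V →ₗ[ZMod 2] V →ₗ[ZMod 2] Y} (hg : IsQM g b) {s m : ℕ} (hs : Reg b s)
    (hm : 2 ≤ m) (hτ : tauF Y m s ≤ (1 / 2) ^ (2 * m + 8))
    (hV : 2 * finrank (ZMod 2) Y + m + 4 ≤ finrank (ZMod 2) V) (P : V → V → Prop)
    (hP : 𝔼 z, 𝔼 z', iv (b z z' = 0 ∧ P z z') ≤ (1 / 2) ^ (2 * m + 4) / Fintype.card Y) :
    ∃ x : Fin m → V, (∀ u : Fin m → ZMod 2, u ≠ 0 → lc u x ≠ 0) ∧
      (∀ u u' : Fin m → ZMod 2, b (lc u x) (lc u' x) = 0) ∧
      ∀ u u' : Fin m → ZMod 2, u ≠ 0 → u' ≠ 0 → u ≠ u' → ¬ P (lc u x) (lc u' x) := by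
  classical
  have hτ1 : tauF Y m s ≤ 1 := hτ.trans (pow_le_one₀ (by norm_num) (by norm_num))
  let T : Finset ((Fin m → ZMod 2) × (Fin m → ZMod 2)) :=
    Finset.univ.filter (fun p => p.1 ≠ 0 ∧ p.2 ≠ 0 ∧ p.1 ≠ p.2)
  let U : Finset (Fin m → ZMod 2) := Finset.univ.filter (fun u => u ≠ 0)
  have hT : FR g m (fun _ x => ∑ p ∈ T,
      iv (b (lc p.1 x) (lc p.2 x) = 0 ∧ P (lc p.1 x) (lc p.2 x)))
      ≤ (2 : ℝ) ^ (2 * m) * ((1 / 2) ^ (2 * m + 4) + 3 * tauF Y m s) := by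
    rw [FR_sum T (fun p _ x => iv (b (lc p.1 x) (lc p.2 x) = 0 ∧ P (lc p.1 x) (lc p.2 x)))]
    have h1 : ∀ p ∈ T, FR g m (fun _ x =>
        iv (b (lc p.1 x) (lc p.2 x) = 0 ∧ P (lc p.1 x) (lc p.2 x)))
        ≤ (1 / 2) ^ (2 * m + 4) + 3 * tauF Y m s := by
      intro p hp
      have hp' := (Finset.mem_filter.mp hp).2
      exact pair_bound hg hs hm hτ1 P hP hp'.1 hp'.2.1 hp'.2.2
    refine (Finset.sum_le_card_nsmul T _ _ h1).trans ?_
    rw [nsmul_eq_mul]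
    have h2 : (0 : ℝ) ≤ tauF Y m s := by unfold tauF; positivity
    refine mul_le_mul_of_nonneg_right ?_ (by positivity)
    have h3 : T.card ≤ 2 ^ (2 * m) := by
      refine (Finset.card_le_univ T).trans (le_of_eq ?_)
      rw [Fintype.card_prod, Fintype.card_fun, ZMod.card, Fintype.card_fin, ← pow_add,
        two_mul]
    exact_mod_cast h3
  have hU : FR g m (fun _ x => ∑ u ∈ U, iv (lc u x = 0))
      ≤ (2 : ℝ) ^ m * (tauF Y m s + (1 / 2) ^ (m + 4)) := by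
    rw [FR_sum U (fun u _ x => iv (lc u x = 0))]
    have h1 : ∀ u ∈ U, FR g m (fun _ x => iv (lc u x = 0))
        ≤ tauF Y m s + (1 / 2) ^ (m + 4) := by
      intro u hu
      exact vec_bound hg hs hτ1 hV (Finset.mem_filter.mp hu).2
    refine (Finset.sum_le_card_nsmul U _ _ h1).trans ?_
    rw [nsmul_eq_mul]
    have h2 : (0 : ℝ) ≤ tauF Y m s := by unfold tauF; positivity
    refine mul_le_mul_of_nonneg_right ?_ (by positivity)
    have h3 : U.card ≤ 2 ^ m := by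
      refine (Finset.card_le_univ U).trans (le_of_eq ?_)
      rw [Fintype.card_fun, ZMod.card, Fintype.card_fin]
    exact_mod_cast h3
  have hone := (abs_le.mp (FR_one hg hs hτ1)).1
  have hpos : 0 < FR g m (fun _ x => 1 - (∑ p ∈ T,
      iv (b (lc p.1 x) (lc p.2 x) = 0 ∧ P (lc p.1 x) (lc p.2 x))
        + ∑ u ∈ U, iv (lc u x = 0))) := by
    rw [FR_sub (fun _ _ => 1) (fun _ x => ∑ p ∈ T,
      iv (b (lc p.1 x) (lc p.2 x) = 0 ∧ P (lc p.1 x) (lc p.2 x))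
        + ∑ u ∈ U, iv (lc u x = 0)),
      FR_add (fun _ x => ∑ p ∈ T,
      iv (b (lc p.1 x) (lc p.2 x) = 0 ∧ P (lc p.1 x) (lc p.2 x)))
        (fun _ x => ∑ u ∈ U, iv (lc u x = 0))]
    have e1 : (2 : ℝ) ^ (2 * m) * (1 / 2) ^ (2 * m + 4) = 1 / 16 := by
      rw [pow_add, ← mul_assoc, ← mul_pow]
      norm_num
    have e2 : (2 : ℝ) ^ (2 * m) * (1 / 2) ^ (2 * m + 8) = 1 / 256 := by
      rw [pow_add, ← mul_assoc, ← mul_pow]
      norm_num
    have e3 : (2 : ℝ) ^ m * (1 / 2) ^ (m + 4) = 1 / 16 := by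
      rw [pow_add, ← mul_assoc, ← mul_pow]
      norm_num
    have e4 : (2 : ℝ) ^ m ≤ 2 ^ (2 * m) := pow_le_pow_right₀ (by norm_num) (by omega)
    have e0 : (0 : ℝ) ≤ tauF Y m s := by unfold tauF; positivity
    have e5 : (2 : ℝ) ^ (2 * m) * tauF Y m s ≤ 1 / 256 := by
      rw [← e2]
      exact mul_le_mul_of_nonneg_left hτ (by positivity)
    have e6 : (2 : ℝ) ^ m * tauF Y m s ≤ 1 / 256 :=
      (mul_le_mul_of_nonneg_right e4 e0).trans e5
    have e7 : tauF Y m s ≤ 1 / 256 := by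
      refine le_trans ?_ e5
      exact le_mul_of_one_le_left e0 (one_le_pow₀ (by norm_num))
    have f1 : (2 : ℝ) ^ (2 * m) * ((1 / 2) ^ (2 * m + 4) + 3 * tauF Y m s)
        = 1 / 16 + 3 * ((2 : ℝ) ^ (2 * m) * tauF Y m s) := by rw [mul_add, e1]; ring
    have f2 : (2 : ℝ) ^ m * (tauF Y m s + (1 / 2) ^ (m + 4))
        = (2 : ℝ) ^ m * tauF Y m s + 1 / 16 := by rw [mul_add, e3]
    rw [f1] at hT
    rw [f2] at hU
    linarith
  obtain ⟨y, x, hfr, hx⟩ := FR_exists hpos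
  have hnn1 : ∀ p ∈ T, 0 ≤ iv (b (lc p.1 x) (lc p.2 x) = 0 ∧ P (lc p.1 x) (lc p.2 x)) :=
    fun p _ => iv_nonneg _
  have hnn2 : ∀ u ∈ U, 0 ≤ iv (lc u x = 0) := fun u _ => iv_nonneg _
  have hs1 := Finset.sum_nonneg hnn1
  have hs2 := Finset.sum_nonneg hnn2
  have hb : ∀ u u' : Fin m → ZMod 2, b (lc u x) (lc u' x) = 0 := by
    intro u u'
    have h1 := (hg.shift y) (lc u x) (lc u' x)
    have a1 : g (y + (lc u x + lc u' x)) = 0 := by
      rw [← lc_add]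
      exact hfr _
    have a2 : g (y + lc u x) = 0 := hfr _
    have a3 : g (y + lc u' x) = 0 := hfr _
    have a4 : g (y + 0) = 0 := by
      have := hfr 0
      rwa [lc_zero] at this
    simp only [a1, a2, a3, a4, zero_add] at h1
    exact h1.symm
  refine ⟨x, ?_, hb, ?_⟩
  · intro u hu h0
    have hmem : u ∈ U := Finset.mem_filter.mpr ⟨Finset.mem_univ _, hu⟩
    have h1 := Finset.single_le_sum hnn2 hmem
    rw [iv_pos h0] at h1
    linarith
  · intro u u' hu hu' huu hPu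
    have hmem : (u, u') ∈ T := Finset.mem_filter.mpr ⟨Finset.mem_univ _, hu, hu', huu⟩
    have h1 := Finset.single_le_sum hnn1 hmem
    rw [iv_pos (show b (lc (u, u').1 x) (lc (u, u').2 x) = 0 ∧ P (lc (u, u').1 x)
      (lc (u, u').2 x) from ⟨hb _ _, hPu⟩)] at h1
    linarith

end Pool.Agent.H22.QK
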