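import Pool.Agent.H22.QK.Defs

/-!
# Sym: the symmetry argument (about 170 lines)

PROOF. Notation `G x = 𝔼_y f1 y f2 (y+x) sgn (T x y)`, `S = 𝔼_x (G x)^2`, `D = T + T.flip`,
`F_h z = f2 z * f2 (z+h)`, `hat F ζ = 𝔼_z F z sgn (ζ z)`.
1. `S = 𝔼_x G x 𝔼_y f1 y f2 (y+x) sgn (T x y) = 𝔼_y f1 y 𝔼_x G x f2 (y+x) sgn (T x y)`.
   Cauchy-Schwarz in `y` (`|f1| ≤ 1`): `S^2 ≤ 𝔼_y (𝔼_x G x f2 (y+x) sgn (T x y))^2`
   `= 𝔼_h 𝔼_x G x G (x+h) 𝔼_y f2 (y+x) f2 (y+x+h) sgn (T h y)` (second variable `x' = x + h`;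
   `sgn (T x y) sgn (T (x+h) y) = sgn (T h y)`) `= 𝔼_h hat F_h (T h) 𝔼_x G x G (x+h) sgn (T h x)`
   (substitute `z = y + x`).
2. `G x G (x+h) = 𝔼_y 𝔼_γ f1 y f1 (y+γ) sgn (T h (y+γ)) * f2 (y+x) f2 (y+x+γ+h) sgn (T x γ)`
   (second variable `y' = y + γ`: `T x y + T (x+h) (y+γ) = T x γ + T h (y+γ)`).
   Multiply by `sgn (T h x)`, average over `x` and put `z = y + x`:
   the average over `x` of `f2 z f2 (z+γ+h) sgn (T (z+y) γ) sgn (T h (z+y))` is
   `± 𝔼_z F_(γ+h) z sgn (T z γ + T h z) = ± hat F_(γ+h) (T.flip γ + T h)`, and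
   `T.flip γ + T h = T (γ+h) + D γ`. Since `|f1| ≤ 1`:
   `|𝔼_x G x G (x+h) sgn (T h x)| ≤ 𝔼_γ |hat F_(γ+h) (T (γ+h) + D γ)|`.
3. `|hat F_h (T h)| ≤ 1`, so `S^2 ≤ 𝔼_h 𝔼_γ |hat F_(γ+h) (T (γ+h) + D γ)|
   = 𝔼_h 𝔼_γ |hat F_h (T h + D γ)|` (substitute `h → h + γ`).
4. Cauchy-Schwarz: `S^4 ≤ 𝔼_h 𝔼_γ |hat F_h (T h + D γ)|^2`, and for fixed `h` every `ζ` is of the
   form `T h + D γ` for at most `|ker D|` values of `γ`:
   `𝔼_γ |hat F_h (T h + D γ)|^2 ≤ (|ker D|/|V|) ∑_ζ |hat F_h ζ|^2 ≤ |ker D|/|V|` (Parseval).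
-/

set_option autoImplicit false

open Finset Function Module
open scoped BigOperators
open Pool.Agent.H77.KM

namespace Pool.Agent.H22.QK

lemma sym_cs {ι : Type} [Fintype ι] [Nonempty ι] (a : ι → ℝ) : (𝔼 i, a i) ^ 2 ≤ 𝔼 i, a i ^ 2 :=
  expect_pow_even_le Finset.univ_nonempty a (by norm_num)

theorem parseval_fun {V : Type} [AddCommGroup V] [Module (ZMod 2) V] [Fintype V] (F : V → ℝ) :
    ∑ φ : Dual (ZMod 2) V, hat F φ ^ 2 = 𝔼 x, F x ^ 2 := by
  have h1 : ∀ φ : Dual (ZMod 2) V, hat F φ ^ 2 = 𝔼 x, F x * (hat F φ * chi φ x) := by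
    intro φ
    have : ∀ x, F x * (hat F φ * chi φ x) = hat F φ * (F x * chi φ x) := fun x => by ring
    simp only [this]
    rw [← Finset.mul_expect, sq]
    rfl
  simp only [h1]
  rw [← Finset.expect_sum_comm]
  refine Finset.expect_congr rfl (fun x _ => ?_)
  rw [← Finset.mul_sum, inversion, sq]

lemma sym_fiber {V : Type} [AddCommGroup V] [Module (ZMod 2) V] [Fintype V]
    (D : V →ₗ[ZMod 2] Dual (ZMod 2) V) (Q : Dual (ZMod 2) V → ℝ) (hQ : ∀ z, 0 ≤ Q z) :
    ∑ c : V, Q (D c) ≤ (Nat.card (LinearMap.ker D) : ℝ) * ∑ z, Q z := by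
  classical
  have hk : Nat.card (LinearMap.ker D) = (Finset.univ.filter (fun c : V => D c = 0)).card := by
    rw [Nat.card_eq_fintype_card, Fintype.card_subtype]
    congr 1
    ext c
    simp [LinearMap.mem_ker]
  have h1 : ∑ c : V, Q (D c) = ∑ z, ∑ c ∈ Finset.univ.filter (fun c : V => D c = z), Q (D c) :=
    (Finset.sum_fiberwise _ _ _).symm
  rw [h1, Finset.mul_sum]
  refine Finset.sum_le_sum (fun z _ => ?_)
  have h2 : ∑ c ∈ Finset.univ.filter (fun c : V => D c = z), Q (D c)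
      = ((Finset.univ.filter (fun c : V => D c = z)).card : ℝ) * Q z := by
    rw [Finset.sum_congr rfl (g := fun _ => Q z)]
    · rw [Finset.sum_const, nsmul_eq_mul]
    · intro c hc
      rw [(Finset.mem_filter.mp hc).2]
  rw [h2]
  refine mul_le_mul_of_nonneg_right ?_ (hQ z)
  rw [hk]
  rcases (Finset.univ.filter (fun c : V => D c = z)).eq_empty_or_nonempty with h | ⟨c0, hc0⟩
  · rw [h]
    simp
  · have hc0' := (Finset.mem_filter.mp hc0).2
    have : (Finset.univ.filter (fun c : V => D c = z)).card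
        ≤ (Finset.univ.filter (fun c : V => D c = 0)).card := by
      refine Finset.card_le_card_of_injOn (fun c => c - c0) ?_ ?_
      · intro c hc
        have hc' := (Finset.mem_filter.mp (Finset.mem_coe.mp hc)).2
        rw [Finset.mem_coe, Finset.mem_filter]
        exact ⟨Finset.mem_univ _, by rw [map_sub, hc', hc0', sub_self]⟩
      · intro a _ b _ hab
        exact sub_left_injective hab
    exact_mod_cast this

lemma sym_step1 {V : Type} [AddCommGroup V] [Module (ZMod 2) V] [Fintype V]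
    (f1 f2 G : V → ℝ) (h1 : ∀ x, |f1 x| ≤ 1)
    (T : V →ₗ[ZMod 2] V →ₗ[ZMod 2] ZMod 2)
    (hG : ∀ x, G x = 𝔼 y, f1 y * f2 (y + x) * sgn (T x y)) :
    (𝔼 x, G x ^ 2) ^ 2 ≤ 𝔼 h, hat (fun z => f2 z * f2 (z + h)) (T h)
      * 𝔼 x, G x * G (x + h) * sgn (T h x) := by
  have hself : ∀ a : V, a + a = 0 := fun a => ZModModule.add_self a
  have hS : 𝔼 x, G x ^ 2 = 𝔼 y, f1 y * 𝔼 x, G x * f2 (y + x) * sgn (T x y) := by
    have e1 : ∀ x, G x ^ 2 = 𝔼 y, f1 y * (G x * f2 (y + x) * sgn (T x y)) := by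
      intro x
      calc G x ^ 2 = G x * G x := sq _
        _ = G x * 𝔼 y, f1 y * f2 (y + x) * sgn (T x y) := by rw [← hG x]
        _ = _ := by
          rw [Finset.mul_expect]
          refine Finset.expect_congr rfl (fun y _ => ?_)
          ring
    simp only [e1]
    rw [Finset.expect_comm]
    simp only [Finset.mul_expect]
  have hCS : (𝔼 x, G x ^ 2) ^ 2 ≤ 𝔼 y, (𝔼 x, G x * f2 (y + x) * sgn (T x y)) ^ 2 := by
    rw [hS]
    refine le_trans (sym_cs _) ?_
    refine Finset.expect_le_expect (fun y _ => ?_)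
    rw [mul_pow]
    have : f1 y ^ 2 ≤ 1 := by
      rw [← sq_abs]
      have := h1 y
      have h0 := abs_nonneg (f1 y)
      nlinarith
    have h0 := sq_nonneg (𝔼 x, G x * f2 (y + x) * sgn (T x y))
    nlinarith
  refine le_trans hCS (le_of_eq ?_)
  have e2 : ∀ y, (𝔼 x, G x * f2 (y + x) * sgn (T x y)) ^ 2
      = 𝔼 x, 𝔼 h, G x * G (x + h) * (f2 (y + x) * f2 (y + x + h)) * sgn (T h y) := by
    intro y
    rw [sq, Finset.expect_mul_expect]
    refine Finset.expect_congr rfl (fun x _ => ?_)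
    rw [← expect_add_left (fun x' => G x * f2 (y + x) * sgn (T x y)
      * (G x' * f2 (y + x') * sgn (T x' y))) x]
    refine Finset.expect_congr rfl (fun h _ => ?_)
    have e3 : sgn (T (x + h) y) = sgn (T x y) * sgn (T h y) := by
      rw [map_add, LinearMap.add_apply, sgn_add]
    have e4 := sgn_sq (T x y)
    rw [e3, ← add_assoc]
    linear_combination (G x * f2 (y + x) * (G (x + h) * f2 (y + x + h)) * sgn (T h y)) * e4
  simp only [e2]
  have e5 : 𝔼 y, 𝔼 x, 𝔼 h, G x * G (x + h) * (f2 (y + x) * f2 (y + x + h)) * sgn (T h y)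
      = 𝔼 h, 𝔼 x, 𝔼 y, G x * G (x + h) * (f2 (y + x) * f2 (y + x + h)) * sgn (T h y) := by
    rw [Finset.expect_comm]
    have : ∀ x, 𝔼 y, 𝔼 h, G x * G (x + h) * (f2 (y + x) * f2 (y + x + h)) * sgn (T h y)
        = 𝔼 h, 𝔼 y, G x * G (x + h) * (f2 (y + x) * f2 (y + x + h)) * sgn (T h y) :=
      fun x => Finset.expect_comm _ _ _
    simp only [this]
    rw [Finset.expect_comm]
  rw [e5]
  refine Finset.expect_congr rfl (fun h _ => ?_)
  rw [Finset.mul_expect]
  refine Finset.expect_congr rfl (fun x _ => ?_)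
  have e6 : 𝔼 y, G x * G (x + h) * (f2 (y + x) * f2 (y + x + h)) * sgn (T h y)
      = 𝔼 z, G x * G (x + h) * sgn (T h x) * (f2 z * f2 (z + h) * chi (T h) z) := by
    rw [← expect_add_right (fun z => G x * G (x + h) * sgn (T h x)
      * (f2 z * f2 (z + h) * chi (T h) z)) x]
    refine Finset.expect_congr rfl (fun y _ => ?_)
    rw [chi_add]
    simp only [chi]
    have e4 := sgn_sq (T h x)
    linear_combination (-(G x * G (x + h) * (f2 (y + x) * f2 (y + x + h)) * sgn (T h y))) * e4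
  rw [e6, ← Finset.mul_expect, mul_comm]
  rfl

lemma sym_step2 {V : Type} [AddCommGroup V] [Module (ZMod 2) V] [Fintype V]
    (f1 f2 G : V → ℝ) (h1 : ∀ x, |f1 x| ≤ 1)
    (T : V →ₗ[ZMod 2] V →ₗ[ZMod 2] ZMod 2)
    (hG : ∀ x, G x = 𝔼 y, f1 y * f2 (y + x) * sgn (T x y)) (h : V) :
    |𝔼 x, G x * G (x + h) * sgn (T h x)|
      ≤ 𝔼 c, |hat (fun z => f2 z * f2 (z + (c + h))) (T (c + h) + (T + T.flip) c)| := by
  have hself : ∀ a : V, a + a = 0 := fun a => ZModModule.add_self a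
  have e1 : ∀ x, G x * G (x + h) * sgn (T h x) = 𝔼 y, 𝔼 c, f1 y * f1 (y + c) * sgn (T h (y + c))
      * (f2 (y + x) * f2 (y + x + (c + h)) * sgn (T x c) * sgn (T h x)) := by
    intro x
    rw [hG x, hG (x + h), Finset.expect_mul_expect, Finset.expect_mul]
    refine Finset.expect_congr rfl (fun y _ => ?_)
    rw [← expect_add_left (fun y' => f1 y * f2 (y + x) * sgn (T x y)
      * (f1 y' * f2 (y' + (x + h)) * sgn (T (x + h) y'))) y, Finset.expect_mul]
    refine Finset.expect_congr rfl (fun c _ => ?_)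
    have e3 : sgn (T (x + h) (y + c)) = sgn (T x y) * sgn (T x c) * sgn (T h (y + c)) := by
      rw [map_add T x h, LinearMap.add_apply, sgn_add, map_add (T x), sgn_add]
    have e4 := sgn_sq (T x y)
    have e5 : y + c + (x + h) = y + x + (c + h) := by abel
    rw [e3, e5]
    linear_combination (f1 y * f1 (y + c) * sgn (T h (y + c))
      * (f2 (y + x) * f2 (y + x + (c + h)) * sgn (T x c) * sgn (T h x))) * e4
  have e2 : 𝔼 x, G x * G (x + h) * sgn (T h x) = 𝔼 y, 𝔼 c, f1 y * f1 (y + c) * sgn (T h (y + c))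
      * 𝔼 x, f2 (y + x) * f2 (y + x + (c + h)) * sgn (T x c) * sgn (T h x) := by
    simp only [e1]
    rw [Finset.expect_comm]
    refine Finset.expect_congr rfl (fun y _ => ?_)
    rw [Finset.expect_comm]
    refine Finset.expect_congr rfl (fun c _ => ?_)
    rw [← Finset.mul_expect]
  have e3 : ∀ y c : V, |𝔼 x, f2 (y + x) * f2 (y + x + (c + h)) * sgn (T x c) * sgn (T h x)|
      = |hat (fun z => f2 z * f2 (z + (c + h))) (T (c + h) + (T + T.flip) c)| := by
    intro y c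
    have e4 : 𝔼 x, f2 (y + x) * f2 (y + x + (c + h)) * sgn (T x c) * sgn (T h x)
        = 𝔼 z, (sgn (T y c) * sgn (T h y)) * (f2 z * f2 (z + (c + h))
          * chi (T (c + h) + (T + T.flip) c) z) := by
      rw [← expect_add_left (fun z => (sgn (T y c) * sgn (T h y)) * (f2 z * f2 (z + (c + h))
          * chi (T (c + h) + (T + T.flip) c) z)) y]
      refine Finset.expect_congr rfl (fun x _ => ?_)
      have e5 : ∀ z, chi (T (c + h) + (T + T.flip) c) z = sgn (T z c) * sgn (T h z) := by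
        intro z
        simp only [chi, LinearMap.add_apply, map_add, LinearMap.flip_apply, sgn_add]
        have := sgn_sq (T c z)
        linear_combination (sgn (T h z) * sgn (T z c)) * this
      rw [e5, map_add T y x, LinearMap.add_apply, sgn_add, map_add (T h) y x, sgn_add]
      have a1 := sgn_sq (T y c)
      have a2 := sgn_sq (T h y)
      linear_combination (-(f2 (y + x) * f2 (y + x + (c + h)) * sgn (T x c) * sgn (T h x))
        * (sgn (T h y) * sgn (T h y))) * a1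
        + (-(f2 (y + x) * f2 (y + x + (c + h)) * sgn (T x c) * sgn (T h x))) * a2
    rw [e4, ← Finset.mul_expect, abs_mul, abs_mul, abs_sgn, abs_sgn, one_mul, one_mul]
    rfl
  rw [e2]
  refine le_trans (Finset.abs_expect_le _ _) ?_
  have e6 : ∀ y, |𝔼 c, f1 y * f1 (y + c) * sgn (T h (y + c))
      * 𝔼 x, f2 (y + x) * f2 (y + x + (c + h)) * sgn (T x c) * sgn (T h x)|
      ≤ 𝔼 c, |hat (fun z => f2 z * f2 (z + (c + h))) (T (c + h) + (T + T.flip) c)| := by
    intro y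
    refine le_trans (Finset.abs_expect_le _ _) ?_
    refine Finset.expect_le_expect (fun c _ => ?_)
    rw [abs_mul, abs_mul, abs_mul, abs_sgn, mul_one, e3]
    have b1 := h1 y
    have b2 := h1 (y + c)
    have b3 := abs_nonneg (f1 y)
    have b4 := abs_nonneg (f1 (y + c))
    have b5 : |f1 y| * |f1 (y + c)| ≤ 1 := by nlinarith
    exact mul_le_of_le_one_left (abs_nonneg _) b5
  refine Finset.expect_le Finset.univ_nonempty (fun y _ => e6 y)

theorem sym {V : Type} [AddCommGroup V] [Module (ZMod 2) V] [Fintype V]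
    (f1 f2 : V → ℝ) (h1 : ∀ x, |f1 x| ≤ 1) (h2 : ∀ x, |f2 x| ≤ 1)
    (T : V →ₗ[ZMod 2] V →ₗ[ZMod 2] ZMod 2) :
    (𝔼 x, (𝔼 y, f1 y * f2 (y + x) * sgn (T x y)) ^ 2) ^ 4
      ≤ (Nat.card (LinearMap.ker (T + T.flip)) : ℝ) / Fintype.card V := by
  obtain ⟨G, hG⟩ : ∃ G : V → ℝ, ∀ x, G x = 𝔼 y, f1 y * f2 (y + x) * sgn (T x y) :=
    ⟨_, fun _ => rfl⟩
  simp only [← hG]
  have hF : ∀ h z, |f2 z * f2 (z + h)| ≤ 1 := by
    intro h z
    rw [abs_mul]
    have b1 := h2 z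
    have b2 := h2 (z + h)
    have b3 := abs_nonneg (f2 z)
    have b4 := abs_nonneg (f2 (z + h))
    nlinarith
  have hhat : ∀ h φ, |hat (fun z => f2 z * f2 (z + h)) φ| ≤ 1 := by
    intro h φ
    refine le_trans (Finset.abs_expect_le _ _) ?_
    refine Finset.expect_le Finset.univ_nonempty (fun x _ => ?_)
    rw [abs_mul, abs_chi, mul_one]
    exact hF h x
  have s1 := sym_step1 f1 f2 G h1 T hG
  have s2 : (𝔼 x, G x ^ 2) ^ 2
      ≤ 𝔼 h, 𝔼 c, |hat (fun z => f2 z * f2 (z + (c + h))) (T (c + h) + (T + T.flip) c)| := by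
    refine le_trans s1 ?_
    refine Finset.expect_le_expect (fun h _ => ?_)
    refine le_trans (le_abs_self _) ?_
    rw [abs_mul]
    refine le_trans (mul_le_of_le_one_left (abs_nonneg _) (hhat h (T h))) ?_
    exact sym_step2 f1 f2 G h1 T hG h
  have s3 : 𝔼 h, 𝔼 c, |hat (fun z => f2 z * f2 (z + (c + h))) (T (c + h) + (T + T.flip) c)|
      = 𝔼 h, 𝔼 c, |hat (fun z => f2 z * f2 (z + h)) (T h + (T + T.flip) c)| := by
    rw [Finset.expect_comm]
    have : ∀ c : V, 𝔼 h, |hat (fun z => f2 z * f2 (z + (c + h))) (T (c + h) + (T + T.flip) c)|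
        = 𝔼 h, |hat (fun z => f2 z * f2 (z + h)) (T h + (T + T.flip) c)| := fun c =>
      expect_add_left (fun h => |hat (fun z => f2 z * f2 (z + h)) (T h + (T + T.flip) c)|) c
    simp only [this]
    rw [Finset.expect_comm]
  rw [s3] at s2
  have s4 : (𝔼 x, G x ^ 2) ^ 4
      ≤ 𝔼 h, 𝔼 c, hat (fun z => f2 z * f2 (z + h)) (T h + (T + T.flip) c) ^ 2 := by
    calc (𝔼 x, G x ^ 2) ^ 4 = ((𝔼 x, G x ^ 2) ^ 2) ^ 2 := by ring
      _ ≤ (𝔼 h, 𝔼 c, |hat (fun z => f2 z * f2 (z + h)) (T h + (T + T.flip) c)|) ^ 2 :=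
        pow_le_pow_left₀ (sq_nonneg _) s2 2
      _ ≤ 𝔼 h, (𝔼 c, |hat (fun z => f2 z * f2 (z + h)) (T h + (T + T.flip) c)|) ^ 2 := sym_cs _
      _ ≤ _ := by
        refine Finset.expect_le_expect (fun h _ => ?_)
        refine le_trans (sym_cs _) (le_of_eq ?_)
        refine Finset.expect_congr rfl (fun c _ => ?_)
        rw [sq_abs]
  refine le_trans s4 ?_
  refine Finset.expect_le Finset.univ_nonempty (fun h _ => ?_)
  rw [Finset.expect_eq_sum_div_card, Finset.card_univ]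
  refine div_le_div_of_nonneg_right ?_ (Nat.cast_nonneg _)
  have f1' := sym_fiber (T + T.flip)
    (fun ζ => hat (fun z => f2 z * f2 (z + h)) (T h + ζ) ^ 2) (fun ζ => sq_nonneg _)
  have f2' : ∑ ζ : Dual (ZMod 2) V, hat (fun z => f2 z * f2 (z + h)) (T h + ζ) ^ 2
      = 𝔼 z, (f2 z * f2 (z + h)) ^ 2 := by
    rw [← parseval_fun (fun z => f2 z * f2 (z + h))]
    exact Fintype.sum_equiv (Equiv.addLeft (T h)) _ _ (fun _ => rfl)
  rw [f2'] at f1'
  refine le_trans f1' ?_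
  refine mul_le_of_le_one_right (Nat.cast_nonneg _) ?_
  refine Finset.expect_le Finset.univ_nonempty (fun z _ => ?_)
  rw [← sq_abs]
  have b1 := hF h z
  have b2 := abs_nonneg (f2 z * f2 (z + h))
  nlinarith

end Pool.Agent.H22.QK
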