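import Pool.Agent.H22.QK.TauS
import Pool.Agent.H22.QK.FrCav
import Pool.Agent.H22.QK.Sym

/-!
# GoodM: many good frames (about 170 lines)

Notation: `r = iiR k`, `m = iiM k R`, `δ = (1/2)^m`, `τ = tauF Y m s`,
`η = (1/2)^(r+k+8)`, `ηg = (1/2)^(iiT k R)`, `ε = |Y| 𝔼 E ∈ [(1/2)^k, 2]`.

PROOF of `good_many`. Let `S = {ξ : ηg ≤ |Y| |hat E ξ|}`. By Parseval
(`∑ (hat E ξ)^2 = 𝔼 E^2 = 𝔼 E`) and `ε ≤ 2` (`mean_le_two`):
`|S| ηg^2 ≤ |Y|^2 𝔼 E ≤ 2 |Y|`, so `|S| ≤ 2^(1+R+2 iiT) = 2^(iiS k R)`, and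
`|Y|^4 (∑_all (hat E ξ)^4 - ∑_S) ≤ ηg^2 |Y|^2 𝔼 E ≤ 2 ηg^2 |Y|`.
Bad events for a frame:
(a) `𝔼_u C (lc u x) ≤ (1/2)^(k+3)`; since `𝔼_u C ≤ 1`,
  `FR (iv (not a)) ≥ FR (𝔼_u C) - (1/2)^(k+3) FR 1 ≥ (1/2)^k - δ - 2 τ - (1/2)^(k+3) (1 + τ)
   ≥ (1/2)^(k+1)` (`FR_cav`, `FR_one`);
(b) `𝔼_u E (y + lc u x) < (999/1000) ε`: `FR (iv b) (ε/1000)^2 ≤ 2 δ + 14 τ ≤ 3 δ` (`FR_var`), so
  `FR (iv b) ≤ 3 δ 2^(20+2k) ≤ (1/2)^(k+4)`;
(c) the event of `FR_spec`: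
  `FR (iv c) ≤ (2 ηg^2 |Y| + (|S|+1)^3 (40 δ + 30 τ)) / η^4
   ≤ 2^(1+R - 2 iiT + 4(r+k+8)) + 2^(3 (iiS+1) + 6 + 4 (r+k+8) - m) ≤ 2 (1/2)^(k+5)`.
  (First exponent: `-13 - 2k - R`. Second: `m ≥ 4 iiS + 4 r + 10 k + 76`.)
So the frames that are good (none of the three) have `FR (iv good) ≥ (1/2)^(k+1) - 2 (1/2)^(k+4)
≥ (1/2)^(k+2)`.
-/

set_option autoImplicit false

open Finset Function Module
open scoped BigOperators
open Pool.Agent.H77.KM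

namespace Pool.Agent.H22.QK

section

variable {V : Type} [AddCommGroup V] [Module (ZMod 2) V] [Fintype V]
variable {Y : Type} [AddCommGroup Y] [Module (ZMod 2) Y] [Fintype Y]
variable {g : V → Y} {b : V →ₗ[ZMod 2] V →ₗ[ZMod 2] Y}

/-- The fourth moment over the small characters. -/
private theorem small_part (E : V → ℝ) (hE : ∀ x, E x = 0 ∨ E x = 1) (t : ℕ) :
    (Fintype.card Y : ℝ) ^ 4 *
        (∑ ξ : Dual (ZMod 2) V, hat E ξ ^ 4 - ∑ ξ ∈ bigS Y E t, hat E ξ ^ 4)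
      ≤ ((1 / 2 : ℝ) ^ t) ^ 2 * Fintype.card Y * (Fintype.card Y * 𝔼 x, E x) := by
  classical
  have hc0 : (0 : ℝ) ≤ (Fintype.card Y : ℝ) := Nat.cast_nonneg _
  have hE2 : 𝔼 x, E x ^ 2 = 𝔼 x, E x := by
    refine Finset.expect_congr rfl (fun x _ => ?_)
    rcases hE x with h | h <;> rw [h] <;> norm_num
  have hpar : ∑ ξ : Dual (ZMod 2) V, hat E ξ ^ 2 = 𝔼 x, E x := by
    rw [← hE2]; exact parseval_fun E
  have h1 : ∑ ξ : Dual (ZMod 2) V, hat E ξ ^ 4 - ∑ ξ ∈ bigS Y E t, hat E ξ ^ 4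
      = ∑ ξ ∈ Finset.univ \ bigS Y E t, hat E ξ ^ 4 := by
    rw [← Finset.sum_sdiff (Finset.subset_univ (bigS Y E t))]
    ring
  rw [h1, Finset.mul_sum]
  have h2 : ∀ ξ ∈ Finset.univ \ bigS Y E t, (Fintype.card Y : ℝ) ^ 4 * hat E ξ ^ 4
      ≤ ((1 / 2 : ℝ) ^ t) ^ 2 * (Fintype.card Y : ℝ) ^ 2 * hat E ξ ^ 2 := by
    intro ξ hξ
    have h3 : (Fintype.card Y : ℝ) * |hat E ξ| < (1 / 2 : ℝ) ^ t := by
      by_contra hcon
      rw [Finset.mem_sdiff] at hξ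
      apply hξ.2
      unfold bigS
      rw [Finset.mem_filter]
      exact ⟨Finset.mem_univ _, not_lt.1 hcon⟩
    have h4 : ((Fintype.card Y : ℝ) * |hat E ξ|) ^ 2 ≤ ((1 / 2 : ℝ) ^ t) ^ 2 :=
      pow_le_pow_left₀ (mul_nonneg hc0 (abs_nonneg _)) h3.le 2
    have e1 : (Fintype.card Y : ℝ) ^ 4 * hat E ξ ^ 4
        = ((Fintype.card Y : ℝ) * |hat E ξ|) ^ 2 * ((Fintype.card Y : ℝ) ^ 2 * hat E ξ ^ 2) := by
      rw [mul_pow, sq_abs]; ring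
    rw [e1]
    calc ((Fintype.card Y : ℝ) * |hat E ξ|) ^ 2 * ((Fintype.card Y : ℝ) ^ 2 * hat E ξ ^ 2)
        ≤ ((1 / 2 : ℝ) ^ t) ^ 2 * ((Fintype.card Y : ℝ) ^ 2 * hat E ξ ^ 2) :=
          mul_le_mul_of_nonneg_right h4 (by positivity)
      _ = ((1 / 2 : ℝ) ^ t) ^ 2 * (Fintype.card Y : ℝ) ^ 2 * hat E ξ ^ 2 := by ring
  refine (Finset.sum_le_sum h2).trans ?_
  rw [← Finset.mul_sum]
  have h5 : ∑ ξ ∈ Finset.univ \ bigS Y E t, hat E ξ ^ 2 ≤ 𝔼 x, E x := by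
    rw [← hpar]
    exact Finset.sum_le_sum_of_subset_of_nonneg (Finset.subset_univ _)
      (fun _ _ _ => sq_nonneg _)
  calc ((1 / 2 : ℝ) ^ t) ^ 2 * (Fintype.card Y : ℝ) ^ 2 *
        ∑ ξ ∈ Finset.univ \ bigS Y E t, hat E ξ ^ 2
      ≤ ((1 / 2 : ℝ) ^ t) ^ 2 * (Fintype.card Y : ℝ) ^ 2 * 𝔼 x, E x :=
        mul_le_mul_of_nonneg_left h5 (by positivity)
    _ = ((1 / 2 : ℝ) ^ t) ^ 2 * Fintype.card Y * (Fintype.card Y * 𝔼 x, E x) := by ring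

private theorem half_le {a b : ℕ} (h : a ≤ b) : (1 / 2 : ℝ) ^ b ≤ (1 / 2) ^ a :=
  pow_le_pow_of_le_one (by norm_num) (by norm_num) h

private theorem half_mul_two (a : ℕ) : (1 / 2 : ℝ) ^ a * 2 ^ a = 1 := by
  rw [← mul_pow]; norm_num

/-- Part (a): the frames on which `C` is dense. -/
private theorem part_a (hg : IsQM g b) {k s m : ℕ} (hs : Reg b s) (hm : 1 ≤ m)
    (hmk : 10 * k + 60 ≤ m) (hτ : tauF Y m s ≤ 1) (hτδ : 40 * tauF Y m s ≤ (1 / 2) ^ m)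
    (hτ0 : 0 ≤ tauF Y m s)
    (C : V → ℝ) (hC : ∀ x, C x = 0 ∨ C x = 1) (hCk : (1 / 2 : ℝ) ^ k ≤ 𝔼 x, C x) :
    (1 / 2 : ℝ) ^ (k + 1) ≤ FR g m (fun _ x =>
      iv ((1 / 2 : ℝ) ^ (k + 3) < 𝔼 u : Fin m → ZMod 2, C (lc u x))) := by
  have h1 := FR_cav hg hs hτ hm C hC
  have h2 : FR g m (fun _ x => 𝔼 u : Fin m → ZMod 2, C (lc u x)) ≤
      FR g m (fun _ x => iv ((1 / 2 : ℝ) ^ (k + 3) < 𝔼 u : Fin m → ZMod 2, C (lc u x))
        + (1 / 2 : ℝ) ^ (k + 3) * 1) := by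
    refine FR_mono (fun y x _ => ?_)
    have h3 : 𝔼 u : Fin m → ZMod 2, C (lc u x) ≤ 1 := by
      refine Finset.expect_le Finset.univ_nonempty (fun u _ => ?_)
      rcases hC (lc u x) with h | h <;> rw [h] <;> norm_num
    by_cases h : (1 / 2 : ℝ) ^ (k + 3) < 𝔼 u : Fin m → ZMod 2, C (lc u x)
    · rw [iv_pos h]
      have : (0 : ℝ) ≤ (1 / 2 : ℝ) ^ (k + 3) := by positivity
      linarith
    · rw [iv_neg h]
      linarith [not_lt.1 h]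
  rw [FR_add, FR_mul] at h2
  have h4 := (abs_le.1 (FR_one (m := m) hg hs hτ)).2
  have h5 : (1 / 2 : ℝ) ^ m ≤ (1 / 2) ^ (k + 4) := half_le (by omega)
  have e1 : (1 / 2 : ℝ) ^ (k + 1) = (1 / 2) ^ k * (1 / 2) := by rw [pow_succ]
  have e3 : (1 / 2 : ℝ) ^ (k + 3) = (1 / 2) ^ k * (1 / 8) := by rw [pow_add]; norm_num
  have e4 : (1 / 2 : ℝ) ^ (k + 4) = (1 / 2) ^ k * (1 / 16) := by rw [pow_add]; norm_num
  have hk0 : (0 : ℝ) < (1 / 2) ^ k := by positivity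
  have h6 : (1 / 2 : ℝ) ^ (k + 3) * FR g m (fun _ _ => 1) ≤ (1 / 2 : ℝ) ^ k * (1 / 8) * 2 := by
    rw [e3]
    refine mul_le_mul_of_nonneg_left ?_ (by positivity)
    linarith
  rw [e4] at h5
  rw [e1]
  nlinarith

/-- Part (b): the frames on which `E` is not sparse. -/
private theorem part_b (hg : IsQM g b) {k s m : ℕ} (hs : Reg b s)
    (hmk : 10 * k + 60 ≤ m) (hτ : tauF Y m s ≤ 1) (hτδ : 40 * tauF Y m s ≤ (1 / 2) ^ m)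
    (E : V → ℝ) (hE : ∀ x, E x = 0 ∨ E x = 1) (hEg : ∀ x, E x ≠ 0 → g x = 0)
    (hEk : (1 / 2 : ℝ) ^ k ≤ Fintype.card Y * 𝔼 x, E x) :
    FR g m (fun y x => iv (𝔼 u : Fin m → ZMod 2, E (y + lc u x)
      < 999 / 1000 * (Fintype.card Y * 𝔼 x, E x))) ≤ (1 / 2) ^ (k + 4) := by
  have h1 := FR_var hg hs hτ E hE hEg
  set ε : ℝ := Fintype.card Y * 𝔼 x, E x with hε
  have hk0 : (0 : ℝ) < (1 / 2) ^ k := by positivity
  have hε0 : 0 < ε := lt_of_lt_of_le hk0 hEk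
  have h2 : FR g m (fun y x => (1 / 2 : ℝ) ^ (2 * k + 20) *
      iv (𝔼 u : Fin m → ZMod 2, E (y + lc u x) < 999 / 1000 * ε)) ≤
      FR g m (fun y x => (𝔼 u : Fin m → ZMod 2, E (y + lc u x) - ε) ^ 2) := by
    refine FR_mono (fun y x _ => ?_)
    by_cases h : 𝔼 u : Fin m → ZMod 2, E (y + lc u x) < 999 / 1000 * ε
    · rw [iv_pos h, mul_one]
      have h3 : (1 / 2 : ℝ) ^ (k + 10) ≤ ε - 𝔼 u : Fin m → ZMod 2, E (y + lc u x) := by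
        have e : (1 / 2 : ℝ) ^ (k + 10) = (1 / 2) ^ k * (1 / 1024) := by
          rw [pow_add]; norm_num
        rw [e]
        linarith
      have h4 := pow_le_pow_left₀ (by positivity) h3 2
      have e2 : ((1 / 2 : ℝ) ^ (k + 10)) ^ 2 = (1 / 2) ^ (2 * k + 20) := by
        rw [← pow_mul]; congr 1; ring
      rw [e2] at h4
      linarith
    · rw [iv_neg h, mul_zero]
      exact sq_nonneg _
  rw [FR_mul] at h2
  have h3 : (1 / 2 : ℝ) ^ (2 * k + 20) *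
      FR g m (fun y x => iv (𝔼 u : Fin m → ZMod 2, E (y + lc u x) < 999 / 1000 * ε)) ≤
      4 * (1 / 2) ^ m := by
    have : (0 : ℝ) < (1 / 2) ^ m := by positivity
    linarith
  have h4 : (4 : ℝ) * (1 / 2) ^ m ≤ (1 / 2 : ℝ) ^ (2 * k + 20) * (1 / 2) ^ (k + 4) := by
    rw [← pow_add]
    have e : (4 : ℝ) * (1 / 2) ^ (2 * k + 20 + (k + 4) + 2) = (1 / 2) ^ (2 * k + 20 + (k + 4)) := by
      rw [pow_add (1 / 2 : ℝ) (2 * k + 20 + (k + 4)) 2]; ring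
    rw [← e]
    exact mul_le_mul_of_nonneg_left (half_le (by omega)) (by norm_num)
  exact le_of_mul_le_mul_left (h3.trans h4) (by positivity)

/-- Part (c): the frames on which the large spectrum is visible. -/
private theorem part_c (hg : IsQM g b) {k s r m S T R : ℕ} (hs : Reg b s)
    (hR : R = finrank (ZMod 2) Y)
    (hT : T = 2 * (r + k + 8) + k + 7 + R) (hmm : 4 * S + 4 * r + 10 * k + 76 ≤ m)
    (hτ : tauF Y m s ≤ 1) (hτδ : 40 * tauF Y m s ≤ (1 / 2) ^ m)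
    (E : V → ℝ) (hE : ∀ x, E x = 0 ∨ E x = 1) (hEg : ∀ x, E x ≠ 0 → g x = 0)
    (h4 : (bigS Y E T).card ≤ 2 ^ S) :
    FR g m (fun y x =>
      iv (∃ φ : Dual (ZMod 2) (Fin m → ZMod 2),
        (1 / 2 : ℝ) ^ (r + k + 8) ≤ |hat (fun u => E (y + lc u x)) φ| ∧
          ∀ ξ ∈ bigS Y E T, ∃ u, φ u ≠ ξ (lc u x)))
      ≤ (1 / 2) ^ (k + 4) := by
  have hcard : (Fintype.card Y : ℝ) = 2 ^ R := by
    have h := Module.card_eq_pow_finrank (K := ZMod 2) (V := Y)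
    rw [ZMod.card] at h
    rw [h, hR]; push_cast; rfl
  have h1 := FR_spec hg hs hτ E hE hEg (bigS Y E T)
    (η := (1 / 2 : ℝ) ^ (r + k + 8)) (by positivity)
  have h2 := small_part (Y := Y) E hE T
  have h3 := mean_le_two (m := m) hg hs hτ E hE hEg
  -- first term
  have h5 : (Fintype.card Y : ℝ) ^ 4 *
        (∑ ξ : Dual (ZMod 2) V, hat E ξ ^ 4 - ∑ ξ ∈ bigS Y E T, hat E ξ ^ 4)
      ≤ (1 / 2) ^ (4 * (r + k + 8) + (k + 5)) := by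
    refine h2.trans ?_
    have h6 : ((1 / 2 : ℝ) ^ T) ^ 2 * Fintype.card Y * (Fintype.card Y * 𝔼 x, E x)
        ≤ ((1 / 2 : ℝ) ^ T) ^ 2 * Fintype.card Y * 2 :=
      mul_le_mul_of_nonneg_left h3 (by positivity)
    refine h6.trans ?_
    rw [hcard, ← pow_mul, hT]
    have e : (1 / 2 : ℝ) ^ ((2 * (r + k + 8) + k + 7 + R) * 2) =
        (1 / 2) ^ (4 * (r + k + 8) + 2 * k + R + 13) * ((1 / 2) ^ R * (1 / 2)) := by
      rw [← pow_succ, ← pow_add]; congr 1; ring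
    rw [e]
    have e2 : (1 / 2 : ℝ) ^ (4 * (r + k + 8) + 2 * k + R + 13) * ((1 / 2) ^ R * (1 / 2)) *
        2 ^ R * 2 = (1 / 2) ^ (4 * (r + k + 8) + 2 * k + R + 13) * ((1 / 2) ^ R * 2 ^ R) := by
      ring
    rw [e2, half_mul_two, mul_one]
    exact half_le (by omega)
  -- second term
  have h7 : ((bigS Y E T).card + 1 : ℝ) ^ 3 * (40 * (1 / 2) ^ m + 30 * tauF Y m s)
      ≤ (1 / 2) ^ (4 * (r + k + 8) + (k + 5)) := by
    have h8 : ((bigS Y E T).card + 1 : ℝ) ≤ 2 ^ (S + 1) := by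
      have h9 : ((bigS Y E T).card : ℝ) ≤ 2 ^ S := by exact_mod_cast h4
      have h10 : (1 : ℝ) ≤ 2 ^ S := one_le_pow₀ (by norm_num)
      rw [pow_succ]; linarith
    have h9 : ((bigS Y E T).card + 1 : ℝ) ^ 3 ≤ (2 ^ (S + 1)) ^ 3 :=
      pow_le_pow_left₀ (by positivity) h8 3
    have hδ0 : (0 : ℝ) < (1 / 2) ^ m := by positivity
    have h10 : 40 * (1 / 2 : ℝ) ^ m + 30 * tauF Y m s ≤ 64 * (1 / 2) ^ m := by linarith
    have h11 : (0 : ℝ) ≤ 64 * (1 / 2) ^ m := by positivity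
    calc ((bigS Y E T).card + 1 : ℝ) ^ 3 * (40 * (1 / 2) ^ m + 30 * tauF Y m s)
        ≤ ((bigS Y E T).card + 1 : ℝ) ^ 3 * (64 * (1 / 2) ^ m) :=
          mul_le_mul_of_nonneg_left h10 (by positivity)
      _ ≤ (2 ^ (S + 1)) ^ 3 * (64 * (1 / 2) ^ m) := mul_le_mul_of_nonneg_right h9 h11
      _ = (2 : ℝ) ^ (3 * S + 9) * (1 / 2) ^ m := by
          rw [← pow_mul]
          have e : (2 : ℝ) ^ (3 * S + 9) = 2 ^ ((S + 1) * 3) * 64 := by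
            have : (64 : ℝ) = 2 ^ 6 := by norm_num
            rw [this, ← pow_add]; congr 1; ring
          rw [e]; ring
      _ ≤ (2 : ℝ) ^ (3 * S + 9) * (1 / 2) ^ ((3 * S + 9) + (4 * (r + k + 8) + (k + 5))) :=
          mul_le_mul_of_nonneg_left (half_le (by omega)) (by positivity)
      _ = ((1 / 2 : ℝ) ^ (3 * S + 9) * 2 ^ (3 * S + 9)) * (1 / 2) ^ (4 * (r + k + 8) + (k + 5)) := by
          rw [pow_add (1 / 2 : ℝ) (3 * S + 9)]; ring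
      _ = (1 / 2) ^ (4 * (r + k + 8) + (k + 5)) := by rw [half_mul_two, one_mul]
  have h12 : (1 / 2 : ℝ) ^ (4 * (r + k + 8) + (k + 5)) + (1 / 2 : ℝ) ^ (4 * (r + k + 8) + (k + 5))
      = (1 / 2) ^ (k + 4) * ((1 / 2 : ℝ) ^ (r + k + 8)) ^ 4 := by
    rw [← pow_mul, ← pow_add]
    have e : (k + 4) + (r + k + 8) * 4 = 4 * (r + k + 8) + (k + 4) := by ring
    rw [e]
    have e2 : 4 * (r + k + 8) + (k + 5) = (4 * (r + k + 8) + (k + 4)) + 1 := by ring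
    rw [e2, pow_succ]; ring
  have h13 := (h1.trans (add_le_add h5 h7)).trans (le_of_eq h12)
  exact le_of_mul_le_mul_right h13 (by positivity)

private theorem good_aux (hg : IsQM g b) {k s r m S T R : ℕ} (hs : Reg b s)
    (hR : R = finrank (ZMod 2) Y)
    (hT : T = 2 * (r + k + 8) + k + 7 + R) (hmm : 4 * S + 4 * r + 10 * k + 76 ≤ m)
    (hτ1 : tauF Y m s ≤ (1 / 2) ^ (2 * m + 1))
    (E C : V → ℝ) (hE : ∀ x, E x = 0 ∨ E x = 1) (hC : ∀ x, C x = 0 ∨ C x = 1)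
    (hEg : ∀ x, E x ≠ 0 → g x = 0)
    {ε : ℝ} (hε : ε = Fintype.card Y * 𝔼 x, E x) (hEk : (1 / 2 : ℝ) ^ k ≤ ε)
    (hCk : (1 / 2 : ℝ) ^ k ≤ 𝔼 x, C x)
    (h4 : (bigS Y E T).card ≤ 2 ^ S) :
    (1 / 2 : ℝ) ^ (k + 2) ≤ FR g m (fun y x =>
      iv (999 / 1000 * ε ≤ 𝔼 u : Fin m → ZMod 2, E (y + lc u x) ∧
        (1 / 2 : ℝ) ^ (k + 3) < 𝔼 u : Fin m → ZMod 2, C (lc u x) ∧
        ¬ ∃ φ : Dual (ZMod 2) (Fin m → ZMod 2),
          (1 / 2 : ℝ) ^ (r + k + 8) ≤ |hat (fun u => E (y + lc u x)) φ| ∧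
            ∀ ξ ∈ bigS Y E T, ∃ u, φ u ≠ ξ (lc u x))) := by
  have hm60 : 10 * k + 60 ≤ m := by omega
  have hτ0 : 0 ≤ tauF Y m s := by
    unfold tauF; positivity
  have hτδ : 40 * tauF Y m s ≤ (1 / 2) ^ m := by
    have e : (1 / 2 : ℝ) ^ (2 * m + 1) = (1 / 2) ^ m * (1 / 2) ^ (m + 1) := by
      rw [← pow_add]; congr 1; ring
    rw [e] at hτ1
    have h1 : (1 / 2 : ℝ) ^ (m + 1) ≤ (1 / 2) ^ 6 := half_le (by omega)
    have h2 : (1 / 2 : ℝ) ^ m * (1 / 2) ^ (m + 1) ≤ (1 / 2 : ℝ) ^ m * (1 / 2) ^ 6 :=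
      mul_le_mul_of_nonneg_left h1 (by positivity)
    have h3 : (0 : ℝ) < (1 / 2 : ℝ) ^ m := by positivity
    have e2 : (1 / 2 : ℝ) ^ 6 = 1 / 64 := by norm_num
    rw [e2] at h2
    linarith
  have hτle : tauF Y m s ≤ 1 := by
    have h3 : (1 / 2 : ℝ) ^ m ≤ 1 := pow_le_one₀ (by norm_num) (by norm_num)
    linarith
  have hA := part_a hg hs (by omega) hm60 hτle hτδ hτ0 C hC hCk
  have hB := part_b hg hs hm60 hτle hτδ E hE hEg (hε ▸ hEk)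
  have hCc := part_c hg hs hR hT hmm hτle hτδ E hE hEg h4
  rw [← hε] at hB
  have hpt : FR g m (fun y x =>
      iv ((1 / 2 : ℝ) ^ (k + 3) < 𝔼 u : Fin m → ZMod 2, C (lc u x)) -
      iv (𝔼 u : Fin m → ZMod 2, E (y + lc u x) < 999 / 1000 * ε) -
      iv (∃ φ : Dual (ZMod 2) (Fin m → ZMod 2),
        (1 / 2 : ℝ) ^ (r + k + 8) ≤ |hat (fun u => E (y + lc u x)) φ| ∧
          ∀ ξ ∈ bigS Y E T, ∃ u, φ u ≠ ξ (lc u x))) ≤
      FR g m (fun y x =>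
        iv (999 / 1000 * ε ≤ 𝔼 u : Fin m → ZMod 2, E (y + lc u x) ∧
        (1 / 2 : ℝ) ^ (k + 3) < 𝔼 u : Fin m → ZMod 2, C (lc u x) ∧
        ¬ ∃ φ : Dual (ZMod 2) (Fin m → ZMod 2),
          (1 / 2 : ℝ) ^ (r + k + 8) ≤ |hat (fun u => E (y + lc u x)) φ| ∧
            ∀ ξ ∈ bigS Y E T, ∃ u, φ u ≠ ξ (lc u x))) := by
    refine FR_mono (fun y x _ => ?_)
    have hlogic : ∀ P Q W : Prop, iv Q - iv (¬ P) - iv W ≤ iv (P ∧ Q ∧ ¬ W) := by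
      intro P Q W
      have h1 := iv_le_one Q
      have h2 := iv_nonneg (¬ P)
      have h3 := iv_nonneg W
      by_cases hP : P
      · by_cases hQ : Q
        · by_cases hW : W
          · have h5 := iv_nonneg (P ∧ Q ∧ ¬ W)
            rw [iv_pos hW]; linarith
          · rw [iv_pos (show P ∧ Q ∧ ¬ W from ⟨hP, hQ, hW⟩)]; linarith
        · have h5 := iv_nonneg (P ∧ Q ∧ ¬ W)
          rw [iv_neg hQ]; linarith
      · have h5 := iv_nonneg (P ∧ Q ∧ ¬ W)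
        rw [iv_pos hP]; linarith
    have h5 := hlogic (999 / 1000 * ε ≤ 𝔼 u : Fin m → ZMod 2, E (y + lc u x))
      ((1 / 2 : ℝ) ^ (k + 3) < 𝔼 u : Fin m → ZMod 2, C (lc u x))
      (∃ φ : Dual (ZMod 2) (Fin m → ZMod 2),
        (1 / 2 : ℝ) ^ (r + k + 8) ≤ |hat (fun u => E (y + lc u x)) φ| ∧
          ∀ ξ ∈ bigS Y E T, ∃ u, φ u ≠ ξ (lc u x))
    have e : iv (¬ (999 / 1000 * ε ≤ 𝔼 u : Fin m → ZMod 2, E (y + lc u x))) =
        iv (𝔼 u : Fin m → ZMod 2, E (y + lc u x) < 999 / 1000 * ε) := iv_congr not_le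
    rw [e] at h5
    exact h5
  rw [FR_sub, FR_sub] at hpt
  have e1 : (1 / 2 : ℝ) ^ (k + 1) = (1 / 2) ^ k * (1 / 2) := by rw [pow_succ]
  have e2 : (1 / 2 : ℝ) ^ (k + 2) = (1 / 2) ^ k * (1 / 4) := by rw [pow_add]; norm_num
  have e4 : (1 / 2 : ℝ) ^ (k + 4) = (1 / 2) ^ k * (1 / 16) := by rw [pow_add]; norm_num
  have hk0 : (0 : ℝ) < (1 / 2) ^ k := by positivity
  rw [e1] at hA
  rw [e4] at hB hCc
  rw [e2]
  linarith

private theorem iiM_ge (k R : ℕ) : 4 * iiS k R + 4 * iiR k + 10 * k + 76 ≤ iiM k R := by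
  unfold iiM
  generalize iiS k R = a
  generalize iiR k = c
  have e : (a + 4) * (c + 4) = a * c + 4 * a + 4 * c + 16 := by ring
  rw [e]
  have h0 : 0 ≤ a * c := Nat.zero_le _
  generalize a * c = d at h0
  omega

theorem good_many (hg : IsQM g b) {k s : ℕ} (hs : Reg b s)
    (hk : iiReg k (finrank (ZMod 2) Y) ≤ s)
    (E C : V → ℝ) (hE : ∀ x, E x = 0 ∨ E x = 1) (hC : ∀ x, C x = 0 ∨ C x = 1)
    (hEg : ∀ x, E x ≠ 0 → g x = 0) (hEk : (1 / 2 : ℝ) ^ k ≤ Fintype.card Y * 𝔼 x, E x)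
    (hCk : (1 / 2 : ℝ) ^ k ≤ 𝔼 x, C x) :
    (1 / 2 : ℝ) ^ (k + 2) ≤ FR g (iiM k (finrank (ZMod 2) Y)) (fun y x =>
      iv (GoodFr E C k (Fintype.card Y * 𝔼 x, E x)
        (bigS Y E (iiT k (finrank (ZMod 2) Y))) y x)) :=
  good_aux hg hs rfl (T := iiT k (finrank (ZMod 2) Y)) (r := iiR k)
    (S := iiS k (finrank (ZMod 2) Y)) (by unfold iiT; rfl) (iiM_ge k _) (tau_small hk)
    E C hE hC hEg rfl hEk hCk (bigS_card hg hs hk E hE hEg)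

end

end Pool.Agent.H22.QK
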