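import Pool.Agent.H22.QK.Model

/-!
# Graph: a graph with small doubling agrees with an affine map on a large set (about 170 lines)

PROOF. `K ≥ 1` (`|Γ + Γ| ≥ |Γ| > 0`). Let `H` be the subspace of `model`, `H ⊆ 4Γ`, and
`D = 2^(12582920 L^4)`, `|Γ| ≤ |H| D`. `|5Γ| ≤ K^5 |Γ|` (Pluennecke).
* vertical part: `H_v = {ψ : (0, ψ) ∈ H}`. The sums `(0,ψ) + γ`, `ψ ∈ H_v`, `γ ∈ Γ`, are in `5Γ` and
  pairwise different (`Γ` is a graph), so `|H_v| ≤ K^5`.
* the cosets of `H` that meet `Γ` are disjoint subsets of `5Γ` (`H ⊆ 4Γ`) with `|H|` elements; their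
  number is at most `K^5 |Γ| / |H| ≤ K^5 D`. So there is `γ0 = (x0, ψ0) ∈ Γ` with
  `|Γ ∩ (γ0 + H)| ≥ |Γ| / (K^5 D)`.
* Let `P ≤ V` be the image of `H` under the first projection and `T0 : P → Dual V` a linear map with
  `(p, T0 p) ∈ H` (a linear section: `LinearMap.exists_rightInverse_of_surjective` for the
  projection `H → P`). For `(x, φ) ∈ Γ ∩ (γ0 + H)`: `x + x0 ∈ P` and
  `φ + ψ0 + T0 (x + x0) ∈ H_v`. By the pigeonhole principle there is `ψ ∈ H_v` with
  `φ = T0 (x + x0) + ψ0 + ψ` for at least `|Γ| / (K^10 D)` elements. Extend `T0` to a linear map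
  `T` on `V` (`LinearMap.exists_extend`), `c = T x0 + ψ0 + ψ`.
-/

set_option autoImplicit false

open Finset Function Module
open scoped BigOperators Pointwise
open Pool.Agent.H77.KM

namespace Pool.Agent.H22.QK

theorem graph_linear {V : Type} [AddCommGroup V] [Module (ZMod 2) V] [Fintype V]
    [DecidableEq (V × Dual (ZMod 2) V)]
    (Γ : Finset (V × Dual (ZMod 2) V)) (hΓ : Γ.Nonempty)
    (hgr : ∀ p ∈ Γ, ∀ q ∈ Γ, p.1 = q.1 → p = q) {K : ℝ}
    (hK : ((Γ + Γ).card : ℝ) ≤ K * Γ.card) {L : ℕ} (hL : 6 ≤ L) (hKL : K ^ 16 ≤ 2 ^ L) :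
    ∃ (T : V →ₗ[ZMod 2] Dual (ZMod 2) V) (c : Dual (ZMod 2) V),
      (Γ.card : ℝ) ≤ K ^ 10 * 2 ^ (12582920 * L ^ 4)
        * (Γ.filter (fun p => p.2 = T p.1 + c)).card := by
  classical
  obtain ⟨H, hH4, hHc⟩ := model Γ hΓ hK hL hKL
  have hΓ0 : (0 : ℝ) < Γ.card := by exact_mod_cast hΓ.card_pos
  have hK0 : 0 ≤ K := by
    by_contra hneg
    push Not at hneg
    have h1 : (0 : ℝ) ≤ ((Γ + Γ).card : ℝ) := Nat.cast_nonneg _
    nlinarith [mul_neg_of_neg_of_pos hneg hΓ0]
  have h5 : ((5 • Γ).card : ℝ) ≤ K ^ 5 * Γ.card := by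
    have h := Finset.pluennecke_ruzsa_inequality_nsmul_add hΓ Γ 5
    have h' : (((5 • Γ).card : ℚ≥0) : ℝ) ≤
        (((((Γ + Γ).card / Γ.card : ℚ≥0) ^ 5 * Γ.card : ℚ≥0)) : ℝ) := by exact_mod_cast h
    push_cast at h'
    refine h'.trans ?_
    have h2 : ((Γ + Γ).card : ℝ) / Γ.card ≤ K := by
      rw [div_le_iff₀ hΓ0]; exact hK
    have h3 : (0 : ℝ) ≤ ((Γ + Γ).card : ℝ) / Γ.card := by positivity
    exact mul_le_mul_of_nonneg_right (pow_le_pow_left₀ h3 h2 5) hΓ0.le
  have hmem5 : ∀ h ∈ H, ∀ g ∈ Γ, h + g ∈ 5 • Γ := by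
    intro h hh g hg
    have : (5 : ℕ) • Γ = 4 • Γ + Γ := succ_nsmul Γ 4
    rw [this]
    exact Finset.add_mem_add (hH4 h hh) hg
  -- the linear section
  obtain ⟨T, hT⟩ : ∃ T : V →ₗ[ZMod 2] Dual (ZMod 2) V, ∀ p ∈ H, (p.1, T p.1) ∈ H := by
    let f : H →ₗ[ZMod 2] V := (LinearMap.fst (ZMod 2) V (Dual (ZMod 2) V)).comp H.subtype
    obtain ⟨g, hg⟩ := LinearMap.exists_rightInverse_of_surjective f.rangeRestrict
      f.range_rangeRestrict
    let T0 : LinearMap.range f →ₗ[ZMod 2] Dual (ZMod 2) V :=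
      ((LinearMap.snd (ZMod 2) V (Dual (ZMod 2) V)).comp H.subtype).comp g
    obtain ⟨T, hT⟩ := LinearMap.exists_extend T0
    refine ⟨T, fun p hp => ?_⟩
    have hq : p.1 ∈ LinearMap.range f := ⟨⟨p, hp⟩, rfl⟩
    have e1 : T p.1 = T0 ⟨p.1, hq⟩ := by
      rw [← hT]; rfl
    have e2 : ((g ⟨p.1, hq⟩ : H) : V × Dual (ZMod 2) V).1 = p.1 := by
      have := LinearMap.congr_fun hg ⟨p.1, hq⟩
      exact congrArg Subtype.val this
    have e3 : (p.1, T p.1) = ((g ⟨p.1, hq⟩ : H) : V × Dual (ZMod 2) V) := by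
      rw [e1]
      exact Prod.ext e2.symm rfl
    rw [e3]
    exact (g ⟨p.1, hq⟩).2
  have hTv : ∀ p ∈ H, ((0 : V), p.2 - T p.1) ∈ H := by
    intro p hp
    have h1 := H.sub_mem hp (hT p hp)
    have h2 : p - (p.1, T p.1) = ((0 : V), p.2 - T p.1) := by
      ext1
      · simp
      · simp
    rwa [h2] at h1
  set c : V × Dual (ZMod 2) V → Dual (ZMod 2) V := fun p => p.2 - T p.1 with hc
  set Hv : Finset (Dual (ZMod 2) V) :=
    (Finset.univ : Finset (Dual (ZMod 2) V)).filter (fun ψ => ((0 : V), ψ) ∈ H) with hHv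
  set Hf : Finset (V × Dual (ZMod 2) V) :=
    (Finset.univ : Finset (V × Dual (ZMod 2) V)).filter (fun p => p ∈ H) with hHf
  have hHfc : Nat.card H = Hf.card := by
    rw [hHf, Nat.card_eq_fintype_card]
    exact Fintype.card_of_subtype _ (by intro x; simp)
  -- vertical part
  have hv1 : Hv.card * Γ.card ≤ (5 • Γ).card := by
    rw [← Finset.card_product]
    refine Finset.card_le_card_of_injOn (fun x => ((0 : V), x.1) + x.2) ?_ ?_
    · intro x hx
      have hx' := Finset.mem_product.mp (Finset.mem_coe.mp hx)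
      exact Finset.mem_coe.mpr (hmem5 _ (Finset.mem_filter.mp hx'.1).2 _ hx'.2)
    · intro x hx y hy hxy
      have hx' := Finset.mem_product.mp (Finset.mem_coe.mp hx)
      have hy' := Finset.mem_product.mp (Finset.mem_coe.mp hy)
      have hxy' : ((0 : V), x.1) + x.2 = ((0 : V), y.1) + y.2 := hxy
      have h1 : x.2.1 = y.2.1 := by
        have := congrArg Prod.fst hxy'
        simpa using this
      have h2 : x.2 = y.2 := hgr _ hx'.2 _ hy'.2 h1
      rw [h2] at hxy'
      have h3 := add_right_cancel hxy'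
      have h4 : x.1 = y.1 := congrArg Prod.snd h3
      exact Prod.ext h4 h2
  -- the number of values of `c`
  have hC : (Γ.image c).card * Hf.card ≤ Hv.card * (5 • Γ).card := by
    have hex : ∀ a ∈ Γ.image c, ∃ g ∈ Γ, c g = a := fun a ha => by
      simpa using Finset.mem_image.mp ha
    choose! r hrΓ hrc using hex
    rw [← Finset.card_product]
    refine Finset.card_le_mul_card_image_of_maps_to (f := fun x => x.2 + r x.1) ?_ Hv.card ?_
    · intro x hx
      have hx' := Finset.mem_product.mp hx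
      exact hmem5 _ (Finset.mem_filter.mp hx'.2).2 _ (hrΓ _ hx'.1)
    · intro b _
      rcases Finset.eq_empty_or_nonempty
        (((Γ.image c) ×ˢ Hf).filter (fun x => x.2 + r x.1 = b)) with he | ⟨x0, hx0⟩
      · rw [he]; simp
      · have hx0' := Finset.mem_filter.mp hx0
        have hx0p := Finset.mem_product.mp hx0'.1
        refine Finset.card_le_card_of_injOn (fun x => x.1 - x0.1) ?_ ?_
        · intro x hx
          have hx' := Finset.mem_filter.mp (Finset.mem_coe.mp hx)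
          have hxp := Finset.mem_product.mp hx'.1
          refine Finset.mem_coe.mpr (Finset.mem_filter.mpr ⟨Finset.mem_univ _, ?_⟩)
          have h1 : r x.1 - r x0.1 = x0.2 - x.2 := by
            have e := hx'.2.trans hx0'.2.symm
            rw [sub_eq_sub_iff_add_eq_add, add_comm (r x.1), e, add_comm]
          have h2 : r x.1 - r x0.1 ∈ H := by
            rw [h1]
            exact H.sub_mem (Finset.mem_filter.mp hx0p.2).2 (Finset.mem_filter.mp hxp.2).2
          have h3 := hTv _ h2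
          have h4 : (r x.1 - r x0.1).2 - T (r x.1 - r x0.1).1 = x.1 - x0.1 := by
            have a1 := hrc x.1 hxp.1
            have a2 := hrc x0.1 hx0p.1
            simp only [hc] at a1 a2
            calc (r x.1 - r x0.1).2 - T (r x.1 - r x0.1).1
                = ((r x.1).2 - T (r x.1).1) - ((r x0.1).2 - T (r x0.1).1) := by
                  rw [Prod.fst_sub, Prod.snd_sub, map_sub]
                  abel
              _ = x.1 - x0.1 := by rw [a1, a2]
          rwa [h4] at h3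
        · intro x hx y hy hxy
          have hx' := Finset.mem_filter.mp (Finset.mem_coe.mp hx)
          have hy' := Finset.mem_filter.mp (Finset.mem_coe.mp hy)
          have h1 : x.1 = y.1 := sub_left_injective hxy
          have h2 : x.2 + r x.1 = y.2 + r y.1 := hx'.2.trans hy'.2.symm
          rw [h1] at h2
          exact Prod.ext h1 (add_right_cancel h2)
  obtain ⟨c0, hc0, hmax⟩ := Finset.exists_max_image (Γ.image c)
    (fun a => (Γ.filter (fun p => c p = a)).card) (hΓ.image c)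
  refine ⟨T, c0, ?_⟩
  have hfil : Γ.filter (fun p => p.2 = T p.1 + c0) = Γ.filter (fun p => c p = c0) := by
    refine Finset.filter_congr (fun p _ => ?_)
    simp only [hc]
    rw [sub_eq_iff_eq_add, add_comm]
  have hcount : Γ.card ≤ (Γ.filter (fun p => c p = c0)).card * (Γ.image c).card :=
    Finset.card_le_mul_card_image_of_maps_to (f := c)
      (fun a ha => Finset.mem_image_of_mem c ha) _ (fun b hb => hmax b hb)
  have hHpos : (0 : ℝ) < Hf.card := by
    have : 0 < Hf.card := Finset.card_pos.mpr ⟨0, by simp [hHf, H.zero_mem]⟩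
    exact_mod_cast this
  have hvK : (Hv.card : ℝ) ≤ K ^ 5 := by
    have h1 : (Hv.card : ℝ) * Γ.card ≤ K ^ 5 * Γ.card := by
      refine le_trans ?_ h5
      exact_mod_cast hv1
    exact le_of_mul_le_mul_right h1 hΓ0
  have hΓH : (Γ.card : ℝ) ≤ Hf.card * 2 ^ (12582920 * L ^ 4) := by
    rw [hHfc] at hHc
    exact_mod_cast hHc
  have hCK : ((Γ.image c).card : ℝ) ≤ K ^ 10 * 2 ^ (12582920 * L ^ 4) := by
    have h1 : ((Γ.image c).card : ℝ) * Hf.card ≤ Hv.card * (5 • Γ).card := by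
      exact_mod_cast hC
    have h2 : (Hv.card : ℝ) * (5 • Γ).card ≤ K ^ 5 * (K ^ 5 * Γ.card) :=
      mul_le_mul hvK h5 (Nat.cast_nonneg _) (by positivity)
    have h3 : K ^ 5 * (K ^ 5 * (Γ.card : ℝ))
        ≤ K ^ 5 * (K ^ 5 * (Hf.card * 2 ^ (12582920 * L ^ 4))) := by
      have hk5 : 0 ≤ K ^ 5 := by positivity
      exact mul_le_mul_of_nonneg_left (mul_le_mul_of_nonneg_left hΓH hk5) hk5
    have h4 : ((Γ.image c).card : ℝ) * Hf.card
        ≤ (K ^ 10 * 2 ^ (12582920 * L ^ 4)) * Hf.card := by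
      calc ((Γ.image c).card : ℝ) * Hf.card
          ≤ K ^ 5 * (K ^ 5 * (Hf.card * 2 ^ (12582920 * L ^ 4))) := h1.trans (h2.trans h3)
        _ = (K ^ 10 * 2 ^ (12582920 * L ^ 4)) * Hf.card := by
            generalize (2 : ℝ) ^ (12582920 * L ^ 4) = X
            ring
    exact le_of_mul_le_mul_right h4 hHpos
  rw [hfil]
  calc (Γ.card : ℝ) ≤ (Γ.filter (fun p => c p = c0)).card * (Γ.image c).card := by
        exact_mod_cast hcount
    _ ≤ (Γ.filter (fun p => c p = c0)).card * (K ^ 10 * 2 ^ (12582920 * L ^ 4)) :=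
        mul_le_mul_of_nonneg_left hCK (Nat.cast_nonneg _)
    _ = K ^ 10 * 2 ^ (12582920 * L ^ 4) * (Γ.filter (fun p => c p = c0)).card := mul_comm _ _

end Pool.Agent.H22.QK
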