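import Pool.Agent.H22.QK.Defs

/-!
# KAp: almost periodicity with a general error (about 70 lines, copy of the H77 proof)

PROOF. Copy `almost_periodic` of `Pool/Agent/H77/KM/CrootSisask.lean`, with `1572864 L^3`
replaced by `M = 192 N^2 L^3` and `1/64` by `1/N`: `croot_sisask A hA g hg0 hg1 hL hM` gives `T`,
`expect_avg2_iter_sub_pow_le` with `k = L`, and
`(𝔼_{x ∈ A} D x)^(2L) ≤ 2^L * (L^(2L) * (96 L / M)^L) = (192 L^3 / M)^L = (1/N^2)^L = (1/N)^(2L)`.
-/

set_option autoImplicit false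

open Finset Function Module
open scoped BigOperators
open Pool.Agent.H77.KM

namespace Pool.Agent.H22.QK

theorem almost_periodic_gen {V : Type} [AddCommGroup V] [Fintype V] [Module (ZMod 2) V]
    [DecidableEq V] (A : Finset V) (hA : A.Nonempty) (g : V → ℝ) (hg0 : ∀ x, 0 ≤ g x)
    (hg1 : ∀ x, g x ≤ 1) {L N : ℕ} (hL : 0 < L) (hN : 0 < N)
    (hAd : (1 / 2 : ℝ) ^ L ≤ (A.card : ℝ) / Fintype.card V) :
    ∃ T : Finset V, T.Nonempty ∧
      ((A.card : ℝ) / Fintype.card V) ^ (192 * N ^ 2 * L ^ 3) / 2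
        ≤ (T.card : ℝ) / Fintype.card V ∧
      |𝔼 x ∈ A, (((avg2 T)^[L] (avg A g)) x - avg A g x)| ≤ 1 / N := by
  have hM : 0 < 192 * N ^ 2 * L ^ 3 := by positivity
  obtain ⟨T, hT, hTd, hclose⟩ := croot_sisask A hA g hg0 hg1 hL hM
  refine ⟨T, hT, hTd, ?_⟩
  have hL' : (0 : ℝ) < L := by exact_mod_cast hL
  have hN' : (0 : ℝ) < N := by exact_mod_cast hN
  have heven : Even (2 * L) := even_two_mul L
  have h1 := expect_avg2_iter_sub_pow_le T hT (avg A g) hclose hL
  set D : V → ℝ := fun x => ((avg2 T)^[L] (avg A g)) x - avg A g x with hD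
  have h2 : (𝔼 x ∈ A, D x) ^ (2 * L) ≤ (1 / (N : ℝ)) ^ (2 * L) := by
    calc (𝔼 x ∈ A, D x) ^ (2 * L) ≤ 𝔼 x ∈ A, D x ^ (2 * L) := expect_pow_even_le hA _ heven
      _ ≤ ((A.card : ℝ) / Fintype.card V)⁻¹ * 𝔼 x, D x ^ (2 * L) :=
          expect_finset_le_univ hA _ (fun x => heven.pow_nonneg _)
      _ ≤ (2 : ℝ) ^ L * ((L : ℝ) ^ (2 * L) * (96 * L / (192 * N ^ 2 * L ^ 3 : ℕ)) ^ L) := by
          refine mul_le_mul ?_ h1 (Finset.expect_nonneg (fun x _ => heven.pow_nonneg _))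
            (by positivity)
          have := inv_anti₀ (by positivity) hAd
          refine le_trans this (le_of_eq ?_)
          rw [one_div, inv_pow, inv_inv]
      _ = (2 * (L ^ 2) * (96 * L / (192 * N ^ 2 * L ^ 3))) ^ L := by
          rw [mul_pow, mul_pow, ← pow_mul]
          push_cast
          ring
      _ = ((1 / (N : ℝ)) ^ 2) ^ L := by
          congr 1
          field_simp
          norm_num
      _ = (1 / (N : ℝ)) ^ (2 * L) := by rw [← pow_mul]
  rw [← heven.pow_abs] at h2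
  exact (pow_le_pow_iff_left₀ (abs_nonneg _) (by positivity) (by omega)).mp h2

end Pool.Agent.H22.QK
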