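import Pool.Agent.H22.QK.Defs

/-!
# KSift: sifting with general constants (about 140 lines, copy of the H77 proof)

PROOF. Copy `sift` of `Pool/Agent/H77/KM/Sift.lean`. Notation `α = 𝔼 a`,
`M2 = 𝔼 (corr a a)^m ≥ ((1+1/N) t^2)^m`, `w x = 1` if `corr a a x < (1+1/(2N)) t^2`, else `0`.
As there, with `μ s = 𝔼_y ∏ a(s_i+y)` and `G s = 𝔼_y 𝔼_z w(y+z) ∏ a(s_i+y) ∏ a(s_i+z)`:
`𝔼 μ = α^m`, `𝔼 μ^2 = M2`, `𝔼 G ≤ ((1+1/(2N)) t^2)^m`. Put `θ = M2 / (2 α^m)`
(`α > 0` because `M2 > 0`). Then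
`𝔼 (μ^2 - θ μ - 32 N G) ≥ M2/2 - 32 N ((1+1/(2N)) t^2)^m > 0`, because
`(1+1/N)/(1+1/(2N)) = 1 + 1/(2N+1)` and `(1+1/(2N+1))^m ≥ ((1+1/(2N+1))^(2N+1))^(N+7)
≥ 2^(N+7) > 64 N` (Bernoulli `one_add_mul_le_pow`). Take `s` with
`μ^2 - θ μ - 32 N G > 0` and `A = {y : ∏ a(s_i + y) = 1}`: its density `μ s` is `> θ`, and the
proportion of pairs with `w = 1` is `G/μ^2 < 1/(32 N)`. Finally
`θ ≥ ((1+1/N) t^2)^m / (2 (2t)^m) ≥ (t/2)^m / 2 ≥ (t/4)^m` (`m ≥ 1`).
-/

set_option autoImplicit false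

open Finset Function Module
open scoped BigOperators
open Pool.Agent.H77.KM

namespace Pool.Agent.H22.QK

private lemma ksift_num {N m : ℕ} (hN : 1 ≤ N) (hm : (2 * N + 1) * (N + 7) ≤ m) :
    64 * (N : ℝ) * (1 + 1 / (2 * N : ℝ)) ^ m < (1 + 1 / (N : ℝ)) ^ m := by
  have hN0 : (0 : ℝ) < N := by exact_mod_cast hN
  have h1 : (1 + 1 / (N : ℝ)) = (1 + 1 / (2 * (N : ℝ) + 1)) * (1 + 1 / (2 * N : ℝ)) := by
    field_simp
    ring
  have h2 : (2 : ℝ) ≤ (1 + 1 / (2 * (N : ℝ) + 1)) ^ (2 * N + 1) := by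
    have h := one_add_mul_le_pow (a := 1 / (2 * (N : ℝ) + 1))
      (by have : (0 : ℝ) ≤ 1 / (2 * (N : ℝ) + 1) := by positivity
          linarith) (2 * N + 1)
    refine le_trans ?_ h
    push_cast
    rw [mul_one_div_cancel (by positivity)]
    norm_num
  have h3 : (1 : ℝ) ≤ 1 + 1 / (2 * (N : ℝ) + 1) := by
    have : (0 : ℝ) ≤ 1 / (2 * (N : ℝ) + 1) := by positivity
    linarith
  have h4 : (64 : ℝ) * N < (1 + 1 / (2 * (N : ℝ) + 1)) ^ m := by
    calc (64 : ℝ) * N < 64 * 2 ^ N := by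
          have : (N : ℝ) < 2 ^ N := by exact_mod_cast Nat.lt_two_pow_self
          linarith
      _ ≤ 2 ^ (N + 7) := by
          rw [pow_add]
          have : (0 : ℝ) ≤ 2 ^ N := by positivity
          linarith
      _ ≤ ((1 + 1 / (2 * (N : ℝ) + 1)) ^ (2 * N + 1)) ^ (N + 7) :=
          pow_le_pow_left₀ (by norm_num) h2 _
      _ = (1 + 1 / (2 * (N : ℝ) + 1)) ^ ((2 * N + 1) * (N + 7)) := by rw [← pow_mul]
      _ ≤ (1 + 1 / (2 * (N : ℝ) + 1)) ^ m := pow_le_pow_right₀ h3 hm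
  rw [h1, mul_pow]
  exact mul_lt_mul_of_pos_right h4 (by positivity)

theorem sift_gen {V : Type} [AddCommGroup V] [Module (ZMod 2) V] [Fintype V] [DecidableEq V]
    (a : V → ℝ) (ha : ∀ x, a x = 0 ∨ a x = 1) {N m : ℕ} (hN : 1 ≤ N)
    (hm : (2 * N + 1) * (N + 7) ≤ m) {t : ℝ} (ht : 0 < t) (hα : 𝔼 x, a x ≤ 2 * t)
    (hbig : ((1 + 1 / (N : ℝ)) * t ^ 2) ^ m ≤ 𝔼 x, corr a a x ^ m) :
    ∃ A : Finset V, A.Nonempty ∧ (t / 4) ^ m ≤ (A.card : ℝ) / Fintype.card V ∧
      𝔼 y ∈ A, 𝔼 z ∈ A, iv (corr a a (y + z) < (1 + 1 / (2 * N : ℝ)) * t ^ 2)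
        ≤ 1 / (32 * N) := by
  classical
  have hN0 : (0 : ℝ) < N := by exact_mod_cast hN
  have hm1 : 1 ≤ m := le_trans (by nlinarith) hm
  set α : ℝ := 𝔼 x, a x with hαdef
  set M2 : ℝ := 𝔼 x, corr a a x ^ m with hM2
  have ha0 : ∀ x, 0 ≤ a x := fun x => by rcases ha x with h | h <;> rw [h] <;> norm_num
  have hα0 : 0 ≤ α := Finset.expect_nonneg (fun x _ => ha0 x)
  have hc0 : ∀ x, 0 ≤ corr a a x := fun x =>
    Finset.expect_nonneg (fun y _ => mul_nonneg (ha0 _) (ha0 _))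
  have hM2pos : 0 < M2 := lt_of_lt_of_le (by positivity) hbig
  set w : V → ℝ := fun x => iv (corr a a x < (1 + 1 / (2 * N : ℝ)) * t ^ 2) with hw
  have hw0 : ∀ x, 0 ≤ w x := fun x => iv_nonneg _
  set u : (Fin m → V) → V → ℝ := fun s y => ∏ i, a (s i + y) with hu
  have hu01 : ∀ s y, u s y = 0 ∨ u s y = 1 := by
    intro s y
    simp only [hu]
    by_cases h : ∃ i, a (s i + y) = 0
    · left
      obtain ⟨i, hi⟩ := h
      exact Finset.prod_eq_zero (Finset.mem_univ i) hi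
    · right
      push Not at h
      refine Finset.prod_eq_one (fun i _ => ?_)
      rcases ha (s i + y) with h' | h'
      · exact absurd h' (h i)
      · exact h'
  have hu0 : ∀ s y, 0 ≤ u s y := fun s y => by rcases hu01 s y with h | h <;> rw [h] <;> norm_num
  have hu1 : ∀ s y, u s y ≤ 1 := fun s y => by rcases hu01 s y with h | h <;> rw [h] <;> norm_num
  set μ : (Fin m → V) → ℝ := fun s => 𝔼 y, u s y with hμ
  set G : (Fin m → V) → ℝ := fun s => 𝔼 y, 𝔼 z, w (y + z) * (u s y * u s z) with hG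
  have hG0 : ∀ s, 0 ≤ G s := fun s =>
    Finset.expect_nonneg (fun y _ => Finset.expect_nonneg
      (fun z _ => mul_nonneg (hw0 _) (mul_nonneg (hu0 _ _) (hu0 _ _))))
  have hμ0 : ∀ s, 0 ≤ μ s := fun s => Finset.expect_nonneg (fun y _ => hu0 _ _)
  have hμ1 : ∀ s, μ s ≤ 1 := fun s => Finset.expect_le Finset.univ_nonempty (fun y _ => hu1 _ _)
  -- first moment
  have E1 : 𝔼 s, μ s = α ^ m := by
    simp only [hμ]
    rw [Finset.expect_comm]
    have : ∀ y : V, 𝔼 s : Fin m → V, u s y = α ^ m := by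
      intro y
      simp only [hu]
      rw [expect_tuple_add (fun s : Fin m → V => ∏ i, a (s i)) y, ← expect_pow_univ]
    simp only [this]
    exact Finset.expect_const Finset.univ_nonempty _
  -- second moment
  have E2 : 𝔼 s, μ s ^ 2 = M2 := by
    have h := expect_weighted_corr_pow (fun _ : V => (1 : ℝ)) a m
    simp only [one_mul] at h
    rw [hM2, h]
    refine Finset.expect_congr rfl (fun s _ => ?_)
    simp only [hμ, sq, hu]
    rw [Finset.expect_mul_expect]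
  have E3 : 𝔼 s, G s ≤ ((1 + 1 / (2 * N : ℝ)) * t ^ 2) ^ m := by
    have h := expect_weighted_corr_pow w a m
    have h' : 𝔼 s, G s = 𝔼 x, w x * corr a a x ^ m := by rw [h]
    rw [h']
    refine Finset.expect_le Finset.univ_nonempty (fun x _ => ?_)
    simp only [hw]
    by_cases hx : corr a a x < (1 + 1 / (2 * N : ℝ)) * t ^ 2
    · rw [iv_pos hx, one_mul]
      exact pow_le_pow_left₀ (hc0 x) hx.le m
    · rw [iv_neg hx, zero_mul]; positivity
  have hPpos : 0 < α ^ m := by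
    refine lt_of_lt_of_le hM2pos ?_
    rw [← E1, ← E2]
    refine Finset.expect_le_expect (fun s _ => ?_)
    have h1 := hμ0 s
    have h2 := hμ1 s
    nlinarith
  set θ : ℝ := M2 / (2 * α ^ m) with hθ
  have hθ0 : 0 ≤ θ := by positivity
  have hθP : θ * α ^ m = M2 / 2 := by
    rw [hθ]
    field_simp
  have hBM : 64 * (N : ℝ) * ((1 + 1 / (2 * N : ℝ)) * t ^ 2) ^ m < M2 := by
    refine lt_of_lt_of_le ?_ hbig
    rw [mul_pow, mul_pow, ← mul_assoc]
    exact mul_lt_mul_of_pos_right (ksift_num hN hm) (by positivity)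
  have hpos : 0 < 𝔼 s, (μ s ^ 2 - θ * μ s - 32 * (N : ℝ) * G s) := by
    rw [Finset.expect_sub_distrib, Finset.expect_sub_distrib, ← Finset.mul_expect,
      ← Finset.mul_expect, E1, E2, hθP]
    have h1 : 32 * (N : ℝ) * 𝔼 s, G s ≤ 32 * (N : ℝ) * ((1 + 1 / (2 * N : ℝ)) * t ^ 2) ^ m :=
      mul_le_mul_of_nonneg_left E3 (by positivity)
    linarith
  obtain ⟨s, _, hs⟩ := Finset.exists_lt_of_lt_expect Finset.univ_nonempty hpos
  have hGN : 0 ≤ 32 * (N : ℝ) * G s := mul_nonneg (by positivity) (hG0 s)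
  have hμpos : 0 < μ s := by
    rcases (hμ0 s).eq_or_lt with h | h
    · rw [← h] at hs
      nlinarith
    · exact h
  have hμθ : θ < μ s := by
    have h1 : 0 < (μ s - θ) * μ s := by
      nlinarith
    have := (mul_pos_iff_of_pos_right hμpos).mp h1
    linarith
  set A : Finset V := Finset.univ.filter (fun y => u s y = 1) with hA
  have hind : ∀ y, (if y ∈ A then (1 : ℝ) else 0) = u s y := by
    intro y
    rcases hu01 s y with h | h
    · simp [hA, h]
    · simp [hA, h]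
  have hμA : μ s = (A.card : ℝ) / Fintype.card V := by
    simp only [hμ]
    rw [Finset.expect_eq_sum_div_card, Finset.card_univ]
    congr 1
    simp only [← hind]
    simp
  have hAne : A.Nonempty := by
    rw [Finset.nonempty_iff_ne_empty]
    intro h
    rw [hμA, h] at hμpos
    simp at hμpos
  have hθt : (t / 4) ^ m ≤ θ := by
    have h1 : α ^ m ≤ (2 * t) ^ m := pow_le_pow_left₀ hα0 hα m
    have h2 : (t ^ 2) ^ m ≤ M2 := by
      refine le_trans ?_ hbig
      refine pow_le_pow_left₀ (by positivity) ?_ m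
      have h3 : (1 : ℝ) ≤ 1 + 1 / (N : ℝ) := by
        have : (0 : ℝ) ≤ 1 / (N : ℝ) := by positivity
        linarith
      have h4 : (0 : ℝ) ≤ t ^ 2 := by positivity
      nlinarith
    rw [hθ, le_div_iff₀ (by positivity)]
    have h5 : (2 : ℝ) ≤ 2 ^ m := by
      calc (2 : ℝ) = 2 ^ 1 := by norm_num
        _ ≤ 2 ^ m := pow_le_pow_right₀ (by norm_num) hm1
    calc (t / 4) ^ m * (2 * α ^ m) ≤ (t / 4) ^ m * (2 ^ m * (2 * t) ^ m) := by
          refine mul_le_mul_of_nonneg_left ?_ (by positivity)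
          exact mul_le_mul h5 h1 hPpos.le (by positivity)
      _ = (t ^ 2) ^ m := by
          rw [← mul_pow, ← mul_pow]
          congr 1
          ring
      _ ≤ M2 := h2
  refine ⟨A, hAne, by rw [← hμA]; exact hθt.trans hμθ.le, ?_⟩
  have hGs : (μ s * μ s) * (𝔼 y ∈ A, 𝔼 z ∈ A, w (y + z)) = G s := by
    rw [hμA, mul_assoc, expect_finset_eq A _ hAne, Finset.mul_expect]
    simp only [hG]
    refine Finset.expect_congr rfl (fun y _ => ?_)
    rw [mul_left_comm, expect_finset_eq A _ hAne, Finset.mul_expect, hind]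
    refine Finset.expect_congr rfl (fun z _ => ?_)
    rw [hind]; ring
  have hfin : 𝔼 y ∈ A, 𝔼 z ∈ A, w (y + z) ≤ 1 / (32 * N) := by
    have h1 : 32 * (N : ℝ) * G s < μ s ^ 2 := by
      have : 0 ≤ θ * μ s := by positivity
      linarith
    rw [← hGs] at h1
    have h2 : 0 < μ s * μ s := by positivity
    rw [le_div_iff₀ (by positivity)]
    by_contra hcon
    push Not at hcon
    nlinarith
  exact hfin

end Pool.Agent.H22.QK
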