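import Pool.Agent.H22.QK.KCs
import Pool.Agent.H22.QK.KSift

/-!
# KCore: the Kelley-Meka moment bound for spread sets (about 110 lines)

PROOF of `km_core` (by contradiction; compare `increment_of_moment` of the H77 library).
Put `u = (1 + 1/(16N)) t`, `L = (l+2) m`. `hs` for `W = ⊤` gives `𝔼 a ≤ u ≤ 2 t`
(`avg (sf ⊤) a 0 = 𝔼 a`). If the moment is `≥ ((1+1/N) t^2)^m`, `sift_gen` gives `A` of density
`≥ (t/4)^m ≥ (1/2)^L` (`t ≥ (1/2)^l`), and with `g x = 1 - iv (corr a a x < (1+1/(2N)) t^2)`: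
`𝔼_{x∈A} avg A g x ≥ 1 - 1/(32N) = 1 - 1/(4 (8N))`. `coset_structure_gen` with `8 N` (condition
`32 N ≤ 2^L`: `L ≥ m ≥ N+7`, `2^(N+7) ≥ 32 N`) gives `W` of codimension
`≤ 8 (3072 (8N)^2 L^4 + 1) = kmDim N l m` and `x0` with `avg (sf W) g x0 ≥ 1 - 1/(8N)`. Since
`corr a a ≥ (1+1/(2N)) t^2 g`,
`avg (sf W) (corr a a) x0 ≥ (1+1/(2N))(1-1/(8N)) t^2 ≥ (1 + 5/(16N)) t^2`. On the other hand
`avg (sf W) (corr a a) x0 = 𝔼_y a y * avg (sf W) a (y + x0) ≤ u * 𝔼 a ≤ u^2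
= (1 + 1/(8N) + 1/(256 N^2)) t^2 < (1 + 5/(16N)) t^2`, a contradiction.

PROOF of `km_two`: `expect_corr_pow_sq_le` and `km_core` twice (`corr a a`, `corr b b`,
`corr a b` are nonnegative); from `X^2 ≤ P Q`, `0 ≤ P, Q ≤ M`, `0 ≤ X` get `X ≤ M`.

PROOF of `km_upper`: pointwise `iv(..) * ((1+2/N) t^2)^m ≤ corr a b x ^ m`; so
`𝔼 iv ≤ ((1+1/N)/(1+2/N))^m = ((N+1)/(N+2))^m ≤ (((N+1)/(N+2))^(N+2))^p ≤ (1/2)^p`, because
`((N+2)/(N+1))^(N+2) ≥ 1 + (N+2)/(N+1) ≥ 2` (Bernoulli).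

`Spr` is monotone: smaller codimension, larger bound (`Spr.mono`).
-/

set_option autoImplicit false

open Finset Function Module
open scoped BigOperators
open Pool.Agent.H77.KM

namespace Pool.Agent.H22.QK

section

variable {V : Type} [AddCommGroup V] [Module (ZMod 2) V] [Fintype V]

theorem Spr.mono {a : V → ℝ} {k k' : ℕ} {t t' : ℝ} (h : Spr a k t) (hk : k' ≤ k)
    (ht : t ≤ t') : Spr a k' t' := by
  intro W hW y
  exact (h W (by omega) y).trans ht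

/-- The average over everything is the average over the coset of the full space. -/
lemma km_avg_sf_top (a : V → ℝ) (y : V) : avg (sf (⊤ : Submodule (ZMod 2) V)) a y = 𝔼 x, a x := by
  have h1 : sf (⊤ : Submodule (ZMod 2) V) = Finset.univ := by
    ext x
    simp [mem_sf]
  rw [avg, h1]
  exact expect_add_left a y

/-- The correlation averaged over a coset of a subspace. -/
lemma km_avg_corr (W : Submodule (ZMod 2) V) (a b : V → ℝ) (x0 : V) :
    avg (sf W) (corr a b) x0 = 𝔼 y, a y * avg (sf W) b (y + x0) := by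
  simp only [avg, corr]
  rw [Finset.expect_comm]
  refine Finset.expect_congr rfl (fun y _ => ?_)
  rw [Finset.mul_expect]
  simp only [add_assoc]

theorem km_core (a : V → ℝ) (ha : ∀ x, a x = 0 ∨ a x = 1) {N l m : ℕ} (hN : 1 ≤ N)
    (hm : (2 * N + 1) * (N + 7) ≤ m) {t : ℝ} (ht : (1 / 2 : ℝ) ^ l ≤ t)
    (hs : Spr a (kmDim N l m) ((1 + 1 / (16 * N : ℝ)) * t)) :
    𝔼 x, corr a a x ^ m < ((1 + 1 / (N : ℝ)) * t ^ 2) ^ m := by
  classical
  by_contra hcon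
  have hbig := not_lt.mp hcon
  have hNr : (1 : ℝ) ≤ N := by exact_mod_cast hN
  have hN0 : (0 : ℝ) < N := by linarith
  have htpos : 0 < t := lt_of_lt_of_le (by positivity) ht
  obtain ⟨s, hs0, hs1, hsN⟩ : ∃ s : ℝ, 0 < s ∧ s ≤ 1 ∧ 1 / (N : ℝ) = s :=
    ⟨1 / (N : ℝ), by positivity, by rw [div_le_one hN0]; exact hNr, rfl⟩
  have e16 : 1 / (16 * N : ℝ) = s / 16 := by rw [← hsN]; field_simp
  have e2 : 1 / (2 * N : ℝ) = s / 2 := by rw [← hsN]; field_simp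
  have e32 : 1 / (32 * N : ℝ) = s / 32 := by rw [← hsN]; field_simp
  rw [e16] at hs
  have ha0 : ∀ x, 0 ≤ a x := fun x => by rcases ha x with h | h <;> rw [h] <;> norm_num
  have hc0 : ∀ x, 0 ≤ corr a a x := fun x =>
    Finset.expect_nonneg (fun y _ => mul_nonneg (ha0 _) (ha0 _))
  -- the density of `a`
  have hα : 𝔼 x, a x ≤ (1 + s / 16) * t := by
    have h1 := hs ⊤ (by rw [finrank_top]; omega) 0
    rwa [km_avg_sf_top] at h1
  have hα2 : 𝔼 x, a x ≤ 2 * t := by nlinarith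
  obtain ⟨A, hA, hAd, hAs⟩ := sift_gen a ha hN hm htpos hα2 hbig
  rw [e32, e2] at hAs
  have hm0 : 1 ≤ m := by
    have h1 : 1 ≤ (2 * N + 1) * (N + 7) := Nat.one_le_iff_ne_zero.mpr (by positivity)
    omega
  have hmN : N + 7 ≤ m := by
    have h1 : 1 * (N + 7) ≤ (2 * N + 1) * (N + 7) := Nat.mul_le_mul_right _ (by omega)
    omega
  set L : ℕ := (l + 2) * m with hL
  have hLm : m ≤ L := by rw [hL]; exact Nat.le_mul_of_pos_left _ (by omega)
  have hL0 : 0 < L := by omega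
  have hLN : 4 * (8 * N) ≤ 2 ^ L := by
    have h1 : 2 ^ (N + 7) ≤ 2 ^ L := Nat.pow_le_pow_right (by norm_num) (by omega)
    have h2 : N < 2 ^ N := Nat.lt_two_pow_self
    have h3 : 2 ^ (N + 7) = 2 ^ N * 128 := by rw [pow_add]; norm_num
    omega
  have hAd' : (1 / 2 : ℝ) ^ L ≤ (A.card : ℝ) / Fintype.card V := by
    refine le_trans ?_ hAd
    have h1 : (1 / 2 : ℝ) ^ (l + 2) ≤ t / 4 := by
      rw [pow_add]
      linarith
    rw [hL, pow_mul]
    exact pow_le_pow_left₀ (by positivity) h1 m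
  set g : V → ℝ := fun x => 1 - iv (corr a a x < (1 + s / 2) * t ^ 2) with hg
  have hg0 : ∀ x, 0 ≤ g x := fun x => by
    simp only [hg]; linarith [iv_le_one (corr a a x < (1 + s / 2) * t ^ 2)]
  have hg1 : ∀ x, g x ≤ 1 := fun x => by
    simp only [hg]; linarith [iv_nonneg (corr a a x < (1 + s / 2) * t ^ 2)]
  have e8 : 1 / (4 * ((8 * N : ℕ) : ℝ)) = s / 32 := by
    rw [← hsN]; push_cast; field_simp; norm_num
  have e8' : 1 / (((8 * N : ℕ) : ℝ)) = s / 8 := by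
    rw [← hsN]; push_cast; field_simp
  have hbig' : 1 - 1 / (4 * ((8 * N : ℕ) : ℝ)) ≤ 𝔼 x ∈ A, avg A g x := by
    have h1 : ∀ x ∈ A, avg A g x
        = 1 - 𝔼 z ∈ A, iv (corr a a (x + z) < (1 + s / 2) * t ^ 2) := by
      intro x _
      simp only [avg, hg]
      rw [Finset.expect_sub_distrib, Finset.expect_const hA]
    rw [Finset.expect_congr rfl h1, Finset.expect_sub_distrib, Finset.expect_const hA, e8]
    linarith
  obtain ⟨W, hW, x0, hx0⟩ := coset_structure_gen A hA g hg0 hg1 hL0 (by omega : 0 < 8 * N)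
    hLN hAd' hbig'
  rw [e8'] at hx0
  have hdim : finrank (ZMod 2) V ≤ finrank (ZMod 2) W + kmDim N l m := by
    refine hW.trans (le_of_eq ?_)
    rw [kmDim, ← hL]
    ring
  have hcg : ∀ x, (1 + s / 2) * t ^ 2 * g x ≤ corr a a x := by
    intro x
    simp only [hg]
    by_cases h : corr a a x < (1 + s / 2) * t ^ 2
    · rw [iv_pos h, sub_self, mul_zero]; exact hc0 x
    · rw [iv_neg h, sub_zero, mul_one]; exact not_lt.mp h
  have hKpos : 0 ≤ (1 + s / 2) * t ^ 2 := by positivity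
  have h1 : (1 + s / 2) * t ^ 2 * (1 - s / 8) ≤ avg (sf W) (corr a a) x0 := by
    calc (1 + s / 2) * t ^ 2 * (1 - s / 8) ≤ (1 + s / 2) * t ^ 2 * avg (sf W) g x0 :=
          mul_le_mul_of_nonneg_left hx0 hKpos
      _ = 𝔼 w ∈ sf W, (1 + s / 2) * t ^ 2 * g (x0 + w) := by
          rw [avg, Finset.mul_expect]
      _ ≤ avg (sf W) (corr a a) x0 := Finset.expect_le_expect (fun w _ => hcg _)
  have h2 : avg (sf W) (corr a a) x0 ≤ (𝔼 x, a x) * ((1 + s / 16) * t) := by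
    rw [km_avg_corr, Finset.expect_mul]
    exact Finset.expect_le_expect (fun y _ => mul_le_mul_of_nonneg_left (hs W hdim _) (ha0 _))
  have h3 : (𝔼 x, a x) * ((1 + s / 16) * t) ≤ ((1 + s / 16) * t) * ((1 + s / 16) * t) :=
    mul_le_mul_of_nonneg_right hα (by positivity)
  have h4 : (1 + s / 2) * t ^ 2 * (1 - s / 8) ≤ ((1 + s / 16) * t) * ((1 + s / 16) * t) :=
    (h1.trans h2).trans h3
  have ht2 : 0 < t ^ 2 := by positivity
  have h5 : ((1 + s / 2) * (1 - s / 8) - (1 + s / 16) ^ 2) * t ^ 2 ≤ 0 := by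
    calc ((1 + s / 2) * (1 - s / 8) - (1 + s / 16) ^ 2) * t ^ 2
        = (1 + s / 2) * t ^ 2 * (1 - s / 8) - ((1 + s / 16) * t) * ((1 + s / 16) * t) := by ring
      _ ≤ 0 := by linarith
  have h6 : 0 < (1 + s / 2) * (1 - s / 8) - (1 + s / 16) ^ 2 := by nlinarith
  have h7 := mul_pos h6 ht2
  linarith

omit [Module (ZMod 2) V] in
/-- Nonnegativity of the correlation of two `0/1` functions. -/
lemma km_corr_nonneg {a b : V → ℝ} (ha : ∀ x, a x = 0 ∨ a x = 1) (hb : ∀ x, b x = 0 ∨ b x = 1)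
    (x : V) : 0 ≤ corr a b x := by
  have ha0 : ∀ x, 0 ≤ a x := fun x => by rcases ha x with h | h <;> rw [h] <;> norm_num
  have hb0 : ∀ x, 0 ≤ b x := fun x => by rcases hb x with h | h <;> rw [h] <;> norm_num
  exact Finset.expect_nonneg (fun y _ => mul_nonneg (ha0 _) (hb0 _))

theorem km_two (a b : V → ℝ) (ha : ∀ x, a x = 0 ∨ a x = 1) (hb : ∀ x, b x = 0 ∨ b x = 1)
    {N l m : ℕ} (hN : 1 ≤ N) (hm : (2 * N + 1) * (N + 7) ≤ m) {t : ℝ}
    (ht : (1 / 2 : ℝ) ^ l ≤ t)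
    (hsa : Spr a (kmDim N l m) ((1 + 1 / (16 * N : ℝ)) * t))
    (hsb : Spr b (kmDim N l m) ((1 + 1 / (16 * N : ℝ)) * t)) :
    𝔼 x, corr a b x ^ m ≤ ((1 + 1 / (N : ℝ)) * t ^ 2) ^ m := by
  have hX := expect_corr_pow_sq_le a b m
  have hP := (km_core a ha hN hm ht hsa).le
  have hQ := (km_core b hb hN hm ht hsb).le
  have hP0 := expect_corr_self_pow_nonneg a m
  have hQ0 := expect_corr_self_pow_nonneg b m
  have hM : 0 ≤ ((1 + 1 / (N : ℝ)) * t ^ 2) ^ m := hP0.trans hP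
  have h1 : (𝔼 x, corr a b x ^ m) ^ 2 ≤ (((1 + 1 / (N : ℝ)) * t ^ 2) ^ m) ^ 2 := by
    refine hX.trans ?_
    rw [sq]
    exact mul_le_mul hP hQ hQ0 hM
  exact le_of_not_gt (fun hlt => absurd (pow_lt_pow_left₀ hlt hM (by norm_num : (2 : ℕ) ≠ 0))
    (not_lt.mpr h1))

theorem km_upper (a b : V → ℝ) (ha : ∀ x, a x = 0 ∨ a x = 1) (hb : ∀ x, b x = 0 ∨ b x = 1)
    {N l m p : ℕ} (hN : 1 ≤ N) (hm : (2 * N + 1) * (N + 7) ≤ m) (hmp : (N + 2) * p ≤ m)
    {t : ℝ} (ht : (1 / 2 : ℝ) ^ l ≤ t)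
    (hsa : Spr a (kmDim N l m) ((1 + 1 / (16 * N : ℝ)) * t))
    (hsb : Spr b (kmDim N l m) ((1 + 1 / (16 * N : ℝ)) * t)) :
    𝔼 x, iv ((1 + 2 / (N : ℝ)) * t ^ 2 < corr a b x) ≤ (1 / 2) ^ p := by
  have hNr : (1 : ℝ) ≤ N := by exact_mod_cast hN
  have hN0 : (0 : ℝ) < N := by linarith
  have htpos : 0 < t := lt_of_lt_of_le (by positivity) ht
  have htwo := km_two a b ha hb hN hm ht hsa hsb
  have hM0 : 0 < ((1 + 2 / (N : ℝ)) * t ^ 2) ^ m := by positivity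
  have h1 : ∀ x, iv ((1 + 2 / (N : ℝ)) * t ^ 2 < corr a b x) * ((1 + 2 / (N : ℝ)) * t ^ 2) ^ m
      ≤ corr a b x ^ m := by
    intro x
    by_cases h : (1 + 2 / (N : ℝ)) * t ^ 2 < corr a b x
    · rw [iv_pos h, one_mul]
      exact pow_le_pow_left₀ (by positivity) h.le m
    · rw [iv_neg h, zero_mul]
      exact pow_nonneg (km_corr_nonneg ha hb x) m
  have h2 : (𝔼 x, iv ((1 + 2 / (N : ℝ)) * t ^ 2 < corr a b x))
      * ((1 + 2 / (N : ℝ)) * t ^ 2) ^ m ≤ ((1 + 1 / (N : ℝ)) * t ^ 2) ^ m := by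
    rw [Finset.expect_mul]
    exact (Finset.expect_le_expect (fun x _ => h1 x)).trans htwo
  have hr : (1 + 1 / (N : ℝ)) * t ^ 2
      = ((N + 1 : ℝ) / (N + 2)) * ((1 + 2 / (N : ℝ)) * t ^ 2) := by
    field_simp
  rw [hr, mul_pow ((N + 1 : ℝ) / (N + 2))] at h2
  have h3 := le_of_mul_le_mul_right h2 hM0
  refine h3.trans ?_
  have hr0 : (0 : ℝ) < (N + 1 : ℝ) / (N + 2) := by positivity
  have hr1 : ((N + 1 : ℝ) / (N + 2)) ≤ 1 := by
    rw [div_le_one (by positivity)]; linarith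
  have h4 : ((N + 1 : ℝ) / (N + 2)) ^ m ≤ ((N + 1 : ℝ) / (N + 2)) ^ ((N + 2) * p) :=
    pow_le_pow_of_le_one hr0.le hr1 hmp
  refine h4.trans ?_
  rw [pow_mul]
  refine pow_le_pow_left₀ (by positivity) ?_ p
  have h5 : (2 : ℝ) ≤ ((N + 2 : ℝ) / (N + 1)) ^ (N + 2) := by
    have h6 := one_add_mul_le_pow (a := (1 / (N + 1 : ℝ))) (by
      have : (0 : ℝ) ≤ 1 / (N + 1 : ℝ) := by positivity
      linarith) (N + 2)
    have h7 : (1 : ℝ) + 1 / (N + 1 : ℝ) = (N + 2 : ℝ) / (N + 1) := by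
      field_simp; ring
    rw [h7] at h6
    refine le_trans ?_ h6
    have h8 : (1 : ℝ) ≤ ((N + 2 : ℕ) : ℝ) * (1 / (N + 1 : ℝ)) := by
      push_cast
      rw [mul_one_div, le_div_iff₀ (by positivity)]
      linarith
    linarith
  have h6 : ((N + 1 : ℝ) / (N + 2)) ^ (N + 2) * ((N + 2 : ℝ) / (N + 1)) ^ (N + 2) = 1 := by
    rw [← mul_pow]
    have : (N + 1 : ℝ) / (N + 2) * ((N + 2 : ℝ) / (N + 1)) = 1 := by field_simp
    rw [this, one_pow]
  have h7 : 0 < ((N + 1 : ℝ) / (N + 2)) ^ (N + 2) := by positivity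
  nlinarith

end

end Pool.Agent.H22.QK
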