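import Pool.Agent.H22.QK.KAp

/-!
# KCs: coset structure with a general error (about 110 lines, copy of the H77 proof)

PROOF. Copy `coset_structure` of `Pool/Agent/H77/KM/Increment.lean`. Use `almost_periodic_gen`
with `4 N` in the place of `N`: error `1/(4N)`, and `T` has density at least `2^-K` with
`K = L * (192 (4N)^2 L^3) + 1 = 3072 N^2 L^4 + 1`; `chang` gives `W` of codimension at most
`8 K`. With `P, Q` as there: `P ≥ (1 - 1/(4N)) - 1/(4N)`, `|P - Q| ≤ (1/2)^L ≤ 1/(4N)` (this is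
where `4 N ≤ 2^L` is used), so `Q ≥ 1 - 3/(4N) ≥ 1 - 1/N` and the maximum of `avg (sf W) g` is
at least `Q`.
-/

set_option autoImplicit false

open Finset Function Module
open scoped BigOperators
open Pool.Agent.H77.KM

namespace Pool.Agent.H22.QK

theorem coset_structure_gen {V : Type} [AddCommGroup V] [Module (ZMod 2) V] [Fintype V]
    (A : Finset V) (hA : A.Nonempty) (g : V → ℝ) (hg0 : ∀ x, 0 ≤ g x) (hg1 : ∀ x, g x ≤ 1)
    {L N : ℕ} (hL : 0 < L) (hN : 0 < N) (hLN : 4 * N ≤ 2 ^ L)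
    (hAd : (1 / 2 : ℝ) ^ L ≤ (A.card : ℝ) / Fintype.card V)
    (hbig : 1 - 1 / (4 * N : ℝ) ≤ 𝔼 x ∈ A, avg A g x) :
    ∃ W : Submodule (ZMod 2) V,
      finrank (ZMod 2) V ≤ finrank (ZMod 2) W + 8 * (3072 * N ^ 2 * L ^ 4 + 1) ∧
      ∃ x0, 1 - 1 / (N : ℝ) ≤ avg (sf W) g x0 := by
  classical
  have hFin : Finite (Dual (ZMod 2) V) := Finite.of_injective (fun φ => (φ : V → ZMod 2))
    DFunLike.coe_injective
  have hN' : (0 : ℝ) < N := by exact_mod_cast hN
  obtain ⟨T, hT, hTd, hTap⟩ := almost_periodic_gen A hA g hg0 hg1 (N := 4 * N) hL (by omega) hAd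
  set K : ℕ := L * (192 * (4 * N) ^ 2 * L ^ 3) + 1 with hK
  have hTK : (1 / 2 : ℝ) ^ K ≤ (T.card : ℝ) / Fintype.card V := by
    refine le_trans ?_ hTd
    have : ((1 / 2 : ℝ) ^ L) ^ (192 * (4 * N) ^ 2 * L ^ 3)
        ≤ ((A.card : ℝ) / Fintype.card V) ^ (192 * (4 * N) ^ 2 * L ^ 3) :=
      pow_le_pow_left₀ (by positivity) hAd _
    rw [hK, pow_succ, pow_mul]
    linarith
  obtain ⟨Φ, hΦ, hspec⟩ := chang T hT hTK
  set W : Submodule (ZMod 2) V := Φ.dualCoannihilator with hW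
  have hcodim : finrank (ZMod 2) V ≤ finrank (ZMod 2) W + 8 * (3072 * N ^ 2 * L ^ 4 + 1) := by
    have h1 := Subspace.finrank_add_finrank_dualCoannihilator_eq Φ
    have h2 : 8 * K = 8 * (3072 * N ^ 2 * L ^ 4 + 1) := by
      rw [hK]
      ring
    rw [← hW] at h1
    omega
  refine ⟨W, hcodim, ?_⟩
  set gW : V → ℝ := avg (sf W) g with hgW
  set P : ℝ := 𝔼 x ∈ A, ((avg2 T)^[L] (avg A g)) x with hP
  set Q : ℝ := 𝔼 x ∈ A, ((avg2 T)^[L] (avg A gW)) x with hQ
  have hN4 : (1 : ℝ) / ((4 * N : ℕ) : ℝ) = 1 / (4 * N : ℝ) := by push_cast; ring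
  have hPlow : 1 - 2 * (1 / (4 * N : ℝ)) ≤ P := by
    rw [hN4] at hTap
    have h1 := (abs_le.mp hTap).1
    rw [Finset.expect_sub_distrib] at h1
    rw [hP]
    linarith
  -- Fourier expansion of the difference
  have hPQ : P - Q = ∑ φ : Dual (ZMod 2) V,
      uhat T φ ^ (2 * L) * (uhat A φ ^ 2 * (hat g φ * (1 - uhat (sf W) φ))) := by
    rw [hP, hQ, expect_finset_eq_sum_hat, expect_finset_eq_sum_hat, ← Finset.sum_sub_distrib]
    refine Finset.sum_congr rfl (fun φ _ => ?_)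
    rw [hat_avg2_iter, hat_avg2_iter, hat_avg, hat_avg, hgW, hat_avg]
    ring
  have hdiff : |P - Q| ≤ 1 / (4 * N : ℝ) := by
    rw [hPQ]
    refine le_trans (Finset.abs_sum_le_sum_abs _ _) ?_
    have hterm : ∀ φ : Dual (ZMod 2) V,
        |uhat T φ ^ (2 * L) * (uhat A φ ^ 2 * (hat g φ * (1 - uhat (sf W) φ)))|
          ≤ (1 / 4) ^ L * uhat A φ ^ 2 := by
      intro φ
      by_cases hφ : φ ∈ Φ
      · have h1 : uhat (sf W) φ = 1 := by
          refine uhat_sf_of_vanish W φ (fun w hw => ?_)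
          rw [hW, Submodule.mem_dualCoannihilator] at hw
          exact hw φ hφ
        rw [h1]
        simp only [sub_self, mul_zero, abs_zero]
        positivity
      · have h2 : |uhat T φ| ≤ 1 / 2 := by
          by_contra hcon
          exact hφ (hspec φ (not_le.mp hcon).le)
        have h3 : |uhat T φ ^ (2 * L)| ≤ (1 / 4) ^ L := by
          rw [abs_pow, pow_mul]
          refine pow_le_pow_left₀ (by positivity) ?_ L
          calc |uhat T φ| ^ 2 ≤ (1 / 2) ^ 2 := pow_le_pow_left₀ (abs_nonneg _) h2 2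
            _ = 1 / 4 := by norm_num
        have h4 : |hat g φ * (1 - uhat (sf W) φ)| ≤ 1 := by
          rw [abs_mul]
          have h5 := abs_hat_le hg0 hg1 φ
          have h6 : |1 - uhat (sf W) φ| ≤ 1 := by
            rcases uhat_sf_cases W φ with h | h <;> rw [h] <;> norm_num
          calc |hat g φ| * |1 - uhat (sf W) φ| ≤ 1 * 1 :=
                mul_le_mul h5 h6 (abs_nonneg _) (by norm_num)
            _ = 1 := by norm_num
        rw [abs_mul, abs_mul, abs_of_nonneg (sq_nonneg (uhat A φ))]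
        refine mul_le_mul h3 ?_ (by positivity) (by positivity)
        exact mul_le_of_le_one_right (sq_nonneg _) h4
    refine le_trans (Finset.sum_le_sum (fun φ _ => hterm φ)) ?_
    rw [← Finset.mul_sum, parseval A hA]
    have h1 : ((A.card : ℝ) / Fintype.card V)⁻¹ ≤ 2 ^ L := by
      have := inv_anti₀ (by positivity) hAd
      refine le_trans this (le_of_eq ?_)
      rw [one_div, inv_pow, inv_inv]
    have h2 : (4 * N : ℝ) ≤ 2 ^ L := by exact_mod_cast hLN
    calc (1 / 4 : ℝ) ^ L * ((A.card : ℝ) / Fintype.card V)⁻¹ ≤ (1 / 4) ^ L * 2 ^ L :=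
          mul_le_mul_of_nonneg_left h1 (by positivity)
      _ = (1 / 2) ^ L := by rw [← mul_pow]; norm_num
      _ = 1 / 2 ^ L := by rw [div_pow, one_pow]
      _ ≤ 1 / (4 * N : ℝ) := one_div_le_one_div_of_le (by positivity) h2
  have hQlow : 1 - 1 / (N : ℝ) ≤ Q := by
    have h1 := (abs_le.mp hdiff).2
    have h2 : 1 / (N : ℝ) = 4 * (1 / (4 * N : ℝ)) := by field_simp
    have h3 : 0 ≤ 1 / (4 * N : ℝ) := by positivity
    rw [h2]
    linarith
  -- maximise
  obtain ⟨x0, hx0⟩ := Finite.exists_max gW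
  refine ⟨x0, ?_⟩
  have hQup : Q ≤ gW x0 := by
    rw [hQ]
    exact Finset.expect_le hA (fun x _ =>
      avg2_iter_le T hT L (fun y => avg_le A hA hx0 y) x)
  exact hQlow.trans hQup

end Pool.Agent.H22.QK
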