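import Pool.Agent.H22.QK.QLow

/-!
# LemR: from regular pieces to all pieces (about 130 lines)

PROOF by induction on `n = finrank Y'`. If `Reg b σ`: `LevBd` gives
`|Y'| 𝔼_w A iv (g w = 0) ≤ t`, and `count_zero` gives
`|Y'| 𝔼_w iv (g w = 0) ≥ 1 - |Y'| (1/2)^σ ≥ 1 - 1/(2N)`; since
`(1 + 1/N)(1 - 1/(2N)) ≥ 1`, `𝔼_w A iv (g w = 0) ≤ t/|Y'| ≤ (1+1/N) t 𝔼_w iv (g w = 0)`.
If not, `lowrank` gives `l ≠ 0` (so `n ≥ 1`) and `W1 ≤ W` of codimension at most `2σ` with
`l (g (v+k)) = l (g v)` for `k ∈ W1`. By `expect_coset` both sides are averages over `v : W` of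
averages over `k ∈ W1` of the values at `v + k`. If `l (g v) ≠ 0` both inner averages vanish. If
`l (g v) = 0`, then `k ↦ g (v+k)` is a quadratic map `W1 → ker l` (dimension `n - 1`); the
induction hypothesis applies to `f ∘ W1.subtype`, the base point `w0 + f v`, codimension
`k + 2σ`, and `(k + 2σ) + (n-1) 2σ ≤ K`.
-/

set_option autoImplicit false

open Finset Function Module
open scoped BigOperators
open Pool.Agent.H77.KM

namespace Pool.Agent.H22.QK

namespace LemRAux

theorem num_aux {N : ℕ} (hN : 1 ≤ N) : (1 : ℝ) ≤ (1 + 1 / (N : ℝ)) * (1 - 1 / (2 * N)) := by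
  have hN' : (1 : ℝ) ≤ N := by exact_mod_cast hN
  have hp : (0 : ℝ) < N := by linarith
  have e : (1 + 1 / (N : ℝ)) * (1 - 1 / (2 * N)) = 1 + (N - 1) / (2 * N ^ 2) := by
    field_simp
    ring
  rw [e]
  have : (0 : ℝ) ≤ (N - 1) / (2 * N ^ 2) := div_nonneg (by linarith) (by positivity)
  linarith

theorem reg_case {N R σ n : ℕ} (hN : 1 ≤ N) {t : ℝ} (ht : 0 ≤ t) {c : ℕ} (hc : c = 2 ^ n)
    (hn : n ≤ R) (hσ : (2 : ℝ) ^ R * (1 / 2) ^ σ ≤ 1 / (2 * N)) {E1 E2 : ℝ}
    (h1 : (c : ℝ) * E1 ≤ t) (h2 : |E2 - 1 / (c : ℝ)| ≤ (1 / 2) ^ σ) :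
    E1 ≤ (1 + 1 / (N : ℝ)) * t * E2 := by
  have hcpos : (0 : ℝ) < c := by rw [hc]; positivity
  have hcR : (c : ℝ) ≤ 2 ^ R := by
    rw [hc]
    push_cast
    exact pow_le_pow_right₀ (by norm_num) hn
  have h3 : 1 / (c : ℝ) - (1 / 2) ^ σ ≤ E2 := by
    have := (abs_le.mp h2).1
    linarith
  have h4 : 1 - 1 / (2 * (N : ℝ)) ≤ c * E2 := by
    have h5 : (c : ℝ) * (1 / c - (1 / 2) ^ σ) ≤ c * E2 := mul_le_mul_of_nonneg_left h3 hcpos.le
    have h6 : (c : ℝ) * (1 / c - (1 / 2) ^ σ) = 1 - c * (1 / 2) ^ σ := by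
      field_simp
    have h7 : (c : ℝ) * (1 / 2) ^ σ ≤ 2 ^ R * (1 / 2) ^ σ :=
      mul_le_mul_of_nonneg_right hcR (by positivity)
    linarith
  have h8 : t ≤ (1 + 1 / (N : ℝ)) * t * (c * E2) := by
    have h9 : (1 + 1 / (N : ℝ)) * t * (1 - 1 / (2 * N)) ≤ (1 + 1 / (N : ℝ)) * t * (c * E2) :=
      mul_le_mul_of_nonneg_left h4 (by positivity)
    have h10 : t * 1 ≤ t * ((1 + 1 / (N : ℝ)) * (1 - 1 / (2 * N))) :=
      mul_le_mul_of_nonneg_left (num_aux hN) ht
    linarith
  have h11 : (c : ℝ) * E1 ≤ c * ((1 + 1 / (N : ℝ)) * t * E2) := by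
    have e : (c : ℝ) * ((1 + 1 / (N : ℝ)) * t * E2) = (1 + 1 / (N : ℝ)) * t * (c * E2) := by ring
    rw [e]
    linarith
  exact le_of_mul_le_mul_left h11 hcpos

end LemRAux

open LemRAux

theorem lemR {V : Type} [AddCommGroup V] [Module (ZMod 2) V] [Fintype V]
    (A : V → ℝ) (hA : ∀ x, A x = 0 ∨ A x = 1) {K R σ N : ℕ} (hN : 1 ≤ N) {t : ℝ} (ht : 0 ≤ t)
    (hL : LevBd A K R σ t) (hσ : (2 : ℝ) ^ R * (1 / 2) ^ σ ≤ 1 / (2 * N)) (n : ℕ) :
    ∀ (k : ℕ) (W Y' : Type) [AddCommGroup W] [Module (ZMod 2) W] [Fintype W]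
      [AddCommGroup Y'] [Module (ZMod 2) Y'] [Fintype Y'] (f : W →ₗ[ZMod 2] V),
      Injective f → finrank (ZMod 2) V ≤ finrank (ZMod 2) W + k → finrank (ZMod 2) Y' = n →
      n ≤ R → k + n * (2 * σ) ≤ K →
      ∀ (w0 : V) (g : W → Y') (b : W →ₗ[ZMod 2] W →ₗ[ZMod 2] Y'), IsQM g b →
        𝔼 w, A (w0 + f w) * iv (g w = 0)
          ≤ (1 + 1 / (N : ℝ)) * t * 𝔼 w, iv (g w = 0) := by
  induction n with
  | zero =>
    intro k W Y' _ _ _ _ _ _ f hf hk hY hn hK w0 g b hg
    have hreg : Reg b σ := by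
      intro l hl
      exfalso
      apply hl
      have hs : Subsingleton Y' := finrank_zero_iff.mp hY
      ext y
      rw [Subsingleton.elim y 0]
      simp
    have hc : Fintype.card Y' = 2 ^ 0 := by
      have := card_eq_pow_finrank (K := ZMod 2) (V := Y')
      rw [ZMod.card, hY] at this
      exact this
    exact reg_case hN ht hc hn hσ
      (hL W Y' f hf (by omega) (by omega) w0 g b hg hreg) (count_zero hg hreg)
  | succ n ih =>
    intro k W Y' _ _ _ _ _ _ f hf hk hY hn hK w0 g b hg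
    by_cases hreg : Reg b σ
    · have hc : Fintype.card Y' = 2 ^ (n + 1) := by
        have := card_eq_pow_finrank (K := ZMod 2) (V := Y')
        rw [ZMod.card, hY] at this
        exact this
      have hkK : k ≤ K := le_trans (Nat.le_add_right _ _) hK
      exact reg_case hN ht hc hn hσ
        (hL W Y' f hf (by omega) (by omega) w0 g b hg hreg) (count_zero hg hreg)
    · obtain ⟨l, hl, W1, hW1, hlW⟩ := lowrank hg hreg
      have hker : finrank (ZMod 2) (LinearMap.ker l) = n := by
        have := Module.Dual.finrank_ker_add_one_of_ne_zero hl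
        omega
      have hK' : (k + 2 * σ) + n * (2 * σ) ≤ K := by
        calc (k + 2 * σ) + n * (2 * σ) = k + (n + 1) * (2 * σ) := by ring
          _ ≤ K := hK
      have hbl : ∀ x y : W1, b (x : W) (y : W) ∈ LinearMap.ker l := by
        intro x y
        rw [LinearMap.mem_ker]
        have e := hg (x : W) (y : W)
        have e1 := hlW 0 ((x : W) + y) (W1.add_mem x.2 y.2)
        have e2 := hlW 0 x x.2
        have e3 := hlW 0 y y.2
        rw [zero_add] at e1 e2 e3
        rw [e, map_add, map_add, map_add, e2, e3] at e1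
        have e4 : l (g 0) + l (g 0) = 0 := CharTwo.add_self_eq_zero _
        rw [e4, zero_add] at e1
        have : l (b (x : W) (y : W)) = (l (g 0) + l ((b ↑x) ↑y)) - l (g 0) := by ring
        rw [this, e1, sub_self]
      rw [expect_coset (fun x : W1 => (x : W)) (fun w => A (w0 + f w) * iv (g w = 0)),
        expect_coset (fun x : W1 => (x : W)) (fun w => iv (g w = 0)), mul_expect]
      apply expect_le_expect
      intro v _
      by_cases hv : l (g v) = 0
      · have hmem : ∀ x : W1, g (v + x) ∈ LinearMap.ker l := by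
          intro x
          rw [LinearMap.mem_ker, hlW v x x.2, hv]
        have hiv : ∀ x : W1, iv (g (v + x) = 0)
            = iv ((⟨g (v + x), hmem x⟩ : LinearMap.ker l) = 0) := by
          intro x
          apply iv_congr
          rw [Subtype.ext_iff]
          rfl
        have key := ih (k + 2 * σ) W1 (LinearMap.ker l) (f ∘ₗ W1.subtype)
          (hf.comp Subtype.val_injective) (by omega) hker (by omega) hK' (w0 + f v)
          (fun x => ⟨g (v + x), hmem x⟩)
          (LinearMap.mk₂ (ZMod 2) (fun x y : W1 => (⟨b (x : W) (y : W), hbl x y⟩ : LinearMap.ker l))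
            (fun x y z => by ext; simp) (fun c x y => by ext; simp)
            (fun x y z => by ext; simp) (fun c x y => by ext; simp))
          (by
            intro x y
            apply Subtype.ext
            have := hg.shift v (x : W) (y : W)
            simpa using this)
        simp only [← hiv] at key
        calc _ = 𝔼 x : W1, A (w0 + f v + (f ∘ₗ W1.subtype) x) * iv (g (v + x) = 0) := by
              apply expect_congr rfl
              intro x _
              rw [map_add, ← add_assoc]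
              rfl
          _ ≤ _ := key
      · have hz : ∀ x : W1, iv (g (v + x) = 0) = 0 := by
          intro x
          apply iv_neg
          intro h0
          apply hv
          rw [← hlW v x x.2, h0, map_zero]
        have e1 : 𝔼 x : W1, A (w0 + f (v + x)) * iv (g (v + x) = 0) = 0 := by
          simp only [hz, mul_zero, expect_const_zero]
        have e2 : 𝔼 x : W1, iv (g (v + x) = 0) = 0 := by
          simp only [hz, expect_const_zero]
        rw [e1, e2, mul_zero]

end Pool.Agent.H22.QK
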