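import Pool.Agent.H22.QK.Sym

/-!
# AltOne: the symmetry argument for large characters (about 60 lines)

PROOF of `alt_one`. `chi (T x + c) y = sgn (T x y) * chi c y`. `sym` with `f1 y = B y * chi c y`,
`f2 = B`: `S ≥ (1/2)^M ((1/2)^k)^2 = (1/2)^(M+2k)`, so `|ker (T + T.flip)| ≥ |V| (1/2)^(4 (M+2k))`;
both are powers of two (`Module.card_eq_pow_finrank`).
-/

set_option autoImplicit false

open Finset Function Module
open scoped BigOperators
open Pool.Agent.H77.KM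

namespace Pool.Agent.H22.QK

section

variable {V : Type} [AddCommGroup V] [Module (ZMod 2) V] [Fintype V]

theorem alt_one (B : V → ℝ) (hB : ∀ x, |B x| ≤ 1) (X : Set V) {M k : ℕ}
    (hX : (1 / 2 : ℝ) ^ M ≤ 𝔼 x, iv (x ∈ X))
    (T : V →ₗ[ZMod 2] Dual (ZMod 2) V) (c : Dual (ZMod 2) V)
    (hT : ∀ x ∈ X, (1 / 2 : ℝ) ^ k ≤ |𝔼 y, B y * B (y + x) * chi (T x + c) y|) :
    finrank (ZMod 2) V ≤ finrank (ZMod 2)
      (LinearMap.ker ((T : V →ₗ[ZMod 2] V →ₗ[ZMod 2] ZMod 2) + LinearMap.flip T))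
        + 4 * (M + 2 * k) := by
  have hB1 : ∀ x, |B x * chi c x| ≤ 1 := by
    intro x
    rw [abs_mul, abs_chi, mul_one]
    exact hB x
  have key := sym (fun y => B y * chi c y) B hB1 hB T
  have hfun : ∀ x y, B y * chi c y * B (y + x) * sgn (T x y)
      = B y * B (y + x) * chi (T x + c) y := by
    intro x y
    have h1 : chi (T x + c) y = sgn (T x y) * chi c y := by
      rw [chi_add_left]; rfl
    rw [h1]; ring
  simp only [hfun] at key
  have hS : (1 / 2 : ℝ) ^ (M + 2 * k)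
      ≤ 𝔼 x, (𝔼 y, B y * B (y + x) * chi (T x + c) y) ^ 2 := by
    have h1 : (1 / 2 : ℝ) ^ (M + 2 * k) ≤ 𝔼 x, iv (x ∈ X) * (1 / 2 : ℝ) ^ (2 * k) := by
      rw [← Finset.expect_mul, pow_add]
      exact mul_le_mul_of_nonneg_right hX (by positivity)
    refine h1.trans (Finset.expect_le_expect fun x _ => ?_)
    by_cases hx : x ∈ X
    · rw [iv_pos hx, one_mul, mul_comm 2 k, pow_mul, ← sq_abs (𝔼 y, B y * B (y + x) * chi (T x + c) y)]
      exact pow_le_pow_left₀ (by positivity) (hT x hx) 2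
    · rw [iv_neg hx, zero_mul]
      positivity
  have hS4 : ((1 / 2 : ℝ) ^ (M + 2 * k)) ^ 4
      ≤ (𝔼 x, (𝔼 y, B y * B (y + x) * chi (T x + c) y) ^ 2) ^ 4 :=
    pow_le_pow_left₀ (by positivity) hS 4
  have hmain := hS4.trans key
  have hVc : Fintype.card V = 2 ^ finrank (ZMod 2) V := by
    rw [Module.card_eq_pow_finrank (K := ZMod 2) (V := V), ZMod.card]
  have hKc : Nat.card (LinearMap.ker ((T : V →ₗ[ZMod 2] V →ₗ[ZMod 2] ZMod 2) + LinearMap.flip T))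
      = 2 ^ finrank (ZMod 2)
        (LinearMap.ker ((T : V →ₗ[ZMod 2] V →ₗ[ZMod 2] ZMod 2) + LinearMap.flip T)) := by
    rw [Nat.card_eq_fintype_card, Module.card_eq_pow_finrank (K := ZMod 2), ZMod.card]
  have hpos : (0 : ℝ) < (2 : ℝ) ^ finrank (ZMod 2) V := by positivity
  rw [hVc, hKc, ← pow_mul, mul_comm (M + 2 * k) 4] at hmain
  push_cast at hmain
  rw [le_div_iff₀ hpos] at hmain
  have h2 : (2 : ℝ) ^ finrank (ZMod 2) V ≤ 2 ^ (finrank (ZMod 2)
      (LinearMap.ker ((T : V →ₗ[ZMod 2] V →ₗ[ZMod 2] ZMod 2) + LinearMap.flip T))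
        + 4 * (M + 2 * k)) := by
    rw [pow_add]
    have h3 : (2 : ℝ) ^ finrank (ZMod 2) V
        = ((1 / 2 : ℝ) ^ (4 * (M + 2 * k)) * 2 ^ finrank (ZMod 2) V) * 2 ^ (4 * (M + 2 * k)) := by
      have h4 : (1 / 2 : ℝ) ^ (4 * (M + 2 * k)) * 2 ^ (4 * (M + 2 * k)) = 1 := by
        rw [← mul_pow]; norm_num
      calc (2 : ℝ) ^ finrank (ZMod 2) V
          = ((1 / 2 : ℝ) ^ (4 * (M + 2 * k)) * 2 ^ (4 * (M + 2 * k)))
            * 2 ^ finrank (ZMod 2) V := by rw [h4, one_mul]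
        _ = _ := by ring
    rw [h3]
    exact mul_le_mul_of_nonneg_right hmain (by positivity)
  exact (pow_le_pow_iff_right₀ (by norm_num : (1 : ℝ) < 2)).mp h2

end

end Pool.Agent.H22.QK
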