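import Pool.Agent.H22.QK.Cover

/-!
# PigeonS: the characters of the local increments can be chosen affinely (about 120 lines)

PROOF. Let `L` be given by `cover` (for `f = B`); `X' = {x ∈ X : Cov B k L x}` has measure at least
`(1/2)^(k+1)`. For `x ∈ X'` the data `(r', ξ, e)` satisfy `ξ i = p_i.1 x + p_i.2` with `p_i ∈ L`. The
number of triples `(r', p : Fin r' → L, e : Fin r' → ZMod 2)` with `r' ≤ r` is at most
`∑_{r' ≤ r} (2^(covK k) * 2)^r' ≤ (r+1) 2^((covK k + 1) r) ≤ 2^(r (covK k + 2))`. So some triple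
occurs for a set of `x` of measure at least `(1/2)^(k+1) / 2^(r (covK k + 2))`
(`∑` over the triples of the averages is at least the average of `iv (x ∈ X')`). Put
`T i = (p i).1`, `c i = (p i).2`.
-/

set_option autoImplicit false

open Finset Function Module
open scoped BigOperators
open Pool.Agent.H77.KM

namespace Pool.Agent.H22.QK

private theorem card_idx {α : Type} (L : Finset α) {c r : ℕ} (hL : L.card ≤ 2 ^ c) :
    Fintype.card ((r' : Fin (r + 1)) × ((Fin r'.1 → L) × (Fin r'.1 → ZMod 2)))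
      ≤ 2 ^ (r * (c + 2)) := by
  classical
  rw [Fintype.card_sigma]
  have h1 : ∀ r' : Fin (r + 1), Fintype.card ((Fin r'.1 → L) × (Fin r'.1 → ZMod 2))
      ≤ 2 ^ (r * (c + 1)) := by
    intro r'
    rw [Fintype.card_prod, Fintype.card_fun, Fintype.card_fun, Fintype.card_fin,
      Fintype.card_coe, ZMod.card, ← mul_pow]
    have h2 : L.card * 2 ≤ 2 ^ (c + 1) := by rw [pow_succ]; exact Nat.mul_le_mul_right 2 hL
    calc (L.card * 2) ^ r'.1 ≤ (2 ^ (c + 1)) ^ r'.1 := Nat.pow_le_pow_left h2 _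
      _ = 2 ^ (r'.1 * (c + 1)) := by rw [← pow_mul, mul_comm]
      _ ≤ 2 ^ (r * (c + 1)) := Nat.pow_le_pow_right (by norm_num)
          (Nat.mul_le_mul_right _ (Nat.lt_succ_iff.1 r'.2))
  refine (Finset.sum_le_sum (fun r' _ => h1 r')).trans ?_
  rw [Finset.sum_const, Finset.card_univ, Fintype.card_fin, smul_eq_mul]
  have h3 : r + 1 ≤ 2 ^ r := Nat.lt_two_pow_self
  calc (r + 1) * 2 ^ (r * (c + 1)) ≤ 2 ^ r * 2 ^ (r * (c + 1)) := Nat.mul_le_mul_right _ h3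
    _ = 2 ^ (r * (c + 2)) := by rw [← pow_add]; congr 1; ring

theorem pigeonS {V : Type} [AddCommGroup V] [Module (ZMod 2) V] [Fintype V]
    (B : V → ℝ) (hB : ∀ x, |B x| ≤ 1) (X : Set V) {k r : ℕ}
    (hX : (1 / 2 : ℝ) ^ k ≤ 𝔼 x, iv (x ∈ X))
    (P : V → (r' : ℕ) → (Fin r' → Dual (ZMod 2) V) → (Fin r' → ZMod 2) → Prop)
    (hP : ∀ x ∈ X, ∃ r' ≤ r, ∃ ξ : Fin r' → Dual (ZMod 2) V, ∃ e : Fin r' → ZMod 2,
      (∀ i, (1 / 2 : ℝ) ^ k ≤ |𝔼 y, B y * B (y + x) * chi (ξ i) y|) ∧ P x r' ξ e) :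
    ∃ r' ≤ r, ∃ (T : Fin r' → V →ₗ[ZMod 2] Dual (ZMod 2) V) (c : Fin r' → Dual (ZMod 2) V)
      (e : Fin r' → ZMod 2),
      (1 / 2 : ℝ) ^ (k + 1 + r * (covK k + 2)) ≤ 𝔼 x, iv (x ∈ X ∧
        (∀ i, (1 / 2 : ℝ) ^ k ≤ |𝔼 y, B y * B (y + x) * chi (T i x + c i) y|) ∧
        P x r' (fun i => T i x + c i) e) := by
  classical
  obtain ⟨L, hL, hcov⟩ := cover B hB X hX
  generalize covK k = cK at hL
  have hcard := card_idx (r := r) L hL
  let I := (r' : Fin (r + 1)) × ((Fin r'.1 → L) × (Fin r'.1 → ZMod 2))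
  have hcardI : Fintype.card I ≤ 2 ^ (r * (cK + 2)) := hcard
  haveI : Nonempty I := ⟨⟨0, (fun i => i.elim0), (fun i => i.elim0)⟩⟩
  let Ev : I → V → Prop := fun τ x => x ∈ X ∧
        (∀ i, (1 / 2 : ℝ) ^ k ≤
          |𝔼 y, B y * B (y + x) * chi ((τ.2.1 i).1.1 x + (τ.2.1 i).1.2) y|) ∧
        P x τ.1.1 (fun i => (τ.2.1 i).1.1 x + (τ.2.1 i).1.2) τ.2.2
  have hpt : ∀ x, iv (x ∈ X ∧ Cov B k L x) ≤ ∑ τ : I, iv (Ev τ x) := by
    intro x
    by_cases h : x ∈ X ∧ Cov B k L x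
    · rw [iv_pos h]
      obtain ⟨hx, hc⟩ := h
      obtain ⟨r', hr', ξ, e, h1, h2⟩ := hP x hx
      have h3 : ∀ i, ∃ p ∈ L, ξ i = p.1 x + p.2 := fun i => hc (ξ i) (h1 i)
      choose p hp hpe using h3
      have hξ : ξ = fun i => (p i).1 x + (p i).2 := funext hpe
      rw [hξ] at h1 h2
      have hEv : Ev ⟨⟨r', Nat.lt_succ_iff.2 hr'⟩, (fun i => ⟨p i, hp i⟩), e⟩ x := ⟨hx, h1, h2⟩
      calc (1 : ℝ) = iv (Ev ⟨⟨r', Nat.lt_succ_iff.2 hr'⟩, (fun i => ⟨p i, hp i⟩), e⟩ x) :=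
            (iv_pos hEv).symm
        _ ≤ ∑ τ : I, iv (Ev τ x) :=
            Finset.single_le_sum (f := fun τ : I => iv (Ev τ x)) (fun τ _ => iv_nonneg _)
              (Finset.mem_univ _)
    · rw [iv_neg h]
      exact Finset.sum_nonneg (fun τ _ => iv_nonneg _)
  have hsum : (1 / 2 : ℝ) ^ (k + 1) ≤ ∑ τ : I, 𝔼 x, iv (Ev τ x) := by
    refine hcov.trans ?_
    rw [← Finset.expect_sum_comm]
    exact Finset.expect_le_expect (fun x _ => hpt x)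
  have hconst : ∑ _τ : I, (1 / 2 : ℝ) ^ (k + 1 + r * (cK + 2)) ≤ (1 / 2 : ℝ) ^ (k + 1) := by
    rw [Finset.sum_const, Finset.card_univ, nsmul_eq_mul]
    have h1 : ((Fintype.card I : ℕ) : ℝ) ≤ 2 ^ (r * (cK + 2)) := by exact_mod_cast hcardI
    calc ((Fintype.card I : ℕ) : ℝ) * (1 / 2 : ℝ) ^ (k + 1 + r * (cK + 2))
        ≤ 2 ^ (r * (cK + 2)) * (1 / 2 : ℝ) ^ (k + 1 + r * (cK + 2)) :=
          mul_le_mul_of_nonneg_right h1 (by positivity)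
      _ = (2 ^ (r * (cK + 2)) * (1 / 2) ^ (r * (cK + 2))) * (1 / 2 : ℝ) ^ (k + 1) := by
          rw [pow_add]; ring
      _ = (1 / 2 : ℝ) ^ (k + 1) := by
          rw [← mul_pow]; norm_num
  obtain ⟨τ, _, hτ⟩ := Finset.exists_le_of_sum_le (Finset.univ_nonempty (α := I))
    (hconst.trans hsum)
  exact ⟨τ.1.1, Nat.lt_succ_iff.1 τ.1.2, (fun i => (τ.2.1 i).1.1), (fun i => (τ.2.1 i).1.2),
    τ.2.2, hτ⟩

end Pool.Agent.H22.QK
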