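import Pool.Agent.H22.QK.CosetA
import Pool.Agent.H22.QK.Zcount
import Pool.Agent.H22.QK.AltOne
import Pool.Agent.H22.QK.AltSub
import Pool.Agent.H22.QK.PigeonS
import Pool.Agent.H22.QK.StA2

/-!
# Stage: few bad pairs for a spread subset of a regular quadric (about 190 lines)

PROOF of `stage`. Write `R = finrank Y`, `β = 𝔼 B`, `r = iiR (3n+3)`, and let the numbers
`k1, M, c1, q, p, m, κ5, σ` be those in the definition of `stK`. Suppose the conclusion fails.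
1. `bad_fibre` (`2s ≥ n+2+2R`): `X0` (nondegenerate, many bad partners) has measure at least
   `(1/2)^(n+2)`; `corr_large` removes at most `(1/2)^(2(n+8)) ≤ (1/2)^(n+3)`: the set `X1` of the
   `x ∈ X0` with `corr B B x ≥ (199/200) β^2` has measure at least `(1/2)^(n+3) ≥ (1/2)^k1`.
2. `fibre_two` and `pigeonS` (`k = k1 = fibT n R + n + 3`,
   `(1/2)^k1 ≤ (1/2)^(fibT n R)`, `P x r' ξ e` := `NonDeg b x ξ ∧ 101/100 β^2 (1/2)^r' ≤ 𝔼 ..`):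
   `r' ≤ r`, `T, c, e` and the set `X` of all `x` with the three properties has measure at least
   `(1/2)^M`, `M = k1 + 1 + r (covK k1 + 2)`.
3. `alt_one` for every `i` (codimension at most `4 (M + 2 k1)`) and `alt_sub`: `V1` of codimension
   at most `r' (4 (M + 2 k1) + 1) ≤ c1`.
4. `coset_avg` with `N = 1000`, `l = n`, `t = (1 + 10^-6) |Y| β ≥ (1/2)^n`:
   `𝔼_x iv (x ∈ X) (CB x - (1+3/1000) t^2 CZ x) ≤ 2 * 2^q (1/2)^p`.
5. For `x ∈ X`: `CB x ≥ (101/100) β^2 (1/2)^r'` and (`zcount`)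
   `(1+3/1000) t^2 CZ x ≤ (1.003) (1+10^-6)^2 β^2 (1/2)^r' (1 + |Y|^2 2^r' (1/2)^s)
   ≤ (1.004) β^2 (1/2)^r'` since `s ≥ 2R + r + 14`. So the left side of 4 is at least
   `(1/2)^M * 0.006 β^2 (1/2)^r' ≥ (1/2)^(M + 8 + 2n + 2R + r)` (`β ≥ (1/2)^(n+R)`), while the
   right side is `(1/2)^(p - q - 1)`, smaller because `p = q + M + 2n + 2R + r + 10`.
   Contradiction.
All lower bounds needed for `s` and `κ` are contained in `stK n R ≤ s`, `stK n R ≤ κ`.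
-/

set_option autoImplicit false

open Finset Function Module
open scoped BigOperators
open Pool.Agent.H77.KM

namespace Pool.Agent.H22.QK

section

variable {V : Type} [AddCommGroup V] [Module (ZMod 2) V] [Fintype V]
variable {Y : Type} [AddCommGroup Y] [Module (ZMod 2) Y] [Fintype Y]
variable {g : V → Y} {b : V →ₗ[ZMod 2] V →ₗ[ZMod 2] Y}

private lemma st_card (Y : Type) [AddCommGroup Y] [Module (ZMod 2) Y] [Fintype Y] :
    (Fintype.card Y : ℝ) = 2 ^ finrank (ZMod 2) Y := by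
  rw [Module.card_eq_pow_finrank (K := ZMod 2) (V := Y), ZMod.card]
  push_cast
  rfl

private lemma st_pt {β cY t CB CZ : ℝ} {s R r r' n : ℕ} (hr : r' ≤ r) (hY : cY = 2 ^ R)
    (hβ : (1 / 2 : ℝ) ^ n ≤ cY * β) (hs : 2 * R + r + 14 ≤ s)
    (h1 : 101 / 100 * β ^ 2 * (1 / 2) ^ r' ≤ CB)
    (h2 : CZ ≤ 1 / cY ^ 2 * (1 / 2) ^ r' + (1 / 2) ^ s)
    (ht : t = (1 + 1 / 1000000) * (cY * β)) :
    (1 / 2 : ℝ) ^ (8 + 2 * n + 2 * R + r) ≤ CB - (1 + 3 / ((1000 : ℕ) : ℝ)) * t ^ 2 * CZ := by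
  have hY0 : 0 < cY := by rw [hY]; positivity
  have hβ0 : 0 < β := by
    have h3 : (0 : ℝ) < cY * β := lt_of_lt_of_le (by positivity) hβ
    exact (mul_pos_iff_of_pos_left hY0).1 h3
  have h3 : (1 / 2 : ℝ) ^ s ≤ 1 / cY ^ 2 * (1 / 2) ^ r' * (1 / 2) ^ 14 := by
    have e1 : 1 / cY ^ 2 = (1 / 2) ^ (2 * R) := by
      rw [hY, ← pow_mul, mul_comm R 2, one_div, one_div, inv_pow]
    rw [e1, ← pow_add, ← pow_add]
    exact pow_le_pow_of_le_one (by norm_num) (by norm_num) (by omega)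
  have h4 : CZ ≤ 1 / cY ^ 2 * (1 / 2) ^ r' * (1 + (1 / 2) ^ 14) := by
    calc CZ ≤ 1 / cY ^ 2 * (1 / 2) ^ r' + (1 / 2) ^ s := h2
      _ ≤ 1 / cY ^ 2 * (1 / 2) ^ r' + 1 / cY ^ 2 * (1 / 2) ^ r' * (1 / 2) ^ 14 := by linarith
      _ = _ := by ring
  have h5 : (1 + 3 / ((1000 : ℕ) : ℝ)) * t ^ 2 * CZ ≤ 1004 / 1000 * β ^ 2 * (1 / 2) ^ r' := by
    calc (1 + 3 / ((1000 : ℕ) : ℝ)) * t ^ 2 * CZ ≤
          (1 + 3 / ((1000 : ℕ) : ℝ)) * t ^ 2 * (1 / cY ^ 2 * (1 / 2) ^ r' * (1 + (1 / 2) ^ 14)) :=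
          mul_le_mul_of_nonneg_left h4 (by positivity)
      _ = ((1 + 3 / 1000) * (1 + 1 / 1000000) ^ 2 * (1 + (1 / 2) ^ 14)) *
            (β ^ 2 * (1 / 2) ^ r') := by
          rw [ht]
          field_simp
          norm_num
      _ ≤ 1004 / 1000 * (β ^ 2 * (1 / 2) ^ r') :=
          mul_le_mul_of_nonneg_right (by norm_num) (by positivity)
      _ = _ := by ring
  have h6 : (1 / 2 : ℝ) ^ (n + R) ≤ β := by
    have e2 : (1 / 2 : ℝ) ^ R * cY = 1 := by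
      rw [hY, ← mul_pow]; norm_num
    calc (1 / 2 : ℝ) ^ (n + R) = (1 / 2) ^ n * (1 / 2) ^ R := pow_add _ _ _
      _ ≤ cY * β * (1 / 2) ^ R := mul_le_mul_of_nonneg_right hβ (by positivity)
      _ = ((1 / 2) ^ R * cY) * β := by ring
      _ = β := by rw [e2, one_mul]
  have h7 : (1 / 2 : ℝ) ^ (2 * n + 2 * R) ≤ β ^ 2 := by
    calc (1 / 2 : ℝ) ^ (2 * n + 2 * R) = ((1 / 2) ^ (n + R)) ^ 2 := by
          rw [← pow_mul]; congr 1; ring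
      _ ≤ β ^ 2 := pow_le_pow_left₀ (by positivity) h6 2
  have h8 : (1 / 2 : ℝ) ^ r ≤ (1 / 2) ^ r' :=
    pow_le_pow_of_le_one (by norm_num) (by norm_num) hr
  have h9 : (1 / 2 : ℝ) ^ (2 * n + 2 * R) * (1 / 2) ^ r ≤ β ^ 2 * (1 / 2) ^ r' :=
    mul_le_mul h7 h8 (by positivity) (by positivity)
  have e3 : (1 / 2 : ℝ) ^ (8 + 2 * n + 2 * R + r) =
      (1 / 2) ^ 8 * ((1 / 2 : ℝ) ^ (2 * n + 2 * R) * (1 / 2) ^ r) := by
    rw [← pow_add, ← pow_add]; congr 1; ring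
  rw [e3]
  have h10 : (0 : ℝ) < (1 / 2 : ℝ) ^ (2 * n + 2 * R) * (1 / 2) ^ r := by positivity
  nlinarith

private lemma st_end {x : ℝ} {M q p n R r : ℕ} (hp : p = q + M + 2 * n + 2 * R + r + 10)
    (h1 : (1 / 2 : ℝ) ^ M * (1 / 2) ^ (8 + 2 * n + 2 * R + r) ≤ x)
    (h2 : x ≤ 2 * 2 ^ q * (1 / 2) ^ p) : False := by
  have e1 : (2 : ℝ) * 2 ^ q * (1 / 2) ^ p = (1 / 2) ^ (M + (8 + 2 * n + 2 * R + r)) * (1 / 2) := by
    have e2 : p = q + 1 + (M + (8 + 2 * n + 2 * R + r) + 1) := by omega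
    rw [e2, pow_add (1 / 2 : ℝ) (q + 1), pow_succ (1 / 2 : ℝ) (M + (8 + 2 * n + 2 * R + r))]
    have e3 : (2 : ℝ) ^ (q + 1) * (1 / 2) ^ (q + 1) = 1 := by rw [← mul_pow]; norm_num
    calc (2 : ℝ) * 2 ^ q * ((1 / 2) ^ (q + 1) * ((1 / 2) ^ (M + (8 + 2 * n + 2 * R + r)) * (1 / 2)))
        = ((2 : ℝ) ^ (q + 1) * (1 / 2) ^ (q + 1)) *
          ((1 / 2) ^ (M + (8 + 2 * n + 2 * R + r)) * (1 / 2)) := by rw [pow_succ (2 : ℝ) q]; ring
      _ = _ := by rw [e3, one_mul]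
  rw [e1] at h2
  rw [← pow_add] at h1
  have h3 : (0 : ℝ) < (1 / 2) ^ (M + (8 + 2 * n + 2 * R + r)) := by positivity
  linarith

private lemma stage_aux (hg : IsQM g b) {s n κ : ℕ} (hs : Reg b s)
    (B : V → ℝ) (hB : ∀ x, B x = 0 ∨ B x = 1) (hBg : ∀ x, B x ≠ 0 → g x = 0)
    (hβ : (1 / 2 : ℝ) ^ n ≤ Fintype.card Y * 𝔼 x, B x)
    {R r F k1 K M c1 q p Mm Km Si : ℕ} (hR : finrank (ZMod 2) Y = R)
    (_hr : iiR (3 * n + 3) = r) (_hF : fibT n R = F) (hk1 : k1 = F + n + 3)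
    (hK : covK k1 = K) (hM : M = k1 + 1 + r * (K + 2))
    (hc1 : c1 = r * (4 * (M + 2 * k1) + 1)) (hq : q = R + r)
    (hp : p = q + M + 2 * n + 2 * R + r + 10) (hMm : Mm = 2001 * 1007 + 1002 * p)
    (hKm : kmDim 1000 (n + q) Mm = Km) (hSi : Si = Km + 2 * q + 1000 + p + 6)
    (hκ : c1 + (q * (2 * Si + 1) + Km) ≤ κ)
    (hs1 : n + 2 + 2 * R ≤ 2 * s) (hs2 : 2 * R + r + 14 ≤ s)
    (hcor : 𝔼 x, iv (corr B B x < 199 / 200 * (𝔼 x, B x) ^ 2) ≤ (1 / 2) ^ (2 * (n + 8)))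
    (hfib : ∀ x, (∀ l : Dual (ZMod 2) Y, l ≠ 0 → bl b l x ≠ 0) →
      (1 / 2 : ℝ) ^ (n + 1) ≤ Fintype.card Y * 𝔼 z, iv (BadPair B b x z) →
      199 / 200 * (𝔼 x, B x) ^ 2 ≤ corr B B x →
      ∃ r' ≤ r, ∃ ξ : Fin r' → Dual (ZMod 2) V, ∃ e : Fin r' → ZMod 2,
      (∀ i, (1 / 2 : ℝ) ^ F ≤ |𝔼 y, B y * B (y + x) * chi (ξ i) y|) ∧
      (NonDeg b x ξ ∧ 101 / 100 * (𝔼 x, B x) ^ 2 * (1 / 2) ^ r'
        ≤ 𝔼 y, B y * B (y + x) * iv (∀ i, ξ i y = e i)))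
    (hspr : SprV B g κ r ((1 + 1 / 1000000) * (Fintype.card Y * 𝔼 x, B x)))
    (hcon : (1 / 2) ^ n / (Fintype.card Y : ℝ) < 𝔼 x, 𝔼 z, iv (BadPair B b x z)) : False := by
  classical
  have hBabs : ∀ x, |B x| ≤ 1 := by
    intro x
    rcases hB x with h | h <;> rw [h] <;> norm_num
  have hcY : (Fintype.card Y : ℝ) = 2 ^ R := by rw [st_card Y, hR]
  -- step 1
  have hX0 := bad_fibre hg hs (by rw [hR]; exact hs1) B hcon
  set β := 𝔼 x, B x with hβdef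
  set X1 : Set V := {x | ((∀ l : Dual (ZMod 2) Y, l ≠ 0 → bl b l x ≠ 0) ∧
      (1 / 2 : ℝ) ^ (n + 1) ≤ Fintype.card Y * 𝔼 z, iv (BadPair B b x z)) ∧
      199 / 200 * β ^ 2 ≤ corr B B x} with hX1
  have hX1m : (1 / 2 : ℝ) ^ (n + 3) ≤ 𝔼 x, iv (x ∈ X1) := by
    have h1 : 𝔼 x, iv ((∀ l : Dual (ZMod 2) Y, l ≠ 0 → bl b l x ≠ 0) ∧
        (1 / 2 : ℝ) ^ (n + 1) ≤ Fintype.card Y * 𝔼 z, iv (BadPair B b x z)) ≤
        (𝔼 x, iv (x ∈ X1)) + 𝔼 x, iv (corr B B x < 199 / 200 * β ^ 2) := by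
      rw [← Finset.expect_add_distrib]
      refine Finset.expect_le_expect fun x _ => ?_
      by_cases h0 : (∀ l : Dual (ZMod 2) Y, l ≠ 0 → bl b l x ≠ 0) ∧
        (1 / 2 : ℝ) ^ (n + 1) ≤ Fintype.card Y * 𝔼 z, iv (BadPair B b x z)
      · by_cases h2 : 199 / 200 * β ^ 2 ≤ corr B B x
        · have h3 : x ∈ X1 := ⟨h0, h2⟩
          rw [iv_pos h3, iv_pos h0]
          have := iv_nonneg (corr B B x < 199 / 200 * β ^ 2)
          linarith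
        · rw [iv_pos h0, iv_pos (not_le.1 h2)]
          have := iv_nonneg (x ∈ X1)
          linarith
      · rw [iv_neg h0]
        have h3 := iv_nonneg (x ∈ X1)
        have h4 := iv_nonneg (corr B B x < 199 / 200 * β ^ 2)
        linarith
    have h2 : (1 / 2 : ℝ) ^ (2 * (n + 8)) ≤ (1 / 2) ^ (n + 3) :=
      pow_le_pow_of_le_one (by norm_num) (by norm_num) (by omega)
    have h3 : (1 / 2 : ℝ) ^ (n + 2) = 2 * (1 / 2) ^ (n + 3) := by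
      rw [pow_succ (1 / 2 : ℝ) (n + 2)]; ring
    linarith
  have hk1m : (1 / 2 : ℝ) ^ k1 ≤ 𝔼 x, iv (x ∈ X1) :=
    (pow_le_pow_of_le_one (by norm_num) (by norm_num) (by omega)).trans hX1m
  -- step 2
  obtain ⟨r', hr', T, c, e, hTm⟩ := pigeonS B hBabs X1 (k := k1) (r := r) hk1m
    (fun x r' ξ e => NonDeg b x ξ ∧ 101 / 100 * β ^ 2 * (1 / 2) ^ r'
        ≤ 𝔼 y, B y * B (y + x) * iv (∀ i, ξ i y = e i)) (by
      rintro x ⟨⟨h1, h2⟩, h3⟩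
      obtain ⟨r', hr', ξ, e, h4, h5⟩ := hfib x h1 h2 h3
      refine ⟨r', hr', ξ, e, fun i => ?_, h5⟩
      exact (pow_le_pow_of_le_one (by norm_num) (by norm_num) (by omega)).trans (h4 i))
  rw [hK, ← hM] at hTm
  set X : Set V := {x | x ∈ X1 ∧
        (∀ i, (1 / 2 : ℝ) ^ k1 ≤ |𝔼 y, B y * B (y + x) * chi (T i x + c i) y|) ∧
        (NonDeg b x (fun i => T i x + c i) ∧ 101 / 100 * β ^ 2 * (1 / 2) ^ r'
        ≤ 𝔼 y, B y * B (y + x) * iv (∀ i, (T i x + c i) y = e i))} with hX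
  have hXm : (1 / 2 : ℝ) ^ M ≤ 𝔼 x, iv (x ∈ X) := hTm
  -- step 3
  have halt : ∀ i, finrank (ZMod 2) V ≤ finrank (ZMod 2)
      (LinearMap.ker ((T i : V →ₗ[ZMod 2] V →ₗ[ZMod 2] ZMod 2) + LinearMap.flip (T i)))
        + 4 * (M + 2 * k1) := fun i =>
    alt_one B hBabs X hXm (T i) (c i) (fun x hx => hx.2.1 i)
  obtain ⟨V1, hV1c, hV1⟩ := alt_sub (n := 4 * (M + 2 * k1)) T halt
  have hV1c' : finrank (ZMod 2) V ≤ finrank (ZMod 2) V1 + c1 := by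
    have h1 : r' * (4 * (M + 2 * k1) + 1) ≤ r * (4 * (M + 2 * k1) + 1) :=
      Nat.mul_le_mul_right _ hr'
    omega
  -- step 4
  have hβpos : (0 : ℝ) < Fintype.card Y * β := lt_of_lt_of_le (by positivity) hβ
  have hco := coset_avg hg B hB hBg hr' T c e V1 hV1c' hV1 (N := 1000) (l := n) (m := Mm)
    (p := p) (q := q) (σ := Si) (κ := κ) (by norm_num) (by rw [hMm]; omega) (by rw [hMm]; omega)
    (t := (1 + 1 / 1000000) * (Fintype.card Y * β)) (by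
      refine hβ.trans ?_
      linarith) (by rw [hR]; omega) (by rw [hKm]; omega) (by rw [hKm]; exact hκ) hspr X
  refine st_end (x := (1 / 2 : ℝ) ^ M * (1 / 2) ^ (8 + 2 * n + 2 * R + r)) hp le_rfl
    (le_trans ?_ hco)
  calc (1 / 2 : ℝ) ^ M * (1 / 2) ^ (8 + 2 * n + 2 * R + r) ≤
        (𝔼 x, iv (x ∈ X)) * (1 / 2) ^ (8 + 2 * n + 2 * R + r) :=
        mul_le_mul_of_nonneg_right hXm (by positivity)
    _ = 𝔼 x, iv (x ∈ X) * (1 / 2) ^ (8 + 2 * n + 2 * R + r) := by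
        rw [Finset.expect_mul]
    _ ≤ _ := by
        refine Finset.expect_le_expect fun x _ => ?_
        by_cases hx : x ∈ X
        · rw [iv_pos hx, one_mul, one_mul]
          have hz := zcount hg hs x (fun i => T i x + c i) hx.2.2.1 e
          exact st_pt hr' hcY hβ hs2 hx.2.2.2 hz rfl
        · rw [iv_neg hx, zero_mul, zero_mul]

private lemma stK_le (n R : ℕ) :
    stC1 n R + (stQ n R * (2 * stSi n R + 1) + stKm n R) ≤ stK n R ∧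
    corK n R + R + 20 ≤ stK n R ∧ iiReg (3 * n + 3) R + R ≤ stK n R ∧
    n + 2 + 2 * R ≤ 2 * stK n R ∧ 2 * R + iiR (3 * n + 3) + 14 ≤ stK n R := by
  unfold stK
  generalize stC1 n R = a1
  generalize stQ n R * (2 * stSi n R + 1) + stKm n R = a2
  generalize corK n R = a3
  generalize iiReg (3 * n + 3) R = a4
  generalize iiR (3 * n + 3) = a5
  refine ⟨?_, ?_, ?_, ?_, ?_⟩ <;> omega

theorem stage (hg : IsQM g b) {s n κ : ℕ} (hs : Reg b s)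
    (hsn : stK n (finrank (ZMod 2) Y) ≤ s) (hκn : stK n (finrank (ZMod 2) Y) ≤ κ)
    (B : V → ℝ) (hB : ∀ x, B x = 0 ∨ B x = 1) (hBg : ∀ x, B x ≠ 0 → g x = 0)
    (hβ : (1 / 2 : ℝ) ^ n ≤ Fintype.card Y * 𝔼 x, B x)
    (hspr : SprV B g κ (iiR (3 * n + 3))
      ((1 + 1 / 1000000) * (Fintype.card Y * 𝔼 x, B x))) :
    𝔼 x, 𝔼 z, iv (BadPair B b x z) ≤ (1 / 2) ^ n / Fintype.card Y := by
  classical
  by_contra hcon
  rw [not_le] at hcon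
  obtain ⟨h1, h2, h3, h4, h5⟩ := stK_le n (finrank (ZMod 2) Y)
  refine stage_aux hg hs B hB hBg hβ (R := finrank (ZMod 2) Y) (r := iiR (3 * n + 3))
    (F := fibT n (finrank (ZMod 2) Y)) (k1 := stK1 n (finrank (ZMod 2) Y))
    (K := covK (stK1 n (finrank (ZMod 2) Y))) (M := stM n (finrank (ZMod 2) Y))
    (c1 := stC1 n (finrank (ZMod 2) Y)) (q := stQ n (finrank (ZMod 2) Y))
    (p := stP n (finrank (ZMod 2) Y)) (Mm := stMm n (finrank (ZMod 2) Y))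
    (Km := stKm n (finrank (ZMod 2) Y)) (Si := stSi n (finrank (ZMod 2) Y)) rfl rfl rfl
    (by rw [stK1]) rfl (by rw [stM]) (by rw [stC1]) (by rw [stQ]) (by rw [stP])
    (by rw [stMm]) (by rw [stKm]) (by rw [stSi]) (h1.trans hκn)
    (h4.trans (Nat.mul_le_mul_left 2 hsn)) (h5.trans hsn) ?_ ?_ hspr hcon
  · exact corr_large hg hs ((Nat.le_add_right _ _).trans ((Nat.le_add_right _ _).trans
      (h2.trans hκn))) (h2.trans hsn) B hB hβ hspr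
  · intro x hx hbad hcor
    exact fibre_two hg hs (h3.trans hsn) B hB hBg hβ x hx hbad hcor

end

end Pool.Agent.H22.QK
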