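import Pool.Agent.H22.QK.StkMono
import Pool.Agent.H22.QK.Stage
import Pool.Agent.H22.QK.MaxPiece
import Pool.Agent.H22.QK.GoodFrame

/-!
# MainSets: the theorem for four sets, with an explicit bound (about 190 lines)

PROOF of `main_sets`. Put `m = 6 * 10^18 * d^10` (so `m ≥ 2`, `m ≥ d`), `n = 2 m + 4`,
`N = 1000000`, `r = iiR (3n+3)`, `J = 2 N (n+2)`, `R = J r`, `σ = mnS d`, `κ = stK n R`.
Suppose that every `U` of dimension `d` meets all four sets.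
1. `dense_or_missed A hA ⊤` (H77): `(1/2)^d ≤ avg (sf ⊤) (ind A) 0 = 𝔼 (ind A)`, so
   `(1/2)^n ≤ 𝔼 (ind A)` (`finrank V ≥ d`).
2. `maxpiece` for `ind A`, `d := n`, `N, κ, r, σ`: `W, Y', f, w0, g, b`, `finrank Y' ≤ R`. Put
   `B w = ind A (w0 + f w) * iv (g w = 0)`.
3. `stage` (`Reg b σ`, `stK n (finrank Y') ≤ stK n R ≤ σ` by `stK_mono`):
   `𝔼_x 𝔼_z iv (BadPair B b x z) ≤ (1/2)^n/|Y'|`.
4. `good_frame` with `P = fun x z => ∀ y, B y B (y+x) B (y+z) B (y+x+z) = 0`; `hτ`: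
   `tauF Y' m σ ≤ 2^(R (m+1)^2) 2^(m+1) (1/2)^σ`, `σ ≥ R (m+1)^2 + 3 m + 9`; `hV` by the bound on
   `finrank V`. Let `x : Fin m → W` be the frame and `φ u = lc u x : (Fin m → ZMod 2) → W`
   (linear, injective).
5. `three_sets` in `Fin m → ZMod 2` for the preimages of `B1, B2, B3` under `u ↦ f (φ u)`: if
   there were no `u, u'` with `f (φ u) ∈ B1`, `f (φ u') ∈ B2`, `f (φ (u+u')) ∈ B3`, then some
   `d`-dimensional `U0` would miss one of the preimages and its image `f (φ U0)` would be a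
   `d`-dimensional subspace missing one of the sets. So there are such `u, u'`; they are
   nonzero and distinct (`0 ∉ B1, B2, B3`). Since `(φ u, φ u')` is not in `P` there is `y` with
   `B y = B (y + φ u) = B (y + φ u') = B (y + φ u + φ u') = 1`. Take `p = w0 + f y`,
   `x = f (φ u)`, `z = f (φ u')`.
-/

set_option autoImplicit false

open Finset Function Module
open scoped BigOperators
open Pool.Agent.H77.KM

namespace Pool.Agent.H22.QK

private lemma num_a {d : ℕ} (hd : 1 ≤ d) : d ≤ mnM d ∧ 2 ≤ mnM d := by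
  have h1 : d ≤ d ^ 10 := Nat.le_self_pow (by norm_num) d
  unfold mnM
  constructor <;> omega

private lemma num_b (d : ℕ) : stK (mnN d) (mnR d) ≤ mnS d := by
  unfold mnS; omega

private lemma num_c (d : ℕ) : mnR d + 40 ≤ mnS d := by
  unfold mnS; omega

private lemma num_d (d : ℕ) : mnR d * (mnM d + 1) ^ 2 + 3 * mnM d + 9 ≤ mnS d := by
  unfold mnS; omega

private lemma num_e {d a w y : ℕ} (hV : mnD d ≤ a)
    (ha : a ≤ w + 2 * 1000000 * (mnN d + 2)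
      * (stK (mnN d) (mnR d) + mnR d * (2 * mnS d + 1))) (hy : y ≤ mnR d) :
    2 * y + mnM d + 4 ≤ w := by
  unfold mnD at hV
  omega

private lemma pow_half {a b : ℕ} (h : a ≤ b) : (1 / 2 : ℝ) ^ b ≤ (1 / 2) ^ a :=
  pow_le_pow_of_le_one (by norm_num) (by norm_num) h

private lemma two_half {a b c : ℕ} (h : a + c ≤ b) : (2 : ℝ) ^ a * (1 / 2) ^ b ≤ (1 / 2) ^ c := by
  have h1 : (1 / 2 : ℝ) ^ b ≤ (1 / 2) ^ (a + c) := pow_half h
  have h2 : (2 : ℝ) ^ a * (1 / 2) ^ (a + c) = (1 / 2) ^ c := by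
    rw [pow_add, ← mul_assoc, ← mul_pow]; norm_num
  rw [← h2]
  exact mul_le_mul_of_nonneg_left h1 (by positivity)

private lemma tau_le (Y : Type) [AddCommGroup Y] [Module (ZMod 2) Y] [Fintype Y] {R m s c : ℕ}
    (hY : finrank (ZMod 2) Y ≤ R) (hs : R * (m + 1) ^ 2 + (m + 1) + c ≤ s) :
    tauF Y m s ≤ (1 / 2) ^ c := by
  have hcard : (Fintype.card Y : ℝ) = 2 ^ finrank (ZMod 2) Y := by
    rw [Module.card_eq_pow_finrank (K := ZMod 2) (V := Y), ZMod.card]; push_cast; rfl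
  have h1 : (Fintype.card Y : ℝ) ^ mexp m ≤ 2 ^ (R * (m + 1) ^ 2) := by
    rw [hcard, ← pow_mul]
    exact pow_le_pow_right₀ (by norm_num) (Nat.mul_le_mul hY (mexp_le m))
  have h2 : (2 * ((m : ℝ) + 1)) ≤ 2 ^ (m + 1) := by
    have h3 : m + 1 ≤ 2 ^ m := Nat.lt_two_pow_self
    have h4 : (m : ℝ) + 1 ≤ 2 ^ m := by exact_mod_cast h3
    rw [pow_succ]; linarith
  unfold tauF
  calc (Fintype.card Y : ℝ) ^ mexp m * (2 * (m + 1)) * (1 / 2) ^ s
      ≤ 2 ^ (R * (m + 1) ^ 2) * 2 ^ (m + 1) * (1 / 2) ^ s := by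
        refine mul_le_mul_of_nonneg_right ?_ (by positivity)
        exact mul_le_mul h1 h2 (by positivity) (by positivity)
    _ = 2 ^ (R * (m + 1) ^ 2 + (m + 1)) * (1 / 2) ^ s := by rw [← pow_add]
    _ ≤ (1 / 2) ^ c := two_half hs

private lemma avg_top {V : Type} [AddCommGroup V] [Module (ZMod 2) V] [Fintype V] (F : V → ℝ) :
    avg (sf (⊤ : Submodule (ZMod 2) V)) F 0 = 𝔼 x, F x := by
  have h : sf (⊤ : Submodule (ZMod 2) V) = Finset.univ := by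
    ext x; simp [mem_sf]
  unfold avg
  rw [h]
  simp only [zero_add]

private lemma step_one {V : Type} [AddCommGroup V] [Module (ZMod 2) V] [Fintype V]
    (A : Set V) (hA : (0 : V) ∉ A) {d : ℕ} (hd : d ≤ finrank (ZMod 2) V)
    (hU : ∀ U : Submodule (ZMod 2) V, finrank (ZMod 2) U = d → ∃ u ∈ U, u ∈ A) :
    (1 / 2 : ℝ) ^ d ≤ 𝔼 x, ind A x := by
  by_contra hcon
  rw [not_le, ← avg_top] at hcon
  obtain ⟨U, _, hUd, hUA⟩ := dense_or_missed A hA ⊤ (by rw [finrank_top]; exact hd) hcon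
  obtain ⟨u, hu, huA⟩ := hU U hUd
  exact hUA u hu huA

private lemma step_five {V W : Type} [AddCommGroup V] [Module (ZMod 2) V] [Fintype V]
    [AddCommGroup W] [Module (ZMod 2) W] [Fintype W]
    (B1 B2 B3 : Set V) (h1 : (0 : V) ∉ B1) (h2 : (0 : V) ∉ B2)
    (h3 : (0 : V) ∉ B3) {d m : ℕ} (hd : 1 ≤ d) (hm : 6 * 10 ^ 18 * d ^ 10 ≤ m)
    (hU1 : ∀ U : Submodule (ZMod 2) V, finrank (ZMod 2) U = d → ∃ u ∈ U, u ∈ B1)
    (hU2 : ∀ U : Submodule (ZMod 2) V, finrank (ZMod 2) U = d → ∃ u ∈ U, u ∈ B2)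
    (hU3 : ∀ U : Submodule (ZMod 2) V, finrank (ZMod 2) U = d → ∃ u ∈ U, u ∈ B3)
    (f : W →ₗ[ZMod 2] V) (hf : Injective f) (x : Fin m → W)
    (hx : ∀ u : Fin m → ZMod 2, u ≠ 0 → lc u x ≠ 0) :
    ∃ u u' : Fin m → ZMod 2, u ≠ 0 ∧ u' ≠ 0 ∧ u ≠ u' ∧ f (lc u x) ∈ B1 ∧ f (lc u' x) ∈ B2 ∧
      f (lc u x) + f (lc u' x) ∈ B3 := by
  classical
  let φ : (Fin m → ZMod 2) →ₗ[ZMod 2] V := f ∘ₗ Fintype.linearCombination (ZMod 2) x
  have hφ : ∀ u, φ u = f (lc u x) := fun u => rfl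
  have hinj : Injective φ := by
    rw [injective_iff_map_eq_zero]
    intro u hu
    by_contra hu0
    apply hx u hu0
    apply hf
    rw [map_zero, ← hφ, hu]
  have himg : ∀ U0 : Submodule (ZMod 2) (Fin m → ZMod 2), finrank (ZMod 2) U0 = d →
      finrank (ZMod 2) (U0.map φ) = d := by
    intro U0 h0
    rw [← (Submodule.equivMapOfInjective φ hinj U0).finrank_eq, h0]
  by_contra hcon
  push Not at hcon
  obtain ⟨U0, hU0, hmiss⟩ := three_sets (V := Fin m → ZMod 2) {u | φ u ∈ B1} {u | φ u ∈ B2}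
    {u | φ u ∈ B3} (by simpa using h1) (by simpa using h2) (by simpa using h3)
    (by
      intro u hu u' hu' hs
      simp only [Set.mem_ofPred_eq] at hu hu' hs
      have hs' : φ u + φ u' ∈ B3 := by rw [← map_add]; exact hs
      have hu0 : u ≠ 0 := by
        rintro rfl; rw [map_zero] at hu; exact h1 hu
      have hu0' : u' ≠ 0 := by
        rintro rfl; rw [map_zero] at hu'; exact h2 hu'
      have huu : u ≠ u' := by
        rintro rfl
        rw [ZModModule.add_self] at hs'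
        exact h3 hs'
      exact hcon u u' hu0 hu0' huu hu hu' hs')
    hd (by rw [Module.finrank_fin_fun]; exact hm)
  rcases hmiss with h | h | h
  · obtain ⟨v, hv, hvB⟩ := hU1 _ (himg U0 hU0)
    obtain ⟨u, hu, rfl⟩ := hv
    exact h u hu hvB
  · obtain ⟨v, hv, hvB⟩ := hU2 _ (himg U0 hU0)
    obtain ⟨u, hu, rfl⟩ := hv
    exact h u hu hvB
  · obtain ⟨v, hv, hvB⟩ := hU3 _ (himg U0 hU0)
    obtain ⟨u, hu, rfl⟩ := hv
    exact h u hu hvB

theorem main_sets {V : Type} [AddCommGroup V] [Module (ZMod 2) V] [Fintype V]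
    (A B1 B2 B3 : Set V) (hA : (0 : V) ∉ A) (h1 : (0 : V) ∉ B1) (h2 : (0 : V) ∉ B2)
    (h3 : (0 : V) ∉ B3) {d : ℕ} (hd : 1 ≤ d) (hV : mnD d ≤ finrank (ZMod 2) V) :
    (∃ U : Submodule (ZMod 2) V, finrank (ZMod 2) U = d ∧
      ((∀ u ∈ U, u ∉ A) ∨ (∀ u ∈ U, u ∉ B1) ∨ (∀ u ∈ U, u ∉ B2) ∨ (∀ u ∈ U, u ∉ B3))) ∨
    ∃ p x z, x ∈ B1 ∧ z ∈ B2 ∧ x + z ∈ B3 ∧ p ∈ A ∧ p + x ∈ A ∧ p + z ∈ A ∧ p + x + z ∈ A := by
  classical
  by_cases hU : ∃ U : Submodule (ZMod 2) V, finrank (ZMod 2) U = d ∧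
      ((∀ u ∈ U, u ∉ A) ∨ (∀ u ∈ U, u ∉ B1) ∨ (∀ u ∈ U, u ∉ B2) ∨ (∀ u ∈ U, u ∉ B3))
  · exact Or.inl hU
  right
  push Not at hU
  have hUA : ∀ U : Submodule (ZMod 2) V, finrank (ZMod 2) U = d → ∃ u ∈ U, u ∈ A :=
    fun U h => (hU U h).1
  have hU1 : ∀ U : Submodule (ZMod 2) V, finrank (ZMod 2) U = d → ∃ u ∈ U, u ∈ B1 :=
    fun U h => (hU U h).2.1
  have hU2 : ∀ U : Submodule (ZMod 2) V, finrank (ZMod 2) U = d → ∃ u ∈ U, u ∈ B2 :=
    fun U h => (hU U h).2.2.1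
  have hU3 : ∀ U : Submodule (ZMod 2) V, finrank (ZMod 2) U = d → ∃ u ∈ U, u ∈ B3 :=
    fun U h => (hU U h).2.2.2
  obtain ⟨hdm, hm2⟩ := num_a hd
  have hdV : d ≤ finrank (ZMod 2) V := by
    refine le_trans ?_ hV
    unfold mnD; omega
  have hdn : d ≤ mnN d := by unfold mnN; omega
  have hdens : (1 / 2 : ℝ) ^ mnN d ≤ 𝔼 x, ind A x :=
    le_trans (pow_half hdn) (step_one A hA hdV hUA)
  have hRdef : 2 * 1000000 * (mnN d + 2) * iiR (3 * mnN d + 3) = mnR d := rfl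
  have hσ : (2 : ℝ) ^ (2 * 1000000 * (mnN d + 2) * iiR (3 * mnN d + 3)) * (1 / 2) ^ mnS d
      ≤ 1 / (8 * ((1000000 : ℕ) : ℝ)) := by
    rw [hRdef]
    refine le_trans (two_half (num_c d)) ?_
    norm_num
  obtain ⟨W, Y', iW, mW, fW, iY, mY, fY, f, hf, hWc, hYc, w0, g, b, hg, hb, hβ, hspr⟩ :=
    maxpiece (ind A) (ind_cases A) (d := mnN d) (N := 1000000) (κ := stK (mnN d) (mnR d))
      (r := iiR (3 * mnN d + 3)) (σ := mnS d) (by norm_num) hdens hσ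
  rw [hRdef] at hWc hYc
  have hVW : 2 * finrank (ZMod 2) Y' + mnM d + 4 ≤ finrank (ZMod 2) W := num_e hV hWc hYc
  have hcast : (1 + 1 / ((1000000 : ℕ) : ℝ)) = 1 + 1 / 1000000 := by norm_num
  rw [hcast] at hspr
  have hB01 : ∀ w, ind A (w0 + f w) * iv (g w = 0) = 0 ∨ ind A (w0 + f w) * iv (g w = 0) = 1 := by
    intro w
    rcases ind_cases A (w0 + f w) with h | h <;> rcases iv_cases (g w = 0) with h' | h' <;>
      rw [h, h'] <;> norm_num
  have hBg : ∀ w, ind A (w0 + f w) * iv (g w = 0) ≠ 0 → g w = 0 := by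
    intro w hw
    by_contra hgw
    rw [iv_neg hgw, mul_zero] at hw
    exact hw rfl
  have hBA : ∀ w, ind A (w0 + f w) * iv (g w = 0) ≠ 0 → w0 + f w ∈ A := by
    intro w hw
    by_contra hwA
    rw [ind_of_notMem hwA, zero_mul] at hw
    exact hw rfl
  have hstage := stage hg hb (n := mnN d) (κ := stK (mnN d) (mnR d))
    (le_trans (stK_mono le_rfl hYc) (num_b d)) (stK_mono le_rfl hYc)
    (fun w => ind A (w0 + f w) * iv (g w = 0)) hB01 hBg hβ hspr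
  have hτ : tauF Y' (mnM d) (mnS d) ≤ (1 / 2) ^ (2 * mnM d + 8) := by
    refine tau_le Y' hYc ?_
    have := num_d d
    omega
  obtain ⟨x, hx0, -, hxP⟩ := good_frame hg hb hm2 hτ hVW
    (fun z z' => ∀ y, (fun w => ind A (w0 + f w) * iv (g w = 0)) y
      * (fun w => ind A (w0 + f w) * iv (g w = 0)) (y + z)
      * (fun w => ind A (w0 + f w) * iv (g w = 0)) (y + z')
      * (fun w => ind A (w0 + f w) * iv (g w = 0)) (y + z + z') = 0) hstage
  obtain ⟨u, u', hu, hu', huu, hb1, hb2, hb3⟩ := step_five B1 B2 B3 h1 h2 h3 hd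
    (m := mnM d) le_rfl hU1 hU2 hU3 f hf x hx0
  have hnP := hxP u u' hu hu' huu
  simp only [not_forall] at hnP
  obtain ⟨y, hy⟩ := hnP
  have hy4 := right_ne_zero_of_mul hy
  have hy3 := right_ne_zero_of_mul (left_ne_zero_of_mul hy)
  have hy2 := right_ne_zero_of_mul (left_ne_zero_of_mul (left_ne_zero_of_mul hy))
  have hy1 := left_ne_zero_of_mul (left_ne_zero_of_mul (left_ne_zero_of_mul hy))
  have a1 := hBA _ hy1
  have a2 := hBA _ hy2
  have a3 := hBA _ hy3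
  have a4 := hBA _ hy4
  refine ⟨w0 + f y, f (lc u x), f (lc u' x), hb1, hb2, hb3, a1, ?_, ?_, ?_⟩
  · rw [add_assoc, ← map_add]; exact a2
  · rw [add_assoc, ← map_add]; exact a3
  · rw [add_assoc, add_assoc, ← map_add, ← map_add, ← add_assoc]; exact a4

end Pool.Agent.H22.QK
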