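import Pool.Agent.H22.QK.Bogo

/-!
# Model: a set with small doubling has a large subspace in its fourfold sumset (about 150 lines)

PROOF of `model`. Write `nΓ = n • Γ` (iterated sumset). `|16 Γ| ≤ K^16 |Γ|`
(`Finset.pluennecke_ruzsa_inequality_nsmul_add`). In characteristic two, `mΓ ⊆ nΓ` if `m ≤ n`,
`n - m` even (add `γ0 + γ0 = 0`), and `0 ∈ 2Γ`. Let `N` be a maximal subspace of `G` with
`N ∩ 16Γ ⊆ {0}` (`⊥` has the property; `G` is finite), `π : G → G/N` the quotient map.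
* `π (16 Γ) = G/N`: if `x ∉ N`, the subspace `N + ⟨x⟩` contains a nonzero element of `16Γ`, which is
  not in `N`, so it is `n + x`. Hence `|G/N| ≤ K^16 |Γ|`.
* `π` is injective on `Γ` (`2Γ ∩ N ⊆ {0}`). So `π Γ` has density at least `K^-16 ≥ (1/2)^L` in
  `G/N` and `bogo` gives a subspace `W̄ ⊆ π (4Γ)` of `G/N` of codimension at most `12582920 L^4`.
* `H = {h ∈ 4Γ : π h ∈ W̄}` is a subspace: `0 ∈ 4Γ`; for `h, h' ∈ H` choose `γ ∈ 4Γ` with
  `π γ = π (h + h')`; then `h + h' + γ ∈ 12Γ ∩ N ⊆ {0}`, so `h + h' = γ ∈ H`.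
* `π : H → W̄` is bijective (`8Γ ∩ N ⊆ {0}`), so
  `|H| = |W̄| ≥ |G/N| 2^-(12582920 L^4) ≥ |Γ| 2^-(12582920 L^4)`.
-/

set_option autoImplicit false

open Finset Function Module
open scoped BigOperators Pointwise
open Pool.Agent.H77.KM

namespace Pool.Agent.H22.QK

private lemma z2 (c : ZMod 2) : c = 0 ∨ c = 1 := by
  revert c
  decide

section

variable {G : Type} [AddCommGroup G] [Module (ZMod 2) G] [DecidableEq G]

omit [DecidableEq G] in
private lemma aa (x : G) : x + x = 0 := by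
  have h : (2 : ZMod 2) • x = 0 := by
    have : (2 : ZMod 2) = 0 := by decide
    rw [this, zero_smul]
  rwa [two_smul] at h

omit [DecidableEq G] in
private lemma subadd (x y : G) : x - y = x + y := by
  rw [sub_eq_iff_eq_add, add_assoc, aa, add_zero]

private lemma up2 (Γ : Finset G) (hΓ : Γ.Nonempty) {n : ℕ} {a : G} (ha : a ∈ n • Γ) :
    a ∈ (n + 2) • Γ := by
  obtain ⟨γ, hγ⟩ := hΓ
  rw [add_nsmul, two_nsmul]
  have h := Finset.add_mem_add ha (Finset.add_mem_add hγ hγ)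
  rwa [aa, add_zero] at h

private lemma up (Γ : Finset G) (hΓ : Γ.Nonempty) {n : ℕ} {a : G} (ha : a ∈ n • Γ) (k : ℕ) :
    a ∈ (n + 2 * k) • Γ := by
  induction k with
  | zero => simpa using ha
  | succ k ih =>
    have h := up2 Γ hΓ ih
    have e : n + 2 * (k + 1) = n + 2 * k + 2 := by ring
    rwa [e]

private lemma z0 (Γ : Finset G) (hΓ : Γ.Nonempty) (k : ℕ) : (0 : G) ∈ (2 * k) • Γ := by
  have h : (0 : G) ∈ (0 : ℕ) • Γ := by
    rw [zero_nsmul]
    exact Finset.mem_zero.2 rfl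
  have h' := up Γ hΓ h k
  rwa [zero_add] at h'

omit [Module (ZMod 2) G] in
private lemma ad (Γ : Finset G) {m n : ℕ} {a b : G} (ha : a ∈ m • Γ) (hb : b ∈ n • Γ) :
    a + b ∈ (m + n) • Γ := by
  rw [add_nsmul]
  exact Finset.add_mem_add ha hb

end

theorem model {G : Type} [AddCommGroup G] [Module (ZMod 2) G] [Fintype G] [DecidableEq G]
    (Γ : Finset G) (hΓ : Γ.Nonempty) {K : ℝ} (hK : ((Γ + Γ).card : ℝ) ≤ K * Γ.card)
    {L : ℕ} (hL : 6 ≤ L) (hKL : K ^ 16 ≤ 2 ^ L) :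
    ∃ H : Submodule (ZMod 2) G, (∀ h ∈ H, h ∈ 4 • Γ) ∧
      Γ.card ≤ Nat.card H * 2 ^ (12582920 * L ^ 4) := by
  classical
  have hc0 : (0 : ℝ) < Γ.card := by exact_mod_cast hΓ.card_pos
  -- Pluennecke
  have hP : ((16 • Γ).card : ℝ) ≤ 2 ^ L * Γ.card := by
    have h := Finset.pluennecke_ruzsa_inequality_nsmul_add hΓ Γ 16
    have h' : ((16 • Γ).card : ℝ) ≤ (((Γ + Γ).card : ℝ) / Γ.card) ^ 16 * Γ.card := by
      have h2 : (((((16 • Γ).card : ℚ≥0) : ℚ≥0)) : ℝ) ≤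
          ((((((Γ + Γ).card : ℚ≥0) / (Γ.card : ℚ≥0)) ^ 16 * (Γ.card : ℚ≥0) : ℚ≥0)) : ℝ) :=
        NNRat.cast_mono h
      push_cast at h2
      exact h2
    refine h'.trans (mul_le_mul_of_nonneg_right ?_ hc0.le)
    refine le_trans ?_ hKL
    apply pow_le_pow_left₀ (by positivity)
    rwa [div_le_iff₀ hc0]
  -- the maximal subspace
  obtain ⟨N, hN, hmax⟩ := (wellFounded_gt (α := Submodule (ZMod 2) G)).has_min
    {N | ∀ x ∈ N, x ∈ 16 • Γ → x = 0} ⟨⊥, fun x hx _ => by simpa using hx⟩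
  have hNz : ∀ x ∈ N, x ∈ 16 • Γ → x = 0 := hN
  have hsurj : ∀ x : G, ∃ γ ∈ 16 • Γ, N.mkQ γ = N.mkQ x := by
    intro x
    by_cases hx : x ∈ N
    · refine ⟨0, z0 Γ hΓ 8, ?_⟩
      rw [map_zero, eq_comm]
      exact (Submodule.Quotient.mk_eq_zero N).2 hx
    · have hlt : N < N ⊔ Submodule.span (ZMod 2) {x} := by
        refine lt_of_le_of_ne le_sup_left fun h => hx ?_
        rw [h]
        exact Submodule.mem_sup_right (Submodule.mem_span_singleton_self x)
      have hnot : ¬ ∀ y ∈ N ⊔ Submodule.span (ZMod 2) {x}, y ∈ 16 • Γ → y = 0 :=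
        fun h => hmax _ h hlt
      push Not at hnot
      obtain ⟨y, hy, hyΓ, hy0⟩ := hnot
      rw [Submodule.mem_sup] at hy
      obtain ⟨n, hn, z, hz, hnz⟩ := hy
      rw [Submodule.mem_span_singleton] at hz
      obtain ⟨c, hc⟩ := hz
      rcases z2 c with rfl | rfl
      · rw [zero_smul] at hc
        rw [← hc, add_zero] at hnz
        exact absurd (hNz y (hnz ▸ hn) hyΓ) hy0
      · rw [one_smul] at hc
        refine ⟨y, hyΓ, ?_⟩
        have h0 : N.mkQ n = 0 := (Submodule.Quotient.mk_eq_zero N).2 hn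
        rw [← hnz, ← hc, map_add, h0, zero_add]
  have hQ : (Fintype.card (G ⧸ N) : ℝ) ≤ 2 ^ L * Γ.card := by
    refine le_trans ?_ hP
    have h1 : Fintype.card (G ⧸ N) ≤ ((16 • Γ).image N.mkQ).card := by
      rw [← Finset.card_univ]
      refine Finset.card_le_card fun q _ => ?_
      obtain ⟨x, rfl⟩ := N.mkQ_surjective q
      obtain ⟨γ, hγ, e⟩ := hsurj x
      exact Finset.mem_image.2 ⟨γ, hγ, e⟩
    exact_mod_cast h1.trans Finset.card_image_le
  -- the projection is injective on small sumsets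
  have hinj : ∀ x : G, x ∈ 16 • Γ → N.mkQ x = 0 → x = 0 := fun x hx h =>
    hNz x ((Submodule.Quotient.mk_eq_zero N).1 h) hx
  have hcard : (Γ.image N.mkQ).card = Γ.card := by
    refine Finset.card_image_of_injOn fun a ha b hb hab => ?_
    have h1 : a + b ∈ 2 • Γ := by
      rw [two_nsmul]
      exact Finset.add_mem_add ha hb
    have h2 : a + b ∈ 16 • Γ := up Γ hΓ h1 7
    have h3 : N.mkQ (a + b) = 0 := by
      rw [← subadd, map_sub, sub_eq_zero]
      exact hab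
    have h4 := hinj _ h2 h3
    rwa [← subadd, sub_eq_zero] at h4
  obtain ⟨W, hW, hW4⟩ := bogo (V := G ⧸ N) (Γ.image N.mkQ) hL (by
    rw [hcard, one_div, inv_pow, le_div_iff₀ (by exact_mod_cast Fintype.card_pos),
      inv_mul_le_iff₀ (by positivity)]
    convert hQ)
  have hW4' : ∀ w ∈ W, ∃ γ ∈ 4 • Γ, N.mkQ γ = w := by
    intro w hw
    obtain ⟨a, ha, b, hb, c, hc, d, hd, e⟩ := hW4 w hw
    obtain ⟨a', ha', rfl⟩ := Finset.mem_image.1 ha
    obtain ⟨b', hb', rfl⟩ := Finset.mem_image.1 hb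
    obtain ⟨c', hc', rfl⟩ := Finset.mem_image.1 hc
    obtain ⟨d', hd', rfl⟩ := Finset.mem_image.1 hd
    refine ⟨a' + b' + c' + d', ?_, ?_⟩
    · have e4 : 4 • Γ = Γ + Γ + Γ + Γ := by
        rw [show (4 : ℕ) = 1 + 1 + 1 + 1 from rfl, add_nsmul, add_nsmul, add_nsmul, one_nsmul]
      rw [e4]
      exact Finset.add_mem_add (Finset.add_mem_add (Finset.add_mem_add ha' hb') hc') hd'
    · rw [e, map_add, map_add, map_add]
  let H : Submodule (ZMod 2) G :=
    { carrier := {h | h ∈ 4 • Γ ∧ N.mkQ h ∈ W}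
      zero_mem' := ⟨z0 Γ hΓ 2, by rw [map_zero]; exact W.zero_mem⟩
      add_mem' := by
        rintro h h' ⟨h1, h2⟩ ⟨h3, h4⟩
        have hw : N.mkQ (h + h') ∈ W := by
          rw [map_add]
          exact W.add_mem h2 h4
        refine ⟨?_, hw⟩
        obtain ⟨γ, hγ, e⟩ := hW4' _ hw
        have h5 : h + h' + γ ∈ 12 • Γ := ad Γ (m := 8) (ad Γ (m := 4) h1 h3) hγ
        have h6 : h + h' + γ ∈ 16 • Γ := up Γ hΓ h5 2
        have h7 : N.mkQ (h + h' + γ) = 0 := by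
          rw [← subadd, map_sub, e, sub_self]
        have h8 := hinj _ h6 h7
        rw [← subadd, sub_eq_zero] at h8
        rw [h8]
        exact hγ
      smul_mem' := by
        rintro c h ⟨h1, h2⟩
        rcases z2 c with rfl | rfl
        · rw [zero_smul]
          exact ⟨z0 Γ hΓ 2, by rw [map_zero]; exact W.zero_mem⟩
        · rw [one_smul]
          exact ⟨h1, h2⟩ }
  refine ⟨H, fun h hh => hh.1, ?_⟩
  have c1 : Γ.card ≤ Nat.card (G ⧸ N) := by
    rw [← hcard, Nat.card_eq_fintype_card]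
    exact Finset.card_le_univ _
  have c2 : Nat.card (G ⧸ N) = 2 ^ finrank (ZMod 2) (G ⧸ N) := by
    rw [Module.natCard_eq_pow_finrank (K := ZMod 2), Nat.card_zmod]
  have c3 : Nat.card W = 2 ^ finrank (ZMod 2) W := by
    rw [Module.natCard_eq_pow_finrank (K := ZMod 2), Nat.card_zmod]
  have c4 : Nat.card W ≤ Nat.card H := by
    refine Nat.card_le_card_of_surjective
      (fun h : H => (⟨N.mkQ h.1, h.2.2⟩ : W)) fun w => ?_
    obtain ⟨γ, hγ, e⟩ := hW4' w.1 w.2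
    exact ⟨⟨γ, hγ, by rw [e]; exact w.2⟩, Subtype.ext e⟩
  calc Γ.card ≤ 2 ^ finrank (ZMod 2) (G ⧸ N) := c1.trans c2.le
    _ ≤ 2 ^ (finrank (ZMod 2) W + 12582920 * L ^ 4) := Nat.pow_le_pow_right (by norm_num) hW
    _ = Nat.card W * 2 ^ (12582920 * L ^ 4) := by rw [pow_add, c3]
    _ ≤ Nat.card H * 2 ^ (12582920 * L ^ 4) := Nat.mul_le_mul_right _ c4

end Pool.Agent.H22.QK
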