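import Pool.Agent.H22.QK.QLow
import Pool.Agent.H22.QK.KCore

/-!
# PLift: lifting to `V × Y0` (about 150 lines)

`CBf a1 a2 g1 g2 Y0 w' e = 𝔼_w a1 w a2 (w+w') 1[g1 w ∈ Y0] 1[g1 w + g2 (w+w') = e]`.

PROOF of `lift_corr`. `corr Ã1 Ã2 (w', e) = 𝔼_w 𝔼_{s ∈ Y0} a1 w iv (g1 w = s) a2 (w+w')
iv (g2 (w+w') = s + e)`; for given `w` only `s = g1 w` contributes (if `g1 w ∈ Y0`) and then the
condition is `g2 (w+w') = g1 w + e`, that is `g1 w + g2 (w+w') = e` (characteristic two).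

PROOF of `lift_spr`. Let `Wt ≤ V × Y0` have codimension at most `k`, `(w0, s0)` a point. Put
`E = {s ∈ Y0 : (0,s) ∈ Wt}` and `W' = {w : (w, 0) ∈ Wt}`. The codimension of `W'` in `V` is at most
`k` (it is the preimage of `Wt` under the injective map `w ↦ (w, 0)`, and the preimage of a
subspace of codimension at most `k` has codimension at most `k`). Since `W' × E ≤ Wt`, the average
over the coset `(w0, s0) + Wt` is an average of averages over cosets of `W' × E` (choose any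
`(w1, s1) ∈ Wt` and average: `expect_sf_add`, `expect_comm`), so it suffices to bound the latter. For
the coset of `(w1, s1)`: `𝔼_{w ∈ W'} 𝔼_{s ∈ E} a (w1 + w) iv (g (w1+w) = s1 + s)
= |E|^-1 𝔼_{w ∈ W'} a (w1+w) iv (g (w1+w) + s1 ∈ E)
≤ |E|^-1 t 𝔼_{w ∈ W'} iv (g (w1+w) + s1 ∈ E)` (`SprQ` for the inclusion of `W'`)
`≤ |E|^-1 t (|E|/|Y| + (1/2)^(σ-k))` (`count_piece` for the pull back to `W'`, `Reg.restrict`)
`≤ (t/|Y|) (1 + |Y| (1/2)^(σ-k))`.
-/

set_option autoImplicit false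

open Finset Function Module
open scoped BigOperators
open Pool.Agent.H77.KM

namespace Pool.Agent.H22.QK

section

variable {V : Type} [AddCommGroup V] [Module (ZMod 2) V] [Fintype V]
variable {Y : Type} [AddCommGroup Y] [Module (ZMod 2) Y] [Fintype Y]
variable {b : V →ₗ[ZMod 2] V →ₗ[ZMod 2] Y}

/-- Weighted count of the `w` with `g1 w ∈ Y0`, `g1 w + g2 (w + w') = e`. -/
noncomputable def CBf (a1 a2 : V → ℝ) (g1 g2 : V → Y) (Y0 : Submodule (ZMod 2) Y)
    (w' : V) (e : Y) : ℝ :=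
  𝔼 w, a1 w * a2 (w + w') * iv (g1 w ∈ Y0) * iv (g1 w + g2 (w + w') = e)

/-- The lift of `a` to `V × Y0`. -/
noncomputable def lft (a : V → ℝ) (g : V → Y) (Y0 : Submodule (ZMod 2) Y) (p : V × Y0) : ℝ :=
  a p.1 * iv (g p.1 = p.2)

private theorem plift_iv_sum (Y0 : Submodule (ZMod 2) Y) (x z : Y) (e : Y0) :
    ∑ s : Y0, iv (x = (s : Y)) * iv (z = ((s + e : Y0) : Y))
      = iv (x ∈ Y0) * iv (x + z = (e : Y)) := by
  by_cases hx : x ∈ Y0
  · rw [iv_pos hx, one_mul, Finset.sum_eq_single (⟨x, hx⟩ : Y0)]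
    · rw [iv_pos (show x = (((⟨x, hx⟩ : Y0)) : Y) from rfl), one_mul]
      refine iv_congr ?_
      rw [Submodule.coe_add]
      show z = x + (e : Y) ↔ x + z = (e : Y)
      constructor
      · intro h
        rw [h, ← add_assoc, ZModModule.add_self x, zero_add]
      · intro h
        rw [← h, ← add_assoc, ZModModule.add_self x, zero_add]
    · intro s _ hs
      rw [iv_neg (fun h => hs (Subtype.ext h.symm)), zero_mul]
    · intro h
      exact absurd (Finset.mem_univ _) h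
  · rw [iv_neg hx, zero_mul]
    refine Finset.sum_eq_zero (fun s _ => ?_)
    rw [iv_neg (fun h => hx (by rw [h]; exact s.2)), zero_mul]

theorem lift_corr (a1 a2 : V → ℝ) (g1 g2 : V → Y) (Y0 : Submodule (ZMod 2) Y) (w' : V)
    (e : Y0) :
    (Fintype.card Y0 : ℝ) * corr (lft a1 g1 Y0) (lft a2 g2 Y0) (w', e)
      = CBf a1 a2 g1 g2 Y0 w' e := by
  have h1 : corr (lft a1 g1 Y0) (lft a2 g2 Y0) (w', e)
      = 𝔼 w : V, 𝔼 s : Y0, lft a1 g1 Y0 (w, s) * lft a2 g2 Y0 ((w, s) + (w', e)) := by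
    rw [corr, ← Finset.univ_product_univ, Finset.expect_product]
  have hc : (Fintype.card Y0 : ℝ) ≠ 0 := Nat.cast_ne_zero.mpr Fintype.card_ne_zero
  rw [h1, CBf, Finset.mul_expect]
  refine Finset.expect_congr rfl (fun w _ => ?_)
  rw [Finset.expect_eq_sum_div_card, Finset.card_univ, mul_div_cancel₀ _ hc]
  have h2 := plift_iv_sum Y0 (g1 w) (g2 (w + w')) e
  rw [mul_assoc (a1 w * a2 (w + w')), ← h2, Finset.mul_sum]
  refine Finset.sum_congr rfl (fun s _ => ?_)
  simp only [lft, Prod.mk_add_mk]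
  ring

private theorem plift_iv_sum2 (Y0 : Submodule (ZMod 2) Y) (E : Submodule (ZMod 2) Y0)
    (x : Y) (s : Y0) :
    ∑ r : E, iv (x = ((s + (r : Y0) : Y0) : Y)) = iv (x + (s : Y) ∈ E.map Y0.subtype) := by
  by_cases hx : x + (s : Y) ∈ E.map Y0.subtype
  · rw [iv_pos hx]
    obtain ⟨r, hr, hrx⟩ := Submodule.mem_map.1 hx
    have hrx' : (r : Y) = x + (s : Y) := hrx
    rw [Finset.sum_eq_single (⟨r, hr⟩ : E)]
    · refine iv_pos ?_
      show x = ((s + r : Y0) : Y)
      rw [Submodule.coe_add, hrx', add_comm x (s : Y), ← add_assoc, ZModModule.add_self (s : Y),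
        zero_add]
    · intro r' _ hne
      refine iv_neg (fun h => hne ?_)
      refine Subtype.ext (Subtype.ext ?_)
      show ((r' : Y0) : Y) = (r : Y)
      rw [hrx', h, Submodule.coe_add, add_comm (s : Y), add_assoc, ZModModule.add_self (s : Y),
        add_zero]
    · intro h
      exact absurd (Finset.mem_univ _) h
  · rw [iv_neg hx]
    refine Finset.sum_eq_zero (fun r _ => iv_neg (fun h => hx ?_))
    refine Submodule.mem_map.2 ⟨(r : Y0), r.2, ?_⟩
    show ((r : Y0) : Y) = x + (s : Y)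
    rw [h, Submodule.coe_add, add_comm (s : Y), add_assoc, ZModModule.add_self (s : Y), add_zero]

private theorem plift_codim (Y0 : Submodule (ZMod 2) Y) (Wt : Submodule (ZMod 2) (V × Y0)) {k : ℕ}
    (hW : finrank (ZMod 2) (V × Y0) ≤ finrank (ZMod 2) Wt + k) :
    finrank (ZMod 2) V
      ≤ finrank (ZMod 2) (Wt.comap (LinearMap.inl (ZMod 2) V Y0)) + k := by
  have h1 := LinearMap.finrank_range_add_finrank_ker
    (Wt.mkQ.comp (LinearMap.inl (ZMod 2) V Y0))
  have h2 : LinearMap.ker (Wt.mkQ.comp (LinearMap.inl (ZMod 2) V Y0))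
      = Wt.comap (LinearMap.inl (ZMod 2) V Y0) := by
    rw [LinearMap.ker_comp, Submodule.ker_mkQ]
  rw [h2] at h1
  have h3 := Submodule.finrank_le (LinearMap.range (Wt.mkQ.comp (LinearMap.inl (ZMod 2) V Y0)))
  have h4 := Submodule.finrank_quotient_add_finrank Wt
  omega

/-- The bound on the cosets of a product. -/
private theorem plift_prod {a : V → ℝ} {g : V → Y} (hg : IsQM g b) {σ k : ℕ} (hs : Reg b σ)
    (hk : k ≤ σ) (Y0 : Submodule (ZMod 2) Y) {t : ℝ} (ht : 0 ≤ t) (ha : SprQ a g Y0 k t)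
    (W : Submodule (ZMod 2) V) (hW : finrank (ZMod 2) V ≤ finrank (ZMod 2) W + k)
    (E : Submodule (ZMod 2) Y0) (w2 : V) (s2 : Y0) :
    𝔼 w : W, 𝔼 r : E, lft a g Y0 (w2 + (w : V), s2 + (r : Y0))
      ≤ t / Fintype.card Y * (1 + Fintype.card Y * (1 / 2) ^ (σ - k)) := by
  have hcE : (1 : ℝ) ≤ Fintype.card E := by
    exact_mod_cast Fintype.card_pos
  have hcY : (0 : ℝ) < Fintype.card Y := Nat.cast_pos.mpr Fintype.card_pos
  have hcard : (Fintype.card (E.map Y0.subtype) : ℝ) = Fintype.card E := by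
    exact_mod_cast (Fintype.card_congr
      (Submodule.equivMapOfInjective Y0.subtype Y0.injective_subtype E).toEquiv).symm
  have hEY : E.map Y0.subtype ≤ Y0 := Submodule.map_subtype_le Y0 E
  have h1 := ha W W.subtype W.injective_subtype hW w2 (E.map Y0.subtype) hEY (s2 : Y) s2.2
  have h2 := count_piece (hg.pull W.subtype w2)
    (hs.restrict W.subtype W.injective_subtype hW hk) (E.map Y0.subtype) (s2 : Y)
  rw [hcard] at h2
  have h3 := (abs_le.1 h2).2
  have h4 : 𝔼 w : W, 𝔼 r : E, lft a g Y0 (w2 + (w : V), s2 + (r : Y0))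
      = (𝔼 w : W, a (w2 + W.subtype w)
          * iv (g (w2 + W.subtype w) + (s2 : Y) ∈ E.map Y0.subtype)) / Fintype.card E := by
    rw [Finset.expect_div]
    refine Finset.expect_congr rfl (fun w _ => ?_)
    rw [Finset.expect_eq_sum_div_card, Finset.card_univ]
    congr 1
    rw [← plift_iv_sum2 Y0 E (g (w2 + W.subtype w)) s2, Finset.mul_sum]
    rfl
  rw [h4, div_le_iff₀ (by linarith)]
  refine h1.trans ?_
  have h5 : t * 𝔼 w : W, iv (g (w2 + W.subtype w) + (s2 : Y) ∈ E.map Y0.subtype)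
      ≤ t * ((Fintype.card E : ℝ) / Fintype.card Y + (1 / 2) ^ (σ - k)) :=
    mul_le_mul_of_nonneg_left (by linarith) ht
  refine h5.trans ?_
  have h6 : t / Fintype.card Y * (1 + Fintype.card Y * (1 / 2) ^ (σ - k)) * Fintype.card E
      = t * ((Fintype.card E : ℝ) / Fintype.card Y + (1 / 2) ^ (σ - k) * Fintype.card E) := by
    field_simp
  rw [h6]
  refine mul_le_mul_of_nonneg_left ?_ ht
  have h7 : (0 : ℝ) ≤ (1 / 2) ^ (σ - k) := by positivity
  nlinarith

theorem lift_spr {a : V → ℝ} {g : V → Y} (hg : IsQM g b) {σ k : ℕ} (hs : Reg b σ) (hk : k ≤ σ)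
    (Y0 : Submodule (ZMod 2) Y) {t : ℝ} (ht : 0 ≤ t) (ha : SprQ a g Y0 k t) :
    Spr (lft a g Y0) k
      (t / Fintype.card Y * (1 + Fintype.card Y * (1 / 2) ^ (σ - k))) := by
  intro Wt hWt y
  have hW := plift_codim Y0 Wt hWt
  have hmem : ∀ (w : Wt.comap (LinearMap.inl (ZMod 2) V Y0))
      (r : Wt.comap (LinearMap.inr (ZMod 2) V Y0)), ((w : V), (r : Y0)) ∈ Wt := by
    intro w r
    have h1 : ((w : V), (0 : Y0)) ∈ Wt := w.2
    have h2 : ((0 : V), (r : Y0)) ∈ Wt := r.2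
    have h3 := Wt.add_mem h1 h2
    simpa using h3
  have h1 : avg (sf Wt) (lft a g Y0) y
      = 𝔼 w : Wt.comap (LinearMap.inl (ZMod 2) V Y0),
        𝔼 r : Wt.comap (LinearMap.inr (ZMod 2) V Y0),
        𝔼 p ∈ sf Wt, lft a g Y0 (y + (p + ((w : V), (r : Y0)))) := by
    have h2 : ∀ (w : Wt.comap (LinearMap.inl (ZMod 2) V Y0))
        (r : Wt.comap (LinearMap.inr (ZMod 2) V Y0)),
        𝔼 p ∈ sf Wt, lft a g Y0 (y + (p + ((w : V), (r : Y0))))
          = avg (sf Wt) (lft a g Y0) y := fun w r =>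
      expect_sf_add Wt (fun p => lft a g Y0 (y + p)) (hmem w r)
    simp only [h2]
    rw [Finset.expect_const Finset.univ_nonempty, Finset.expect_const Finset.univ_nonempty]
  have h2 : avg (sf Wt) (lft a g Y0) y
      = 𝔼 p ∈ sf Wt, 𝔼 w : Wt.comap (LinearMap.inl (ZMod 2) V Y0),
        𝔼 r : Wt.comap (LinearMap.inr (ZMod 2) V Y0),
        lft a g Y0 (y + (p + ((w : V), (r : Y0)))) := by
    rw [h1]
    refine (Finset.expect_congr rfl (fun w _ => Finset.expect_comm _ _ _)).trans ?_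
    exact Finset.expect_comm _ _ _
  rw [h2]
  refine Finset.expect_le (sf_nonempty Wt) (fun p _ => ?_)
  refine le_trans (le_of_eq ?_) (plift_prod hg hs hk Y0 ht ha
    (Wt.comap (LinearMap.inl (ZMod 2) V Y0)) hW (Wt.comap (LinearMap.inr (ZMod 2) V Y0))
    (y.1 + p.1) (y.2 + p.2))
  refine Finset.expect_congr rfl (fun w _ => Finset.expect_congr rfl (fun r _ => ?_))
  congr 1
  rw [Prod.mk.injEq]
  exact ⟨(add_assoc _ _ _).symm, (add_assoc _ _ _).symm⟩

end

end Pool.Agent.H22.QK
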