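import Pool.Agent.H22.QK.Defs

/-!
# Quad: large Fourier coefficients of derivatives give additive quadruples (about 120 lines)

PROOF. `S = 𝔼_x 1_X(x) (𝔼_y f y f (y+x) chi (ξ x) y)^2`; expanding the square with `y' = y + h` and
putting `z = y + x`:
`S = 𝔼_h 𝔼_y 𝔼_z F_h y * F_h z * K_h (y + z)`, `F_h y = f y * f (y+h)`,
`K_h x = 1_X(x) chi (ξ x) h`.
For fixed `h` (with `F = F_h`, `K = K_h`, `|F| ≤ 1`), Cauchy-Schwarz twice:
`|𝔼_{y,z} F y F z K (y+z)|^2 ≤ 𝔼_y |𝔼_z F z K (y+z)|^2 = 𝔼_{z,z'} F z F z' 𝔼_y K (y+z) K (y+z')`,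
so `|..|^4 ≤ 𝔼_{z,z'} (𝔼_y K (y+z) K (y+z'))^2 = 𝔼_{y,y',z,z'} K (y+z) K (y+z') K (y'+z) K (y'+z')
= 𝔼_{a,b,c} K a K b K c K (a+b+c)`.
Hence `S^4 ≤ 𝔼_h (..)^4 ≤ 𝔼_{a,b,c} 1_X(a) 1_X(b) 1_X(c) 1_X(a+b+c) 𝔼_h chi (ξ a + ξ b + ξ c +
ξ (a+b+c)) h`, and the last average is `1` or `0` (`expect_chi`).
(`exp_pow_le`: `(𝔼 G)^4 ≤ 𝔼 G^4`, `expect_pow_even_le`.)
-/

set_option autoImplicit false

open Finset Function Module
open scoped BigOperators
open Pool.Agent.H77.KM

namespace Pool.Agent.H22.QK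

private lemma char_two_add {V : Type} [AddCommGroup V] [Module (ZMod 2) V] (x : V) :
    x + x = 0 := by
  have h : (1 : ZMod 2) + 1 = 0 := by decide
  have h2 : ((1 : ZMod 2) + 1) • x = 0 := by rw [h, zero_smul]
  rwa [add_smul, one_smul] at h2

private lemma sq_le_mul_sq {a b : ℝ} (ha : |a| ≤ 1) : (a * b) ^ 2 ≤ b ^ 2 := by
  have h : a ^ 2 ≤ 1 := by
    have := abs_le.mp ha
    nlinarith
  rw [mul_pow]
  nlinarith [sq_nonneg b]

private lemma quad_cs {V : Type} [AddCommGroup V] [Module (ZMod 2) V] [Fintype V]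
    (F K : V → ℝ) (hF : ∀ x, |F x| ≤ 1) :
    (𝔼 y, 𝔼 z, F y * F z * K (y + z)) ^ 4
      ≤ 𝔼 a, 𝔼 b, 𝔼 c, K a * K b * K c * K (a + b + c) := by
  have h1 : (𝔼 y, 𝔼 z, F y * F z * K (y + z)) ^ 2
      ≤ 𝔼 z, 𝔼 z', F z * F z' * (𝔼 y, K (y + z) * K (y + z')) := by
    have e1 : ∀ y, 𝔼 z, F y * F z * K (y + z) = F y * 𝔼 z, F z * K (y + z) := by
      intro y
      rw [Finset.mul_expect]
      exact Finset.expect_congr rfl fun z _ => by ring
    calc (𝔼 y, 𝔼 z, F y * F z * K (y + z)) ^ 2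
        = (𝔼 y, F y * 𝔼 z, F z * K (y + z)) ^ 2 := by simp only [e1]
      _ ≤ 𝔼 y, (F y * 𝔼 z, F z * K (y + z)) ^ 2 :=
          expect_pow_even_le Finset.univ_nonempty _ (by decide)
      _ ≤ 𝔼 y, (𝔼 z, F z * K (y + z)) ^ 2 :=
          Finset.expect_le_expect fun y _ => sq_le_mul_sq (hF y)
      _ = 𝔼 y, 𝔼 z, 𝔼 z', F z * F z' * (K (y + z) * K (y + z')) := by
          refine Finset.expect_congr rfl fun y _ => ?_
          rw [sq, Finset.expect_mul_expect]
          refine Finset.expect_congr rfl fun z _ => Finset.expect_congr rfl fun z' _ => by ring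
      _ = 𝔼 z, 𝔼 z', F z * F z' * (𝔼 y, K (y + z) * K (y + z')) := by
          rw [Finset.expect_comm]
          refine Finset.expect_congr rfl fun z _ => ?_
          rw [Finset.expect_comm]
          refine Finset.expect_congr rfl fun z' _ => ?_
          rw [Finset.mul_expect]
  have h2 : (𝔼 z, 𝔼 z', F z * F z' * (𝔼 y, K (y + z) * K (y + z'))) ^ 2
      ≤ 𝔼 z, 𝔼 z', (𝔼 y, K (y + z) * K (y + z')) ^ 2 := by
    refine le_trans (expect_pow_even_le Finset.univ_nonempty _ (by decide)) ?_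
    refine Finset.expect_le_expect fun z _ => ?_
    refine le_trans (expect_pow_even_le Finset.univ_nonempty _ (by decide)) ?_
    refine Finset.expect_le_expect fun z' _ => ?_
    refine sq_le_mul_sq ?_
    rw [abs_mul]
    exact mul_le_one₀ (hF z) (abs_nonneg _) (hF z')
  have h3 : 𝔼 z, 𝔼 z', (𝔼 y, K (y + z) * K (y + z')) ^ 2
      = 𝔼 a, 𝔼 b, 𝔼 c, K a * K b * K c * K (a + b + c) := by
    have e1 : ∀ z z', 𝔼 y, K (y + z) * K (y + z') = 𝔼 u, K u * K (u + (z + z')) := by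
      intro z z'
      rw [← expect_add_right (fun u => K u * K (u + (z + z'))) z]
      refine Finset.expect_congr rfl fun y _ => ?_
      have : y + z + (z + z') = y + z' := by
        rw [show y + z + (z + z') = y + (z + z) + z' by abel, char_two_add, add_zero]
      simp only [this]
    simp only [e1]
    have e2 : ∀ z : V, 𝔼 z', (𝔼 u, K u * K (u + (z + z'))) ^ 2
        = 𝔼 d, (𝔼 u, K u * K (u + d)) ^ 2 := fun z =>
      expect_add_left (fun d => (𝔼 u, K u * K (u + d)) ^ 2) z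
    simp only [e2]
    rw [Finset.expect_const Finset.univ_nonempty]
    have e3 : ∀ d : V, (𝔼 u, K u * K (u + d)) ^ 2
        = 𝔼 u, 𝔼 c, K u * K (u + d) * K c * K (c + d) := by
      intro d
      rw [sq, Finset.expect_mul_expect]
      refine Finset.expect_congr rfl fun u _ => Finset.expect_congr rfl fun c _ => by ring
    simp only [e3]
    rw [Finset.expect_comm]
    refine Finset.expect_congr rfl fun a _ => ?_
    rw [← expect_add_left (fun d => 𝔼 c, K a * K (a + d) * K c * K (c + d)) a]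
    refine Finset.expect_congr rfl fun b _ => Finset.expect_congr rfl fun c _ => ?_
    have g1 : a + (a + b) = b := by rw [← add_assoc, char_two_add, zero_add]
    have g2 : c + (a + b) = a + b + c := by abel
    rw [g1, g2]
  have h4 : 0 ≤ (𝔼 y, 𝔼 z, F y * F z * K (y + z)) ^ 2 := sq_nonneg _
  calc (𝔼 y, 𝔼 z, F y * F z * K (y + z)) ^ 4
      = ((𝔼 y, 𝔼 z, F y * F z * K (y + z)) ^ 2) ^ 2 := by ring
    _ ≤ (𝔼 z, 𝔼 z', F z * F z' * (𝔼 y, K (y + z) * K (y + z'))) ^ 2 :=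
        pow_le_pow_left₀ h4 h1 2
    _ ≤ _ := h2
    _ = _ := h3

theorem quad_count {V : Type} [AddCommGroup V] [Module (ZMod 2) V] [Fintype V]
    (f : V → ℝ) (hf : ∀ x, |f x| ≤ 1) (X : Set V) (ξ : V → Dual (ZMod 2) V) :
    (𝔼 x, iv (x ∈ X) * (𝔼 y, f y * f (y + x) * chi (ξ x) y) ^ 2) ^ 4
      ≤ 𝔼 x, 𝔼 y, 𝔼 z, iv (x ∈ X ∧ y ∈ X ∧ z ∈ X ∧ x + y + z ∈ X ∧
          ξ x + ξ y + ξ z + ξ (x + y + z) = 0) := by
  set F : V → V → ℝ := fun h y => f y * f (y + h) with hFdef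
  set K : V → V → ℝ := fun h x => iv (x ∈ X) * chi (ξ x) h with hKdef
  have hF : ∀ h x, |F h x| ≤ 1 := by
    intro h x
    simp only [hFdef, abs_mul]
    exact mul_le_one₀ (hf x) (abs_nonneg _) (hf _)
  have hS : 𝔼 x, iv (x ∈ X) * (𝔼 y, f y * f (y + x) * chi (ξ x) y) ^ 2
      = 𝔼 h, 𝔼 y, 𝔼 z, F h y * F h z * K h (y + z) := by
    have e1 : ∀ x, iv (x ∈ X) * (𝔼 y, f y * f (y + x) * chi (ξ x) y) ^ 2
        = 𝔼 y, 𝔼 h, F h y * F h (y + x) * K h x := by
      intro x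
      rw [sq, Finset.expect_mul_expect, Finset.mul_expect]
      refine Finset.expect_congr rfl fun y _ => ?_
      rw [← expect_add_left (fun j => f y * f (y + x) * chi (ξ x) y
        * (f j * f (j + x) * chi (ξ x) j)) y, Finset.mul_expect]
      refine Finset.expect_congr rfl fun h _ => ?_
      simp only [hFdef, hKdef, chi_add]
      have g1 : y + h + x = y + x + h := by abel
      rw [g1]
      have g2 := chi_sq (ξ x) y
      linear_combination (iv (x ∈ X) * f y * f (y + x) * f (y + h) * f (y + x + h)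
        * chi (ξ x) h) * g2
    simp only [e1]
    rw [Finset.expect_comm]
    have e2 : ∀ y : V, 𝔼 x, 𝔼 h, F h y * F h (y + x) * K h x
        = 𝔼 h, 𝔼 z, F h y * F h z * K h (y + z) := by
      intro y
      rw [Finset.expect_comm]
      refine Finset.expect_congr rfl fun h _ => ?_
      rw [← expect_add_left (fun x => F h y * F h (y + x) * K h x) y]
      refine Finset.expect_congr rfl fun z _ => ?_
      have g1 : y + (y + z) = z := by rw [← add_assoc, char_two_add, zero_add]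
      simp only [g1]
    simp only [e2]
    rw [Finset.expect_comm]
  rw [hS]
  have h1 : (𝔼 h, 𝔼 y, 𝔼 z, F h y * F h z * K h (y + z)) ^ 4
      ≤ 𝔼 h, 𝔼 a, 𝔼 b, 𝔼 c, K h a * K h b * K h c * K h (a + b + c) := by
    refine le_trans (expect_pow_even_le Finset.univ_nonempty _ (by decide)) ?_
    exact Finset.expect_le_expect fun h _ => quad_cs (F h) (K h) (hF h)
  refine le_trans h1 (le_of_eq ?_)
  rw [Finset.expect_comm]
  refine Finset.expect_congr rfl fun a _ => ?_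
  rw [Finset.expect_comm]
  refine Finset.expect_congr rfl fun b _ => ?_
  rw [Finset.expect_comm]
  refine Finset.expect_congr rfl fun c _ => ?_
  have e3 : ∀ h, K h a * K h b * K h c * K h (a + b + c)
      = iv (a ∈ X ∧ b ∈ X ∧ c ∈ X ∧ a + b + c ∈ X)
        * chi (ξ a + ξ b + ξ c + ξ (a + b + c)) h := by
    intro h
    simp only [hKdef, iv_and, chi_add_left]
    ring
  simp only [e3]
  rw [← Finset.mul_expect]
  by_cases h0 : ξ a + ξ b + ξ c + ξ (a + b + c) = 0
  · rw [h0]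
    simp only [chi_zero_left]
    rw [Finset.expect_const Finset.univ_nonempty, mul_one]
    refine iv_congr ?_
    simp
  · rw [expect_chi_eq_zero h0, mul_zero]
    symm
    refine iv_neg ?_
    rintro ⟨-, -, -, -, h⟩
    exact h0 h

end Pool.Agent.H22.QK
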