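import Pool.Agent.H22.QK.Quad
import Pool.Agent.H22.QK.Bsg
import Pool.Agent.H22.QK.Graph

/-!
# Selector: a selector of large Fourier coefficients of derivatives agrees with an affine map
(about 110 lines)

PROOF. `n = |V|`, `Γ = {(x, ξ x) : x ∈ X}`, `|Γ| ≤ n`. `quad_count` and the hypothesis give: the
number of `(a,b,c) ∈ Γ^3` with `a + b + c ∈ Γ` is at least `2^-4k n^3 ≥ 2^-4k |Γ|^3` (`Γ ∋ (x, ξ x)`
etc; `x + y + z ∈ X` and `ξ x + ξ y + ξ z = ξ (x+y+z)`), and at most `|Γ|^3`, so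
`|Γ| ≥ 2^-2k n`. `bsg` with `κ = 2^-4k`: `Γ' ⊆ Γ`, `|Γ'| ≥ 2^-(4k+3) |Γ| ≥ 2^-(6k+3) n`,
`|Γ' + Γ'| ≤ K |Γ'|`, `K = 2^(16 (k+1))`. `graph_linear` with `L = 256 (k+1)`: there are `T, c`
such that at least `|Γ'| / (2^(160 (k+1)) 2^(12582920 L^4)) ≥ n 2^-(selK k)` elements `(x, ξ x)` of
`Γ'` satisfy `ξ x = T x + c`.
-/

set_option autoImplicit false

open Finset Function Module
open scoped BigOperators
open Pool.Agent.H77.KM

namespace Pool.Agent.H22.QK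

private lemma sel_expect_iv {V : Type} [Fintype V] (Q : V → Prop) [DecidablePred Q] :
    𝔼 x, iv (Q x) = ((univ.filter Q).card : ℝ) / (Fintype.card V : ℝ) := by
  classical
  rw [Finset.expect_eq_sum_div_card, Finset.card_univ]
  congr 1
  rw [Finset.card_filter, Nat.cast_sum]
  apply Finset.sum_congr rfl
  intro x _
  by_cases h : Q x
  · rw [iv_pos h, if_pos h, Nat.cast_one]
  · rw [iv_neg h, if_neg h, Nat.cast_zero]

private lemma sel_expect3 {V : Type} [Fintype V] [Nonempty V] (Q : V × V × V → Prop)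
    [DecidablePred Q] :
    𝔼 x, 𝔼 y, 𝔼 z, iv (Q (x, y, z))
      = ((univ.filter Q).card : ℝ) / (Fintype.card V : ℝ) ^ 3 := by
  classical
  have hn : (Fintype.card V : ℝ) ≠ 0 := by
    have := Fintype.card_pos (α := V)
    positivity
  have h1 : ((univ.filter Q).card : ℝ) = ∑ x, ∑ y, ∑ z, iv (Q (x, y, z)) := by
    rw [Finset.card_filter, Nat.cast_sum, Fintype.sum_prod_type]
    apply Finset.sum_congr rfl
    intro x _
    rw [Fintype.sum_prod_type]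
    apply Finset.sum_congr rfl
    intro y _
    apply Finset.sum_congr rfl
    intro z _
    by_cases h : Q (x, y, z)
    · rw [iv_pos h, if_pos h, Nat.cast_one]
    · rw [iv_neg h, if_neg h, Nat.cast_zero]
  rw [h1]
  simp only [Finset.expect_eq_sum_div_card, Finset.card_univ, ← Finset.sum_div]
  field_simp

theorem selector {V : Type} [AddCommGroup V] [Module (ZMod 2) V] [Fintype V]
    (f : V → ℝ) (hf : ∀ x, |f x| ≤ 1) (X : Set V) (ξ : V → Dual (ZMod 2) V) {k : ℕ}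
    (hk : (1 / 2 : ℝ) ^ k ≤ 𝔼 x, iv (x ∈ X) * (𝔼 y, f y * f (y + x) * chi (ξ x) y) ^ 2) :
    ∃ (T : V →ₗ[ZMod 2] Dual (ZMod 2) V) (c : Dual (ZMod 2) V),
      (1 / 2 : ℝ) ^ selK k ≤ 𝔼 x, iv (x ∈ X ∧ ξ x = T x + c) := by
  classical
  set n : ℝ := (Fintype.card V : ℝ) with hndef
  have hn : 0 < n := by
    have := Fintype.card_pos (α := V)
    rw [hndef]; exact_mod_cast this
  set S : Finset V := univ.filter (fun x => x ∈ X) with hS
  set φ : V → V × Dual (ZMod 2) V := fun x => (x, ξ x) with hφ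
  have hφi : Injective φ := fun a b hab => congrArg Prod.fst hab
  set Γ : Finset (V × Dual (ZMod 2) V) := S.image φ with hΓdef
  have hcard : Γ.card = S.card := Finset.card_image_of_injective _ hφi
  have hSn : (S.card : ℝ) ≤ n := by
    rw [hndef]; exact_mod_cast Finset.card_le_univ S
  have hmem : ∀ x, φ x ∈ Γ ↔ x ∈ X := by
    intro x
    rw [hΓdef, Finset.mem_image]
    constructor
    · rintro ⟨y, hy, hyx⟩
      have : y = x := hφi hyx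
      subst this
      simpa [hS] using hy
    · intro hx
      exact ⟨x, by simpa [hS] using hx, rfl⟩
  -- the triples
  set Q : V × V × V → Prop := fun p => p.1 ∈ X ∧ p.2.1 ∈ X ∧ p.2.2 ∈ X ∧
    p.1 + p.2.1 + p.2.2 ∈ X ∧ ξ p.1 + ξ p.2.1 + ξ p.2.2 + ξ (p.1 + p.2.1 + p.2.2) = 0 with hQ
  have hq := quad_count f hf X ξ
  have hq2 : (1 / 2 : ℝ) ^ (4 * k) ≤ ((univ.filter Q).card : ℝ) / n ^ 3 := by
    have h0 : (0 : ℝ) ≤ (1 / 2 : ℝ) ^ k := by positivity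
    have h1 : ((1 / 2 : ℝ) ^ k) ^ 4 ≤
        (𝔼 x, iv (x ∈ X) * (𝔼 y, f y * f (y + x) * chi (ξ x) y) ^ 2) ^ 4 :=
      pow_le_pow_left₀ h0 hk 4
    have h2 := sel_expect3 Q
    have h3 : ((1 / 2 : ℝ) ^ k) ^ 4 = (1 / 2 : ℝ) ^ (4 * k) := by
      rw [← pow_mul, mul_comm]
    rw [← h3]
    refine h1.trans (hq.trans (le_of_eq ?_))
    rw [← h2]
  have hq3 : (1 / 2 : ℝ) ^ (4 * k) * n ^ 3 ≤ ((univ.filter Q).card : ℝ) := by
    rwa [le_div_iff₀ (by positivity)] at hq2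
  set E := (Γ ×ˢ Γ ×ˢ Γ).filter (fun p => p.1 + p.2.1 + p.2.2 ∈ Γ) with hE
  have hQE : (univ.filter Q).card ≤ E.card := by
    apply Finset.card_le_card_of_injOn (fun p => (φ p.1, φ p.2.1, φ p.2.2))
    · intro p hp
      have hp' : Q p := by simpa using hp
      obtain ⟨h1, h2, h3, h4, h5⟩ := hp'
      have hsum : φ p.1 + φ p.2.1 + φ p.2.2 = φ (p.1 + p.2.1 + p.2.2) := by
        have h6 : ξ p.1 + ξ p.2.1 + ξ p.2.2 = ξ (p.1 + p.2.1 + p.2.2) := by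
          have h7 : ξ (p.1 + p.2.1 + p.2.2) + ξ (p.1 + p.2.1 + p.2.2) = 0 := by
            rw [← two_smul (ZMod 2)]
            have : (2 : ZMod 2) = 0 := by decide
            rw [this, zero_smul]
          have h8 := h5.trans h7.symm
          exact add_right_cancel h8
        exact Prod.ext rfl h6
      simp only [hE, Finset.coe_filter, Set.mem_ofPred_eq, Finset.mem_product]
      refine ⟨⟨(hmem _).2 h1, (hmem _).2 h2, (hmem _).2 h3⟩, ?_⟩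
      rw [hsum]
      exact (hmem _).2 h4
    · intro p _ q _ hpq
      have h1 := congrArg (fun r => r.1.1) hpq
      have h2 := congrArg (fun r => r.2.1.1) hpq
      have h3 := congrArg (fun r => r.2.2.1) hpq
      exact Prod.ext h1 (Prod.ext h2 h3)
  have hE3 : E.card ≤ Γ.card ^ 3 := by
    calc E.card ≤ (Γ ×ˢ Γ ×ˢ Γ).card := Finset.card_filter_le _ _
      _ = Γ.card ^ 3 := by rw [Finset.card_product, Finset.card_product]; ring
  have hEr : (1 / 2 : ℝ) ^ (4 * k) * n ^ 3 ≤ (E.card : ℝ) :=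
    hq3.trans (by exact_mod_cast hQE)
  have hE3r : (E.card : ℝ) ≤ (Γ.card : ℝ) ^ 3 := by exact_mod_cast hE3
  have hΓn : (Γ.card : ℝ) ≤ n := by rw [hcard]; exact hSn
  have hκ : (0 : ℝ) < (1 / 2 : ℝ) ^ (4 * k) := by positivity
  have hΓpos : 0 < (Γ.card : ℝ) := by
    rcases Nat.eq_zero_or_pos Γ.card with h | h
    · exfalso
      have h0 : (Γ.card : ℝ) = 0 := by rw [h, Nat.cast_zero]
      have h1 : (0 : ℝ) < (1 / 2 : ℝ) ^ (4 * k) * n ^ 3 := by positivity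
      have h2 := hEr.trans hE3r
      rw [h0] at h2
      norm_num at h2
      linarith
    · exact_mod_cast h
  have hΓne : Γ.Nonempty := Finset.card_pos.1 (by exact_mod_cast hΓpos)
  have hΓlow : (1 / 2 : ℝ) ^ (2 * k) * n ≤ (Γ.card : ℝ) := by
    have h1 : (1 / 2 : ℝ) ^ (4 * k) * n ^ 3 ≤ (Γ.card : ℝ) ^ 2 * n := by
      calc (1 / 2 : ℝ) ^ (4 * k) * n ^ 3 ≤ (Γ.card : ℝ) ^ 3 := hEr.trans hE3r
        _ = (Γ.card : ℝ) ^ 2 * (Γ.card : ℝ) := by ring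
        _ ≤ (Γ.card : ℝ) ^ 2 * n := by gcongr
    have h2 : ((1 / 2 : ℝ) ^ (2 * k) * n) ^ 2 ≤ (Γ.card : ℝ) ^ 2 := by
      have h3 : ((1 / 2 : ℝ) ^ (2 * k) * n) ^ 2 * n = (1 / 2 : ℝ) ^ (4 * k) * n ^ 3 := by
        rw [show 4 * k = 2 * k + 2 * k by ring, pow_add]; ring
      have h4 : ((1 / 2 : ℝ) ^ (2 * k) * n) ^ 2 * n ≤ (Γ.card : ℝ) ^ 2 * n := by
        rw [h3]; exact h1
      exact le_of_mul_le_mul_right h4 hn
    exact (sq_le_sq₀ (by positivity) hΓpos.le).1 h2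
  -- Balog-Szemeredi-Gowers
  have hbsgE : (1 / 2 : ℝ) ^ (4 * k) * (Γ.card : ℝ) ^ 3
      ≤ (((Γ ×ˢ Γ ×ˢ Γ).filter (fun p => p.1 + p.2.1 + p.2.2 ∈ Γ)).card : ℝ) := by
    refine le_trans ?_ hEr
    gcongr
  obtain ⟨Γ', hsub, hne', hlow', hdoub⟩ := bsg Γ hΓne hκ hbsgE
  have hgr : ∀ p ∈ Γ', ∀ q ∈ Γ', p.1 = q.1 → p = q := by
    intro p hp q hq hpq
    obtain ⟨x, hx, rfl⟩ := Finset.mem_image.1 (hsub hp)
    obtain ⟨y, hy, rfl⟩ := Finset.mem_image.1 (hsub hq)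
    have : x = y := hpq
    rw [this]
  have hKeq : (2 : ℝ) ^ 16 / ((1 / 2 : ℝ) ^ (4 * k)) ^ 4 = 2 ^ (16 * (k + 1)) := by
    rw [← pow_mul, one_div, inv_pow, div_inv_eq_mul, ← pow_add]
    congr 1
    ring
  rw [hKeq] at hdoub
  have hL : 6 ≤ 256 * (k + 1) := by omega
  have hKL : ((2 : ℝ) ^ (16 * (k + 1))) ^ 16 ≤ 2 ^ (256 * (k + 1)) := by
    rw [← pow_mul]
    apply le_of_eq
    congr 1
    ring
  obtain ⟨T, c, hTc⟩ := graph_linear Γ' hne' hgr hdoub hL hKL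
  refine ⟨T, c, ?_⟩
  rw [sel_expect_iv (fun x => x ∈ X ∧ ξ x = T x + c)]
  -- compare the counts
  have hcnt : (Γ'.filter (fun p => p.2 = T p.1 + c)).card
      ≤ (univ.filter (fun x => x ∈ X ∧ ξ x = T x + c)).card := by
    apply Finset.card_le_card_of_injOn (fun p => p.1)
    · intro p hp
      have hp1 := Finset.mem_filter.1 (Finset.mem_coe.1 hp)
      obtain ⟨x, hx, rfl⟩ := Finset.mem_image.1 (hsub hp1.1)
      have hxX : x ∈ X := by simpa [hS] using hx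
      have := hp1.2
      simp only [Finset.coe_filter, Set.mem_ofPred_eq, Finset.mem_univ, true_and]
      exact ⟨hxX, this⟩
    · intro p hp q hq hpq
      have hp1 := Finset.mem_filter.1 (Finset.mem_coe.1 hp)
      have hq1 := Finset.mem_filter.1 (Finset.mem_coe.1 hq)
      exact hgr p hp1.1 q hq1.1 hpq
  have hcntr : ((Γ'.filter (fun p => p.2 = T p.1 + c)).card : ℝ)
      ≤ ((univ.filter (fun x => x ∈ X ∧ ξ x = T x + c)).card : ℝ) := by exact_mod_cast hcnt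
  rw [le_div_iff₀ hn]
  set M : ℝ := ((univ.filter (fun x => x ∈ X ∧ ξ x = T x + c)).card : ℝ) with hM
  have hD : (0 : ℝ) < 2 ^ (160 * (k + 1)) * 2 ^ (12582920 * (256 * (k + 1)) ^ 4) := by
    positivity
  generalize hL4 : 12582920 * (256 * (k + 1)) ^ 4 = L4 at hTc hD
  have hsel : selK k = 6 * k + 3 + 160 * (k + 1) + L4 := by
    rw [selK, hL4]
  have h1 : (Γ'.card : ℝ) ≤ 2 ^ (160 * (k + 1)) * 2 ^ L4 * M := by
    have h2 : ((2 : ℝ) ^ (16 * (k + 1))) ^ 10 = 2 ^ (160 * (k + 1)) := by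
      rw [← pow_mul]
      congr 1
      ring
    rw [h2] at hTc
    refine hTc.trans ?_
    exact mul_le_mul_of_nonneg_left hcntr hD.le
  have h2 : (1 / 2 : ℝ) ^ (6 * k + 3) * n ≤ (Γ'.card : ℝ) := by
    refine le_trans ?_ hlow'
    have h3 : (1 / 2 : ℝ) ^ (6 * k + 3) * n
        = (1 / 2 : ℝ) ^ (4 * k) / 8 * ((1 / 2 : ℝ) ^ (2 * k) * n) := by
      rw [show 6 * k + 3 = 4 * k + 2 * k + 3 by ring, pow_add, pow_add]
      ring
    rw [h3]
    gcongr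
  have h3 : (1 / 2 : ℝ) ^ (6 * k + 3) * n ≤ 2 ^ (160 * (k + 1)) * 2 ^ L4 * M := h2.trans h1
  have h4 : (1 / 2 : ℝ) ^ selK k * n
      = ((1 / 2 : ℝ) ^ (6 * k + 3) * n) * ((1 / 2 : ℝ) ^ (160 * (k + 1)) * (1 / 2 : ℝ) ^ L4) := by
    rw [hsel, pow_add _ (6 * k + 3 + 160 * (k + 1)), pow_add _ (6 * k + 3)]
    ring
  have h5 : (2 : ℝ) ^ (160 * (k + 1)) * 2 ^ L4
      * ((1 / 2 : ℝ) ^ (160 * (k + 1)) * (1 / 2 : ℝ) ^ L4) = 1 := by
    have e1 : (2 : ℝ) ^ (160 * (k + 1)) * (1 / 2 : ℝ) ^ (160 * (k + 1)) = 1 := by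
      rw [← mul_pow]; norm_num
    have e2 : (2 : ℝ) ^ L4 * (1 / 2 : ℝ) ^ L4 = 1 := by
      rw [← mul_pow]; norm_num
    calc (2 : ℝ) ^ (160 * (k + 1)) * 2 ^ L4
          * ((1 / 2 : ℝ) ^ (160 * (k + 1)) * (1 / 2 : ℝ) ^ L4)
        = ((2 : ℝ) ^ (160 * (k + 1)) * (1 / 2 : ℝ) ^ (160 * (k + 1)))
          * ((2 : ℝ) ^ L4 * (1 / 2 : ℝ) ^ L4) := by ring
      _ = 1 := by rw [e1, e2, one_mul]
  rw [h4]
  calc ((1 / 2 : ℝ) ^ (6 * k + 3) * n) * ((1 / 2 : ℝ) ^ (160 * (k + 1)) * (1 / 2 : ℝ) ^ L4)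
      ≤ (2 ^ (160 * (k + 1)) * 2 ^ L4 * M)
        * ((1 / 2 : ℝ) ^ (160 * (k + 1)) * (1 / 2 : ℝ) ^ L4) := by
        apply mul_le_mul_of_nonneg_right h3
        positivity
    _ = M * (2 ^ (160 * (k + 1)) * 2 ^ L4
        * ((1 / 2 : ℝ) ^ (160 * (k + 1)) * (1 / 2 : ℝ) ^ L4)) := by ring
    _ = M := by rw [h5, mul_one]

end Pool.Agent.H22.QK
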