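import Pool.Agent.H22.QK.QCount

/-!
# StA: bad pairs (about 70 lines)

PROOF of `bad_fibre`. If `x` is nondegenerate (`∀ l ≠ 0, bl b l x ≠ 0`) then `b x : V → Y` is
surjective (a proper image would be annihilated by some `l ≠ 0`) and
`𝔼_z iv (b x z = 0) = 1/|Y|`. Degenerate `x` have measure at most `|Y| (1/2)^(2s)
≤ (1/2)^(n+2)/|Y|` (`nondeg_count` with `h = 0`, `b` symmetric). Let `X0` be the set in the
conclusion. `(1/2)^n/|Y| < 𝔼_x 𝔼_z iv (BadPair) ≤ (1/2)^(n+2)/|Y| + 𝔼 iv (x ∈ X0)/|Y|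
+ (1/2)^(n+1)/|Y|`.
-/

set_option autoImplicit false

open Finset Function Module
open scoped BigOperators
open Pool.Agent.H77.KM

namespace Pool.Agent.H22.QK

section

variable {V : Type} [AddCommGroup V] [Module (ZMod 2) V] [Fintype V]
variable {Y : Type} [AddCommGroup Y] [Module (ZMod 2) Y] [Fintype Y]
variable {g : V → Y} {b : V →ₗ[ZMod 2] V →ₗ[ZMod 2] Y}

/-- `x, z` are orthogonal and no translate of `{0, x, z, x+z}` is contained in `B`. -/
def BadPair (B : V → ℝ) (b : V →ₗ[ZMod 2] V →ₗ[ZMod 2] Y) (x z : V) : Prop :=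
  b x z = 0 ∧ ∀ y, B y * B (y + x) * B (y + z) * B (y + x + z) = 0

private theorem st_card (Y : Type) [AddCommGroup Y] [Module (ZMod 2) Y] [Fintype Y] :
    (Fintype.card Y : ℝ) = 2 ^ finrank (ZMod 2) Y := by
  rw [Module.card_eq_pow_finrank (K := ZMod 2) (V := Y), ZMod.card]
  push_cast
  rfl

private theorem st_fib {x : V} (hx : ∀ l : Dual (ZMod 2) Y, l ≠ 0 → bl b l x ≠ 0) :
    𝔼 z, iv (b x z = 0) = 1 / (Fintype.card Y : ℝ) := by
  have h := count_point (fun z => b x z) (0 : Y) (δ := 0) le_rfl (by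
    intro l hl
    have h1 : (fun z => sgn (l (b x z))) = fun z => chi (bl b l x) z := rfl
    rw [h1, expect_chi_eq_zero (hx l hl), abs_zero])
  have h2 := abs_nonpos_iff.mp h
  linarith

theorem bad_fibre (hg : IsQM g b) {s n : ℕ} (hs : Reg b s)
    (hns : n + 2 + 2 * finrank (ZMod 2) Y ≤ 2 * s) (B : V → ℝ)
    (hbad : (1 / 2 : ℝ) ^ n / Fintype.card Y < 𝔼 x, 𝔼 z, iv (BadPair B b x z)) :
    (1 / 2 : ℝ) ^ (n + 2) ≤ 𝔼 x, iv ((∀ l : Dual (ZMod 2) Y, l ≠ 0 → bl b l x ≠ 0) ∧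
      (1 / 2 : ℝ) ^ (n + 1) ≤ Fintype.card Y * 𝔼 z, iv (BadPair B b x z)) := by
  classical
  have hcard := st_card Y
  set R := finrank (ZMod 2) Y with hR
  have hY : (0 : ℝ) < Fintype.card Y := by rw [hcard]; positivity
  set ND : V → Prop := fun x => ∀ l : Dual (ZMod 2) Y, l ≠ 0 → bl b l x ≠ 0 with hND
  set X0 : V → Prop := fun x => ND x ∧
    (1 / 2 : ℝ) ^ (n + 1) ≤ Fintype.card Y * 𝔼 z, iv (BadPair B b x z) with hX0
  -- pointwise bound
  have hpt : ∀ x, 𝔼 z, iv (BadPair B b x z) ≤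
      iv (¬ ND x) + (iv (X0 x) / Fintype.card Y + (1 / 2 : ℝ) ^ (n + 1) / Fintype.card Y) := by
    intro x
    have hq : (0 : ℝ) ≤ (1 / 2 : ℝ) ^ (n + 1) / Fintype.card Y := by positivity
    by_cases h1 : ND x
    · rw [iv_neg (not_not.mpr h1), zero_add]
      by_cases h2 : X0 x
      · rw [iv_pos h2]
        have h3 : 𝔼 z, iv (BadPair B b x z) ≤ 𝔼 z, iv (b x z = 0) :=
          Finset.expect_le_expect fun z _ => iv_mono fun h => h.1
        rw [st_fib h1] at h3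
        linarith
      · rw [iv_neg h2, zero_div, zero_add]
        have h3 : ¬ (1 / 2 : ℝ) ^ (n + 1) ≤ Fintype.card Y * 𝔼 z, iv (BadPair B b x z) :=
          fun h => h2 ⟨h1, h⟩
        rw [le_div_iff₀ hY, mul_comm]
        exact (not_le.mp h3).le
    · rw [iv_pos h1]
      have h3 : 𝔼 z, iv (BadPair B b x z) ≤ 1 := by
        calc 𝔼 z, iv (BadPair B b x z) ≤ 𝔼 _z : V, (1 : ℝ) :=
              Finset.expect_le_expect fun z _ => iv_le_one _
          _ = 1 := Finset.expect_const Finset.univ_nonempty _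
      have h4 : (0 : ℝ) ≤ iv (X0 x) / Fintype.card Y := div_nonneg (iv_nonneg _) hY.le
      linarith
  have h1 : 𝔼 x, 𝔼 z, iv (BadPair B b x z) ≤
      𝔼 x, iv (¬ ND x) + (𝔼 x, iv (X0 x) / Fintype.card Y +
        (1 / 2 : ℝ) ^ (n + 1) / Fintype.card Y) := by
    calc 𝔼 x, 𝔼 z, iv (BadPair B b x z) ≤ 𝔼 x, (iv (¬ ND x) +
        (iv (X0 x) / Fintype.card Y + (1 / 2 : ℝ) ^ (n + 1) / Fintype.card Y)) :=
          Finset.expect_le_expect fun x _ => hpt x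
      _ = _ := by
        rw [Finset.expect_add_distrib, Finset.expect_add_distrib,
          Finset.expect_const Finset.univ_nonempty]
  have h2 : 𝔼 x, iv (¬ ND x) ≤ (Fintype.card Y : ℝ) * (1 / 2) ^ (2 * s) := by
    refine le_trans (Finset.expect_le_expect fun x _ => iv_mono fun h => ?_)
      (nondeg_count hs (0 : V →ₗ[ZMod 2] Y))
    rw [hND] at h
    push Not at h
    obtain ⟨l, hl, hlx⟩ := h
    refine ⟨l, hl, fun y => ?_⟩
    rw [LinearMap.zero_apply, add_zero]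
    have := LinearMap.congr_fun hlx y
    exact this
  have h3 : (Fintype.card Y : ℝ) * (1 / 2) ^ (2 * s) ≤ (1 / 2) ^ (n + 2) / Fintype.card Y := by
    rw [le_div_iff₀ hY, hcard]
    have h4 : (1 / 2 : ℝ) ^ (2 * s) ≤ (1 / 2) ^ (n + 2 + 2 * R) :=
      pow_le_pow_of_le_one (by norm_num) (by norm_num) hns
    have h5 : (2 : ℝ) ^ R * (1 / 2) ^ (n + 2 + 2 * R) * 2 ^ R = (1 / 2) ^ (n + 2) := by
      rw [pow_add (1 / 2 : ℝ) (n + 2) (2 * R), two_mul, pow_add (1 / 2 : ℝ) R R]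
      have h6 : (2 : ℝ) ^ R * (1 / 2) ^ R = 1 := by rw [← mul_pow]; norm_num
      calc (2 : ℝ) ^ R * ((1 / 2) ^ (n + 2) * ((1 / 2) ^ R * (1 / 2) ^ R)) * 2 ^ R
          = (1 / 2) ^ (n + 2) * (2 ^ R * (1 / 2) ^ R) * (2 ^ R * (1 / 2) ^ R) := by ring
        _ = (1 / 2) ^ (n + 2) := by rw [h6]; ring
    calc (2 : ℝ) ^ R * (1 / 2) ^ (2 * s) * 2 ^ R
        ≤ (2 : ℝ) ^ R * (1 / 2) ^ (n + 2 + 2 * R) * 2 ^ R := by gcongr
      _ = (1 / 2) ^ (n + 2) := h5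
  have h4 : (1 / 2 : ℝ) ^ n / Fintype.card Y < (1 / 2) ^ (n + 2) / Fintype.card Y +
      (𝔼 x, iv (X0 x) / Fintype.card Y + (1 / 2 : ℝ) ^ (n + 1) / Fintype.card Y) := by
    linarith
  have h5 : 𝔼 x, iv (X0 x) / Fintype.card Y = (𝔼 x, iv (X0 x)) / Fintype.card Y :=
    (Finset.expect_div _ _ _).symm
  rw [h5, ← add_div, ← add_div, div_lt_div_iff_of_pos_right hY] at h4
  have h6 : (1 / 2 : ℝ) ^ n = (1 / 2) ^ (n + 2) * 4 := by rw [pow_add]; norm_num; ring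
  have h7 : (1 / 2 : ℝ) ^ (n + 1) = (1 / 2) ^ (n + 2) * 2 := by
    rw [show n + 2 = n + 1 + 1 by rfl, pow_succ _ (n + 1)]; ring
  have h8 : (1 / 2 : ℝ) ^ (n + 2) ≤ 𝔼 x, iv (X0 x) := by linarith
  exact h8

end

end Pool.Agent.H22.QK
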