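import Pool.Agent.H22.QK.AltOne
import Pool.Agent.H22.QK.AltSub
import Pool.Agent.H22.QK.Bogo
import Pool.Agent.H22.QK.Bsg
import Pool.Agent.H22.QK.CosetA
import Pool.Agent.H22.QK.CosetB
import Pool.Agent.H22.QK.CovStep
import Pool.Agent.H22.QK.Cover
import Pool.Agent.H22.QK.CzLow
import Pool.Agent.H22.QK.Defs
import Pool.Agent.H22.QK.Extract
import Pool.Agent.H22.QK.Fin1
import Pool.Agent.H22.QK.FrAct
import Pool.Agent.H22.QK.FrCav
import Pool.Agent.H22.QK.FrDefs
import Pool.Agent.H22.QK.FrDist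
import Pool.Agent.H22.QK.FrExt
import Pool.Agent.H22.QK.FrExt1
import Pool.Agent.H22.QK.FrFour
import Pool.Agent.H22.QK.FrJen
import Pool.Agent.H22.QK.FrMany
import Pool.Agent.H22.QK.FrSpec
import Pool.Agent.H22.QK.FrVal
import Pool.Agent.H22.QK.FrVar
import Pool.Agent.H22.QK.GoodFrame
import Pool.Agent.H22.QK.GoodM
import Pool.Agent.H22.QK.Graph
import Pool.Agent.H22.QK.KAp
import Pool.Agent.H22.QK.KCore
import Pool.Agent.H22.QK.KCs
import Pool.Agent.H22.QK.KLow
import Pool.Agent.H22.QK.KSift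
import Pool.Agent.H22.QK.KUnb
import Pool.Agent.H22.QK.LemR
import Pool.Agent.H22.QK.Levels
import Pool.Agent.H22.QK.MainSets
import Pool.Agent.H22.QK.MaxPiece
import Pool.Agent.H22.QK.Model
import Pool.Agent.H22.QK.Nums
import Pool.Agent.H22.QK.PBase
import Pool.Agent.H22.QK.PLift
import Pool.Agent.H22.QK.PerFrame
import Pool.Agent.H22.QK.PigeonS
import Pool.Agent.H22.QK.Poly
import Pool.Agent.H22.QK.PropL
import Pool.Agent.H22.QK.QBase
import Pool.Agent.H22.QK.QBias
import Pool.Agent.H22.QK.QCount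
import Pool.Agent.H22.QK.QExist
import Pool.Agent.H22.QK.QLow
import Pool.Agent.H22.QK.QRes
import Pool.Agent.H22.QK.Quad
import Pool.Agent.H22.QK.Selector
import Pool.Agent.H22.QK.StA
import Pool.Agent.H22.QK.StA2
import Pool.Agent.H22.QK.StB
import Pool.Agent.H22.QK.Stage
import Pool.Agent.H22.QK.StkMono
import Pool.Agent.H22.QK.Sym
import Pool.Agent.H22.QK.TauS
import Pool.Agent.H22.QK.Two
import Pool.Agent.H22.QK.Zcount
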